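import Pool.Agent.Helper46.M8.Man

/-!
# M8, piece R2 : compactness and connectedness
-/

open Filter Metric Module Set
open scoped Topology ContDiff Matrix Matrix.Norms.Elementwise ComplexConjugate Manifold

set_option maxSynthPendingDepth 3

namespace Pool.Agent.Helper46.M8
open Pool.Agent.Helper20.PC Pool.Agent.Helper20.HP Pool.Agent.Helper20.M8 Pool.Agent.Helper20.MB

lemma R2_trace (Q : Mat) : ((Qᴴ * Q).trace).re = ∑ j, ∑ i, ‖Q i j‖ ^ 2 := by
  rw [Matrix.trace, Complex.re_sum]
  refine Finset.sum_congr rfl fun j _ => ?_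
  rw [Matrix.diag_apply, Matrix.mul_apply, Complex.re_sum]
  refine Finset.sum_congr rfl fun i _ => ?_
  rw [Matrix.conjTranspose_apply, Complex.star_def, ← Complex.normSq_eq_conj_mul_self,
    Complex.ofReal_re, Complex.normSq_eq_norm_sq]

theorem M8_isCompact : IsCompact M8 := by
  refine Metric.isCompact_of_isClosed_isBounded ?_ ?_
  · refine (isClosed_eq (f := fun Q : Mat => Q * Qᴴ * Q) (by fun_prop) continuous_id).inter
      ((isClosed_eq (f := fun Q : Mat => (Qᴴ * Q).trace) ?_ continuous_const).inter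
      (isClosed_eq (f := fun Q : Mat => Q.trace.im) ?_ continuous_const))
    · exact Continuous.matrix_trace (by fun_prop)
    · exact Complex.continuous_im.comp (Continuous.matrix_trace continuous_id)
  · refine (Metric.isBounded_closedBall (x := (0 : Mat)) (r := 1)).subset fun Q hQ => ?_
    rw [mem_closedBall, dist_zero_right]
    refine (Matrix.norm_le_iff zero_le_one).mpr fun i j => ?_
    have h2 : ∑ j, ∑ i, ‖Q i j‖ ^ 2 = 1 := by
      rw [← R2_trace, hQ.2.1, Complex.one_re]
    have h3 : ∑ i, ‖Q i j‖ ^ 2 ≤ 1 := by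
      rw [← h2]
      exact Finset.single_le_sum (f := fun j => ∑ i, ‖Q i j‖ ^ 2)
        (fun k _ => Finset.sum_nonneg fun i _ => by positivity) (Finset.mem_univ j)
    have h4 : ‖Q i j‖ ^ 2 ≤ 1 :=
      (Finset.single_le_sum (f := fun i => ‖Q i j‖ ^ 2) (fun k _ => by positivity)
        (Finset.mem_univ i)).trans h3
    have h5 : 0 ≤ ‖Q i j‖ := norm_nonneg _
    nlinarith

end Pool.Agent.Helper46.M8
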