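import Pool.Agent.Helper46.M8.Defs2

/-!
# M8, piece A1
-/

open Filter Metric Module Set
open scoped Topology ContDiff Matrix Matrix.Norms.Elementwise ComplexConjugate

set_option maxSynthPendingDepth 3

namespace Pool.Agent.Helper46.M8
open Pool.Agent.Helper20.PC Pool.Agent.Helper20.HP Pool.Agent.Helper20.M8 Pool.Agent.Helper20.MB

/-! ### A1 -/
theorem Cm_pos {δ : ℝ} (hδ : |δ| ≤ 1/100) (x : Fin 8 → ℝ) :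
    (1/2) * ∑ i, C0 i i * x i ^ 2 ≤ ∑ i, ∑ j, Cm δ i j * x i * x j := by
  obtain ⟨h1, h2⟩ := abs_le.mp hδ
  have e : ∑ i, ∑ j, Cm δ i j * x i * x j = ∑ i, C0 i i * x i ^ 2 +
      δ * (2 * (-3 * x 0 * x 1 + 2 * x 0 * x 3 - 3 * x 0 * x 5 - 3 * x 1 * x 4 - 3 * x 1 * x 6
        + x 1 * x 7 - x 2 * x 5 - 2 * x 3 * x 6)) := by
    simp [Fin.sum_univ_succ, Cm, C0, Ii, Fin.succ]
    ring
  have e0 : ∑ i, C0 i i * x i ^ 2 = x 0 ^ 2 + x 1 ^ 2 + x 2 ^ 2 + x 3 ^ 2 + x 4 ^ 2 + x 5 ^ 2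
      + x 6 ^ 2 + (1/3) * x 7 ^ 2 := by
    simp [Fin.sum_univ_succ, C0, Fin.succ]
    ring
  set Q : ℝ := 2 * (-3 * x 0 * x 1 + 2 * x 0 * x 3 - 3 * x 0 * x 5 - 3 * x 1 * x 4 - 3 * x 1 * x 6
        + x 1 * x 7 - x 2 * x 5 - 2 * x 3 * x 6) with hQ
  set S : ℝ := 8 * x 0 ^ 2 + 10 * x 1 ^ 2 + x 2 ^ 2 + 4 * x 3 ^ 2 + 3 * x 4 ^ 2 + 4 * x 5 ^ 2
      + 5 * x 6 ^ 2 + x 7 ^ 2 with hS
  have hQ1 : Q ≤ S := by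
    rw [hQ, hS]
    nlinarith [sq_nonneg (x 0 + x 1), sq_nonneg (x 0 - x 3), sq_nonneg (x 0 + x 5),
      sq_nonneg (x 1 + x 4), sq_nonneg (x 1 + x 6), sq_nonneg (x 1 - x 7), sq_nonneg (x 2 + x 5),
      sq_nonneg (x 3 + x 6)]
  have hQ2 : -S ≤ Q := by
    rw [hQ, hS]
    nlinarith [sq_nonneg (x 0 - x 1), sq_nonneg (x 0 + x 3), sq_nonneg (x 0 - x 5),
      sq_nonneg (x 1 - x 4), sq_nonneg (x 1 - x 6), sq_nonneg (x 1 + x 7), sq_nonneg (x 2 - x 5),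
      sq_nonneg (x 3 - x 6)]
  have hS0 : 0 ≤ S := by rw [hS]; positivity
  have h3 : |δ * Q| ≤ (1/100) * S := by
    rw [abs_mul]
    exact mul_le_mul hδ (abs_le.mpr ⟨hQ2, hQ1⟩) (abs_nonneg _) (by norm_num)
  have h4 := (abs_le.mp h3).1
  rw [e, e0]
  rw [hS] at h4
  nlinarith [sq_nonneg (x 0), sq_nonneg (x 1), sq_nonneg (x 2), sq_nonneg (x 3), sq_nonneg (x 4),
    sq_nonneg (x 5), sq_nonneg (x 6), sq_nonneg (x 7)]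

theorem Cm_symm (δ : ℝ) (i j : Fin 8) : Cm δ i j = Cm δ j i := by
  unfold Cm C0
  congr 1
  · by_cases h : i = j
    · rw [h]
    · rw [if_neg h, if_neg (Ne.symm h)]
  · congr 1
    fin_cases i <;> fin_cases j <;> simp [Ii]

/-- structure constants of the basis `Bs`. -/
def A1_cs : Fin 8 → Fin 8 → Fin 8 → ℤ := ![
  ![![0, 0, 0, 0, 0, 0, 0, 0],
    ![0, 0, 0, 0, 0, 0, -2, 0],
    ![0, 0, 0, 0, 0, -1, 0, 0],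
    ![0, 0, 0, 0, 1, 0, 0, 0],
    ![0, 0, 0, -1, 0, 0, 0, 0],
    ![0, 0, 1, 0, 0, 0, 0, 0],
    ![0, 2, 0, 0, 0, 0, 0, 0],
    ![0, 0, 0, 0, 0, 0, 0, 0]],
  ![![0, 0, 0, 0, 0, 0, 2, 0],
    ![0, 0, 0, 0, 0, 0, 0, 0],
    ![0, 0, 0, 0, -1, 0, 0, 0],
    ![0, 0, 0, 0, 0, -1, 0, 0],
    ![0, 0, 1, 0, 0, 0, 0, 0],
    ![0, 0, 0, 1, 0, 0, 0, 0],
    ![-2, 0, 0, 0, 0, 0, 0, 0],
    ![0, 0, 0, 0, 0, 0, 0, 0]],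
  ![![0, 0, 0, 0, 0, 1, 0, 0],
    ![0, 0, 0, 0, 1, 0, 0, 0],
    ![0, 0, 0, 0, 0, 0, 0, 0],
    ![0, 0, 0, 0, 0, 0, -1, -1],
    ![0, -1, 0, 0, 0, 0, 0, 0],
    ![-1, 0, 0, 0, 0, 0, 0, 0],
    ![0, 0, 0, 1, 0, 0, 0, 0],
    ![0, 0, 0, 3, 0, 0, 0, 0]],
  ![![0, 0, 0, 0, -1, 0, 0, 0],
    ![0, 0, 0, 0, 0, 1, 0, 0],
    ![0, 0, 0, 0, 0, 0, 1, 1],
    ![0, 0, 0, 0, 0, 0, 0, 0],
    ![1, 0, 0, 0, 0, 0, 0, 0],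
    ![0, -1, 0, 0, 0, 0, 0, 0],
    ![0, 0, -1, 0, 0, 0, 0, 0],
    ![0, 0, -3, 0, 0, 0, 0, 0]],
  ![![0, 0, 0, 1, 0, 0, 0, 0],
    ![0, 0, -1, 0, 0, 0, 0, 0],
    ![0, 1, 0, 0, 0, 0, 0, 0],
    ![-1, 0, 0, 0, 0, 0, 0, 0],
    ![0, 0, 0, 0, 0, 0, 0, 0],
    ![0, 0, 0, 0, 0, 0, 1, -1],
    ![0, 0, 0, 0, 0, -1, 0, 0],
    ![0, 0, 0, 0, 0, 3, 0, 0]],
  ![![0, 0, -1, 0, 0, 0, 0, 0],
    ![0, 0, 0, -1, 0, 0, 0, 0],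
    ![1, 0, 0, 0, 0, 0, 0, 0],
    ![0, 1, 0, 0, 0, 0, 0, 0],
    ![0, 0, 0, 0, 0, 0, -1, 1],
    ![0, 0, 0, 0, 0, 0, 0, 0],
    ![0, 0, 0, 0, 1, 0, 0, 0],
    ![0, 0, 0, 0, -3, 0, 0, 0]],
  ![![0, -2, 0, 0, 0, 0, 0, 0],
    ![2, 0, 0, 0, 0, 0, 0, 0],
    ![0, 0, 0, -1, 0, 0, 0, 0],
    ![0, 0, 1, 0, 0, 0, 0, 0],
    ![0, 0, 0, 0, 0, 1, 0, 0],
    ![0, 0, 0, 0, -1, 0, 0, 0],
    ![0, 0, 0, 0, 0, 0, 0, 0],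
    ![0, 0, 0, 0, 0, 0, 0, 0]],
  ![![0, 0, 0, 0, 0, 0, 0, 0],
    ![0, 0, 0, 0, 0, 0, 0, 0],
    ![0, 0, 0, -3, 0, 0, 0, 0],
    ![0, 0, 3, 0, 0, 0, 0, 0],
    ![0, 0, 0, 0, 0, -3, 0, 0],
    ![0, 0, 0, 0, 3, 0, 0, 0],
    ![0, 0, 0, 0, 0, 0, 0, 0],
    ![0, 0, 0, 0, 0, 0, 0, 0]]]

/-- real parts of the entries of the basis. -/
def A1_R : Fin 8 → Fin 3 → Fin 3 → ℤ := ![
  ![![0, 0, 0], ![0, 0, 0], ![0, 0, 0]],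
  ![![0, 1, 0], ![-1, 0, 0], ![0, 0, 0]],
  ![![0, 0, 0], ![0, 0, 0], ![0, 0, 0]],
  ![![0, 0, 1], ![0, 0, 0], ![-1, 0, 0]],
  ![![0, 0, 0], ![0, 0, 0], ![0, 0, 0]],
  ![![0, 0, 0], ![0, 0, 1], ![0, -1, 0]],
  ![![0, 0, 0], ![0, 0, 0], ![0, 0, 0]],
  ![![0, 0, 0], ![0, 0, 0], ![0, 0, 0]]]

/-- imaginary parts of the entries of the basis. -/
def A1_M : Fin 8 → Fin 3 → Fin 3 → ℤ := ![
  ![![0, 1, 0], ![1, 0, 0], ![0, 0, 0]],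
  ![![0, 0, 0], ![0, 0, 0], ![0, 0, 0]],
  ![![0, 0, 1], ![0, 0, 0], ![1, 0, 0]],
  ![![0, 0, 0], ![0, 0, 0], ![0, 0, 0]],
  ![![0, 0, 0], ![0, 0, 1], ![0, 1, 0]],
  ![![0, 0, 0], ![0, 0, 0], ![0, 0, 0]],
  ![![1, 0, 0], ![0, -1, 0], ![0, 0, 0]],
  ![![1, 0, 0], ![0, 1, 0], ![0, 0, -2]]]

theorem A1_Bs_eq (i : Fin 8) (a b : Fin 3) :
    Bs i a b = (A1_R i a b : ℂ) + (A1_M i a b : ℂ) * Complex.I := by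
  fin_cases i <;> fin_cases a <;> fin_cases b <;> simp [Bs, A1_R, A1_M]

theorem A1_key1 : ∀ (i j : Fin 8) (a b : Fin 3),
    (A1_R i a 0 * A1_R j 0 b + A1_R i a 1 * A1_R j 1 b + A1_R i a 2 * A1_R j 2 b
      - (A1_M i a 0 * A1_M j 0 b + A1_M i a 1 * A1_M j 1 b + A1_M i a 2 * A1_M j 2 b))
    - (A1_R j a 0 * A1_R i 0 b + A1_R j a 1 * A1_R i 1 b + A1_R j a 2 * A1_R i 2 b
      - (A1_M j a 0 * A1_M i 0 b + A1_M j a 1 * A1_M i 1 b + A1_M j a 2 * A1_M i 2 b))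
    = ∑ l, A1_cs i j l * A1_R l a b := by decide +kernel

theorem A1_key2 : ∀ (i j : Fin 8) (a b : Fin 3),
    (A1_R i a 0 * A1_M j 0 b + A1_R i a 1 * A1_M j 1 b + A1_R i a 2 * A1_M j 2 b
      + (A1_M i a 0 * A1_R j 0 b + A1_M i a 1 * A1_R j 1 b + A1_M i a 2 * A1_R j 2 b))
    - (A1_R j a 0 * A1_M i 0 b + A1_R j a 1 * A1_M i 1 b + A1_R j a 2 * A1_M i 2 b
      + (A1_M j a 0 * A1_R i 0 b + A1_M j a 1 * A1_R i 1 b + A1_M j a 2 * A1_R i 2 b))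
    = ∑ l, A1_cs i j l * A1_M l a b := by decide +kernel

/-- the brackets of the basis. -/
theorem A1_br (i j : Fin 8) :
    Bs i * Bs j - Bs j * Bs i = ∑ l, (A1_cs i j l : ℝ) • Bs l := by
  ext a b
  have h1 := congrArg (Int.cast : ℤ → ℂ) (A1_key1 i j a b)
  have h2 := congrArg (Int.cast : ℤ → ℂ) (A1_key2 i j a b)
  push_cast at h1 h2
  have h3 : (∑ l, (A1_cs i j l : ℝ) • Bs l) a b
      = ∑ l, (A1_cs i j l : ℂ) * (A1_R l a b : ℂ) + (∑ l, (A1_cs i j l : ℂ) * (A1_M l a b : ℂ)) * Complex.I := by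
    rw [Matrix.sum_apply, Finset.sum_mul, ← Finset.sum_add_distrib]
    refine Finset.sum_congr rfl fun l _ => ?_
    rw [Matrix.smul_apply, A1_Bs_eq, Complex.real_smul]
    push_cast
    ring
  rw [h3, ← h1, ← h2, Matrix.sub_apply, Matrix.mul_apply, Matrix.mul_apply]
  simp only [Fin.sum_univ_three, A1_Bs_eq]
  linear_combination ((A1_M i a 0 * A1_M j 0 b + A1_M i a 1 * A1_M j 1 b + A1_M i a 2 * A1_M j 2 b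
    - (A1_M j a 0 * A1_M i 0 b + A1_M j a 1 * A1_M i 1 b + A1_M j a 2 * A1_M i 2 b) : ℂ)) * Complex.I_mul_I

theorem A1_Cm_mul (δ : ℝ) (m : Fin 8 → ℝ) (j : Fin 8) : ∑ k, Cm δ j k * m k =
    (![m 0 + δ * (-3 * m 1 + 2 * m 3 - 3 * m 5), m 1 + δ * (-3 * m 0 - 3 * m 4 - 3 * m 6 + m 7),
      m 2 - δ * m 5, m 3 + δ * (2 * m 0 - 2 * m 6), m 4 - 3 * δ * m 1,
      m 5 + δ * (-3 * m 0 - m 2), m 6 + δ * (-3 * m 1 - 2 * m 3),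
      (1/3) * m 7 + δ * m 1] : Fin 8 → ℝ) j := by
  fin_cases j <;> simp [Fin.sum_univ_eight, Cm, C0, Ii] <;> ring

theorem A1_key (δ : ℝ) (m : Fin 8 → ℝ) (i : Fin 8) :
    ∑ j, (∑ k, Cm δ j k * m k) * ∑ l, (A1_cs i j l : ℝ) * m l = δ * Em m i := by
  simp only [A1_Cm_mul]
  fin_cases i <;> simp [Fin.sum_univ_eight, A1_cs, Em, Ex, xc] <;> ring

/-- the brackets of the basis: `E = ad^*`. -/
theorem bracket_alg (δ : ℝ) (L : Mat →ₗ[ℝ] ℝ) (i : Fin 8) :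
    ∑ j, ∑ k, Cm δ j k * L (Bs k) * L (Bs i * Bs j - Bs j * Bs i)
      = δ * Em (fun j => L (Bs j)) i := by
  have h : ∀ j, L (Bs i * Bs j - Bs j * Bs i) = ∑ l, (A1_cs i j l : ℝ) * L (Bs l) := by
    intro j
    rw [A1_br, map_sum]
    refine Finset.sum_congr rfl fun l _ => ?_
    rw [map_smul, smul_eq_mul]
  rw [← A1_key]
  refine Finset.sum_congr rfl fun j _ => ?_
  rw [Finset.sum_mul, ← h j]

end Pool.Agent.Helper46.M8
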