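import Pool.Agent.Helper46.M8.Frame
import Pool.Agent.Helper46.M8.Ns

/-!
# M8, piece A10
-/

open Filter Metric Module Set
open scoped Topology ContDiff Matrix Matrix.Norms.Elementwise ComplexConjugate

set_option maxSynthPendingDepth 3

namespace Pool.Agent.Helper46.M8
open Pool.Agent.Helper20.PC Pool.Agent.Helper20.HP Pool.Agent.Helper20.M8 Pool.Agent.Helper20.MB

/-! ### A10 : integral curves -/
section
variable {E : Type*} [NormedAddCommGroup E] [NormedSpace ℝ E]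

theorem exists_curve [CompleteSpace E] {X : E → E} {s : E} (hX : ContDiffAt ℝ ∞ X s) :
    ∃ γ : ℝ → E, γ 0 = s ∧ ∀ᶠ t in 𝓝 (0 : ℝ), HasDerivAt γ (X (γ t)) t := by
  have h1 : ContDiffAt ℝ 1 X s := hX.of_le (by exact_mod_cast le_top)
  obtain ⟨γ, h0, ε, hε, h⟩ :=
    h1.exists_forall_mem_closedBall_exists_eq_forall_mem_Ioo_hasDerivAt₀ 0
  refine ⟨γ, h0, ?_⟩
  filter_upwards [Ioo_mem_nhds (show (0 : ℝ) - ε < 0 by linarith) (show (0 : ℝ) < 0 + ε by linarith)]
    with t ht using h t ht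

theorem hasJet_curve {X : E → E} {f : E → ℝ} {s : E} (hX : ContDiffAt ℝ ∞ X s)
    (hf : ContDiffAt ℝ ∞ f s) {γ : ℝ → E} (h0 : γ 0 = s)
    (hγ : ∀ᶠ t in 𝓝 (0 : ℝ), HasDerivAt γ (X (γ t)) t) :
    HasJet (fun t => f (γ t)) (jetF X f s) := by
  have hc : Tendsto γ (𝓝 0) (𝓝 s) := by
    have := hγ.self_of_nhds.continuousAt.tendsto
    rwa [h0] at this
  have hd : ∀ᶠ x in 𝓝 s, DifferentiableAt ℝ f x := by
    have h1 : ContDiffAt ℝ 1 f s := hf.of_le (by exact_mod_cast le_top)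
    filter_upwards [h1.eventually (by simp)] with x hx
    exact hx.differentiableAt (by simp)
  have hl : ContDiffAt ℝ ∞ (lie X f) s := by
    have h1 : ContDiffAt ℝ ∞ (fderiv ℝ f) s := hf.fderiv_right (by simp)
    exact h1.clm_apply hX
  refine ⟨by simp [jetF, h0], fun t => lie X f (γ t), ?_, by simp [jetF, h0], ?_⟩
  · filter_upwards [hc.eventually hd, hγ] with t h1 h2
    exact h1.hasFDerivAt.comp_hasDerivAt t h2
  · have h1 : HasFDerivAt (lie X f) (fderiv ℝ (lie X f) s) (γ 0) := by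
      rw [h0]; exact (hl.differentiableAt (by simp)).hasFDerivAt
    have h2 := h1.comp_hasDerivAt (0 : ℝ) hγ.self_of_nhds
    rw [h0] at h2
    exact h2

end

theorem hasJet_congr {f g : ℝ → ℝ} {j : J2} (hf : HasJet f j) (h : f =ᶠ[𝓝 0] g) : HasJet g j := by
  obtain ⟨h0, f', h1, h2, h3⟩ := hf
  refine ⟨by rw [← h.self_of_nhds, h0], f', ?_, h2, h3⟩
  filter_upwards [h1, h.eventually_nhds] with t a b
  exact a.congr_of_eventuallyEq (EventuallyEq.symm b)

theorem hasJet_unique {f : ℝ → ℝ} {j k : J2} (hf : HasJet f j) (hg : HasJet f k) : j = k := by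
  obtain ⟨a1, b1⟩ := hf.deriv_eq
  obtain ⟨a2, b2⟩ := hg.deriv_eq
  ext
  · rw [← hf.1, hg.1]
  · rw [← a1, a2]
  · rw [← b1, b2]

end Pool.Agent.Helper46.M8
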