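import Pool.Agent.Helper46.M8.Defs2

/-!
# M8, piece A11
-/

open Filter Metric Module Set
open scoped Topology ContDiff Matrix Matrix.Norms.Elementwise ComplexConjugate

set_option maxSynthPendingDepth 3

namespace Pool.Agent.Helper46.M8
open Pool.Agent.Helper20.PC Pool.Agent.Helper20.HP Pool.Agent.Helper20.M8 Pool.Agent.Helper20.MB

/-! ### A11 : jets of the solutions of the evolution equations -/
private theorem HasJ1.of_hasJet {f : ℝ → ℝ} {j : J2} (h : HasJet f j) : HasJ1 f j := by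
  obtain ⟨h0, f', h1, h2, _⟩ := h
  exact ⟨h0, h2 ▸ h1.self_of_nhds⟩

private theorem HasJ1.add {f g : ℝ → ℝ} {j k : J2} (hf : HasJ1 f j) (hg : HasJ1 g k) :
    HasJ1 (fun t => f t + g t) (j + k) :=
  ⟨by simp [hf.1, hg.1], hf.2.add hg.2⟩

private theorem HasJ1.sub {f g : ℝ → ℝ} {j k : J2} (hf : HasJ1 f j) (hg : HasJ1 g k) :
    HasJ1 (fun t => f t - g t) (j - k) :=
  ⟨by simp [hf.1, hg.1], hf.2.sub hg.2⟩

private theorem HasJ1.mul {f g : ℝ → ℝ} {j k : J2} (hf : HasJ1 f j) (hg : HasJ1 g k) :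
    HasJ1 (fun t => f t * g t) (j * k) := by
  refine ⟨by simp [hf.1, hg.1], (hf.2.mul hg.2).congr_deriv ?_⟩
  rw [hf.1, hg.1, J2.mul_b]
  ring

private theorem HasJ1.smul (r : ℝ) {f : ℝ → ℝ} {j : J2} (hf : HasJ1 f j) :
    HasJ1 (fun t => r • f t) (r • j) := by
  refine ⟨by simp [hf.1], ?_⟩
  have h := hf.2.const_mul r
  simpa using h

private theorem HasJ1.zero : HasJ1 (fun _ => 0) 0 :=
  ⟨rfl, hasDerivAt_const 0 (0 : ℝ)⟩

private theorem HasJ1.sum4 {f : Fin 4 → ℝ → ℝ} {j : Fin 4 → J2} (h : ∀ i, HasJ1 (f i) (j i)) :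
    HasJ1 (fun t => ∑ i, f i t) (∑ i, j i) := by
  simp only [Fin.sum_univ_four]
  exact (((h 0).add (h 1)).add (h 2)).add (h 3)

private theorem hasJ1_dc (ε : ℝ) {th : ℝ → ℝ} {om : ℝ → Fin 4 → Fin 4 → ℝ} {w : ℝ → Fin 4 → ℝ}
    {jth : J2} {jom : Fin 4 → Fin 4 → J2} {jw' : Fin 4 → J2}
    (hth : HasJ1 th jth) (hom : ∀ a b, HasJ1 (fun t => om t a b) (jom a b))
    (hw : ∀ i, HasJ1 (fun t => w t i) (jw' i)) :
    HasJ1 (fun t => dc ε (th t) (om t) (w t)) (dc ε jth jom jw') :=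
  (hth.mul (HasJ1.sum4 fun i => (hw i).mul (hom 0 i))).smul _

private theorem hasJ1_dw (ε : ℝ) {th : ℝ → ℝ} {om : ℝ → Fin 4 → Fin 4 → ℝ} {c : ℝ → ℝ}
    {w : ℝ → Fin 4 → ℝ} {β : ℝ → Fin 4 → Fin 4 → ℝ}
    {jth : J2} {jom : Fin 4 → Fin 4 → J2} {jc' : J2} {jw' : Fin 4 → J2}
    {jβ' : Fin 4 → Fin 4 → J2}
    (hth : HasJ1 th jth) (hom : ∀ a b, HasJ1 (fun t => om t a b) (jom a b))
    (hc : HasJ1 c jc') (hw : ∀ i, HasJ1 (fun t => w t i) (jw' i))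
    (hβ : ∀ a b, HasJ1 (fun t => β t a b) (jβ' a b)) (i : Fin 4) :
    HasJ1 (fun t => dw ε (th t) (om t) (c t) (w t) (β t) i) (dw ε jth jom jc' jw' jβ' i) := by
  unfold dw
  by_cases hi : i = 0
  · simp only [if_pos hi]
    exact HasJ1.zero
  · simp only [if_neg hi]
    exact (((hβ 0 i).smul _).add
      ((hth.mul (HasJ1.sum4 fun j => (hw j).mul (hom i j))).smul _)).add
        ((hth.mul hc).mul (hom i 0))

private theorem hasJ1_dβ (ε : ℝ) {th : ℝ → ℝ} {om : ℝ → Fin 4 → Fin 4 → ℝ}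
    {w : ℝ → Fin 4 → ℝ} {β : ℝ → Fin 4 → Fin 4 → ℝ}
    {jth : J2} {jom : Fin 4 → Fin 4 → J2} {jw' : Fin 4 → J2}
    {jβ' : Fin 4 → Fin 4 → J2}
    (hth : HasJ1 th jth) (hom : ∀ a b, HasJ1 (fun t => om t a b) (jom a b))
    (hw : ∀ i, HasJ1 (fun t => w t i) (jw' i))
    (hβ : ∀ a b, HasJ1 (fun t => β t a b) (jβ' a b)) (a b : Fin 4) :
    HasJ1 (fun t => dβ ε (th t) (om t) (w t) (β t) a b) (dβ ε jth jom jw' jβ' a b) := by
  unfold dβ
  have h1 : HasJ1 (fun t => if b = 0 then w t a else 0) (if b = 0 then jw' a else 0) := by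
    by_cases hb : b = 0
    · simp only [if_pos hb]
      exact hw a
    · simp only [if_neg hb]
      exact HasJ1.zero
  have h2 : HasJ1 (fun t => if a = 0 then w t b else 0) (if a = 0 then jw' b else 0) := by
    by_cases ha : a = 0
    · simp only [if_pos ha]
      exact hw b
    · simp only [if_neg ha]
      exact HasJ1.zero
  exact ((h1.sub h2).smul _).add
    ((hth.mul (HasJ1.sum4 fun e => ((hom a e).mul (hβ e b)).add ((hom b e).mul (hβ a e)))).smul _)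

theorem hasJet_cwb (ε : ℝ) (th : ℝ → ℝ) (om : ℝ → Fin 4 → Fin 4 → ℝ) (c : ℝ → ℝ)
    (w : ℝ → Fin 4 → ℝ) (β : ℝ → Fin 4 → Fin 4 → ℝ) (jth : J2) (jom : Fin 4 → Fin 4 → J2)
    (hth : HasJet th jth) (hom : ∀ a b, HasJet (fun t => om t a b) (jom a b))
    (hc : ∀ᶠ t in 𝓝 (0 : ℝ), HasDerivAt c (dc ε (th t) (om t) (w t)) t)
    (hw : ∀ᶠ t in 𝓝 (0 : ℝ), ∀ i,
      HasDerivAt (fun t => w t i) (dw ε (th t) (om t) (c t) (w t) (β t) i) t)
    (hβ : ∀ᶠ t in 𝓝 (0 : ℝ), ∀ a b,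
      HasDerivAt (fun t => β t a b) (dβ ε (th t) (om t) (w t) (β t) a b) t) :
    HasJet c (jc ε jth jom (c 0) (w 0) (β 0)) ∧
    (∀ i, HasJet (fun t => w t i) (jw ε jth jom (c 0) (w 0) (β 0) i)) ∧
    ∀ a b, HasJet (fun t => β t a b) (jβ ε jth jom (c 0) (w 0) (β 0) a b) := by
  have hth0 : th 0 = jth.a := hth.1
  have hom0 : om 0 = fun a b => (jom a b).a := by
    funext a b
    exact (hom a b).1
  have hc1 : HasJ1 c ⟨c 0, dc ε jth.a (fun a b => (jom a b).a) (w 0), 0⟩ := by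
    refine ⟨rfl, ?_⟩
    have h := hc.self_of_nhds
    rw [hth0, hom0] at h
    exact h
  have hw1 : ∀ i, HasJ1 (fun t => w t i)
      ⟨w 0 i, dw ε jth.a (fun a b => (jom a b).a) (c 0) (w 0) (β 0) i, 0⟩ := by
    intro i
    refine ⟨rfl, ?_⟩
    have h := hw.self_of_nhds i
    rw [hth0, hom0] at h
    exact h
  have hβ1 : ∀ a b, HasJ1 (fun t => β t a b)
      ⟨β 0 a b, dβ ε jth.a (fun a b => (jom a b).a) (w 0) (β 0) a b, 0⟩ := by
    intro a b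
    refine ⟨rfl, ?_⟩
    have h := hβ.self_of_nhds a b
    rw [hth0, hom0] at h
    exact h
  have hth1 : HasJ1 th jth := HasJ1.of_hasJet hth
  have hom1 : ∀ a b, HasJ1 (fun t => om t a b) (jom a b) := fun a b => HasJ1.of_hasJet (hom a b)
  refine ⟨⟨rfl, fun t => dc ε (th t) (om t) (w t), hc, ?_, ?_⟩, fun i =>
    ⟨rfl, fun t => dw ε (th t) (om t) (c t) (w t) (β t) i, hw.mono fun t h => h i, ?_, ?_⟩,
    fun a b => ⟨rfl, fun t => dβ ε (th t) (om t) (w t) (β t) a b,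
      hβ.mono fun t h => h a b, ?_, ?_⟩⟩
  · simp only [hth0, hom0, jc]
  · exact (hasJ1_dc ε hth1 hom1 hw1).2
  · simp only [hth0, hom0, jw]
  · exact (hasJ1_dw ε hth1 hom1 hc1 hw1 hβ1 i).2
  · simp only [hth0, hom0, jβ]
  · exact (hasJ1_dβ ε hth1 hom1 hw1 hβ1 a b).2

end Pool.Agent.Helper46.M8
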