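import Pool.Agent.Helper46.M8.Frame
import Pool.Agent.Helper46.M8.Ns

/-!
# M8, piece A12
-/

open Filter Metric Module Set
open scoped Topology ContDiff Matrix Matrix.Norms.Elementwise ComplexConjugate

set_option maxSynthPendingDepth 3

namespace Pool.Agent.Helper46.M8
open Pool.Agent.Helper20.PC Pool.Agent.Helper20.HP Pool.Agent.Helper20.M8 Pool.Agent.Helper20.MB

/-! ### A12 : jets of `OG` and `SG` -/

private lemma A12_smul (r : ℝ) {f : ℝ → ℝ} {j : J2} (hf : HasJet f j) :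
    HasJet (fun t => r • f t) (r • j) := by
  simpa using hf.smul r

private lemma A12_sq {f : ℝ → ℝ} {j : J2} (hf : HasJet f j) :
    HasJet (fun t => f t ^ 2) (j ^ 2) := by
  simpa [sq] using hf.mul hf

private lemma A12_num (n : ℕ) [n.AtLeastTwo] :
    HasJet (fun _ => (OfNat.ofNat n : ℝ)) (OfNat.ofNat n : J2) := by
  have h := HasJet.const ((n : ℕ) : ℝ)
  have e : (J2.C ((n : ℕ) : ℝ)) = (OfNat.ofNat n : J2) := map_natCast J2.C n
  rw [e] at h
  exact h

private lemma A12_zero : HasJet (fun _ => (0 : ℝ)) 0 := by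
  have h := HasJet.const 0
  rwa [map_zero] at h

private lemma A12_sum {ι : Type*} (s : Finset ι) {f : ι → ℝ → ℝ} {j : ι → J2}
    (h : ∀ i, HasJet (f i) (j i)) : HasJet (fun t => ∑ i ∈ s, f i t) (∑ i ∈ s, j i) := by
  classical
  induction s using Finset.induction_on with
  | empty => simpa using A12_zero
  | insert a s ha ih =>
    simp only [Finset.sum_insert ha]
    exact (h a).add ih

private lemma A12_xc {m : ℝ → Fin 8 → ℝ} {jm : Fin 8 → J2}
    (h : ∀ i, HasJet (fun t => m t i) (jm i)) (i : Fin 8) :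
    HasJet (fun t => xc (m t) i) (xc jm i) := by
  unfold xc
  by_cases hi : i = 7
  · simp only [if_pos hi]
    exact A12_smul _ (h 7)
  · simp only [if_neg hi]
    exact h i

private lemma A12_Fx {x : ℝ → Fin 8 → ℝ} {jx : Fin 8 → J2}
    (h : ∀ i, HasJet (fun t => x t i) (jx i)) :
    HasJet (fun t => Fx (x t)) (Fx jx) := by
  unfold Fx
  repeat' first
    | with_reducible exact h _
    | with_reducible exact A12_num _
    | with_reducible refine A12_sq ?_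
    | with_reducible refine HasJet.sub ?_ ?_
    | with_reducible refine HasJet.add ?_ ?_
    | with_reducible refine HasJet.mul ?_ ?_

private lemma A12_cw (ε : ℝ) {m : ℝ → Fin 4 → Fin 8 → ℝ} {c : ℝ → ℝ} {w : ℝ → Fin 4 → ℝ}
    {jm : Fin 4 → Fin 8 → J2} {jC : J2} {jW : Fin 4 → J2}
    (h2 : ∀ a i, HasJet (fun t => m t a i) (jm a i)) (h5 : HasJet c jC)
    (h6 : ∀ i, HasJet (fun t => w t i) (jW i)) (i : Fin 8) :
    HasJet (fun t => ∑ a, m t a i * (if a = 0 then c t else ε • w t a))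
      (∑ a, jm a i * (if a = 0 then jC else ε • jW a)) := by
  refine A12_sum _ fun a => (h2 a i).mul ?_
  by_cases ha : a = 0
  · simp only [if_pos ha]
    exact h5
  · simp only [if_neg ha]
    exact A12_smul _ (h6 a)

theorem hasJet_OG (ε : ℝ) (k : Fin 4) {om : ℝ → Fin 4 → Fin 4 → ℝ} {m : ℝ → Fin 4 → Fin 8 → ℝ}
    {rho q : ℝ → Fin 4 → Fin 4 → Fin 4 → ℝ} {c : ℝ → ℝ} {w : ℝ → Fin 4 → ℝ}
    {β : ℝ → Fin 4 → Fin 4 → ℝ} {jom : Fin 4 → Fin 4 → J2} {jm : Fin 4 → Fin 8 → J2}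
    {jr jq : Fin 4 → Fin 4 → Fin 4 → J2} {jC : J2} {jW : Fin 4 → J2} {jB : Fin 4 → Fin 4 → J2}
    (h1 : ∀ a b, HasJet (fun t => om t a b) (jom a b)) (h2 : ∀ a i, HasJet (fun t => m t a i) (jm a i))
    (h3 : ∀ k a b, HasJet (fun t => rho t k a b) (jr k a b))
    (h4 : ∀ k a b, HasJet (fun t => q t k a b) (jq k a b)) (h5 : HasJet c jC)
    (h6 : ∀ i, HasJet (fun t => w t i) (jW i)) (h7 : ∀ a b, HasJet (fun t => β t a b) (jB a b)) :
    HasJet (fun t => OG ε k (om t) (m t) (rho t) (q t) (c t) (w t) (β t))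
      (OG ε k jom jm jr jq jC jW jB) := by
  unfold OG
  refine HasJet.sub (HasJet.add (HasJet.add ?_ ?_) ?_) ?_
  · exact A12_smul _ (h5.mul ((h2 0 6).mul (h1 0 k)))
  · exact A12_smul _ (A12_sum _ fun i => (h6 i).mul (((h2 0 6).mul (h1 i k)).sub
      ((h2 k 6).mul (h1 i 0))))
  · exact A12_smul _ (A12_sum _ fun a => A12_sum _ fun b => (h7 a b).mul
      ((h3 k a b).add (A12_smul _ (h4 k a b))))
  · exact A12_smul _ ((h7 0 k).sub (h7 k 0))

theorem hasJet_SG (ε lam : ℝ) {om f : ℝ → Fin 4 → Fin 4 → ℝ} {m : ℝ → Fin 4 → Fin 8 → ℝ}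
    {c : ℝ → ℝ} {w : ℝ → Fin 4 → ℝ} {β : ℝ → Fin 4 → Fin 4 → ℝ} {jom jf : Fin 4 → Fin 4 → J2}
    {jm : Fin 4 → Fin 8 → J2} {jC : J2} {jW : Fin 4 → J2} {jB : Fin 4 → Fin 4 → J2}
    (h1 : ∀ a b, HasJet (fun t => om t a b) (jom a b)) (h1' : ∀ a b, HasJet (fun t => f t a b) (jf a b))
    (h2 : ∀ a i, HasJet (fun t => m t a i) (jm a i)) (h5 : HasJet c jC)
    (h6 : ∀ i, HasJet (fun t => w t i) (jW i)) (h7 : ∀ a b, HasJet (fun t => β t a b) (jB a b)) :
    HasJet (fun t => SG ε lam (om t) (f t) (m t) (c t) (w t) (β t))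
      (SG ε lam jom jf jm jC jW jB) := by
  unfold SG
  have hbo : HasJet (fun t => (1/2 : ℝ) • ∑ a, ∑ b, β t a b * om t a b)
      ((1/2 : ℝ) • ∑ a, ∑ b, jB a b * jom a b) :=
    A12_smul _ (A12_sum _ fun a => A12_sum _ fun b => (h7 a b).mul (h1 a b))
  refine HasJet.add (HasJet.add (HasJet.add ?_ ?_) ?_) ?_
  · exact A12_smul _ (A12_sum _ fun a => A12_sum _ fun b => A12_sum _ fun d => A12_sum _ fun e =>
      ((h7 a b).mul (h7 d e)).mul ((h1' a d).mul (h1' b e)))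
  · exact A12_smul _ (A12_sq hbo)
  · exact A12_smul _ ((A12_cw ε h2 h5 h6 6).mul hbo)
  · exact A12_smul _ (A12_Fx fun i => A12_xc (fun i => A12_cw ε h2 h5 h6 i) i)

end Pool.Agent.Helper46.M8
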