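import Pool.Agent.Helper46.M8.Basic
import Pool.Agent.Helper46.M8.Ns

/-!
# M8, piece A13
-/

open Filter Metric Module Set
open scoped Topology ContDiff Matrix Matrix.Norms.Elementwise ComplexConjugate

set_option maxSynthPendingDepth 3

namespace Pool.Agent.Helper46.M8
open Pool.Agent.Helper20.PC Pool.Agent.Helper20.HP Pool.Agent.Helper20.M8 Pool.Agent.Helper20.MB

/-! ### A13 : compactness -/
/-- positivity persists for small values of a non-negative parameter. -/
theorem compact_param {X : Type*} [TopologicalSpace X] {K : Set X} (hK : IsCompact K) {f g : X → ℝ}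
    (hf : ContinuousOn f K) (hg : ContinuousOn g K) (h0 : ∀ x ∈ K, 0 ≤ g x)
    (hpos : ∀ x ∈ K, g x = 0 → 0 < f x) : ∃ t : ℝ, 0 < t ∧ ∀ x ∈ K, g x ≤ t → 0 < f x := by
  classical
  have hcK : CompactSpace K := isCompact_iff_compactSpace.mp hK
  have hf' : Continuous (K.domRestrict f) := continuousOn_iff_continuous_domRestrict.mp hf
  have hg' : Continuous (K.domRestrict g) := continuousOn_iff_continuous_domRestrict.mp hg
  have hcl : IsClosed {x : K | K.domRestrict f x ≤ 0} := isClosed_le hf' continuous_const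
  have hcomp : IsCompact {x : K | K.domRestrict f x ≤ 0} := hcl.isCompact
  rcases Set.eq_empty_or_nonempty {x : K | K.domRestrict f x ≤ 0} with he | hne
  · refine ⟨1, one_pos, fun x hx _ => ?_⟩
    by_contra hn
    have : (⟨x, hx⟩ : K) ∈ {x : K | K.domRestrict f x ≤ 0} := not_lt.mp hn
    rw [he] at this
    exact this
  · obtain ⟨x0, hx0, hmin⟩ := hcomp.exists_isMinOn hne hg'.continuousOn
    have hg0 : 0 < g x0 := by
      rcases (h0 x0 x0.2).lt_or_eq with h | h
      · exact h
      · exact absurd (hpos x0 x0.2 h.symm) (not_lt.mpr hx0)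
    refine ⟨g x0 / 2, half_pos hg0, fun x hx hle => ?_⟩
    by_contra hn
    have hmem : (⟨x, hx⟩ : K) ∈ {x : K | K.domRestrict f x ≤ 0} := not_lt.mp hn
    have h1 : g x0 ≤ g x := hmin hmem
    linarith

theorem isCompact_unitary : IsCompact {U : Mat | Uᴴ * U = 1} := by
  refine Metric.isCompact_of_isClosed_isBounded ?_ ?_
  · exact isClosed_eq (by fun_prop) continuous_const
  · refine (Metric.isBounded_closedBall (x := (0 : Mat)) (r := 1)).subset fun U hU => ?_
    rw [mem_closedBall, dist_zero_right]
    have hU' : Uᴴ * U = 1 := hU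
    refine (Matrix.norm_le_iff zero_le_one).mpr fun i j => ?_
    have h1 : (Uᴴ * U) j j = 1 := by rw [hU']; simp
    rw [Matrix.mul_apply] at h1
    have h2 : ∑ k, ‖U k j‖ ^ 2 = 1 := by
      have h3 := congrArg Complex.re h1
      rw [Complex.re_sum] at h3
      simp only [Matrix.conjTranspose_apply, Complex.one_re] at h3
      rw [← h3]
      refine Finset.sum_congr rfl fun k _ => ?_
      rw [Complex.star_def, ← Complex.normSq_eq_conj_mul_self, Complex.ofReal_re, Complex.normSq_eq_norm_sq]
    have h4 : ‖U i j‖ ^ 2 ≤ 1 := by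
      rw [← h2]
      exact Finset.single_le_sum (f := fun k => ‖U k j‖ ^ 2) (fun k _ => by positivity)
        (Finset.mem_univ i)
    have h5 : 0 ≤ ‖U i j‖ := norm_nonneg _
    nlinarith

end Pool.Agent.Helper46.M8
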