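import Pool.Agent.Helper46.M8.Defs2

/-!
# M8, piece A14
-/

open Filter Metric Module Set
open scoped Topology ContDiff Matrix Matrix.Norms.Elementwise ComplexConjugate

set_option maxSynthPendingDepth 3

namespace Pool.Agent.Helper46.M8
open Pool.Agent.Helper20.PC Pool.Agent.Helper20.HP Pool.Agent.Helper20.M8 Pool.Agent.Helper20.MB

namespace A14

/-- the topology of `ℝ³` on the space of jets. -/
@[reducible] def topJ : TopologicalSpace J2 :=
  TopologicalSpace.induced (fun j : J2 => (j.a, j.b, j.c)) inferInstance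

attribute [local instance] topJ

lemma ind : Topology.IsInducing (fun j : J2 => (j.a, j.b, j.c)) := ⟨rfl⟩

lemma contJ_iff {X : Type*} [TopologicalSpace X] {S : Set X} {j : X → J2} :
    ContJ S j ↔ ContinuousOn j S := by
  rw [ind.continuousOn_iff]
  constructor
  · rintro ⟨h1, h2, h3⟩
    exact h1.prodMk (h2.prodMk h3)
  · intro h
    exact ⟨h.fst, h.snd.fst, h.snd.snd⟩

lemma continuous_a : Continuous (fun j : J2 => j.a) := continuous_fst.comp ind.continuous
lemma continuous_b : Continuous (fun j : J2 => j.b) :=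
  continuous_fst.comp (continuous_snd.comp ind.continuous)
lemma continuous_c : Continuous (fun j : J2 => j.c) :=
  continuous_snd.comp (continuous_snd.comp ind.continuous)

lemma cmk {X : Type*} [TopologicalSpace X] {f : X → J2} (h1 : Continuous fun x => (f x).a)
    (h2 : Continuous fun x => (f x).b) (h3 : Continuous fun x => (f x).c) : Continuous f :=
  ind.continuous_iff.2 (h1.prodMk (h2.prodMk h3))

instance : IsTopologicalRing J2 where
  continuous_add := by
    have a1 := continuous_a.comp (continuous_fst (X := J2) (Y := J2))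
    have a2 := continuous_a.comp (continuous_snd (X := J2) (Y := J2))
    have b1 := continuous_b.comp (continuous_fst (X := J2) (Y := J2))
    have b2 := continuous_b.comp (continuous_snd (X := J2) (Y := J2))
    have c1 := continuous_c.comp (continuous_fst (X := J2) (Y := J2))
    have c2 := continuous_c.comp (continuous_snd (X := J2) (Y := J2))
    exact cmk (a1.add a2) (b1.add b2) (c1.add c2)
  continuous_mul := by
    have a1 := continuous_a.comp (continuous_fst (X := J2) (Y := J2))
    have a2 := continuous_a.comp (continuous_snd (X := J2) (Y := J2))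
    have b1 := continuous_b.comp (continuous_fst (X := J2) (Y := J2))
    have b2 := continuous_b.comp (continuous_snd (X := J2) (Y := J2))
    have c1 := continuous_c.comp (continuous_fst (X := J2) (Y := J2))
    have c2 := continuous_c.comp (continuous_snd (X := J2) (Y := J2))
    exact cmk (a1.mul a2) ((a1.mul b2).add (b1.mul a2))
      (((a1.mul c2).add ((b1.mul b2).const_mul 2)).add (c1.mul a2))
  continuous_neg := cmk continuous_a.neg continuous_b.neg continuous_c.neg

instance : ContinuousSMul ℝ J2 where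
  continuous_smul := by
    have a2 := continuous_a.comp (continuous_snd (X := ℝ) (Y := J2))
    have b2 := continuous_b.comp (continuous_snd (X := ℝ) (Y := J2))
    have c2 := continuous_c.comp (continuous_snd (X := ℝ) (Y := J2))
    exact cmk (continuous_fst.mul a2) (continuous_fst.mul b2) (continuous_fst.mul c2)

section generic
variable {R : Type*} [CommRing R] [Algebra ℝ R] [TopologicalSpace R] [IsTopologicalRing R]
  [ContinuousSMul ℝ R] {X : Type*} [TopologicalSpace X] {S : Set X}

omit [Algebra ℝ R] [IsTopologicalRing R] [ContinuousSMul ℝ R] [CommRing R] in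
lemma ite' {P : Prop} [Decidable P] {f g : X → R} (hf : ContinuousOn f S) (hg : ContinuousOn g S) :
    ContinuousOn (fun x => if P then f x else g x) S := by
  split_ifs
  · exact hf
  · exact hg

lemma dc' {ε : X → ℝ} {th : X → R} {om : X → Fin 4 → Fin 4 → R} {w : X → Fin 4 → R}
    (h1 : ContinuousOn ε S) (h2 : ContinuousOn th S)
    (h3 : ∀ a b, ContinuousOn (fun x => om x a b) S) (h4 : ∀ i, ContinuousOn (fun x => w x i) S) :
    ContinuousOn (fun x => dc (ε x) (th x) (om x) (w x)) S := by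
  unfold dc
  exact (h1.pow 2).smul (h2.mul (continuousOn_finsetSum _ fun i _ => (h4 i).mul (h3 0 i)))

lemma dw' {ε : X → ℝ} {th c : X → R} {om : X → Fin 4 → Fin 4 → R} {w : X → Fin 4 → R}
    {β : X → Fin 4 → Fin 4 → R} (h1 : ContinuousOn ε S) (h2 : ContinuousOn th S)
    (h3 : ∀ a b, ContinuousOn (fun x => om x a b) S) (h4 : ∀ i, ContinuousOn (fun x => w x i) S)
    (h5 : ContinuousOn c S) (h6 : ∀ a b, ContinuousOn (fun x => β x a b) S) (i : Fin 4) :
    ContinuousOn (fun x => dw (ε x) (th x) (om x) (c x) (w x) (β x) i) S := by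
  unfold dw
  refine ite' continuousOn_const ?_
  exact (((h6 0 i).const_smul (1/2 : ℝ)).add (h1.smul (h2.mul
    (continuousOn_finsetSum _ fun j _ => (h4 j).mul (h3 i j))))).add ((h2.mul h5).mul (h3 i 0))

lemma dβ' {ε : X → ℝ} {th : X → R} {om : X → Fin 4 → Fin 4 → R} {w : X → Fin 4 → R}
    {β : X → Fin 4 → Fin 4 → R} (h1 : ContinuousOn ε S) (h2 : ContinuousOn th S)
    (h3 : ∀ a b, ContinuousOn (fun x => om x a b) S) (h4 : ∀ i, ContinuousOn (fun x => w x i) S)
    (h6 : ∀ a b, ContinuousOn (fun x => β x a b) S) (a b : Fin 4) :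
    ContinuousOn (fun x => dβ (ε x) (th x) (om x) (w x) (β x) a b) S := by
  unfold dβ
  exact (((ite' (h4 a) continuousOn_const).sub (ite' (h4 b) continuousOn_const)).const_smul
    (1/2 : ℝ)).add (h1.smul (h2.mul (continuousOn_finsetSum _ fun e _ =>
      ((h3 a e).mul (h6 e b)).add ((h3 b e).mul (h6 a e)))))

omit [ContinuousSMul ℝ R] [Algebra ℝ R] in
lemma Fx' {v : X → Fin 8 → R} (h : ∀ i, ContinuousOn (fun x => v x i) S) :
    ContinuousOn (fun x => Fx (v x)) S := by
  have h0 := h 0
  have h1 := h 1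
  have h2 := h 2
  have h3 := h 3
  have h4 := h 4
  have h5 := h 5
  have h6 := h 6
  have h7 := h 7
  unfold Fx
  fun_prop

lemma xc' {v : X → Fin 8 → R} (h : ∀ i, ContinuousOn (fun x => v x i) S) (i : Fin 8) :
    ContinuousOn (fun x => xc (v x) i) S := by
  unfold xc
  exact ite' ((h 7).const_smul (1/3 : ℝ)) (h i)

lemma SG' (lam : ℝ) {ε : X → ℝ} {c : X → R} {om f : X → Fin 4 → Fin 4 → R}
    {m : X → Fin 4 → Fin 8 → R} {w : X → Fin 4 → R} {β : X → Fin 4 → Fin 4 → R}
    (h1 : ContinuousOn ε S) (h2 : ContinuousOn c S)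
    (h3 : ∀ a b, ContinuousOn (fun x => om x a b) S) (h4 : ∀ a b, ContinuousOn (fun x => f x a b) S)
    (h5 : ∀ a i, ContinuousOn (fun x => m x a i) S) (h6 : ∀ i, ContinuousOn (fun x => w x i) S)
    (h7 : ∀ a b, ContinuousOn (fun x => β x a b) S) :
    ContinuousOn (fun x => SG (ε x) lam (om x) (f x) (m x) (c x) (w x) (β x)) S := by
  have e1 : ContinuousOn (fun x => ∑ a, ∑ b, β x a b * om x a b) S :=
    continuousOn_finsetSum _ fun a _ => continuousOn_finsetSum _ fun b _ => (h7 a b).mul (h3 a b)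
  have e2 : ∀ a : Fin 4, ContinuousOn (fun x => if a = 0 then c x else ε x • w x a) S :=
    fun a => ite' h2 (h1.smul (h6 a))
  have e3 : ∀ i : Fin 8, ContinuousOn (fun x => ∑ a, m x a i * (if a = 0 then c x else ε x • w x a)) S :=
    fun i => continuousOn_finsetSum _ fun a _ => (h5 a i).mul (e2 a)
  have e4 : ContinuousOn (fun x => ∑ a, ∑ b, ∑ d, ∑ e, β x a b * β x d e * (f x a d * f x b e)) S :=
    continuousOn_finsetSum _ fun a _ => continuousOn_finsetSum _ fun b _ =>
      continuousOn_finsetSum _ fun d _ => continuousOn_finsetSum _ fun e _ =>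
        ((h7 a b).mul (h7 d e)).mul ((h4 a d).mul (h4 b e))
  unfold SG
  exact (((e4.const_smul (1/10 : ℝ)).add (((e1.const_smul (1/2 : ℝ)).pow 2).const_smul
    (5/2 : ℝ))).add (((e3 6).mul (e1.const_smul (1/2 : ℝ))).const_smul (183/10 : ℝ))).add
      ((Fx' (xc' e3)).const_smul lam)

lemma OG' {ε : X → ℝ} (k : Fin 4) {c : X → R} {om : X → Fin 4 → Fin 4 → R}
    {m : X → Fin 4 → Fin 8 → R} {rho q : X → Fin 4 → Fin 4 → Fin 4 → R} {w : X → Fin 4 → R}
    {β : X → Fin 4 → Fin 4 → R}
    (h1 : ContinuousOn ε S) (h2 : ContinuousOn c S)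
    (h3 : ∀ a b, ContinuousOn (fun x => om x a b) S)
    (h5 : ∀ a i, ContinuousOn (fun x => m x a i) S) (h6 : ∀ i, ContinuousOn (fun x => w x i) S)
    (h7 : ∀ a b, ContinuousOn (fun x => β x a b) S)
    (h8 : ∀ k a b, ContinuousOn (fun x => rho x k a b) S)
    (h9 : ∀ k a b, ContinuousOn (fun x => q x k a b) S) :
    ContinuousOn (fun x => OG (ε x) k (om x) (m x) (rho x) (q x) (c x) (w x) (β x)) S := by
  unfold OG
  refine (((?_ : ContinuousOn _ S).add ?_).add ?_).sub ?_
  · exact (h2.mul ((h5 0 6).mul (h3 0 k))).const_smul (1/2 : ℝ)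
  · exact (h1.div_const 2).smul (continuousOn_finsetSum _ fun i _ =>
      (h6 i).mul (((h5 0 6).mul (h3 i k)).sub ((h5 k 6).mul (h3 i 0))))
  · exact (continuousOn_finsetSum _ fun a _ => continuousOn_finsetSum _ fun b _ =>
      (h7 a b).mul ((h8 k a b).add (h1.smul (h9 k a b)))).const_smul (1/2 : ℝ)
  · exact ((h7 0 k).sub (h7 k 0)).const_smul (1/8 : ℝ)

end generic

lemma mk' {X : Type*} [TopologicalSpace X] {S : Set X} {f g h : X → ℝ} (h1 : ContinuousOn f S)
    (h2 : ContinuousOn g S) (h3 : ContinuousOn h S) :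
    ContinuousOn (fun x => (⟨f x, g x, h x⟩ : J2)) S := contJ_iff.1 ⟨h1, h2, h3⟩

end A14

open A14

/-! ### A14 : continuity of `Tj` -/
theorem continuousOn_Tj {X : Type*} [TopologicalSpace X] {S : Set X} (lam : ℝ) {ε K u c : X → ℝ}
    {om f : X → Fin 4 → Fin 4 → J2} {m : X → Fin 4 → Fin 8 → J2}
    {rho q : X → Fin 4 → Fin 4 → Fin 4 → J2} {w : X → Fin 4 → ℝ} {β : X → Fin 4 → Fin 4 → ℝ}
    (h1 : ContinuousOn ε S) (h2 : ContinuousOn K S) (h3 : ContinuousOn u S) (h4 : ContinuousOn c S)
    (h5 : ∀ a b, ContJ S (fun x => om x a b)) (h6 : ∀ a b, ContJ S (fun x => f x a b))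
    (h7 : ∀ a i, ContJ S (fun x => m x a i)) (h8 : ∀ k a b, ContJ S (fun x => rho x k a b))
    (h9 : ∀ k a b, ContJ S (fun x => q x k a b)) (h10 : ∀ i, ContinuousOn (fun x => w x i) S)
    (h11 : ∀ a b, ContinuousOn (fun x => β x a b) S) :
    ContinuousOn (fun x => Tj (ε x) lam (K x) (om x) (f x) (m x) (rho x) (q x) (u x) (c x) (w x)
      (β x)) S := by
  let _ : TopologicalSpace J2 := topJ
  have g5 : ∀ a b, ContinuousOn (fun x => om x a b) S := fun a b => contJ_iff.1 (h5 a b)
  have g6 : ∀ a b, ContinuousOn (fun x => f x a b) S := fun a b => contJ_iff.1 (h6 a b)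
  have g7 : ∀ a i, ContinuousOn (fun x => m x a i) S := fun a i => contJ_iff.1 (h7 a i)
  have g8 : ∀ k a b, ContinuousOn (fun x => rho x k a b) S := fun k a b => contJ_iff.1 (h8 k a b)
  have g9 : ∀ k a b, ContinuousOn (fun x => q x k a b) S := fun k a b => contJ_iff.1 (h9 k a b)
  have o5 : ∀ a b, ContinuousOn (fun x => (om x a b).a) S := fun a b => (h5 a b).1
  have t0 : ContinuousOn (fun x => (m x 0 6).a) S := (h7 0 6).1
  have dc0 : ContinuousOn (fun x => dc (ε x) (m x 0 6).a (fun a b => (om x a b).a) (w x)) S :=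
    dc' h1 t0 o5 h10
  have dw0 : ∀ i, ContinuousOn (fun x => dw (ε x) (m x 0 6).a (fun a b => (om x a b).a) (c x) (w x)
      (β x) i) S := fun i => dw' h1 t0 o5 h10 h4 h11 i
  have db0 : ∀ a b, ContinuousOn (fun x => dβ (ε x) (m x 0 6).a (fun a b => (om x a b).a) (w x)
      (β x) a b) S := fun a b => dβ' h1 t0 o5 h10 h11 a b
  have w1 : ∀ i, ContinuousOn (fun x => (⟨w x i, dw (ε x) (m x 0 6).a (fun a b => (om x a b).a) (c x)
      (w x) (β x) i, 0⟩ : J2)) S := fun i => mk' (h10 i) (dw0 i) continuousOn_const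
  have c1 : ContinuousOn (fun x => (⟨c x, dc (ε x) (m x 0 6).a (fun a b => (om x a b).a) (w x), 0⟩
      : J2)) S := mk' h4 dc0 continuousOn_const
  have b1 : ∀ a b, ContinuousOn (fun x => (⟨β x a b, dβ (ε x) (m x 0 6).a
      (fun a b => (om x a b).a) (w x) (β x) a b, 0⟩ : J2)) S :=
    fun a b => mk' (h11 a b) (db0 a b) continuousOn_const
  have hC : ContinuousOn (fun x => jc (ε x) (m x 0 6) (om x) (c x) (w x) (β x)) S := by
    unfold jc
    exact mk' h4 dc0 (continuous_b.comp_continuousOn (dc' h1 (g7 0 6) g5 w1))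
  have hW : ∀ i, ContinuousOn (fun x => jw (ε x) (m x 0 6) (om x) (c x) (w x) (β x) i) S := by
    intro i
    unfold jw
    exact mk' (h10 i) (dw0 i) (continuous_b.comp_continuousOn (dw' h1 (g7 0 6) g5 w1 c1 b1 i))
  have hB : ∀ a b, ContinuousOn (fun x => jβ (ε x) (m x 0 6) (om x) (c x) (w x) (β x) a b) S := by
    intro a b
    unfold jβ
    exact mk' (h11 a b) (db0 a b) (continuous_b.comp_continuousOn (dβ' h1 (g7 0 6) g5 w1 b1 a b))
  have hO := fun k => OG' (R := J2) k h1 hC g5 g7 hW hB g8 g9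
  have hS := SG' (R := J2) lam h1 hC g5 g6 g7 hW hB
  unfold Tj
  refine (((h2.mul (h3.pow 2)).add (h3.mul (continuous_b.comp_continuousOn (hO 1)))).add
    (continuousOn_const.mul (continuousOn_finsetSum _ fun k _ =>
      (continuous_a.comp_continuousOn (hO k.succ)).pow 2))).add
    (continuousOn_const.mul (continuous_c.comp_continuousOn hS))

end Pool.Agent.Helper46.M8
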