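import Pool.Agent.Helper46.M8.Defs2

/-!
# M8, piece A15
-/

open Filter Metric Module Set
open scoped Topology ContDiff Matrix Matrix.Norms.Elementwise ComplexConjugate

set_option maxSynthPendingDepth 3

namespace Pool.Agent.Helper46.M8
open Pool.Agent.Helper20.PC Pool.Agent.Helper20.HP Pool.Agent.Helper20.M8 Pool.Agent.Helper20.MB

/-! ### A15 : closed form of `Tlim` -/

private lemma jc_zero (th : J2) (om : Fin 4 → Fin 4 → J2) (c : ℝ) (w : Fin 4 → ℝ)
    (β : Fin 4 → Fin 4 → ℝ) : jc 0 th om c w β = J2.C c := by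
  ext <;> simp [jc, dc]

private lemma jw_zero (th : ℝ) (om : Fin 4 → Fin 4 → ℝ) (c : ℝ) (w : Fin 4 → ℝ)
    (β : Fin 4 → Fin 4 → ℝ) (i : Fin 4) :
    jw 0 (J2.C th) (fun a b => J2.C (om a b)) c w β i =
      ⟨w i, if i = 0 then 0 else (1/2) * β 0 i + th * c * om i 0,
        if i = 0 then 0 else -(1/4) * w i⟩ := by
  by_cases hi : i = 0
  · subst hi
    ext <;> simp [jw, dw]
  · ext
    · simp [jw]
    · simp [jw, dw, hi]
    · simp [jw, dw, dβ, dc, hi]
      ring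

private lemma jβ_zero (th : ℝ) (om : Fin 4 → Fin 4 → ℝ) (c : ℝ) (w : Fin 4 → ℝ)
    (β : Fin 4 → Fin 4 → ℝ) (a b : Fin 4) :
    jβ 0 (J2.C th) (fun a b => J2.C (om a b)) c w β a b =
      ⟨β a b, (1/2) * ((if b = 0 then w a else 0) - (if a = 0 then w b else 0)),
        (1/2) * ((if b = 0 then (if a = 0 then 0 else (1/2) * β 0 a + th * c * om a 0) else 0)
          - (if a = 0 then (if b = 0 then 0 else (1/2) * β 0 b + th * c * om b 0) else 0))⟩ := by
  ext
  · simp [jβ]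
  · simp [jβ, dβ]
  · by_cases ha : a = 0 <;> by_cases hb : b = 0
    · simp [jβ, dβ, ha, hb]
    · simp [jβ, dβ, dw, ha, hb]
      ring
    · simp [jβ, dβ, dw, ha, hb]
    · simp [jβ, dβ, ha, hb]

private lemma SG_zero (th : ℝ) (om : Fin 4 → Fin 4 → J2) (c : J2) (w : Fin 4 → J2)
    (β : Fin 4 → Fin 4 → J2) :
    SG 0 0 om (fun a b => J2.C (if a = b then 1 else 0))
      (fun a i => if a = 0 ∧ i = 6 then J2.C th else 0) c w β =
    (1/10 : ℝ) • (∑ a, ∑ b, β a b * β a b) + (5/2 : ℝ) • (((1/2 : ℝ) • ∑ a, ∑ b, β a b * om a b) ^ 2)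
    + (183/10 : ℝ) • ((J2.C th * c) * ((1/2 : ℝ) • ∑ a, ∑ b, β a b * om a b)) := by
  have h1 : ∑ a, ∑ b, ∑ d, ∑ e, β a b * β d e *
      (J2.C (if a = d then 1 else 0) * J2.C (if b = e then 1 else 0)) = ∑ a, ∑ b, β a b * β a b := by
    refine Finset.sum_congr rfl fun a _ => Finset.sum_congr rfl fun b _ => ?_
    have : ∀ d, ∑ e, β a b * β d e * (J2.C (if a = d then 1 else 0) * J2.C (if b = e then 1 else 0))
        = if a = d then β a b * β a b else 0 := by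
      intro d
      by_cases hd : a = d
      · subst hd
        rw [Finset.sum_eq_single b]
        · simp
        · intro e _ he
          simp [Ne.symm he]
        · simp
      · simp [hd]
    rw [Finset.sum_congr rfl fun d _ => this d]
    simp
  have h2 : (∑ a : Fin 4, (if a = 0 ∧ (6 : Fin 8) = 6 then J2.C th else 0) *
      (if a = 0 then c else (0 : ℝ) • w a)) = J2.C th * c := by
    simp
  unfold SG
  rw [h1, h2]
  simp

private lemma OG_zero (th : ℝ) (om : Fin 4 → Fin 4 → ℝ) (c : J2) (w : Fin 4 → J2)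
    (β : Fin 4 → Fin 4 → J2) (k : Fin 4) :
    OG 0 k (fun a b => J2.C (om a b)) (fun a i => if a = 0 ∧ i = 6 then J2.C th else 0)
      (fun k a b => J2.C (rho0 om k a b)) (fun _ _ _ => 0) c w β =
    (1/2 : ℝ) • (c * (J2.C th * J2.C (om 0 k))) + (1/2 : ℝ) • (∑ a, ∑ b, β a b * J2.C (rho0 om k a b))
      - (1/8 : ℝ) • (β 0 k - β k 0) := by
  simp [OG]

private def omM (σ x y z : ℝ) : Fin 4 → Fin 4 → ℝ :=
  ![![0, x, y, z], ![-x, 0, σ * z, -(σ * y)], ![-y, -(σ * z), 0, σ * x], ![-z, σ * y, -(σ * x), 0]]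

private def btM (p q r p' q' r' : ℝ) : Fin 4 → Fin 4 → ℝ :=
  ![![0, p, q, r], ![-p, 0, p', q'], ![-q, -p', 0, r'], ![-r, -q', -r', 0]]

private lemma bo_zero {σ x y z : ℝ} (hv : x ^ 2 + y ^ 2 + z ^ 2 = 1)
    (th c w1 w2 w3 p q r p' q' r' : ℝ) :
    (1/2 : ℝ) • ∑ a, ∑ b, jβ 0 (J2.C th) (fun a b => J2.C (omM σ x y z a b)) c ![0, w1, w2, w3]
      (btM p q r p' q' r') a b * J2.C (omM σ x y z a b) =
    ⟨(x * p + y * q + z * r) + σ * (x * r' - y * q' + z * p'), -(1/2) * (x * w1 + y * w2 + z * w3),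
      -(1/4) * (x * p + y * q + z * r) + th * c / 2⟩ := by
  simp only [jβ_zero, Fin.sum_univ_four]
  ext
  · simp [omM, btM]
    ring
  · simp [omM]
    ring
  · simp [omM, btM]
    linear_combination (th * c / 2) * hv

private lemma bb_zero {σ x y z : ℝ}
    (th c w1 w2 w3 p q r p' q' r' : ℝ) :
    (∑ a, ∑ b, jβ 0 (J2.C th) (fun a b => J2.C (omM σ x y z a b)) c ![0, w1, w2, w3]
      (btM p q r p' q' r') a b * jβ 0 (J2.C th) (fun a b => J2.C (omM σ x y z a b)) c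
      ![0, w1, w2, w3] (btM p q r p' q' r') a b).c =
    -(p ^ 2 + q ^ 2 + r ^ 2) + 2 * th * c * (x * p + y * q + z * r) + (w1 ^ 2 + w2 ^ 2 + w3 ^ 2) := by
  simp only [jβ_zero, Fin.sum_univ_four]
  simp [omM, btM]
  ring

private lemma og_zero_a {σ x y z : ℝ} (hv : x ^ 2 + y ^ 2 + z ^ 2 = 1)
    (th c w1 w2 w3 p q r p' q' r' : ℝ) (k : Fin 3) :
    ((1/2 : ℝ) • (J2.C c * (J2.C th * J2.C (omM σ x y z 0 k.succ)))
      + (1/2 : ℝ) • (∑ a, ∑ b, jβ 0 (J2.C th) (fun a b => J2.C (omM σ x y z a b)) c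
          ![0, w1, w2, w3] (btM p q r p' q' r') a b * J2.C (rho0 (omM σ x y z) k.succ a b))
      - (1/8 : ℝ) • (jβ 0 (J2.C th) (fun a b => J2.C (omM σ x y z a b)) c
          ![0, w1, w2, w3] (btM p q r p' q' r') 0 k.succ
        - jβ 0 (J2.C th) (fun a b => J2.C (omM σ x y z a b)) c
          ![0, w1, w2, w3] (btM p q r p' q' r') k.succ 0)).a =
    c * th / 2 * ![x, y, z] k + 3/4 * ![p, q, r] k + 3 * (x * p + y * q + z * r) * ![x, y, z] k
      - σ * ![r', -q', p'] k + 3 * σ * (x * r' - y * q' + z * p') * ![x, y, z] k := by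
  simp only [jβ_zero, Fin.sum_univ_four]
  fin_cases k
  · simp [omM, btM, rho0]
    linear_combination (-(σ * r')) * hv
  · simp [omM, btM, rho0]
    linear_combination (σ * q') * hv
  · simp [omM, btM, rho0]
    linear_combination (-(σ * p')) * hv

private lemma og_zero_b {σ x y z : ℝ}
    (th c w1 w2 w3 p q r p' q' r' : ℝ) :
    ((1/2 : ℝ) • (J2.C c * (J2.C th * J2.C (omM σ x y z 0 1)))
      + (1/2 : ℝ) • (∑ a, ∑ b, jβ 0 (J2.C th) (fun a b => J2.C (omM σ x y z a b)) c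
          ![0, w1, w2, w3] (btM p q r p' q' r') a b * J2.C (rho0 (omM σ x y z) 1 a b))
      - (1/8 : ℝ) • (jβ 0 (J2.C th) (fun a b => J2.C (omM σ x y z a b)) c
          ![0, w1, w2, w3] (btM p q r p' q' r') 0 1
        - jβ 0 (J2.C th) (fun a b => J2.C (omM σ x y z a b)) c
          ![0, w1, w2, w3] (btM p q r p' q' r') 1 0)).b =
    -(3/8) * w1 - 3/2 * (x * w1 + y * w2 + z * w3) * x := by
  simp only [jβ_zero, Fin.sum_univ_four]
  simp [omM, rho0]
  ring

theorem Tlim_formula (om : Fin 4 → Fin 4 → ℝ) (σ : ℝ) (hσ : σ ^ 2 = 1)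
    (hsk : ∀ a b, om a b = - om b a) (h12 : om 1 2 = σ * om 0 3) (h13 : om 1 3 = - (σ * om 0 2))
    (h23 : om 2 3 = σ * om 0 1) (hv : om 0 1 ^ 2 + om 0 2 ^ 2 + om 0 3 ^ 2 = 1) (th u c : ℝ)
    (w : Fin 4 → ℝ) (β : Fin 4 → Fin 4 → ℝ) (hw : w 0 = 0) (hβ : ∀ a b, β a b = - β b a) :
    Tlim om th u c w β = TlimF σ th u c ![om 0 1, om 0 2, om 0 3] ![w 1, w 2, w 3]
      ![β 0 1, β 0 2, β 0 3] ![β 2 3, - β 1 3, β 1 2] := by
  have o0 : ∀ a, om a a = 0 := fun a => by have := hsk a a; linarith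
  have b0 : ∀ a, β a a = 0 := fun a => by have := hβ a a; linarith
  have hom : om = omM σ (om 0 1) (om 0 2) (om 0 3) := by
    funext a b
    fin_cases a <;> fin_cases b <;>
      simp [omM, o0, hsk 1 0, hsk 2 0, hsk 3 0, hsk 2 1, hsk 3 1, hsk 3 2, h12, h13, h23]
  have hbe : β = btM (β 0 1) (β 0 2) (β 0 3) (β 1 2) (β 1 3) (β 2 3) := by
    funext a b
    fin_cases a <;> fin_cases b <;>
      simp [btM, b0, hβ 1 0, hβ 2 0, hβ 3 0, hβ 2 1, hβ 3 1, hβ 3 2]
  have hwe : w = ![0, w 1, w 2, w 3] := by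
    funext a
    fin_cases a <;> simp [hw]
  clear hsk hβ o0 b0 h12 h13 h23 hw
  generalize om 0 1 = x at *
  generalize om 0 2 = y at *
  generalize om 0 3 = z at *
  generalize β 0 1 = p at *
  generalize β 0 2 = q at *
  generalize β 0 3 = r at *
  generalize β 1 2 = p' at *
  generalize β 1 3 = q' at *
  generalize β 2 3 = r' at *
  generalize w 1 = w1 at *
  generalize w 2 = w2 at *
  generalize w 3 = w3 at *
  subst hom hbe hwe
  unfold Tlim Tj
  simp only [and_self, if_true, SG_zero, OG_zero, jc_zero]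
  rw [og_zero_b]
  simp only [og_zero_a hv, bo_zero hv, J2.add_c, J2.smul_c, bb_zero, J2.mul_c, pow_two]
  simp [TlimF, dot3, omM, Fin.sum_univ_three]
  ring

end Pool.Agent.Helper46.M8
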