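import Pool.Agent.Helper46.M8.Defs2

/-!
# M8, piece A16
-/

open Filter Metric Module Set
open scoped Topology ContDiff Matrix Matrix.Norms.Elementwise ComplexConjugate

set_option maxSynthPendingDepth 3

namespace Pool.Agent.Helper46.M8
open Pool.Agent.Helper20.PC Pool.Agent.Helper20.HP Pool.Agent.Helper20.M8 Pool.Agent.Helper20.MB

/-! ### A16 : positivity of the closed form -/

private lemma uw_part (u a b w0 w1 w2 : ℝ) :
    (1/500) * (u ^ 2 + (w0 * w0 + w1 * w1 + w2 * w2)) ≤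
      u ^ 2 + 3 * a ^ 2 * u ^ 2 - (3/8) * u * w0 - (3/2) * b * a * u
        + (1/20) * (w0 * w0 + w1 * w1 + w2 * w2) + (5/8) * b ^ 2 := by
  nlinarith only [sq_nonneg (a * u - b / 4), sq_nonneg b, sq_nonneg w1, sq_nonneg w2,
    sq_nonneg (u - (19/100) * w0), sq_nonneg w0, sq_nonneg (a * u)]

private lemma q_part (σ x y : ℝ) (hσ : σ ^ 2 = 1) :
    0 ≤ (29/320 - 1/500) * x ^ 2 - (29/100) * σ * x * y + (1/4 - 1/500) * y ^ 2 := by
  have h : (29/320 - 1/500) * x ^ 2 - (29/100) * σ * x * y + (1/4 - 1/500) * y ^ 2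
      = (709/8000) * (x - (1160/709) * σ * y) ^ 2
        + ((31/125) - (709/8000) * (1160/709) ^ 2) * y ^ 2 := by
    linear_combination (-(709/8000) * (1160/709) ^ 2 * y ^ 2) * hσ
  rw [h]
  have h1 : (0:ℝ) ≤ (31/125) - (709/8000) * (1160/709) ^ 2 := by norm_num
  positivity

private lemma r_part (x y : ℝ) :
    0 ≤ (11/4 + 29/320 - 1/500) * x ^ 2 + (321/100) * x * y + (1 - 1/500) * y ^ 2 := by
  nlinarith only [sq_nonneg (x + (57/100) * y), sq_nonneg y]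

theorem TlimF_pos1 (σ th u c : ℝ) (v w z : Fin 3 → ℝ) (hσ : σ ^ 2 = 1) (hv : dot3 v v = 1) :
    (371/80) * th ^ 2 * c ^ 2 + (1/500) * (u ^ 2 + dot3 w w + dot3 z z)
      ≤ TlimF σ th u c v w z 0 := by
  have h1 := uw_part u (v 0) (dot3 v w) (w 0) (w 1) (w 2)
  have hv' : v 0 * v 0 + v 1 * v 1 + v 2 * v 2 = 1 := hv
  have key : TlimF σ th u c v w z 0 = (u ^ 2 + 3 * (v 0) ^ 2 * u ^ 2 - (3/8) * u * w 0
      - (3/2) * dot3 v w * v 0 * u + (1/20) * (w 0 * w 0 + w 1 * w 1 + w 2 * w 2)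
      + (5/8) * dot3 v w ^ 2) + (29/320) * dot3 z z + (11/4) * dot3 v z ^ 2
      + (371/80) * th ^ 2 * c ^ 2 := by
    simp only [TlimF, dot3, Pi.zero_apply]
    linear_combination ((1/4) * (c * th / 2 + 3 * (v 0 * z 0 + v 1 * z 1 + v 2 * z 2)) ^ 2) * hv'
  rw [key]
  have h2 : dot3 w w = w 0 * w 0 + w 1 * w 1 + w 2 * w 2 := rfl
  have h3 : 0 ≤ dot3 z z := by
    unfold dot3
    nlinarith only [mul_self_nonneg (z 0), mul_self_nonneg (z 1), mul_self_nonneg (z 2)]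
  have h4 := sq_nonneg (dot3 v z)
  rw [h2]
  nlinarith only [h1, h3, h1, h3, h4]

theorem TlimF_pos2 (σ th u : ℝ) (v w z B : Fin 3 → ℝ) (hσ : σ ^ 2 = 1) (hv : dot3 v v = 1)
    (hzB : dot3 z B = 0) :
    (1/500) * (u ^ 2 + dot3 w w + dot3 z z + dot3 B B) ≤ TlimF σ th u 0 v w z B := by
  have h1 := uw_part u (v 0) (dot3 v w) (w 0) (w 1) (w 2)
  have hv' : v 0 * v 0 + v 1 * v 1 + v 2 * v 2 = 1 := hv
  have hzB' : z 0 * B 0 + z 1 * B 1 + z 2 * B 2 = 0 := hzB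
  have key : TlimF σ th u 0 v w z B = (u ^ 2 + 3 * (v 0) ^ 2 * u ^ 2 - (3/8) * u * w 0
      - (3/2) * dot3 v w * v 0 * u + (1/20) * (w 0 * w 0 + w 1 * w 1 + w 2 * w 2)
      + (5/8) * dot3 v w ^ 2) + (29/320) * dot3 z z + (11/4) * dot3 v z ^ 2
      + (7/2) * dot3 v z * (σ * dot3 v B) + (3/4) * (σ * dot3 v B) ^ 2
      + (1/4) * dot3 B B := by
    simp only [TlimF, dot3]
    linear_combination ((1/4) * (3 * (v 0 * z 0 + v 1 * z 1 + v 2 * z 2)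
      + 3 * σ * (v 0 * B 0 + v 1 * B 1 + v 2 * B 2)) ^ 2) * hv'
      + (1/4) * (B 0 * B 0 + B 1 * B 1 + B 2 * B 2) * hσ - (3/8) * σ * hzB'
  rw [key]
  have h2 : dot3 w w = w 0 * w 0 + w 1 * w 1 + w 2 * w 2 := rfl
  -- the orthogonal decomposition
  have hz : dot3 z z = dot3 v z ^ 2 + ((z 0 - dot3 v z * v 0) ^ 2 + (z 1 - dot3 v z * v 1) ^ 2
      + (z 2 - dot3 v z * v 2) ^ 2) := by
    simp only [dot3]
    linear_combination (-(v 0 * z 0 + v 1 * z 1 + v 2 * z 2) ^ 2) * hv'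
  have hB : dot3 B B = dot3 v B ^ 2 + ((B 0 - dot3 v B * v 0) ^ 2 + (B 1 - dot3 v B * v 1) ^ 2
      + (B 2 - dot3 v B * v 2) ^ 2) := by
    simp only [dot3]
    linear_combination (-(v 0 * B 0 + v 1 * B 1 + v 2 * B 2) ^ 2) * hv'
  have hzB2 : dot3 v z * dot3 v B + ((z 0 - dot3 v z * v 0) * (B 0 - dot3 v B * v 0)
      + (z 1 - dot3 v z * v 1) * (B 1 - dot3 v B * v 1)
      + (z 2 - dot3 v z * v 2) * (B 2 - dot3 v B * v 2)) = 0 := by
    simp only [dot3]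
    linear_combination hzB' + (v 0 * z 0 + v 1 * z 1 + v 2 * z 2)
      * (v 0 * B 0 + v 1 * B 1 + v 2 * B 2) * hv'
  have hβ : (σ * dot3 v B) ^ 2 = dot3 v B ^ 2 := by
    rw [mul_pow, hσ, one_mul]
  have q0 := q_part σ (z 0 - dot3 v z * v 0) (B 0 - dot3 v B * v 0) hσ
  have q1 := q_part σ (z 1 - dot3 v z * v 1) (B 1 - dot3 v B * v 1) hσ
  have q2 := q_part σ (z 2 - dot3 v z * v 2) (B 2 - dot3 v B * v 2) hσ
  have r := r_part (dot3 v z) (σ * dot3 v B)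
  rw [hz, hB, h2]
  generalize z 0 - dot3 v z * v 0 = p0 at *
  generalize z 1 - dot3 v z * v 1 = p1 at *
  generalize z 2 - dot3 v z * v 2 = p2 at *
  generalize B 0 - dot3 v B * v 0 = b0 at *
  generalize B 1 - dot3 v B * v 1 = b1 at *
  generalize B 2 - dot3 v B * v 2 = b2 at *
  have hc : σ * (dot3 v z * dot3 v B + (p0 * b0 + p1 * b1 + p2 * b2)) = 0 := by
    rw [hzB2, mul_zero]
  nlinarith only [h1, hβ, r, q0, q1, q2, hc, h1, q0, q1, q2, r, hc, hβ]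

end Pool.Agent.Helper46.M8
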