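import Pool.Agent.Helper46.M8.Basic
import Pool.Agent.Helper46.M8.Ns

/-!
# M8, piece A2
-/

open Filter Metric Module Set
open scoped Topology ContDiff Matrix Matrix.Norms.Elementwise ComplexConjugate

set_option maxSynthPendingDepth 3

namespace Pool.Agent.Helper46.M8
open Pool.Agent.Helper20.PC Pool.Agent.Helper20.HP Pool.Agent.Helper20.M8 Pool.Agent.Helper20.MB

/-! ### A2 -/

/-- the basis consists of antihermitian matrices. -/
lemma A2_anti (i : Fin 8) : (Bs i)ᴴ = -Bs i := by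
  fin_cases i <;> (ext a b; fin_cases a <;> fin_cases b <;> simp [Bs, Matrix.conjTranspose_apply])

/-- completeness of the basis. -/
lemma A2_compl (X : Mat) :
    ∑ i, (C0 i i : ℂ) • ((Bs i * X).trace • Bs i) =
      (-2 : ℂ) • X + ((2 / 3 : ℂ) * X.trace) • (1 : Mat) := by
  have hI : Complex.I ^ 2 = -1 := Complex.I_sq
  ext a b
  rw [Fin.sum_univ_eight]
  fin_cases a <;> fin_cases b <;>
    simp [Bs, C0, Matrix.trace_fin_three, Matrix.vecMul, dotProduct, Fin.sum_univ_three] <;>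
    ring_nf <;> simp only [hI] <;> ring

/-- completeness of the conjugated basis. -/
lemma A2_complU {U : Mat} (hU : Uᴴ * U = 1) (X : Mat) :
    ∑ i, (C0 i i : ℂ) • ((Uᴴ * Bs i * U * X).trace • (Uᴴ * Bs i * U)) =
      (-2 : ℂ) • X + ((2 / 3 : ℂ) * X.trace) • (1 : Mat) := by
  have h := congrArg (fun M => Uᴴ * M * U) (A2_compl (U * X * Uᴴ))
  have h1 : ∀ i, (Bs i * (U * X * Uᴴ)).trace = (Uᴴ * Bs i * U * X).trace := by
    intro i
    rw [← Matrix.mul_assoc, Matrix.trace_mul_comm]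
    simp only [Matrix.mul_assoc]
  have h2 : (U * X * Uᴴ).trace = X.trace := by
    rw [Matrix.trace_mul_comm, ← Matrix.mul_assoc, hU, Matrix.one_mul]
  have h3 : Uᴴ * (U * X * Uᴴ) * U = X := by
    calc Uᴴ * (U * X * Uᴴ) * U = (Uᴴ * U) * X * (Uᴴ * U) := by simp only [Matrix.mul_assoc]
      _ = X := by rw [hU, Matrix.one_mul, Matrix.mul_one]
  simp only [h1, h2, Matrix.mul_sum, Matrix.sum_mul, Matrix.mul_smul, Matrix.smul_mul,
    Matrix.mul_add, Matrix.add_mul, h3, Matrix.mul_one, hU] at h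
  exact h

/-- the coefficients of a real functional. -/
noncomputable def A2_a (ξ : V →L[ℝ] ℝ) (p : Fin 2) : ℂ :=
  ⟨ξ (Pi.single p 1), -ξ (Pi.single p Complex.I)⟩

lemma A2_xi (ξ : V →L[ℝ] ℝ) (v : V) : ξ v = (A2_a ξ 0 * v 0 + A2_a ξ 1 * v 1).re := by
  have h : v = (v 0).re • (Pi.single 0 1 : V) + (v 0).im • (Pi.single 0 Complex.I : V) +
      ((v 1).re • (Pi.single 1 1 : V) + (v 1).im • (Pi.single 1 Complex.I : V)) := by
    ext p
    fin_cases p
    · simp [Complex.re_add_im]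
    · simp [Complex.re_add_im]
  conv_lhs => rw [h]
  simp only [map_add, map_smul, smul_eq_mul, A2_a, Complex.add_re, Complex.mul_re]
  ring

/-- the homogeneous coordinates. -/
def A2_Z (z : V) : Fin 3 → ℂ := ![1, z 0, z 1]

def A2_x (z : V) : Fin 2 → Fin 3 → ℂ := ![![-z 0, 1, 0], ![-z 1, 0, 1]]

def A2_X (z : V) (p : Fin 2) : Mat := Matrix.of fun d c => A2_Z z d * A2_x z p c

def A2_Y (z : V) (a : Fin 2 → ℂ) : Mat :=
  Matrix.of fun d c => A2_Z z d * (![-(a 0 * z 0 + a 1 * z 1), a 0, a 1] : Fin 3 → ℂ) c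

lemma A2_KA (A : Mat) (z : V) (p : Fin 2) : KA A z p = (A * A2_X z p).trace := by
  fin_cases p
  · simp [KA, A2_X, A2_Z, A2_x, Matrix.trace_fin_three, Matrix.mul_apply, Fin.sum_univ_three]
    ring
  · simp [KA, A2_X, A2_Z, A2_x, Matrix.trace_fin_three, Matrix.mul_apply, Fin.sum_univ_three]
    ring

lemma A2_KY (A : Mat) (z : V) (a : Fin 2 → ℂ) :
    (A * A2_Y z a).trace = a 0 * KA A z 0 + a 1 * KA A z 1 := by
  simp [KA, A2_Y, A2_Z, Matrix.trace_fin_three, Matrix.mul_apply, Fin.sum_univ_three]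
  ring

lemma A2_real (U : Mat) (z : V) (ξ : V →L[ℝ] ℝ) (i : Fin 8) :
    ((2 * ξ (Kf U i z) : ℝ) : ℂ) =
      (Uᴴ * Bs i * U * (A2_Y z (A2_a ξ) - (A2_Y z (A2_a ξ))ᴴ)).trace := by
  set A : Mat := Uᴴ * Bs i * U with hA
  have hanti : Aᴴ = -A := by
    rw [hA, Matrix.conjTranspose_mul, Matrix.conjTranspose_mul, Matrix.conjTranspose_conjTranspose,
      A2_anti]
    simp only [Matrix.mul_neg, Matrix.neg_mul, Matrix.mul_assoc]
  have h1 : (A * (A2_Y z (A2_a ξ))ᴴ).trace = -conj (A * A2_Y z (A2_a ξ)).trace := by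
    have h := Matrix.trace_conjTranspose (A * A2_Y z (A2_a ξ))
    rw [Matrix.conjTranspose_mul, hanti, Matrix.mul_neg, Matrix.trace_neg,
      Matrix.trace_mul_comm] at h
    rw [starRingEnd_apply, ← h, neg_neg]
  rw [Matrix.mul_sub, Matrix.trace_sub, h1, sub_neg_eq_add, Complex.add_conj, A2_KY, A2_xi ξ]
  rfl

lemma A2_CC {U : Mat} (hU : Uᴴ * U = 1) (z : V) (ξ : V →L[ℝ] ℝ) (p : Fin 2) :
    CC U 0 z ξ p = (nz z : ℂ) *
      (conj (A2_a ξ p) + z p * conj (A2_a ξ 0 * z 0 + A2_a ξ 1 * z 1)) := by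
  set a := A2_a ξ with ha
  set Y := A2_Y z a with hY
  have h0 : CC U 0 z ξ p = ∑ i, (C0 i i : ℂ) * ((ξ (Kf U i z) : ℝ) : ℂ) * Kf U i z p := by
    rw [CC_apply, Finset.sum_apply]
    refine Finset.sum_congr rfl fun i _ => ?_
    rw [Finset.sum_apply, Finset.sum_eq_single i]
    · simp [Cm]
    · intro j _ hj
      simp [Cm, C0, hj.symm]
    · simp
  have h1 : ∑ i, (C0 i i : ℂ) * ((ξ (Kf U i z) : ℝ) : ℂ) * Kf U i z p =
      (1 / 2 : ℂ) * ((∑ i, (C0 i i : ℂ) • ((Uᴴ * Bs i * U * (Y - Yᴴ)).trace •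
        (Uᴴ * Bs i * U))) * A2_X z p).trace := by
    rw [Matrix.sum_mul, Matrix.trace_sum, Finset.mul_sum]
    refine Finset.sum_congr rfl fun i _ => ?_
    rw [Matrix.smul_mul, Matrix.smul_mul, Matrix.trace_smul, Matrix.trace_smul, ← A2_real,
      show Kf U i z p = (Uᴴ * Bs i * U * A2_X z p).trace from A2_KA _ _ _, smul_eq_mul,
      smul_eq_mul]
    push_cast
    ring
  have htr : Y.trace = 0 := by
    simp [hY, A2_Y, A2_Z, Matrix.trace_fin_three]
    ring
  have htr' : (Y - Yᴴ).trace = 0 := by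
    rw [Matrix.trace_sub, Matrix.trace_conjTranspose, htr]
    simp
  rw [h0, h1, A2_complU hU, htr', mul_zero, zero_smul, add_zero, Matrix.smul_mul,
    Matrix.trace_smul, smul_eq_mul, Matrix.sub_mul, Matrix.trace_sub]
  have hn : (nz z : ℂ) = 1 + conj (z 0) * z 0 + conj (z 1) * z 1 := by
    unfold nz
    push_cast
    rw [Fin.sum_univ_two, Complex.normSq_eq_conj_mul_self, Complex.normSq_eq_conj_mul_self]
    ring
  have e1 : (Y * A2_X z p).trace = 0 := by
    fin_cases p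
    · simp [hY, A2_Y, A2_Z, A2_X, A2_x, Matrix.trace_fin_three, Matrix.mul_apply,
        Fin.sum_univ_three]
      ring
    · simp [hY, A2_Y, A2_Z, A2_X, A2_x, Matrix.trace_fin_three, Matrix.mul_apply,
        Fin.sum_univ_three]
      ring
  have e2 : (Yᴴ * A2_X z p).trace = (nz z : ℂ) *
      (conj (a p) + z p * conj (a 0 * z 0 + a 1 * z 1)) := by
    rw [hn]
    fin_cases p
    · simp [hY, A2_Y, A2_Z, A2_X, A2_x, Matrix.trace_fin_three, Matrix.mul_apply,
        Fin.sum_univ_three, Matrix.conjTranspose_apply]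
      ring
    · simp [hY, A2_Y, A2_Z, A2_X, A2_x, Matrix.trace_fin_three, Matrix.mul_apply,
        Fin.sum_univ_three, Matrix.conjTranspose_apply]
      ring
  rw [e1, e2]
  ring

theorem h0_CC {U : Mat} (hU : Uᴴ * U = 1) (z : V) (ξ : V →L[ℝ] ℝ) (v : V) :
    h0 z (CC U 0 z ξ) v = ξ v := by
  have hn : (nz z : ℂ) = 1 + conj (z 0) * z 0 + conj (z 1) * z 1 := by
    unfold nz
    push_cast
    rw [Fin.sum_univ_two, Complex.normSq_eq_conj_mul_self, Complex.normSq_eq_conj_mul_self]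
    ring
  have hn0 := nz_pos z
  set s : ℂ := A2_a ξ 0 * z 0 + A2_a ξ 1 * z 1 with hs
  have h1 : hip (CC U 0 z ξ) v = (nz z : ℂ) *
      (A2_a ξ 0 * v 0 + A2_a ξ 1 * v 1 + s * hip z v) := by
    unfold hip
    rw [Fin.sum_univ_two, Fin.sum_univ_two, A2_CC hU, A2_CC hU, ← hs]
    simp only [map_mul, map_add, Complex.conj_conj, Complex.conj_ofReal]
    ring
  have h2 : hip (CC U 0 z ξ) z = (nz z : ℂ) ^ 2 * s := by
    unfold hip
    rw [Fin.sum_univ_two, A2_CC hU, A2_CC hU, ← hs]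
    simp only [map_mul, map_add, Complex.conj_conj, Complex.conj_ofReal]
    rw [hn, hs]
    ring
  rw [h0_apply, h0f, h1, h2, A2_xi ξ v, Complex.re_ofReal_mul,
    show (nz z : ℂ) ^ 2 * s * hip z v = ((nz z ^ 2 : ℝ) : ℂ) * (s * hip z v) by
      push_cast
      ring, Complex.re_ofReal_mul, Complex.add_re, Complex.add_re]
  have : nz z ^ 2 ≠ 0 := by positivity
  rw [div_eq_iff this]
  ring

end Pool.Agent.Helper46.M8
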