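import Pool.Agent.Helper46.M8.Defs2

/-!
# M8, piece A3
-/

open Filter Metric Module Set
open scoped Topology ContDiff Matrix Matrix.Norms.Elementwise ComplexConjugate

set_option maxSynthPendingDepth 3

namespace Pool.Agent.Helper46.M8
open Pool.Agent.Helper20.PC Pool.Agent.Helper20.HP Pool.Agent.Helper20.M8 Pool.Agent.Helper20.MB

/-! ### A3 : elementary facts -/
theorem h0_symm (z u v : V) : h0 z u v = h0 z v u := by
  simp only [h0_apply, h0f, hip, Fin.sum_univ_two, Complex.add_re, Complex.mul_re, Complex.add_im,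
    Complex.mul_im, Complex.conj_re, Complex.conj_im]
  ring

theorem h0_pos (z u : V) (hu : u ≠ 0) : 0 < h0 z u u := by
  rw [h0_apply, h0f]
  refine div_pos ?_ (pow_pos (nz_pos z) 2)
  have e : nz z * (hip u u).re - (hip u z * hip z u).re =
      ((u 0).re ^ 2 + (u 0).im ^ 2 + ((u 1).re ^ 2 + (u 1).im ^ 2)) +
      ((u 0 * z 1 - u 1 * z 0).re ^ 2 + (u 0 * z 1 - u 1 * z 0).im ^ 2) := by
    simp only [nz, hip, Fin.sum_univ_two, Complex.add_re, Complex.mul_re, Complex.add_im,
      Complex.mul_im, Complex.conj_re, Complex.conj_im, Complex.normSq_apply, Complex.sub_re,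
      Complex.sub_im]
    ring
  rw [e]
  have h1 : 0 < (u 0).re ^ 2 + (u 0).im ^ 2 + ((u 1).re ^ 2 + (u 1).im ^ 2) := by
    by_contra hcon
    push Not at hcon
    have a1 := sq_nonneg (u 0).re
    have a2 := sq_nonneg (u 0).im
    have a3 := sq_nonneg (u 1).re
    have a4 := sq_nonneg (u 1).im
    have b1 : (u 0).re = 0 := pow_eq_zero_iff (two_ne_zero) |>.1 (by linarith)
    have b2 : (u 0).im = 0 := pow_eq_zero_iff (two_ne_zero) |>.1 (by linarith)
    have b3 : (u 1).re = 0 := pow_eq_zero_iff (two_ne_zero) |>.1 (by linarith)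
    have b4 : (u 1).im = 0 := pow_eq_zero_iff (two_ne_zero) |>.1 (by linarith)
    apply hu
    funext k
    fin_cases k
    · exact Complex.ext b1 b2
    · exact Complex.ext b3 b4
  have h2 := sq_nonneg (u 0 * z 1 - u 1 * z 0).re
  have h3 := sq_nonneg (u 0 * z 1 - u 1 * z 0).im
  linarith

theorem h0_iL (z u v : V) : h0 z (iL u) (iL v) = h0 z u v := by
  simp only [h0_apply, iL_apply, Pi.smul_apply, smul_eq_mul, h0f, hip, Fin.sum_univ_two,
    Complex.add_re, Complex.mul_re, Complex.add_im, Complex.mul_im, Complex.conj_re,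
    Complex.conj_im, Complex.I_re, Complex.I_im]
  ring

theorem omL_skew (z u v : V) : omL z u v = - omL z v u := by
  simp only [omL, ContinuousLinearMap.comp_apply, h0_apply, iL_apply, Pi.smul_apply, smul_eq_mul,
    h0f, hip, Fin.sum_univ_two,
    Complex.add_re, Complex.mul_re, Complex.add_im, Complex.mul_im, Complex.conj_re,
    Complex.conj_im, Complex.I_re, Complex.I_im]
  ring

theorem Hf_re (z u v : V) : (Hf z u v).re = h0 z u v := by
  rw [Hf, h0_apply, h0f, ← Complex.ofReal_pow, Complex.div_ofReal_re, Complex.sub_re,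
    Complex.re_ofReal_mul]

theorem Hf_im (z u v : V) : (Hf z u v).im = omL z u v := by
  rw [Hf, ← Complex.ofReal_pow, Complex.div_ofReal_im, Complex.sub_im, Complex.im_ofReal_mul]
  simp only [omL, ContinuousLinearMap.comp_apply, h0_apply, iL_apply, Pi.smul_apply, smul_eq_mul,
    h0f, hip, Fin.sum_univ_two,
    Complex.add_re, Complex.mul_re, Complex.add_im, Complex.mul_im, Complex.conj_re,
    Complex.conj_im, Complex.I_re, Complex.I_im]
  ring

end Pool.Agent.Helper46.M8
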