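import Pool.Agent.Helper46.M8.Basic
import Pool.Agent.Helper46.M8.Ns

/-!
# M8, piece A4a
-/

open Filter Metric Module Set
open scoped Topology ContDiff Matrix Matrix.Norms.Elementwise ComplexConjugate

set_option maxSynthPendingDepth 3

namespace Pool.Agent.Helper46.M8
open Pool.Agent.Helper20.PC Pool.Agent.Helper20.HP Pool.Agent.Helper20.M8 Pool.Agent.Helper20.MB

/-! ### A4 : smoothness -/
lemma contDiff_coord (i : Fin 2) : ContDiff ℝ ∞ (fun z : V => z i) := contDiff_apply ℝ ℂ i

lemma contDiff_coord_re (i : Fin 2) : ContDiff ℝ ∞ (fun z : V => (z i).re) :=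
  Complex.reCLM.contDiff.comp (contDiff_coord i)

lemma contDiff_coord_im (i : Fin 2) : ContDiff ℝ ∞ (fun z : V => (z i).im) :=
  Complex.imCLM.contDiff.comp (contDiff_coord i)

lemma contDiff_coord_conj (i : Fin 2) : ContDiff ℝ ∞ (fun z : V => conj (z i)) :=
  Complex.conjCLE.contDiff.comp (contDiff_coord i)

lemma contDiff_nz : ContDiff ℝ ∞ (nz : V → ℝ) := by
  unfold nz
  refine contDiff_const.add (ContDiff.sum fun i _ => ?_)
  simp only [Complex.normSq_apply]
  exact ((contDiff_coord_re i).mul (contDiff_coord_re i)).add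
    ((contDiff_coord_im i).mul (contDiff_coord_im i))

lemma contDiff_hip_right (u : V) : ContDiff ℝ ∞ (fun z : V => hip u z) := by
  unfold hip
  exact ContDiff.sum fun i _ => contDiff_const.mul (contDiff_coord i)

lemma contDiff_hip_left (v : V) : ContDiff ℝ ∞ (fun z : V => hip z v) := by
  unfold hip
  exact ContDiff.sum fun i _ => (contDiff_coord_conj i).mul contDiff_const

lemma contDiff_h0f (u v : V) : ContDiff ℝ ∞ (fun z : V => h0f z u v) := by
  unfold h0f
  refine ContDiff.div ?_ (contDiff_nz.pow 2) (fun z => (pow_pos (nz_pos z) 2).ne')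
  refine (contDiff_nz.mul contDiff_const).sub ?_
  exact Complex.reCLM.contDiff.comp ((contDiff_hip_right u).mul (contDiff_hip_left v))

theorem contDiff_h0 : ContDiff ℝ ∞ (h0 : V → V →L[ℝ] V →L[ℝ] ℝ) := by
  rw [contDiff_clm_apply_iff]
  intro u
  rw [contDiff_clm_apply_iff]
  intro v
  simp only [h0_apply]
  exact contDiff_h0f u v

theorem contDiff_omL : ContDiff ℝ ∞ (omL : V → V →L[ℝ] V →L[ℝ] ℝ) := by
  unfold omL
  exact contDiff_h0.clm_comp contDiff_const

end Pool.Agent.Helper46.M8
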