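import Pool.Agent.Helper46.M8.Defs2

/-!
# M8, piece A4b
-/

open Filter Metric Module Set
open scoped Topology ContDiff Matrix Matrix.Norms.Elementwise ComplexConjugate

set_option maxSynthPendingDepth 3

namespace Pool.Agent.Helper46.M8
open Pool.Agent.Helper20.PC Pool.Agent.Helper20.HP Pool.Agent.Helper20.M8 Pool.Agent.Helper20.MB

private lemma A4b_ent (i j : Fin 3) : ContDiff ℝ ∞ (fun A : Mat => A i j) :=
  contDiff_apply_apply ℝ ℂ i j

private lemma A4b_mat {E : Type*} [NormedAddCommGroup E] [NormedSpace ℝ E] {f : E → Mat}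
    (h : ∀ i j, ContDiff ℝ ∞ (fun x => f x i j)) : ContDiff ℝ ∞ f :=
  contDiff_pi.2 fun i => contDiff_pi.2 fun j => h i j

/-! ### A4 : smoothness -/
theorem contDiff_KA : ContDiff ℝ ∞ (fun q : Mat × V => KA q.1 q.2) := by
  have hA : ∀ i j : Fin 3, ContDiff ℝ ∞ (fun q : Mat × V => q.1 i j) := fun i j =>
    (A4b_ent i j).comp contDiff_fst
  have hz : ∀ i : Fin 2, ContDiff ℝ ∞ (fun q : Mat × V => q.2 i) := fun i =>
    (contDiff_apply ℝ ℂ i).comp contDiff_snd
  refine contDiff_pi.2 fun i => ?_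
  unfold KA
  refine ContDiff.sub ((hA _ _).add (ContDiff.sum fun j _ => (hA _ _).mul (hz _))) ?_
  exact (hz _).mul ((hA _ _).add (ContDiff.sum fun j _ => (hA _ _).mul (hz _)))

private lemma A4b_conj (i : Fin 8) : ContDiff ℝ ∞ (fun U : Mat => Uᴴ * Bs i * U) := by
  refine A4b_mat fun a b => ?_
  simp only [Matrix.mul_apply, Matrix.conjTranspose_apply]
  refine ContDiff.sum fun c _ => ContDiff.mul (ContDiff.sum fun e _ => ContDiff.mul ?_ ?_) ?_
  · exact (Complex.conjCLE.contDiff).comp (A4b_ent _ _)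
  · exact contDiff_const
  · exact A4b_ent _ _

theorem contDiff_Kf (i : Fin 8) : ContDiff ℝ ∞ (fun q : Pm × V => Kf q.1.1 i q.2) := by
  unfold Kf
  exact contDiff_KA.comp (((A4b_conj i).comp (contDiff_fst.comp contDiff_fst)).prodMk contDiff_snd)

theorem contDiff_CC : ContDiff ℝ ∞ (fun q : Pm × V => CC q.1.1 q.1.2.1 q.2) := by
  unfold CC
  refine ContDiff.sum fun i _ => ContDiff.sum fun j _ => ?_
  have h0 : ContDiff ℝ ∞ (fun q : Pm × V => Cm q.1.2.1 i j) := by
    unfold Cm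
    exact contDiff_const.add ((contDiff_fst.comp (contDiff_snd.comp contDiff_fst)).mul contDiff_const)
  have h1 : ContDiff ℝ ∞ (fun q : Pm × V => ContinuousLinearMap.apply ℝ ℝ (Kf q.1.1 i q.2)) :=
    (ContinuousLinearMap.contDiff _).comp (contDiff_Kf i)
  exact h0.smul (h1.smulRight (contDiff_Kf j))

end Pool.Agent.Helper46.M8
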