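import Pool.Agent.Helper46.M8.Frame
import Pool.Agent.Helper46.M8.Ns

/-!
# M8, piece A5
-/

open Filter Metric Module Set
open scoped Topology ContDiff Matrix Matrix.Norms.Elementwise ComplexConjugate

set_option maxSynthPendingDepth 3

namespace Pool.Agent.Helper46.M8
open Pool.Agent.Helper20.PC Pool.Agent.Helper20.HP Pool.Agent.Helper20.M8 Pool.Agent.Helper20.MB

/-! ### A5 : derivatives with parameters -/
section
variable {P W E : Type*} [NormedAddCommGroup P] [NormedSpace ℝ P] [NormedAddCommGroup W]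
  [NormedSpace ℝ W] [NormedAddCommGroup E] [NormedSpace ℝ E]

theorem contDiffAt_fderiv_param {F : P × W → E} {p : P} {z : W} (h : ContDiffAt ℝ ∞ F (p, z)) :
    ContDiffAt ℝ ∞ (fun q : P × W => fderiv ℝ (fun z' => F (q.1, z')) q.2) (p, z) := by
  have h1 : ContDiffAt ℝ ∞ (fun a : (P × W) × W => (a.1.1, a.2)) ((p, z), z) := by fun_prop
  have h2 : ContDiffAt ℝ ∞ (Function.uncurry fun (q : P × W) (z' : W) => F (q.1, z'))
      ((p, z), z) := ContDiffAt.comp (g := F) ((p, z), z) h h1
  exact ContDiffAt.fderiv (f := fun (q : P × W) (z' : W) => F (q.1, z'))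
    (g := fun q : P × W => q.2) h2 contDiffAt_snd (by simp)

theorem contDiffAt_lie_param {X : P × W → W} {f : P × W → E} {p : P} {z : W}
    (hX : ContDiffAt ℝ ∞ X (p, z)) (hf : ContDiffAt ℝ ∞ f (p, z)) :
    ContDiffAt ℝ ∞ (fun q : P × W => lie (fun z' => X (q.1, z')) (fun z' => f (q.1, z')) q.2)
      (p, z) := by
  unfold lie
  exact (contDiffAt_fderiv_param hf).clm_apply hX

/-- the smoothness of the jets of `f` along `X`. -/
theorem contDiffAt_jet_param {X : P × W → W} {f : P × W → ℝ} {p : P} {z : W}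
    (hX : ContDiffAt ℝ ∞ X (p, z)) (hf : ContDiffAt ℝ ∞ f (p, z)) :
    ContDiffAt ℝ ∞ (fun q : P × W => (jetF (fun z' => X (q.1, z')) (fun z' => f (q.1, z')) q.2).a)
      (p, z) ∧
    ContDiffAt ℝ ∞ (fun q : P × W => (jetF (fun z' => X (q.1, z')) (fun z' => f (q.1, z')) q.2).b)
      (p, z) ∧
    ContDiffAt ℝ ∞ (fun q : P × W => (jetF (fun z' => X (q.1, z')) (fun z' => f (q.1, z')) q.2).c)
      (p, z) := by
  have h1 := contDiffAt_lie_param hX hf
  refine ⟨hf, h1, ?_⟩
  exact contDiffAt_lie_param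
    (f := fun q : P × W => lie (fun z' => X (q.1, z')) (fun z' => f (q.1, z')) q.2) hX h1

end

/-- inversion of continuous linear maps in finite dimension. -/
theorem contDiffAt_inverse_comp {Q W : Type*} [NormedAddCommGroup Q] [NormedSpace ℝ Q]
    [NormedAddCommGroup W] [NormedSpace ℝ W] [FiniteDimensional ℝ W] {W' : Type*}
    [NormedAddCommGroup W'] [NormedSpace ℝ W'] [FiniteDimensional ℝ W'] {F : Q → W →L[ℝ] W'} {q : Q}
    (h : ContDiffAt ℝ ∞ F q) (hi : (F q).IsInvertible) :
    ContDiffAt ℝ ∞ (fun q => (F q).inverse) q := by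
  haveI : CompleteSpace W := FiniteDimensional.complete ℝ W
  exact ContDiffAt.comp (g := ContinuousLinearMap.inverse) q hi.contDiffAt_map_inverse h

end Pool.Agent.Helper46.M8
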