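import Pool.Agent.Helper46.M8.St.A3
import Pool.Agent.Helper46.M8.St.A4a

/-!
# M8, piece A6
-/

open Filter Metric Module Set
open scoped Topology ContDiff Matrix Matrix.Norms.Elementwise ComplexConjugate

set_option maxSynthPendingDepth 3

namespace Pool.Agent.Helper46.M8
open Pool.Agent.Helper20.PC Pool.Agent.Helper20.HP Pool.Agent.Helper20.M8 Pool.Agent.Helper20.MB

/-! ### A6 : geometry of the Fubini-Study metric -/
theorem h0_metAt (z : V) : MetAt h0 z :=
  ⟨(contDiff_infty.1 contDiff_h0 2).contDiffAt,
    Eventually.of_forall fun z' u v => h0_symm z' u v,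
    Eventually.of_forall fun z' u hu => h0_pos z' u hu⟩

private lemma hip_conj (u v : V) : hip v u = conj (hip u v) := by
  simp [hip, mul_comm]

private lemma hip_line (u z t : V) (s : ℝ) : hip u (z + s • t) = hip u z + s * hip u t := by
  simp only [hip, Fin.sum_univ_two, Pi.add_apply, Pi.smul_apply, Complex.real_smul]
  ring

private lemma hip_line' (u z t : V) (s : ℝ) : hip (z + s • t) u = hip z u + s * hip t u := by
  rw [hip_conj, hip_line, hip_conj z u, hip_conj t u]
  simp

private lemma nz_line (z t : V) (s : ℝ) :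
    nz (z + s • t) = nz z + 2 * (hip z t).re * s + (hip t t).re * s ^ 2 := by
  simp only [nz, hip, Fin.sum_univ_two, Pi.add_apply, Pi.smul_apply, Complex.real_smul,
    Complex.normSq_apply, Complex.add_re, Complex.mul_re, Complex.add_im,
    Complex.mul_im, Complex.conj_re, Complex.conj_im, Complex.ofReal_re, Complex.ofReal_im]
  ring

private lemma quad_deriv (n a b A B C : ℝ) (hn : n ≠ 0) :
    HasDerivAt (fun s : ℝ => (A + B * s + C * s ^ 2) / (n + a * s + b * s ^ 2) ^ 2)
      (B / n ^ 2 - 2 * A * a / n ^ 3) 0 := by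
  have h1 : HasDerivAt (fun s : ℝ => A + B * s + C * s ^ 2) B 0 := by
    have := (((hasDerivAt_id (0 : ℝ)).const_mul B).const_add A).add
      (((hasDerivAt_id (0 : ℝ)).pow 2).const_mul C)
    exact this.congr_deriv (by simp)
  have h2 : HasDerivAt (fun s : ℝ => n + a * s + b * s ^ 2) a 0 := by
    have := (((hasDerivAt_id (0 : ℝ)).const_mul a).const_add n).add
      (((hasDerivAt_id (0 : ℝ)).pow 2).const_mul b)
    exact this.congr_deriv (by simp)
  have h3 := h1.div (h2.pow 2) (by simpa using hn)
  refine h3.congr_deriv ?_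
  simp
  field_simp

private lemma dG_h0 (z t u v : V) : dG h0 z t u v =
    (2 * (hip z t).re * (hip u v).re - (hip u t * hip z v + hip u z * hip t v).re) / nz z ^ 2 -
      2 * (nz z * (hip u v).re - (hip u z * hip z v).re) * (2 * (hip z t).re) / nz z ^ 3 := by
  have hd : DifferentiableAt ℝ (fun z' => h0 z' u v) z :=
    (smooth2 (h0_metAt z).smooth u v).differentiableAt (by norm_num)
  have h1 : HasDerivAt (fun s : ℝ => h0 (z + s • t) u v) (dG h0 z t u v) 0 := by
    have h2 : HasDerivAt (fun s : ℝ => z + s • t) t 0 := by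
      simpa using ((hasDerivAt_id (0 : ℝ)).smul_const t).const_add z
    have h3 := HasFDerivAt.comp_hasDerivAt (x := (0 : ℝ)) (f := fun s : ℝ => z + s • t)
      (l := fun z' => h0 z' u v) (l' := fderiv ℝ (fun z' => h0 z' u v) z) (f' := t)
      (by simpa using hd.hasFDerivAt) h2
    exact h3
  have h4 := quad_deriv (nz z) (2 * (hip z t).re) (hip t t).re
    (nz z * (hip u v).re - (hip u z * hip z v).re)
    (2 * (hip z t).re * (hip u v).re - (hip u t * hip z v + hip u z * hip t v).re)
    ((hip t t).re * (hip u v).re - (hip u t * hip t v).re) (nz_pos z).ne'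
  refine (h1.unique (h4.congr_of_eventuallyEq ?_))
  refine Eventually.of_forall fun s => ?_
  show h0 (z + s • t) u v = _
  rw [h0_apply, h0f, nz_line, hip_line, hip_line']
  congr 1
  simp only [Complex.add_re, Complex.mul_re, Complex.add_im,
    Complex.mul_im, Complex.ofReal_re, Complex.ofReal_im]
  ring

private lemma hip_a (z u v w : V) :
    hip (- ((nz z : ℂ)⁻¹ • (hip z u • v + hip z v • u))) w =
      - ((nz z : ℂ)⁻¹ * (conj (hip z u) * hip v w + conj (hip z v) * hip u w)) := by
  have : ∀ (c : ℂ) (x y : V), hip (c • x) y = conj c * hip x y := by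
    intro c x y
    simp only [hip, Fin.sum_univ_two, Pi.smul_apply, smul_eq_mul, map_mul]
    ring
  have h2 : ∀ x x' y : V, hip (x + x') y = hip x y + hip x' y := by
    intro x x' y
    simp only [hip, Fin.sum_univ_two, Pi.add_apply, map_add]
    ring
  have h3 : ∀ x y : V, hip (- x) y = - hip x y := by
    intro x y
    simp only [hip, Fin.sum_univ_two, Pi.neg_apply, map_neg]
    ring
  rw [h3, this, h2, this, this, map_inv₀, Complex.conj_ofReal]

theorem Gam_h0 (z u v : V) :
    Gam h0 z u v = - ((nz z : ℂ)⁻¹ • (hip z u • v + hip z v • u)) := by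
  refine Gam_unique (h0_metAt z) fun w => ?_
  rw [chr_apply (h0_metAt z).smooth, dG_h0, dG_h0, dG_h0, h0_apply, h0f, hip_a, hip_a]
  have hn : nz z ≠ 0 := (nz_pos z).ne'
  rw [hip_conj u v, hip_conj z u, hip_conj z v, hip_conj v w]
  generalize hip z u = p
  generalize hip z v = q
  generalize hip z w = r
  generalize hip u v = a
  generalize hip u w = b
  generalize hip v w = c
  generalize nz z = n at *
  rw [← Complex.ofReal_inv]
  simp only [Complex.add_re, Complex.mul_re, Complex.add_im, Complex.neg_re, Complex.neg_im,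
    Complex.mul_im, Complex.ofReal_re, Complex.ofReal_im, Complex.conj_re, Complex.conj_im]
  field_simp
  ring

theorem omL_par (z u v w : V) :
    fderiv ℝ omL z u v w = omL z (Gam h0 z u v) w + omL z v (Gam h0 z u w) := by
  have hM := h0_metAt z
  have h1 : fderiv ℝ omL z u v w = dG h0 z u (iL v) w := by
    have hd : HasFDerivAt (omL : V → V →L[ℝ] V →L[ℝ] ℝ) (fderiv ℝ omL z) z :=
      ((contDiff_omL.differentiable (by simp)) z).hasFDerivAt
    have h2 := ((hd.clm_apply (hasFDerivAt_const v z)).clm_apply (hasFDerivAt_const w z)).fderiv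
    have h3 : dG h0 z u (iL v) w = fderiv ℝ (fun z' => omL z' v w) z u := rfl
    rw [h3, h2]
    simp
  have h2 : Gam h0 z u (iL v) = iL (Gam h0 z u v) := by
    rw [Gam_h0, Gam_h0, iL_apply, iL_apply]
    have : hip z (Complex.I • v) = Complex.I * hip z v := by
      simp only [hip, Fin.sum_univ_two, Pi.smul_apply, smul_eq_mul]
      ring
    rw [this]
    ext k
    simp only [Pi.neg_apply, Pi.smul_apply, Pi.add_apply, smul_eq_mul]
    ring
  rw [h1, dG_eq_chr hM, ← G_Gam hM, ← G_Gam hM, h2, h0_symm z (Gam h0 z u w)]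
  rfl

end Pool.Agent.Helper46.M8
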