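import Pool.Agent.Helper46.M8.Basic
import Pool.Agent.Helper46.M8.Ns

/-!
# M8, piece A7
-/

open Filter Metric Module Set
open scoped Topology ContDiff Matrix Matrix.Norms.Elementwise ComplexConjugate

set_option maxSynthPendingDepth 3

namespace Pool.Agent.Helper46.M8
open Pool.Agent.Helper20.PC Pool.Agent.Helper20.HP Pool.Agent.Helper20.M8 Pool.Agent.Helper20.MB

/-! ### A7 : Killing fields -/

/-- the derivative of a component of a Killing field -/
noncomputable def A7_D (A : Mat) (z : V) (i : Fin 2) : V →L[ℝ] ℂ :=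
  (A i.succ 1 • (ContinuousLinearMap.proj 0 : V →L[ℝ] ℂ) +
      A i.succ 2 • (ContinuousLinearMap.proj 1 : V →L[ℝ] ℂ)) -
    ((z i) • (A 0 1 • (ContinuousLinearMap.proj 0 : V →L[ℝ] ℂ) +
        A 0 2 • (ContinuousLinearMap.proj 1 : V →L[ℝ] ℂ)) +
      (A 0 0 + (A 0 1 * z 0 + A 0 2 * z 1)) • (ContinuousLinearMap.proj i : V →L[ℝ] ℂ))

theorem A7_KA (A : Mat) (z : V) (i : Fin 2) :
    KA A z i = A i.succ 0 + (A i.succ 1 * z 0 + A i.succ 2 * z 1) -
      z i * (A 0 0 + (A 0 1 * z 0 + A 0 2 * z 1)) := by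
  simp only [KA, Fin.sum_univ_two]
  rfl

theorem A7_has (A : Mat) (z : V) :
    HasFDerivAt (KA A) (ContinuousLinearMap.pi (A7_D A z)) z := by
  rw [hasFDerivAt_pi']
  intro i
  have h : (fun z => KA A z i) = fun z : V => A i.succ 0 + (A i.succ 1 * z 0 + A i.succ 2 * z 1) -
      z i * (A 0 0 + (A 0 1 * z 0 + A 0 2 * z 1)) := by
    funext z; exact A7_KA A z i
  rw [h]
  have hp : ∀ j : Fin 2, HasFDerivAt (fun z : V => z j)
      (ContinuousLinearMap.proj j : V →L[ℝ] ℂ) z := fun j =>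
    (ContinuousLinearMap.proj j : V →L[ℝ] ℂ).hasFDerivAt
  have h1 := (((hp 0).const_mul (A i.succ 1)).add ((hp 1).const_mul (A i.succ 2))).const_add
    (A i.succ 0)
  have h2 := (((hp 0).const_mul (A 0 1)).add ((hp 1).const_mul (A 0 2))).const_add (A 0 0)
  have h3 := h1.sub ((hp i).mul h2)
  exact h3

theorem A7_fderiv (A : Mat) (z v : V) (i : Fin 2) :
    fderiv ℝ (KA A) z v i = (A i.succ 1 * v 0 + A i.succ 2 * v 1) -
      (z i * (A 0 1 * v 0 + A 0 2 * v 1) + (A 0 0 + (A 0 1 * z 0 + A 0 2 * z 1)) * v i) := by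
  rw [(A7_has A z).fderiv]
  rfl

theorem KA_add (A B : Mat) (z : V) : KA (A + B) z = KA A z + KA B z := by
  funext i
  simp only [A7_KA, Pi.add_apply, Matrix.add_apply]
  ring

theorem KA_smul (r : ℝ) (A : Mat) (z : V) : KA (r • A) z = r • KA A z := by
  funext i
  simp only [A7_KA, Pi.smul_apply, Matrix.smul_apply, Complex.real_smul]
  ring

theorem KA_bracket (A B : Mat) (z : V) :
    fderiv ℝ (KA A) z (KA B z) - fderiv ℝ (KA B) z (KA A z) = KA (A * B - B * A) z := by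
  funext i
  rw [Pi.sub_apply, A7_fderiv, A7_fderiv]
  simp only [A7_KA, Matrix.sub_apply, Matrix.mul_apply, Fin.sum_univ_three]
  fin_cases i
  · simp only [Fin.zero_eta, Fin.succ_zero_eq_one, Fin.mk_one, Fin.succ_one_eq_two]
    ring
  · simp only [Fin.zero_eta, Fin.succ_zero_eq_one, Fin.mk_one, Fin.succ_one_eq_two]
    ring

end Pool.Agent.Helper46.M8
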