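import Pool.Agent.Helper46.M8.Defs2

/-!
# M8, piece A8
-/

open Filter Metric Module Set
open scoped Topology ContDiff Matrix Matrix.Norms.Elementwise ComplexConjugate

set_option maxSynthPendingDepth 3

namespace Pool.Agent.Helper46.M8
open Pool.Agent.Helper20.PC Pool.Agent.Helper20.HP Pool.Agent.Helper20.M8 Pool.Agent.Helper20.MB

/-! ### A8 : the orbit -/

private lemma A8_orb (M : Mat) (h1 : Mᴴ = -M) (h2 : M.trace = 0) (h3 : M.det = 0)
    (h4 : (M * M).trace = -2) (m : Fin 8 → ℝ)
    (hm : ∀ i, m i = -(1 / 2) * ((M * Bs i).trace).re) : xc m ∈ Orb := by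
  have e : ∀ i j, (M j i).re = -(M i j).re ∧ (M j i).im = (M i j).im := by
    intro i j
    have h := congrFun (congrFun h1 i) j
    rw [Matrix.conjTranspose_apply, Matrix.neg_apply] at h
    have hr := congrArg Complex.re h
    have hi := congrArg Complex.im h
    simp at hr hi
    exact ⟨hr, hi⟩
  have e00 : (M 0 0).re = 0 := by have := (e 0 0).1; linarith
  have e11 : (M 1 1).re = 0 := by have := (e 1 1).1; linarith
  have e22 : (M 2 2).re = 0 := by have := (e 2 2).1; linarith
  obtain ⟨e10r, e10i⟩ := e 0 1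
  obtain ⟨e20r, e20i⟩ := e 0 2
  obtain ⟨e21r, e21i⟩ := e 1 2
  have t2 := congrArg Complex.im h2
  rw [Matrix.trace_fin_three] at t2
  simp only [Complex.add_im, Complex.zero_im] at t2
  have t3 := congrArg Complex.im h3
  rw [Matrix.det_fin_three] at t3
  simp only [Complex.add_im, Complex.sub_im, Complex.mul_im, Complex.mul_re, Complex.zero_im,
    e00, e11, e22, e10r, e10i, e20r, e20i, e21r, e21i] at t3
  have t4 := congrArg Complex.re h4
  simp only [Matrix.trace_fin_three, Matrix.mul_apply, Fin.sum_univ_three, Complex.add_re,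
    Complex.mul_re, e00, e11, e22, e10r, e10i, e20r, e20i, e21r, e21i] at t4
  have c2 : ((-2 : ℂ)).re = -2 := by simp
  rw [c2] at t4
  have m0 : m 0 = (M 0 1).im := by
    rw [hm 0]
    simp [Bs, Matrix.trace_fin_three, Matrix.mul_apply, Fin.sum_univ_three, e10i]
    ring
  have m1 : m 1 = (M 0 1).re := by
    rw [hm 1]
    simp [Bs, Matrix.trace_fin_three, Matrix.mul_apply, Fin.sum_univ_three, e10r]
    ring
  have m2 : m 2 = (M 0 2).im := by
    rw [hm 2]
    simp [Bs, Matrix.trace_fin_three, Matrix.mul_apply, Fin.sum_univ_three, e20i]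
    ring
  have m3 : m 3 = (M 0 2).re := by
    rw [hm 3]
    simp [Bs, Matrix.trace_fin_three, Matrix.mul_apply, Fin.sum_univ_three, e20r]
    ring
  have m4 : m 4 = (M 1 2).im := by
    rw [hm 4]
    simp [Bs, Matrix.trace_fin_three, Matrix.mul_apply, Fin.sum_univ_three, e21i]
    ring
  have m5 : m 5 = (M 1 2).re := by
    rw [hm 5]
    simp [Bs, Matrix.trace_fin_three, Matrix.mul_apply, Fin.sum_univ_three, e21r]
    ring
  have m6 : m 6 = ((M 0 0).im - (M 1 1).im) / 2 := by
    rw [hm 6]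
    simp [Bs, Matrix.trace_fin_three, Matrix.mul_apply, Fin.sum_univ_three]
    ring
  have m7 : m 7 = ((M 0 0).im + (M 1 1).im - 2 * (M 2 2).im) / 2 := by
    rw [hm 7]
    simp [Bs, Matrix.trace_fin_three, Matrix.mul_apply, Fin.sum_univ_three]
    ring
  have hg : (M 2 2).im = -(M 0 0).im - (M 1 1).im := by linarith
  have x7 : xc m 7 = ((M 0 0).im + (M 1 1).im) / 2 := by
    simp only [xc, if_true, smul_eq_mul, m7, hg]
    ring
  have x0 : xc m 0 = (M 0 1).im := by simp [xc, m0]
  have x1 : xc m 1 = (M 0 1).re := by simp [xc, m1]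
  have x2 : xc m 2 = (M 0 2).im := by simp [xc, m2]
  have x3 : xc m 3 = (M 0 2).re := by simp [xc, m3]
  have x4 : xc m 4 = (M 1 2).im := by simp [xc, m4]
  have x5 : xc m 5 = (M 1 2).re := by simp [xc, m5]
  have x6 : xc m 6 = ((M 0 0).im - (M 1 1).im) / 2 := by simp [xc, m6]
  rw [hg] at t3 t4
  generalize (M 0 0).im = α at *
  generalize (M 1 1).im = β at *
  generalize (M 0 1).im = q at *
  generalize (M 0 1).re = p at *
  generalize (M 0 2).im = s at *
  generalize (M 0 2).re = r at *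
  generalize (M 1 2).im = v at *
  generalize (M 1 2).re = u at *
  refine ⟨?_, ?_⟩
  · rw [x0, x1, x2, x3, x4, x5, x6, x7]
    linear_combination (-1 / 2) * t4
  · unfold detx
    rw [x0, x1, x2, x3, x4, x5, x6, x7]
    linear_combination (-1 : ℝ) * t3

/-- the matrix of a tangent vector at the origin. -/
private noncomputable def A8_am (w : V) : Mat :=
  !![0, -conj (w 0), -conj (w 1); w 0, 0, 0; w 1, 0, 0]

private lemma A8_Bs (i : Fin 8) : (Bs i)ᴴ = -Bs i := by
  fin_cases i <;> ext a b <;> fin_cases a <;> fin_cases b <;> simp [Bs]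

private lemma A8_mom (U : Mat) (w : V) (i : Fin 8) :
    h0 0 w (Kf U i 0) = -(1 / 2) * ((U * A8_am w * Uᴴ * Bs i).trace).re := by
  have h1 : (U * A8_am w * Uᴴ * Bs i).trace = (A8_am w * (Uᴴ * Bs i * U)).trace := by
    rw [Matrix.mul_assoc, Matrix.mul_assoc, Matrix.trace_mul_comm, Matrix.mul_assoc]
  rw [h1]
  set A : Mat := Uᴴ * Bs i * U with hA
  have hAH : Aᴴ = -A := by
    rw [hA, Matrix.conjTranspose_mul, Matrix.conjTranspose_mul, Matrix.conjTranspose_conjTranspose,
      A8_Bs, ← Matrix.mul_assoc]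
    simp
  have e : ∀ a b, (A b a).re = -(A a b).re ∧ (A b a).im = (A a b).im := by
    intro a b
    have h := congrFun (congrFun hAH a) b
    rw [Matrix.conjTranspose_apply, Matrix.neg_apply] at h
    have hr := congrArg Complex.re h
    have hi := congrArg Complex.im h
    simp at hr hi
    exact ⟨hr, hi⟩
  have k0 : Kf U i 0 0 = A 1 0 := by
    simp [Kf, KA, ← hA]
  have k1 : Kf U i 0 1 = A 2 0 := by
    simp [Kf, KA, ← hA]
  have hn : nz 0 = 1 := by simp [nz]
  have hl : h0 0 w (Kf U i 0) = (conj (w 0) * A 1 0 + conj (w 1) * A 2 0).re := by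
    rw [h0_apply, h0f, hn]
    simp only [hip, Fin.sum_univ_two, k0, k1]
    simp
  rw [hl]
  have hr : ((A8_am w * A).trace).re =
      (-conj (w 0) * A 1 0 + -conj (w 1) * A 2 0 + w 0 * A 0 1 + w 1 * A 0 2).re := by
    rw [Matrix.trace_fin_three]
    simp [A8_am, Matrix.mul_apply, Fin.sum_univ_three]
  rw [hr]
  obtain ⟨e1, e2⟩ := e 1 0
  obtain ⟨e3, e4⟩ := e 2 0
  simp only [Complex.add_re, Complex.mul_re, Complex.neg_re, Complex.neg_im, Complex.conj_re,
    Complex.conj_im, e1, e2, e3, e4]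
  ring

/-- the momentum of a unit covector lies on the orbit. -/
theorem orbit_mem {U : Mat} (hU : Uᴴ * U = 1) (w : V) (hw : h0 0 w w = 1) :
    xc (fun i => h0 0 w (Kf U i 0)) ∈ Orb := by
  have hn : nz 0 = 1 := by simp [nz]
  have hw' : Complex.normSq (w 0) + Complex.normSq (w 1) = 1 := by
    rw [h0_apply, h0f, hn] at hw
    simp only [hip, Fin.sum_univ_two] at hw
    simp at hw
    rw [Complex.normSq_apply, Complex.normSq_apply]
    linarith
  have haH : (A8_am w)ᴴ = -A8_am w := by
    ext a b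
    fin_cases a <;> fin_cases b <;> simp [A8_am]
  refine A8_orb (U * A8_am w * Uᴴ) ?_ ?_ ?_ ?_ _ fun i => A8_mom U w i
  · rw [Matrix.conjTranspose_mul, Matrix.conjTranspose_mul, Matrix.conjTranspose_conjTranspose,
      haH, ← Matrix.mul_assoc]
    simp
  · rw [Matrix.trace_mul_comm, ← Matrix.mul_assoc, hU, Matrix.one_mul, Matrix.trace_fin_three]
    simp [A8_am]
  · rw [Matrix.det_mul, Matrix.det_mul]
    have : (A8_am w).det = 0 := by
      rw [Matrix.det_fin_three]
      simp [A8_am]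
    rw [this]
    ring
  · have h1 : U * A8_am w * Uᴴ * (U * A8_am w * Uᴴ) = U * (A8_am w * A8_am w) * Uᴴ := by
      calc U * A8_am w * Uᴴ * (U * A8_am w * Uᴴ) = U * A8_am w * (Uᴴ * U) * A8_am w * Uᴴ := by
            simp only [Matrix.mul_assoc]
        _ = _ := by rw [hU, Matrix.mul_one]; simp only [Matrix.mul_assoc]
    rw [h1, Matrix.trace_mul_comm, ← Matrix.mul_assoc, hU, Matrix.one_mul,
      Matrix.trace_fin_three]
    have h2 : ∀ c : ℂ, conj c * c = (Complex.normSq c : ℂ) := fun c => by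
      rw [mul_comm, Complex.mul_conj]
    have h3 : (Complex.normSq (w 0) : ℂ) + Complex.normSq (w 1) = 1 := by
      exact_mod_cast congrArg (fun r : ℝ => (r : ℂ)) hw'
    simp [A8_am, Matrix.mul_apply, Fin.sum_univ_three]
    have h4 := h2 (w 0)
    have h5 := h2 (w 1)
    linear_combination (-2 : ℂ) * h4 + (-2 : ℂ) * h5 + (-2 : ℂ) * h3

end Pool.Agent.Helper46.M8
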