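import Pool.Agent.Helper46.M8.Basic
import Pool.Agent.Helper46.M8.Ns

/-!
# M8, piece A9 : the certificate
-/

open Filter Metric Module Set
open scoped Topology ContDiff Matrix Matrix.Norms.Elementwise ComplexConjugate

set_option maxSynthPendingDepth 3
set_option linter.all false

namespace Pool.Agent.Helper46.M8
open Pool.Agent.Helper20.PC Pool.Agent.Helper20.HP Pool.Agent.Helper20.M8 Pool.Agent.Helper20.MB

namespace A9

/-- block 0. -/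
def Q0 (m0 m1 m2 m3 m4 m5 m6 m7 m8 m9 m10 m11 m12 m13 m14 m15 : ℝ) : ℝ :=
  1110 * m0 ^ 2 + 394 * m0 * m1 - 70 * m0 * m2 - 726 * m0 * m3 - 1390 * m0 * m4 + 2032 * m0 * m5 +
      184 * m0 * m6 + 368 * m0 * m7 - 734 * m0 * m8 + 394 * m0 * m9 + 162 * m0 * m10 - 28 * m0 *
      m11 + 14 * m0 * m12 - 212 * m0 * m13 - 100 * m0 * m14 + 114 * m0 * m15 + 1090 * m1 ^ 2 -
      206 * m1 * m2 + 132 * m1 * m3 + 106 * m1 * m4 - 106 * m1 * m5 + 310 * m1 * m6 + 466 * m1 *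
      m7 + 358 * m1 * m8 - 574 * m1 * m9 + 194 * m1 * m10 - 20 * m1 * m11 - 402 * m1 * m12 - 608
      * m1 * m13 - 32 * m1 * m14 + 384 * m1 * m15 + 382 * m2 ^ 2 - 48 * m2 * m3 - 324 * m2 * m4
      + 642 * m2 * m5 - 84 * m2 * m6 + 68 * m2 * m7 + 16 * m2 * m8 + 202 * m2 * m9 + 68 * m2 *
      m10 - 210 * m2 * m11 + 254 * m2 * m12 - 370 * m2 * m13 + 106 * m2 * m14 - 534 * m2 * m15 +
      218 * m3 ^ 2 + 472 * m3 * m4 - 694 * m3 * m5 - 32 * m3 * m6 - 70 * m3 * m7 + 352 * m3 * m8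
      - 318 * m3 * m9 + 14 * m3 * m10 - 76 * m3 * m11 - 12 * m3 * m12 - 102 * m3 * m13 + 58 * m3
      * m14 + 44 * m3 * m15 + 1050 * m4 ^ 2 - 2412 * m4 * m5 + 474 * m4 * m6 - 324 * m4 * m7 +
      894 * m4 * m8 - 36 * m4 * m9 - 322 * m4 * m10 + 512 * m4 * m11 - 238 * m4 * m12 + 46 * m4
      * m13 - 142 * m4 * m14 + 504 * m4 * m15 + 1846 * m5 ^ 2 - 182 * m5 * m6 + 502 * m5 * m7 -
      940 * m5 * m8 + 456 * m5 * m9 + 496 * m5 * m10 - 624 * m5 * m11 + 478 * m5 * m12 - 554 *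
      m5 * m13 + 122 * m5 * m14 - 484 * m5 * m15 + 204 * m6 ^ 2 + 38 * m6 * m7 + 226 * m6 * m8 +
      172 * m6 * m9 - 36 * m6 * m10 + 188 * m6 * m11 - 58 * m6 * m12 - 242 * m6 * m13 - 100 * m6
      * m14 + 294 * m6 * m15 + 104 * m7 ^ 2 - 52 * m7 * m8 - 60 * m7 * m9 + 114 * m7 * m10 - 96
      * m7 * m11 - 18 * m7 * m12 - 222 * m7 * m13 + 14 * m7 * m14 - 2 * m7 * m15 + 288 * m8 ^ 2
      - 150 * m8 * m9 - 46 * m8 * m10 + 90 * m8 * m11 - 64 * m8 * m12 - 260 * m8 * m13 - 10 * m8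
      * m14 + 158 * m8 * m15 + 286 * m9 ^ 2 - 78 * m9 * m10 + 138 * m9 * m11 + 146 * m9 * m12 -
      2 * m9 * m13 - 72 * m9 * m14 - 56 * m9 * m15 + 80 * m10 ^ 2 - 160 * m10 * m11 + 56 * m10 *
      m12 - 168 * m10 * m13 + 42 * m10 * m14 - 36 * m10 * m15 + 158 * m11 ^ 2 - 136 * m11 * m12
      + 168 * m11 * m13 - 106 * m11 * m14 + 222 * m11 * m15 + 114 * m12 ^ 2 - 112 * m12 * m13 +
      52 * m12 * m14 - 194 * m12 * m15 + 364 * m13 ^ 2 - 40 * m13 * m14 + 52 * m13 * m15 + 40 *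
      m14 ^ 2 - 122 * m14 * m15 + 292 * m15 ^ 2

lemma Q0_ge (m0 m1 m2 m3 m4 m5 m6 m7 m8 m9 m10 m11 m12 m13 m14 m15 : ℝ) :
    4 * (m0 ^ 2 + m1 ^ 2 + m2 ^ 2 + m3 ^ 2 + m4 ^ 2 + m5 ^ 2 + m6 ^ 2 + m7 ^ 2 + m8 ^ 2 + m9 ^ 2 + m10 ^
      2 + m11 ^ 2 + m12 ^ 2 + m13 ^ 2 + m14 ^ 2 + m15 ^ 2)
      ≤ Q0 m0 m1 m2 m3 m4 m5 m6 m7 m8 m9 m10 m11 m12 m13 m14 m15 := by
  have h : Q0 m0 m1 m2 m3 m4 m5 m6 m7 m8 m9 m10 m11 m12 m13 m14 m15 = 4 * (m0 ^ 2 + m1 ^ 2 + m2 ^ 2 + m3 ^ 2 + m4 ^ 2 + m5 ^ 2 + m6 ^ 2 + m7 ^ 2 + m8 ^ 2 + m9 ^ 2 + m10 ^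
      2 + m11 ^ 2 + m12 ^ 2 + m13 ^ 2 + m14 ^ 2 + m15 ^ 2)
      + 1 / 36 * (36 * m14 + 21 * m10 + 7 * m7 + 26 * m12 - 53 * m11 - 50 * m6 + 29 * m3 - 36 * m9 - 5 *
      m8 - 61 * m15 - 20 * m13 + 53 * m2 - 71 * m4 - 16 * m1 - 50 * m0 + 61 * m5) ^ 2
      + 1 / 9180 * (765 * m10 + 635 * m7 + 154 * m12 - 589 * m11 + 134 * m6 - 119 * m3 - 216 * m9 - 241
      * m8 + 211 * m15 - 868 * m13 + 37 * m2 - 1435 * m4 + 1276 * m1 + 1322 * m0 + 2549 * m5) ^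
      2
      + 1 / 11527326 * (25114 * m7 - 11341 * m12 + 1399 * m11 + 8929 * m6 - 14875 * m3 - 3699 * m9 -
      3836 * m8 - 1714 * m15 - 21605 * m13 + 9701 * m2 - 22460 * m4 + 67862 * m1 + 46945 * m0 +
      28834 * m5) ^ 2
      + 1 / 1221708326570 * (9729301 * m12 - 2318651 * m11 + 1713761 * m6 - 4970401 * m3 + 12429461 * m9
      - 3531024 * m8 - 7304456 * m15 - 6058767 * m13 + 12261373 * m2 - 8255750 * m4 - 18092756 *
      m1 + 8428253 * m0 + 22671836 * m5) ^ 2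
      + 1 / 3181590200585180 * (327011180 * m11 + 303119691 * m6 - 102825669 * m3 + 254709965 * m9 +
      155086424 * m8 + 205069606 * m15 - 97420538 * m13 - 24372296 * m2 + 452006900 * m4 +
      55849718 * m1 + 73051272 * m0 - 186010255 * m5) ^ 2
      + 1 / 9667052632319617220 * (29561841379 * m6 + 17758565959 * m3 + 103222485 * m9 + 33591368156 *
      m8 + 16754175654 * m15 - 33221715122 * m13 + 2838120176 * m2 + 47498261500 * m4 +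
      26698939822 * m1 - 16967809232 * m0 - 26128648375 * m5) ^ 2
      + 1 / 99392224846633573576946 * (3362179763174 * m3 - 2334287185802 * m9 + 2982561682859 * m8 +
      526044894220 * m15 - 1205803254727 * m13 - 290111016906 * m2 + 4120192737833 * m4 +
      1837253242974 * m1 - 5237948229083 * m0 - 5665917750574 * m5) ^ 2
      + 1 / 107561880501094749335633436 * (63983420327028 * m9 + 10583003798790 * m8 - 24397178652416 *
      m15 - 11566738104345 * m13 + 47651798436810 * m2 + 23690456801315 * m4 - 48305721517034 *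
      m1 - 35741917817534 * m0 + 16260179670826 * m5) ^ 2
      + 1 / 5762211505019495552354535306 * (540347309559387 * m8 - 290207558276428 * m15 -
      242663720873422 * m13 + 536844244529622 * m2 + 587367488167504 * m4 + 369936209493852 * m1
      - 886812894768555 * m0 - 546042453108856 * m5) ^ 2
      + 1 / 20634772988554551286436146556034 * (38187981365874982 * m15 + 15139473883651675 * m13 -
      36343521138038736 * m2 + 7387841143995785 * m4 - 7805437188225615 * m1 - 586484460074793 *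
      m0 + 3274994654602066 * m5) ^ 2
      + 1 / 2201033566444513228072718640818836308 * (9606135611780772349 * m13 - 3020587433365518438 *
      m2 + 3151518995241163677 * m4 - 5249716142640983644 * m1 - 9021622003206694942 * m0 -
      5383048283977190082 * m5) ^ 2
      + 1 / 633290038139470464171351014753041404269 * (131851155081095512162 * m2 + 17928166591565367454
      * m4 + 18350229423346360722 * m1 - 74536853027910450279 * m0 + 4192426838481055452 * m5) ^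
      2
      + 1 / 178006006654968854931467936706136075211728 * (2700105380881731988688 * m4 -
      111412959441256242812 * m1 - 2301117194154822393660 * m0 - 1956403016592480974885 * m5) ^
      2
      + 1 / 29106809259830969820048082250616236559006488 * (43119515950634498098654 * m1 +
      1172795248061201934414 * m0 - 3112540844350199877915 * m5) ^ 2
      + 1 / 620679601797596999141574118137865556153744153 * (201521613440989773156673 * m0 -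
      17399891002151899439788 * m5) ^ 2
      + 19935731598002015527121195 / 460620830722262338643824 * (m5) ^ 2 := by
    unfold Q0
    ring
  have h2 : 0 ≤ 1 / 36 * (36 * m14 + 21 * m10 + 7 * m7 + 26 * m12 - 53 * m11 - 50 * m6 + 29 * m3 - 36 * m9 - 5 *
      m8 - 61 * m15 - 20 * m13 + 53 * m2 - 71 * m4 - 16 * m1 - 50 * m0 + 61 * m5) ^ 2
      + 1 / 9180 * (765 * m10 + 635 * m7 + 154 * m12 - 589 * m11 + 134 * m6 - 119 * m3 - 216 * m9 - 241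
      * m8 + 211 * m15 - 868 * m13 + 37 * m2 - 1435 * m4 + 1276 * m1 + 1322 * m0 + 2549 * m5) ^
      2
      + 1 / 11527326 * (25114 * m7 - 11341 * m12 + 1399 * m11 + 8929 * m6 - 14875 * m3 - 3699 * m9 -
      3836 * m8 - 1714 * m15 - 21605 * m13 + 9701 * m2 - 22460 * m4 + 67862 * m1 + 46945 * m0 +
      28834 * m5) ^ 2
      + 1 / 1221708326570 * (9729301 * m12 - 2318651 * m11 + 1713761 * m6 - 4970401 * m3 + 12429461 * m9
      - 3531024 * m8 - 7304456 * m15 - 6058767 * m13 + 12261373 * m2 - 8255750 * m4 - 18092756 *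
      m1 + 8428253 * m0 + 22671836 * m5) ^ 2
      + 1 / 3181590200585180 * (327011180 * m11 + 303119691 * m6 - 102825669 * m3 + 254709965 * m9 +
      155086424 * m8 + 205069606 * m15 - 97420538 * m13 - 24372296 * m2 + 452006900 * m4 +
      55849718 * m1 + 73051272 * m0 - 186010255 * m5) ^ 2
      + 1 / 9667052632319617220 * (29561841379 * m6 + 17758565959 * m3 + 103222485 * m9 + 33591368156 *
      m8 + 16754175654 * m15 - 33221715122 * m13 + 2838120176 * m2 + 47498261500 * m4 +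
      26698939822 * m1 - 16967809232 * m0 - 26128648375 * m5) ^ 2
      + 1 / 99392224846633573576946 * (3362179763174 * m3 - 2334287185802 * m9 + 2982561682859 * m8 +
      526044894220 * m15 - 1205803254727 * m13 - 290111016906 * m2 + 4120192737833 * m4 +
      1837253242974 * m1 - 5237948229083 * m0 - 5665917750574 * m5) ^ 2
      + 1 / 107561880501094749335633436 * (63983420327028 * m9 + 10583003798790 * m8 - 24397178652416 *
      m15 - 11566738104345 * m13 + 47651798436810 * m2 + 23690456801315 * m4 - 48305721517034 *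
      m1 - 35741917817534 * m0 + 16260179670826 * m5) ^ 2
      + 1 / 5762211505019495552354535306 * (540347309559387 * m8 - 290207558276428 * m15 -
      242663720873422 * m13 + 536844244529622 * m2 + 587367488167504 * m4 + 369936209493852 * m1
      - 886812894768555 * m0 - 546042453108856 * m5) ^ 2
      + 1 / 20634772988554551286436146556034 * (38187981365874982 * m15 + 15139473883651675 * m13 -
      36343521138038736 * m2 + 7387841143995785 * m4 - 7805437188225615 * m1 - 586484460074793 *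
      m0 + 3274994654602066 * m5) ^ 2
      + 1 / 2201033566444513228072718640818836308 * (9606135611780772349 * m13 - 3020587433365518438 *
      m2 + 3151518995241163677 * m4 - 5249716142640983644 * m1 - 9021622003206694942 * m0 -
      5383048283977190082 * m5) ^ 2
      + 1 / 633290038139470464171351014753041404269 * (131851155081095512162 * m2 + 17928166591565367454
      * m4 + 18350229423346360722 * m1 - 74536853027910450279 * m0 + 4192426838481055452 * m5) ^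
      2
      + 1 / 178006006654968854931467936706136075211728 * (2700105380881731988688 * m4 -
      111412959441256242812 * m1 - 2301117194154822393660 * m0 - 1956403016592480974885 * m5) ^
      2
      + 1 / 29106809259830969820048082250616236559006488 * (43119515950634498098654 * m1 +
      1172795248061201934414 * m0 - 3112540844350199877915 * m5) ^ 2
      + 1 / 620679601797596999141574118137865556153744153 * (201521613440989773156673 * m0 -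
      17399891002151899439788 * m5) ^ 2
      + 19935731598002015527121195 / 460620830722262338643824 * (m5) ^ 2 := by positivity
  linarith

/-- block 1. -/
def Q1 (m0 m1 m2 m3 m4 m5 m6 m7 m8 m9 m10 m11 : ℝ) : ℝ :=
  106 * m0 ^ 2 + 110 * m0 * m1 + 250 * m0 * m2 + 216 * m0 * m3 + 276 * m0 * m4 - 88 * m0 * m5 + 84
      * m0 * m6 + 80 * m0 * m7 + 14 * m0 * m8 - 168 * m0 * m9 - 22 * m0 * m10 + 20 * m0 * m11 +
      316 * m1 ^ 2 + 260 * m1 * m2 - 18 * m1 * m3 + 314 * m1 * m4 - 634 * m1 * m5 + 62 * m1 * m6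
      + 184 * m1 * m7 + 76 * m1 * m8 - 118 * m1 * m9 - 112 * m1 * m10 - 304 * m1 * m11 + 234 *
      m2 ^ 2 + 408 * m2 * m3 + 432 * m2 * m4 - 278 * m2 * m5 + 204 * m2 * m6 + 114 * m2 * m7 +
      12 * m2 * m8 - 332 * m2 * m9 - 86 * m2 * m10 + 6 * m2 * m11 + 352 * m3 ^ 2 + 320 * m3 * m4
      + 80 * m3 * m5 + 306 * m3 * m6 + 6 * m3 * m7 - 90 * m3 * m8 - 328 * m3 * m9 + 10 * m3 *
      m10 + 234 * m3 * m11 + 280 * m4 ^ 2 - 356 * m4 * m5 + 170 * m4 * m6 + 134 * m4 * m7 + 138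
      * m4 * m8 - 294 * m4 * m9 - 110 * m4 * m10 - 38 * m4 * m11 + 428 * m5 ^ 2 - 74 * m5 * m6 -
      162 * m5 * m7 - 178 * m5 * m8 + 214 * m5 * m9 + 238 * m5 * m10 + 342 * m5 * m11 + 98 * m6
      ^ 2 - 6 * m6 * m8 - 172 * m6 * m9 - 34 * m6 * m10 + 74 * m6 * m11 + 58 * m7 ^ 2 - 48 * m7
      * m9 - 16 * m7 * m10 - 92 * m7 * m11 + 118 * m8 ^ 2 - 8 * m8 * m9 - 88 * m8 * m10 - 50 *
      m8 * m11 + 182 * m9 ^ 2 + 122 * m9 * m10 - 42 * m9 * m11 + 74 * m10 ^ 2 + 60 * m10 * m11 +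
      130 * m11 ^ 2

lemma Q1_ge (m0 m1 m2 m3 m4 m5 m6 m7 m8 m9 m10 m11 : ℝ) :
    4 * (m0 ^ 2 + m1 ^ 2 + m2 ^ 2 + m3 ^ 2 + m4 ^ 2 + m5 ^ 2 + m6 ^ 2 + m7 ^ 2 + m8 ^ 2 + m9 ^ 2 + m10 ^
      2 + m11 ^ 2)
      ≤ Q1 m0 m1 m2 m3 m4 m5 m6 m7 m8 m9 m10 m11 := by
  have h : Q1 m0 m1 m2 m3 m4 m5 m6 m7 m8 m9 m10 m11 = 4 * (m0 ^ 2 + m1 ^ 2 + m2 ^ 2 + m3 ^ 2 + m4 ^ 2 + m5 ^ 2 + m6 ^ 2 + m7 ^ 2 + m8 ^ 2 + m9 ^ 2 + m10 ^
      2 + m11 ^ 2)
      + 1 / 54 * (54 * m7 - 8 * m10 + 40 * m0 - 46 * m11 - 24 * m9 + 57 * m2 + 67 * m4 + 92 * m1 + 3 *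
      m3 - 81 * m5) ^ 2
      + 1 / 50166 * (1858 * m10 - 459 * m6 - 137 * m0 - 1188 * m8 + 626 * m11 + 1551 * m9 - 933 * m2 -
      1217 * m4 - 1144 * m1 + 147 * m3 + 2889 * m5) ^ 2
      + 1 / 310005442 * (166849 * m6 + 75707 * m0 - 25770 * m8 + 79388 * m11 - 133421 * m9 + 173655 * m2
      + 137241 * m4 + 38150 * m1 + 286773 * m3 - 19633 * m5) ^ 2
      + 1 / 1489578484696 * (8927704 * m0 + 1676664 * m8 + 4404171 * m11 - 4905954 * m9 + 6310431 * m2 +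
      8597887 * m4 - 4269502 * m1 + 6030901 * m3 + 4785943 * m5) ^ 2
      + 1 / 101917722527376 * (91327152 * m8 - 9523008 * m11 + 30310645 * m9 - 9778296 * m2 + 46770595 *
      m4 + 21075582 * m1 - 27305889 * m3 - 30804577 * m5) ^ 2
      + 1 / 10370590405381416 * (681325773 * m11 - 141467150 * m9 - 12846095 * m2 - 44686575 * m4 -
      830028434 * m1 + 363786379 * m3 + 821159417 * m5) ^ 2
      + 1 / 4142199390661047363696 * (379976029347 * m9 - 147888857576 * m2 - 73383031291 * m4 +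
      22077645202 * m1 - 118203420455 * m3 + 101987529705 * m5) ^ 2
      + 1 / 115585811255805234089920218 * (50698729362149 * m2 + 25428906797077 * m4 + 23052741583586 *
      m1 + 25050389975537 * m3 - 16743341048313 * m5) ^ 2
      + 1 / 62747221443534871679250323410 * (1237648797770090 * m4 + 249679130249945 * m1 +
      231728866646389 * m3 - 161338580198543 * m5) ^ 2
      + 1 / 2189762663970104065754215118750 * (8846462210909375 * m1 + 175971875972037 * m3 -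
      5310469993215459 * m5) ^ 2
      + 44 / 49720659074470676709042687384375 * (5620400323776393 * m3 + 1070102343577199 * m5) ^ 2
      + 145742205517042874 / 5620400323776393 * (m5) ^ 2 := by
    unfold Q1
    ring
  have h2 : 0 ≤ 1 / 54 * (54 * m7 - 8 * m10 + 40 * m0 - 46 * m11 - 24 * m9 + 57 * m2 + 67 * m4 + 92 * m1 + 3 *
      m3 - 81 * m5) ^ 2
      + 1 / 50166 * (1858 * m10 - 459 * m6 - 137 * m0 - 1188 * m8 + 626 * m11 + 1551 * m9 - 933 * m2 -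
      1217 * m4 - 1144 * m1 + 147 * m3 + 2889 * m5) ^ 2
      + 1 / 310005442 * (166849 * m6 + 75707 * m0 - 25770 * m8 + 79388 * m11 - 133421 * m9 + 173655 * m2
      + 137241 * m4 + 38150 * m1 + 286773 * m3 - 19633 * m5) ^ 2
      + 1 / 1489578484696 * (8927704 * m0 + 1676664 * m8 + 4404171 * m11 - 4905954 * m9 + 6310431 * m2 +
      8597887 * m4 - 4269502 * m1 + 6030901 * m3 + 4785943 * m5) ^ 2
      + 1 / 101917722527376 * (91327152 * m8 - 9523008 * m11 + 30310645 * m9 - 9778296 * m2 + 46770595 *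
      m4 + 21075582 * m1 - 27305889 * m3 - 30804577 * m5) ^ 2
      + 1 / 10370590405381416 * (681325773 * m11 - 141467150 * m9 - 12846095 * m2 - 44686575 * m4 -
      830028434 * m1 + 363786379 * m3 + 821159417 * m5) ^ 2
      + 1 / 4142199390661047363696 * (379976029347 * m9 - 147888857576 * m2 - 73383031291 * m4 +
      22077645202 * m1 - 118203420455 * m3 + 101987529705 * m5) ^ 2
      + 1 / 115585811255805234089920218 * (50698729362149 * m2 + 25428906797077 * m4 + 23052741583586 *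
      m1 + 25050389975537 * m3 - 16743341048313 * m5) ^ 2
      + 1 / 62747221443534871679250323410 * (1237648797770090 * m4 + 249679130249945 * m1 +
      231728866646389 * m3 - 161338580198543 * m5) ^ 2
      + 1 / 2189762663970104065754215118750 * (8846462210909375 * m1 + 175971875972037 * m3 -
      5310469993215459 * m5) ^ 2
      + 44 / 49720659074470676709042687384375 * (5620400323776393 * m3 + 1070102343577199 * m5) ^ 2
      + 145742205517042874 / 5620400323776393 * (m5) ^ 2 := by positivity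
  linarith

lemma n2a : (2 : J2).a = 2 := rfl
lemma n2b : (2 : J2).b = 0 := rfl
lemma n2c : (2 : J2).c = 0 := rfl
lemma n3a : (3 : J2).a = 3 := rfl
lemma n3b : (3 : J2).b = 0 := rfl
lemma n3c : (3 : J2).c = 0 := rfl
lemma n4a : (4 : J2).a = 4 := rfl
lemma n4b : (4 : J2).b = 0 := rfl
lemma n4c : (4 : J2).c = 0 := rfl
lemma n5a : (5 : J2).a = 5 := rfl
lemma n5b : (5 : J2).b = 0 := rfl
lemma n5c : (5 : J2).c = 0 := rfl
lemma n6a : (6 : J2).a = 6 := rfl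
lemma n6b : (6 : J2).b = 0 := rfl
lemma n6c : (6 : J2).c = 0 := rfl
lemma n9a : (9 : J2).a = 9 := rfl
lemma n9b : (9 : J2).b = 0 := rfl
lemma n9c : (9 : J2).c = 0 := rfl
lemma n11a : (11 : J2).a = 11 := rfl
lemma n11b : (11 : J2).b = 0 := rfl
lemma n11c : (11 : J2).c = 0 := rfl
lemma n15a : (15 : J2).a = 15 := rfl
lemma n15b : (15 : J2).b = 0 := rfl
lemma n15c : (15 : J2).c = 0 := rfl
lemma n18a : (18 : J2).a = 18 := rfl
lemma n18b : (18 : J2).b = 0 := rfl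
lemma n18c : (18 : J2).c = 0 := rfl
lemma n19a : (19 : J2).a = 19 := rfl
lemma n19b : (19 : J2).b = 0 := rfl
lemma n19c : (19 : J2).c = 0 := rfl
def FB (x z : Fin 8 → ℝ) : ℝ :=
  30 * x 0 * z 0 + 15 * (x 0 * z 2 + x 2 * z 0) - 2 * (x 0 * z 4 + x 4 * z 0) + 19 * (x 0 * z 6 +
      x 6 * z 0) - 4 * (x 0 * z 7 + x 7 * z 0) + 4 * x 1 * z 1 + 6 * (x 1 * z 3 + x 3 * z 1) +
      (x 1 * z 5 + x 5 * z 1) + 4 * x 2 * z 2 - (x 2 * z 4 + x 4 * z 2) + 9 * (x 2 * z 6 + x 6 *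
      z 2) + 2 * (x 2 * z 7 + x 7 * z 2) - 2 * x 3 * z 3 - 2 * (x 3 * z 5 + x 5 * z 3) - 6 * (x
      4 * z 6 + x 6 * z 4) + (x 4 * z 7 + x 7 * z 4) - 4 * x 5 * z 5 + 36 * x 6 * z 6 - 11 * (x
      6 * z 7 + x 7 * z 6)
def EB (x y : Fin 8 → ℝ) : Fin 8 → ℝ := ![
  -3 * (x 0 * y 2 + x 2 * y 0) + 2 * (x 0 * y 4 + x 4 * y 0) + 6 * (x 0 * y 6 + x 6 * y 0) - 12 *
      x 1 * y 1 - (x 1 * y 3 + x 3 * y 1) - 2 * x 2 * y 2 + 4 * (x 4 * y 6 + x 6 * y 4) + 2 * x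
      5 * y 5 + 12 * x 6 * y 6 - 6 * (x 6 * y 7 + x 7 * y 6),
  6 * (x 0 * y 1 + x 1 * y 0) + (x 0 * y 3 + x 3 * y 0) - 2 * (x 0 * y 5 + x 5 * y 0) - 3 * (x 1 *
      y 2 + x 2 * y 1) - 6 * (x 1 * y 6 + x 6 * y 1) - (x 2 * y 3 + x 3 * y 2) + 4 * (x 3 * y 6
      + x 6 * y 3) + (x 4 * y 5 + x 5 * y 4) - 4 * (x 5 * y 6 + x 6 * y 5),
  6 * x 0 * y 0 + (x 0 * y 2 + x 2 * y 0) - 3 * (x 0 * y 4 + x 4 * y 0) - 2 * (x 0 * y 6 + x 6 * y
      0) - 6 * (x 0 * y 7 + x 7 * y 0) + 6 * x 1 * y 1 - 3 * (x 1 * y 5 + x 5 * y 1) - 4 * x 3 *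
      y 3 + 2 * (x 3 * y 5 + x 5 * y 3) - 6 * x 4 * y 4 - 3 * (x 4 * y 6 + x 6 * y 4) + 3 * (x 4
      * y 7 + x 7 * y 4) - 6 * x 5 * y 5 + 4 * x 6 * y 6 + 6 * (x 6 * y 7 + x 7 * y 6),
  -3 * (x 0 * y 5 + x 5 * y 0) + (x 1 * y 2 + x 2 * y 1) + 3 * (x 1 * y 4 + x 4 * y 1) + 2 * (x 2
      * y 3 + x 3 * y 2) - 2 * (x 3 * y 4 + x 4 * y 3) - 4 * (x 5 * y 6 + x 6 * y 5),
  -4 * x 0 * y 0 + 3 * (x 0 * y 2 + x 2 * y 0) - (x 0 * y 6 + x 6 * y 0) + 9 * (x 0 * y 7 + x 7 *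
      y 0) - 3 * (x 1 * y 3 + x 3 * y 1) + 5 * (x 1 * y 5 + x 5 * y 1) + 3 * (x 2 * y 4 + x 4 *
      y 2) + 2 * (x 2 * y 6 + x 6 * y 2) + 4 * x 3 * y 3 - (x 3 * y 5 + x 5 * y 3),
  2 * (x 0 * y 1 + x 1 * y 0) + 3 * (x 0 * y 3 + x 3 * y 0) - (x 0 * y 5 + x 5 * y 0) + 3 * (x 1 *
      y 2 + x 2 * y 1) - 6 * (x 1 * y 4 + x 4 * y 1) + (x 1 * y 6 + x 6 * y 1) - 9 * (x 1 * y 7
      + x 7 * y 1) - 2 * (x 2 * y 3 + x 3 * y 2) + 3 * (x 2 * y 5 + x 5 * y 2) + (x 3 * y 4 + x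
      4 * y 3) + 3 * (x 3 * y 6 + x 6 * y 3) - 3 * (x 3 * y 7 + x 7 * y 3),
  -12 * x 0 * y 0 + 2 * (x 0 * y 2 + x 2 * y 0) - 3 * (x 0 * y 4 + x 4 * y 0) - 6 * (x 0 * y 6 + x
      6 * y 0) + 6 * (x 0 * y 7 + x 7 * y 0) + 12 * x 1 * y 1 - 4 * (x 1 * y 3 + x 3 * y 1) + 3
      * (x 1 * y 5 + x 5 * y 1) + (x 2 * y 4 + x 4 * y 2) - 2 * (x 2 * y 6 + x 6 * y 2) + (x 3 *
      y 5 + x 5 * y 3),
  2 * (x 0 * y 2 + x 2 * y 0) - 3 * (x 0 * y 4 + x 4 * y 0) + 3 * (x 1 * y 5 + x 5 * y 1) - (x 2 *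
      y 4 + x 4 * y 2) - 2 * (x 2 * y 6 + x 6 * y 2) + (x 3 * y 5 + x 5 * y 3)]

/-- second component of `F` on jets. -/
lemma Fx_c (x y z : Fin 8 → ℝ) : (Fx (R := J2) (fun i => ⟨x i, y i, z i⟩)).c
    = FB x z + 2 * Fx y := by
  simp only [Fx, FB, pow_two, J2.add_c, J2.sub_c, J2.mul_c, J2.mul_a, J2.mul_b, J2.add_a, J2.add_b,
    J2.neg_a, J2.neg_b, J2.neg_c, n2a, n2b, n2c, n3a, n3b, n3c, n4a, n4b, n4c, n5a, n5b, n5c, n6a, n6b, n6c, n9a, n9b, n9c, n11a,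
      n11b, n11c, n15a, n15b, n15c, n18a, n18b, n18c, n19a, n19b, n19c]
  ring

/-- first component of `E` on jets. -/
lemma Ex_b (x y : Fin 8 → ℝ) : (fun i => (Ex (R := J2) (fun i => ⟨x i, y i, 0⟩) i).b) = EB x y := by
  ext i
  fin_cases i <;>
  simp [Ex, EB, pow_two, J2.add_b, J2.sub_b, J2.mul_b, J2.mul_a, J2.neg_b, J2.neg_a, n2a, n2b, n2c, n3a, n3b, n3c, n4a, n4b, n4c, n5a, n5b, n5c, n6a, n6b, n6c, n9a, n9b, n9c, n11a,
      n11b, n11c, n15a, n15b, n15c, n18a, n18b, n18c, n19a, n19b, n19c] <;>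
  ring

lemma key (x : Fin 8 → ℝ) (h6 : x 6 = 0) :
    2 * (PhiDD x + (124 * x 0 + 14 * x 2 - 13 * x 4 - 73 * x 7) * detx x)
      = Q0 (x 0 ^ 2) (x 0 * x 2) (x 0 * x 4) (x 0 * x 7) (x 1 ^ 2) (x 1 * x 3) (x 1 * x 5) (x 2 ^ 2) (x 2 *
      x 4) (x 2 * x 7) (x 3 ^ 2) (x 3 * x 5) (x 4 ^ 2) (x 4 * x 7) (x 5 ^ 2) (x 7 ^ 2)
        + Q1 (x 0 * x 1) (x 0 * x 3) (x 0 * x 5) (x 1 * x 2) (x 1 * x 4) (x 1 * x 7) (x 2 * x 3) (x 2 * x 5)
      (x 3 * x 4) (x 3 * x 7) (x 4 * x 5) (x 5 * x 7) := by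
  have e : PhiDD x = FB x (EB x (Ex x)) + 2 * Fx (Ex x) := by
    rw [← Ex_b, ← Fx_c]
    rfl
  have h0 : Ex x 0 = -3 * x 0 * x 2 + 2 * x 0 * x 4 - 6 * x 1 ^ 2 - x 1 * x 3 - x 2 ^ 2 + x 5 ^ 2 := by
    simp only [Ex, h6, Matrix.cons_val]; ring

  have h1' : Ex x 1 = 6 * x 0 * x 1 + x 0 * x 3 - 2 * x 0 * x 5 - 3 * x 1 * x 2 - x 2 * x 3 + x 4 * x 5 := by
    simp only [Ex, h6, Matrix.cons_val]; ring
  have h2' : Ex x 2 = 3 * x 0 ^ 2 + x 0 * x 2 - 3 * x 0 * x 4 - 6 * x 0 * x 7 + 3 * x 1 ^ 2 - 3 * x 1 * x 5 - 2 * x 3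
      ^ 2 + 2 * x 3 * x 5 - 3 * x 4 ^ 2 + 3 * x 4 * x 7 - 3 * x 5 ^ 2 := by
    simp only [Ex, h6, Matrix.cons_val]; ring
  have h3' : Ex x 3 = -3 * x 0 * x 5 + x 1 * x 2 + 3 * x 1 * x 4 + 2 * x 2 * x 3 - 2 * x 3 * x 4 := by
    simp only [Ex, h6, Matrix.cons_val]; ring
  have h4' : Ex x 4 = -2 * x 0 ^ 2 + 3 * x 0 * x 2 + 9 * x 0 * x 7 - 3 * x 1 * x 3 + 5 * x 1 * x 5 + 3 * x 2 * x 4 + 2
      * x 3 ^ 2 - x 3 * x 5 := by
    simp only [Ex, h6, Matrix.cons_val]; ring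
  have h5' : Ex x 5 = 2 * x 0 * x 1 + 3 * x 0 * x 3 - x 0 * x 5 + 3 * x 1 * x 2 - 6 * x 1 * x 4 - 9 * x 1 * x 7 - 2 *
      x 2 * x 3 + 3 * x 2 * x 5 + x 3 * x 4 - 3 * x 3 * x 7 := by
    simp only [Ex, h6, Matrix.cons_val]; ring
  have h6' : Ex x 6 = -6 * x 0 ^ 2 + 2 * x 0 * x 2 - 3 * x 0 * x 4 + 6 * x 0 * x 7 + 6 * x 1 ^ 2 - 4 * x 1 * x 3 + 3 *
      x 1 * x 5 + x 2 * x 4 + x 3 * x 5 := by
    simp only [Ex, h6, Matrix.cons_val]; ring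
  have h7' : Ex x 7 = 2 * x 0 * x 2 - 3 * x 0 * x 4 + 3 * x 1 * x 5 - x 2 * x 4 + x 3 * x 5 := by
    simp only [Ex, h6, Matrix.cons_val]; ring
  rw [e]
  simp only [FB, EB, Fx, detx, h6, h0, h1', h2', h3', h4', h5', h6', h7', Q0, Q1, Matrix.cons_val]
  ring

end A9

open A9 in
theorem cert (x : Fin 8 → ℝ) (h6 : x 6 = 0) (hd : detx x = 0) (hx : x ≠ 0) : 0 < PhiDD x := by
  have h := key x h6
  rw [hd, mul_zero, add_zero] at h
  have h0 := Q0_ge (x 0 ^ 2) (x 0 * x 2) (x 0 * x 4) (x 0 * x 7) (x 1 ^ 2) (x 1 * x 3) (x 1 * x 5) (x 2 ^ 2) (x 2 *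
      x 4) (x 2 * x 7) (x 3 ^ 2) (x 3 * x 5) (x 4 ^ 2) (x 4 * x 7) (x 5 ^ 2) (x 7 ^ 2)
  have h1 := Q1_ge (x 0 * x 1) (x 0 * x 3) (x 0 * x 5) (x 1 * x 2) (x 1 * x 4) (x 1 * x 7) (x 2 * x 3) (x 2 * x 5)
      (x 3 * x 4) (x 3 * x 7) (x 4 * x 5) (x 5 * x 7)
  have hp : 0 < x 0 ^ 4 + x 1 ^ 4 + x 2 ^ 4 + x 3 ^ 4 + x 4 ^ 4 + x 5 ^ 4 + x 7 ^ 4 := by
    by_contra hcon
    apply hx
    have e : ∀ i, 0 ≤ x i ^ 4 := fun i => by positivity
    have z : ∀ i, x i ^ 4 ≤ 0 → x i = 0 := fun i hi =>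
      pow_eq_zero_iff (n := 4) (by norm_num) |>.1 (le_antisymm hi (e i))
    have e0 := e 0; have e1 := e 1; have e2 := e 2; have e3 := e 3; have e4 := e 4; have e5 := e 5
    have e7 := e 7
    ext i
    fin_cases i
    · exact z 0 (by linarith)
    · exact z 1 (by linarith)
    · exact z 2 (by linarith)
    · exact z 3 (by linarith)
    · exact z 4 (by linarith)
    · exact z 5 (by linarith)
    · exact h6
    · exact z 7 (by linarith)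
  have hq : x 0 ^ 4 + x 1 ^ 4 + x 2 ^ 4 + x 3 ^ 4 + x 4 ^ 4 + x 5 ^ 4 + x 7 ^ 4
      ≤ Q0 (x 0 ^ 2) (x 0 * x 2) (x 0 * x 4) (x 0 * x 7) (x 1 ^ 2) (x 1 * x 3) (x 1 * x 5) (x 2 ^ 2) (x 2 *
      x 4) (x 2 * x 7) (x 3 ^ 2) (x 3 * x 5) (x 4 ^ 2) (x 4 * x 7) (x 5 ^ 2) (x 7 ^ 2) := by
    refine le_trans ?_ h0
    have hn : 0 ≤ (x 0 * x 2) ^ 2 + (x 0 * x 4) ^ 2 + (x 0 * x 7) ^ 2 + (x 1 * x 3) ^ 2 + (x 1 * x 5) ^ 2 + (x 2 *
      x 4) ^ 2 + (x 2 * x 7) ^ 2 + (x 3 * x 5) ^ 2 + (x 4 * x 7) ^ 2 := by positivity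
    have he : (x 0 ^ 2) ^ 2 + (x 0 * x 2) ^ 2 + (x 0 * x 4) ^ 2 + (x 0 * x 7) ^ 2 + (x 1 ^ 2) ^ 2 + (x 1 * x
      3) ^ 2 + (x 1 * x 5) ^ 2 + (x 2 ^ 2) ^ 2 + (x 2 * x 4) ^ 2 + (x 2 * x 7) ^ 2 + (x 3 ^ 2) ^
      2 + (x 3 * x 5) ^ 2 + (x 4 ^ 2) ^ 2 + (x 4 * x 7) ^ 2 + (x 5 ^ 2) ^ 2 + (x 7 ^ 2) ^ 2 = (x 0 ^ 4 + x 1 ^ 4 + x 2 ^ 4 + x 3 ^ 4 + x 4 ^ 4 + x 5 ^ 4 + x 7 ^ 4) + ((x 0 * x 2) ^ 2 + (x 0 * x 4) ^ 2 + (x 0 * x 7) ^ 2 + (x 1 * x 3) ^ 2 + (x 1 * x 5) ^ 2 + (x 2 *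
      x 4) ^ 2 + (x 2 * x 7) ^ 2 + (x 3 * x 5) ^ 2 + (x 4 * x 7) ^ 2) := by ring
    linarith
  have hr : 0 ≤ Q1 (x 0 * x 1) (x 0 * x 3) (x 0 * x 5) (x 1 * x 2) (x 1 * x 4) (x 1 * x 7) (x 2 * x 3) (x 2 * x 5)
      (x 3 * x 4) (x 3 * x 7) (x 4 * x 5) (x 5 * x 7) := by
    refine le_trans ?_ h1
    positivity
  linarith

end Pool.Agent.Helper46.M8
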