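import Pool.Agent.Helper46.M8.St.A1
import Pool.Agent.Helper46.M8.St.A2
import Pool.Agent.Helper46.M8.St.A3
import Pool.Agent.Helper46.M8.Ns

/-!
# M8, piece B1
-/

open Filter Metric Module Set
open scoped Topology ContDiff Matrix Matrix.Norms.Elementwise ComplexConjugate

set_option maxSynthPendingDepth 3

namespace Pool.Agent.Helper46.M8
open Pool.Agent.Helper20.PC Pool.Agent.Helper20.HP Pool.Agent.Helper20.M8 Pool.Agent.Helper20.MB

/-! ### B1 : the base metric -/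
private theorem B1_quad (U : Mat) (δ : ℝ) (z : V) (ξ η : V →L[ℝ] ℝ) :
    ξ (CC U δ z η) = ∑ i, ∑ j, Cm δ i j * η (Kf U i z) * ξ (Kf U j z) := by
  rw [CC_apply, map_sum]
  refine Finset.sum_congr rfl fun i _ => ?_
  rw [map_sum]
  refine Finset.sum_congr rfl fun j _ => ?_
  rw [map_smul, smul_eq_mul]

theorem CC_symm (U : Mat) (δ : ℝ) (z : V) (ξ η : V →L[ℝ] ℝ) :
    ξ (CC U δ z η) = η (CC U δ z ξ) := by
  rw [B1_quad, B1_quad, Finset.sum_comm]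
  refine Finset.sum_congr rfl fun i _ => Finset.sum_congr rfl fun j _ => ?_
  rw [Cm_symm δ j i]
  ring

theorem CC_pos {U : Mat} {δ : ℝ} (hU : Uᴴ * U = 1) (hδ : |δ| ≤ 1/100) (z : V) (ξ : V →L[ℝ] ℝ)
    (hξ : ξ ≠ 0) : 0 < ξ (CC U δ z ξ) := by
  have h1 := Cm_pos hδ (fun i => ξ (Kf U i z))
  have h2 : ξ (CC U 0 z ξ) = ∑ i, C0 i i * ξ (Kf U i z) ^ 2 := by
    rw [B1_quad]
    refine Finset.sum_congr rfl fun i _ => ?_
    rw [Finset.sum_eq_single i]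
    · unfold Cm
      ring
    · intro j _ hj
      unfold Cm C0
      rw [if_neg (Ne.symm hj)]
      ring
    · intro h
      exact absurd (Finset.mem_univ i) h
  have h3 : h0 z (CC U 0 z ξ) (CC U 0 z ξ) = ξ (CC U 0 z ξ) := h0_CC hU z ξ _
  have h4 : CC U 0 z ξ ≠ 0 := by
    intro h
    apply hξ
    ext v
    have h5 := h0_CC hU z ξ v
    rw [h, map_zero] at h5
    rw [← h5]
  have h6 := h0_pos z _ h4
  rw [h3, h2] at h6
  have h7 : ξ (CC U δ z ξ) = ∑ i, ∑ j, Cm δ i j * ξ (Kf U i z) * ξ (Kf U j z) := B1_quad U δ z ξ ξ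
  rw [h7]
  linarith

theorem CC_inv {U : Mat} {δ : ℝ} (hU : Uᴴ * U = 1) (hδ : |δ| ≤ 1/100) (z : V) :
    (CC U δ z).IsInvertible := by
  have hinj : Function.Injective (CC U δ z : (V →L[ℝ] ℝ) →ₗ[ℝ] V) := by
    rw [injective_iff_map_eq_zero]
    intro ξ hξ
    by_contra hne
    have h1 := CC_pos hU hδ z ξ hne
    have h2 : CC U δ z ξ = 0 := hξ
    rw [h2, map_zero] at h1
    exact lt_irrefl _ h1
  have hfr : Module.finrank ℝ (V →L[ℝ] ℝ) = Module.finrank ℝ V := by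
    have e : (V →L[ℝ] ℝ) ≃ₗ[ℝ] (V →ₗ[ℝ] ℝ) := LinearMap.toContinuousLinearMap.symm
    rw [e.finrank_eq, Module.finrank_linearMap, Module.finrank_self, mul_one]
  let e := LinearEquiv.ofInjectiveOfFinrankEq (CC U δ z : (V →L[ℝ] ℝ) →ₗ[ℝ] V) hinj hfr
  refine ⟨e.toContinuousLinearEquiv, ?_⟩
  ext ξ
  rfl

theorem hm_CC {U : Mat} {δ : ℝ} (hU : Uᴴ * U = 1) (hδ : |δ| ≤ 1/100) (z : V) (ξ : V →L[ℝ] ℝ) :
    hm U δ z (CC U δ z ξ) = ξ := (CC_inv hU hδ z).inverse_apply_self ξ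

theorem CC_hm {U : Mat} {δ : ℝ} (hU : Uᴴ * U = 1) (hδ : |δ| ≤ 1/100) (z v : V) :
    CC U δ z (hm U δ z v) = v := (CC_inv hU hδ z).self_apply_inverse v

theorem hm_symm {U : Mat} {δ : ℝ} (hU : Uᴴ * U = 1) (hδ : |δ| ≤ 1/100) (z u v : V) :
    hm U δ z u v = hm U δ z v u := by
  have h1 := CC_symm U δ z (hm U δ z u) (hm U δ z v)
  rw [CC_hm hU hδ, CC_hm hU hδ] at h1
  exact h1

theorem hm_pos {U : Mat} {δ : ℝ} (hU : Uᴴ * U = 1) (hδ : |δ| ≤ 1/100) (z u : V) (hu : u ≠ 0) :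
    0 < hm U δ z u u := by
  have h1 : hm U δ z u ≠ 0 := by
    intro h
    apply hu
    rw [← CC_hm hU hδ z u, h, map_zero]
  have h2 := CC_pos hU hδ z _ h1
  rw [CC_hm hU hδ] at h2
  exact h2

private theorem B1_zero : |(0 : ℝ)| ≤ 1/100 := by norm_num

theorem hm_zero {U : Mat} (hU : Uᴴ * U = 1) (z : V) : hm U 0 z = h0 z := by
  ext u v
  have h1 := h0_CC hU z (hm U 0 z u) v
  rw [CC_hm hU B1_zero] at h1
  exact h1.symm

theorem hm_JJ {U : Mat} {δ : ℝ} (hU : Uᴴ * U = 1) (hδ : |δ| ≤ 1/100) (z v w : V) :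
    hm U δ z (JJ U δ z v) w = omL z v w := by
  show hm U δ z (CC U δ z (omL z v)) w = omL z v w
  rw [hm_CC hU hδ]

/-- reconstruction of a vector from its momenta. -/
theorem sum_mom {U : Mat} {δ : ℝ} (hU : Uᴴ * U = 1) (hδ : |δ| ≤ 1/100) (z w : V) :
    ∑ i, ∑ j, (Cm δ i j * momL U δ z i w) • Kf U j z = w := by
  have h1 := CC_hm hU hδ z w
  rw [CC_apply] at h1
  exact h1

end Pool.Agent.Helper46.M8
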