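import Pool.Agent.Helper46.M8.St.A6
import Pool.Agent.Helper46.M8.Ns

/-!
# M8, piece B2
-/

open Filter Metric Module Set
open scoped Topology ContDiff Matrix Matrix.Norms.Elementwise ComplexConjugate

set_option maxSynthPendingDepth 3

namespace Pool.Agent.Helper46.M8
open Pool.Agent.Helper20.PC Pool.Agent.Helper20.HP Pool.Agent.Helper20.M8 Pool.Agent.Helper20.MB

/-! ### B2 : curvature of the Fubini-Study metric -/

private lemma nz_line (z u : V) (t : ℝ) :
    nz (z + t • u) = nz z + t * (2 * (hip z u).re) + t ^ 2 * ∑ i, Complex.normSq (u i) := by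
  simp [nz, hip, Complex.normSq_apply, Fin.sum_univ_two]
  ring

private lemma hip_line (z u v : V) (t : ℝ) : hip (z + t • u) v = hip z v + t * hip u v := by
  simp [hip, Fin.sum_univ_two]
  ring

private lemma hip_conj (u v : V) : conj (hip u v) = hip v u := by
  simp [hip, Fin.sum_univ_two, mul_comm]

private lemma hip_add (u v w : V) : hip u (v + w) = hip u v + hip u w := by
  simp [hip, Fin.sum_univ_two]
  ring

private lemma hip_smul (u v : V) (c : ℂ) : hip u (c • v) = c * hip u v := by
  simp [hip, Fin.sum_univ_two]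
  ring

private lemma hip_neg (u v : V) : hip u (-v) = - hip u v := by
  simp [hip]

private lemma nzc_ne (z : V) : (nz z : ℂ) ≠ 0 := by
  exact_mod_cast (nz_pos z).ne'

private lemma two_re (a : ℂ) : ((2 * a.re : ℝ) : ℂ) = a + conj a := by
  rw [Complex.add_conj]

/-- the derivative of the Christoffel symbols. -/
private lemma fderiv_Gam_h0 (z u v w : V) (i : Fin 2) :
    fderiv ℝ (fun z' => Gam h0 z' v w) z u i
      = - ((nz z : ℂ)⁻¹ * (hip u v * w i + hip u w * v i))
        + (hip z u + conj (hip z u)) * ((nz z : ℂ) ^ 2)⁻¹ * (hip z v * w i + hip z w * v i) := by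
  have h1 := (differentiableAt_Gam (h0_metAt z) v w).hasFDerivAt.hasLineDerivAt u
  have h1' : HasDerivAt (fun t : ℝ => Gam h0 (z + t • u) v w)
      (fderiv ℝ (fun z' => Gam h0 z' v w) z u) 0 := h1
  have h2 := (hasDerivAt_pi.1 h1') i
  have hn : HasDerivAt (fun t : ℝ => ((nz (z + t • u) : ℝ) : ℂ)) ((2 * (hip z u).re : ℝ) : ℂ) 0 := by
    have a1 : HasDerivAt (fun t : ℝ => nz z + t * (2 * (hip z u).re)
        + t ^ 2 * ∑ i, Complex.normSq (u i)) (2 * (hip z u).re) 0 := by
      have a2 := (((hasDerivAt_id (0 : ℝ)).mul_const (2 * (hip z u).re)).const_add (nz z)).add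
        (((hasDerivAt_id (0 : ℝ)).pow 2).mul_const (∑ i, Complex.normSq (u i)))
      refine a2.congr_deriv ?_
      simp
    have a3 := a1.ofReal_comp
    refine a3.congr_of_eventuallyEq (Eventually.of_forall fun t => ?_)
    simp only [nz_line]
  have hh : ∀ v : V, HasDerivAt (fun t : ℝ => hip (z + t • u) v) (hip u v) 0 := by
    intro v
    have a1 : HasDerivAt (fun t : ℝ => hip z v + (t : ℂ) * hip u v) (1 * hip u v) 0 :=
      ((Complex.ofRealCLM.hasDerivAt (x := (0 : ℝ))).mul_const (hip u v)).const_add (hip z v)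
    rw [one_mul] at a1
    refine a1.congr_of_eventuallyEq (Eventually.of_forall fun t => ?_)
    simp only [hip_line]
  have hz : z + (0 : ℝ) • u = z := by simp
  have hne : ((nz (z + (0 : ℝ) • u) : ℝ) : ℂ) ≠ 0 := nzc_ne _
  have h3 := (((hn.inv hne).mul (((hh v).mul_const (w i)).add ((hh w).mul_const (v i))))).neg
  have h4 := h3.congr_of_eventuallyEq (f₁ := fun t : ℝ => Gam h0 (z + t • u) v w i)
    (Eventually.of_forall fun t => by
      simp only [Gam_h0, Pi.neg_apply, Pi.smul_apply, Pi.add_apply, smul_eq_mul, Pi.mul_apply,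
        Pi.inv_apply])
  rw [h2.unique h4]
  simp only [hz, two_re]
  have := nzc_ne z
  simp only [Pi.inv_apply, Pi.add_apply, hz]
  field_simp
  ring

theorem Riem_h0 (z u v w : V) :
    Riem h0 z u v w = h0 z v w • u - h0 z u w • v + omL z v w • iL u - omL z u w • iL v
      - (2 * omL z u v) • iL w := by
  have hH : ∀ a b : V, Hf z a b = (h0 z a b : ℂ) + (omL z a b : ℂ) * Complex.I := by
    intro a b
    rw [← Hf_re, ← Hf_im, Complex.re_add_im]
  ext i
  have e1 : (h0 z v w • u - h0 z u w • v + omL z v w • iL u - omL z u w • iL v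
      - (2 * omL z u v) • iL w) i = Hf z v w * u i - Hf z u w * v i
        + (Hf z v u - Hf z u v) * w i := by
    rw [hH v w, hH u w, hH v u, hH u v, h0_symm z v u, omL_skew z v u]
    simp only [Pi.add_apply, Pi.sub_apply, Pi.smul_apply, iL_apply, smul_eq_mul,
      Complex.real_smul]
    push_cast
    ring
  have e2 : Riem h0 z u v w i = fderiv ℝ (fun z' => Gam h0 z' v w) z u i
      - fderiv ℝ (fun z' => Gam h0 z' u w) z v i
      + Gam h0 z u (Gam h0 z v w) i - Gam h0 z v (Gam h0 z u w) i := by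
    simp [Riem]
  rw [e1, e2, fderiv_Gam_h0, fderiv_Gam_h0, Gam_h0, Gam_h0, Gam_h0, Gam_h0]
  simp only [Pi.neg_apply, Pi.smul_apply, Pi.add_apply, smul_eq_mul, hip_neg, hip_smul, hip_add,
    Hf, ← hip_conj z u, ← hip_conj z v, ← hip_conj u v]
  have := nzc_ne z
  field_simp
  ring

theorem num_h0 (z u v : V) :
    num h0 z u v = h0 z u u * h0 z v v - h0 z u v ^ 2 + 3 * omL z u v ^ 2 := by
  rw [← G_Riem (h0_metAt z), Riem_h0]
  have e1 : ∀ a b : V, h0 z (iL a) b = omL z a b := fun a b => rfl
  have e2 : omL z v v = 0 := by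
    have := omL_skew z v v
    linarith
  simp only [map_sub, map_add, map_smul, _root_.sub_apply, _root_.add_apply, _root_.smul_apply,
    smul_eq_mul, e1, e2]
  rw [omL_skew z v u, h0_symm z v u]
  ring

end Pool.Agent.Helper46.M8
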