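import Pool.Agent.Helper46.M8.St.A9
import Pool.Agent.Helper46.M8.St.A13
import Pool.Agent.Helper46.M8.St.A14
import Pool.Agent.Helper46.M8.Ns

/-!
# M8, piece B3
-/

open Filter Metric Module Set
open scoped Topology ContDiff Matrix Matrix.Norms.Elementwise ComplexConjugate

set_option maxSynthPendingDepth 3

namespace Pool.Agent.Helper46.M8
open Pool.Agent.Helper20.PC Pool.Agent.Helper20.HP Pool.Agent.Helper20.M8 Pool.Agent.Helper20.MB

/-! ### B3 : invariance of the norm and of the orbit -/

namespace B3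

/-- the product topology on `J2`. -/
@[reducible] def topJ : TopologicalSpace J2 :=
  TopologicalSpace.induced (fun u : J2 => (u.a, u.b, u.c)) inferInstance

attribute [local instance] topJ

theorem cont_iff {X : Type*} [TopologicalSpace X] {f : X → J2} :
    Continuous f ↔ Continuous (fun x => (f x).a) ∧ Continuous (fun x => (f x).b) ∧
      Continuous (fun x => (f x).c) := by
  refine (continuous_induced_rng (f := fun u : J2 => (u.a, u.b, u.c))).trans ?_
  constructor
  · intro h
    exact ⟨h.fst, h.snd.fst, h.snd.snd⟩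
  · rintro ⟨h1, h2, h3⟩
    exact h1.prodMk (h2.prodMk h3)

theorem cont_a : Continuous (fun u : J2 => u.a) := (cont_iff.1 continuous_id).1
theorem cont_b : Continuous (fun u : J2 => u.b) := (cont_iff.1 continuous_id).2.1
theorem cont_c : Continuous (fun u : J2 => u.c) := (cont_iff.1 continuous_id).2.2

theorem contAdd : ContinuousAdd J2 := by
  refine ⟨cont_iff.2 ⟨?_, ?_, ?_⟩⟩
  · exact (cont_a.comp continuous_fst).add (cont_a.comp continuous_snd)
  · exact (cont_b.comp continuous_fst).add (cont_b.comp continuous_snd)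
  · exact (cont_c.comp continuous_fst).add (cont_c.comp continuous_snd)

theorem contNeg : ContinuousNeg J2 := by
  refine ⟨cont_iff.2 ⟨?_, ?_, ?_⟩⟩
  · exact cont_a.neg
  · exact cont_b.neg
  · exact cont_c.neg

theorem contMul : ContinuousMul J2 := by
  have a1 := cont_a.comp (continuous_fst (X := J2) (Y := J2))
  have a2 := cont_a.comp (continuous_snd (X := J2) (Y := J2))
  have b1 := cont_b.comp (continuous_fst (X := J2) (Y := J2))
  have b2 := cont_b.comp (continuous_snd (X := J2) (Y := J2))
  have c1 := cont_c.comp (continuous_fst (X := J2) (Y := J2))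
  have c2 := cont_c.comp (continuous_snd (X := J2) (Y := J2))
  refine ⟨cont_iff.2 ⟨?_, ?_, ?_⟩⟩
  · exact a1.mul a2
  · exact (a1.mul b2).add (b1.mul a2)
  · exact ((a1.mul c2).add (continuous_const.mul (b1.mul b2))).add (c1.mul a2)

attribute [local instance] contAdd contNeg contMul

theorem topRing : IsTopologicalRing J2 := {}

attribute [local instance] topRing

theorem cont_Fx {X : Type*} [TopologicalSpace X] {g : X → Fin 8 → J2}
    (hg : ∀ i, Continuous (fun x => g x i)) : Continuous (fun x => Fx (R := J2) (g x)) := by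
  have h0 := hg 0
  have h1 := hg 1
  have h2 := hg 2
  have h3 := hg 3
  have h4 := hg 4
  have h5 := hg 5
  have h6 := hg 6
  have h7 := hg 7
  unfold Fx
  fun_prop

theorem cont_Ex {R : Type*} [CommRing R] [TopologicalSpace R] [IsTopologicalRing R]
    {X : Type*} [TopologicalSpace X] {g : X → Fin 8 → R}
    (hg : ∀ i, Continuous (fun x => g x i)) (i : Fin 8) :
    Continuous (fun x => Ex (R := R) (g x) i) := by
  have h0 := hg 0
  have h1 := hg 1
  have h2 := hg 2
  have h3 := hg 3
  have h4 := hg 4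
  have h5 := hg 5
  have h6 := hg 6
  have h7 := hg 7
  fin_cases i <;> simp only [Ex] <;> fun_prop

theorem cont_PhiDD : Continuous PhiDD := by
  unfold PhiDD
  refine cont_c.comp (cont_Fx fun i => ?_)
  have hx : ∀ j : Fin 8, Continuous (fun x : Fin 8 → ℝ => x j) := fun j => continuous_apply j
  have hE : ∀ j : Fin 8, Continuous (fun x : Fin 8 → ℝ => Ex x j) := cont_Ex hx
  refine cont_iff.2 ⟨hx i, hE i, ?_⟩
  refine cont_b.comp (cont_Ex (fun j => ?_) i)
  exact cont_iff.2 ⟨hx j, hE j, continuous_const⟩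

theorem isCompact_Orb : IsCompact Orb := by
  have hcl : IsClosed Orb := by
    refine IsClosed.inter ?_ ?_
    · exact isClosed_eq (by fun_prop) continuous_const
    · exact isClosed_eq (by unfold detx; fun_prop) continuous_const
  refine Metric.isCompact_of_isClosed_isBounded hcl ?_
  rw [Metric.isBounded_iff_subset_closedBall (0 : Fin 8 → ℝ)]
  refine ⟨1, fun x hx => ?_⟩
  rw [mem_closedBall_zero_iff, pi_norm_le_iff_of_nonneg zero_le_one]
  have h := hx.1
  intro i
  rw [Real.norm_eq_abs, ← sq_le_one_iff_abs_le_one]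
  have s0 := sq_nonneg (x 0)
  have s1 := sq_nonneg (x 1)
  have s2 := sq_nonneg (x 2)
  have s3 := sq_nonneg (x 3)
  have s4 := sq_nonneg (x 4)
  have s5 := sq_nonneg (x 5)
  have s6 := sq_nonneg (x 6)
  have s7 := sq_nonneg (x 7)
  have k0 : x 0 ^ 2 ≤ 1 := by linarith
  have k1 : x 1 ^ 2 ≤ 1 := by linarith
  have k2 : x 2 ^ 2 ≤ 1 := by linarith
  have k3 : x 3 ^ 2 ≤ 1 := by linarith
  have k4 : x 4 ^ 2 ≤ 1 := by linarith
  have k5 : x 5 ^ 2 ≤ 1 := by linarith
  have k6 : x 6 ^ 2 ≤ 1 := by linarith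
  have k7 : x 7 ^ 2 ≤ 1 := by linarith
  fin_cases i
  exacts [k0, k1, k2, k3, k4, k5, k6, k7]

end B3

open B3

/-- `Orb` is compact and `θ² + Φ`-type inequality: there is `κ > 0` with
`(371/80) θ² + (κ/2) Φ > 0` on the orbit. -/
theorem exists_kappa : ∃ κ : ℝ, 0 < κ ∧ ∀ x ∈ Orb, 0 < (371/80) * x 6 ^ 2 + (κ/2) * PhiDD x := by
  obtain ⟨t, ht, hpos⟩ := compact_param isCompact_Orb (f := PhiDD) (g := fun x => x 6 ^ 2)
    cont_PhiDD.continuousOn (by fun_prop) (fun x _ => sq_nonneg _) (by
      intro x hx h6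
      have h6' : x 6 = 0 := by simpa using h6
      refine cert x h6' hx.2 ?_
      rintro rfl
      have := hx.1
      simp at this)
  obtain ⟨M, hM⟩ := isCompact_Orb.exists_bound_of_continuousOn cont_PhiDD.continuousOn
  have hM1 : 0 < |M| + 1 := by positivity
  refine ⟨t / (|M| + 1), by positivity, fun x hx => ?_⟩
  by_cases h : x 6 ^ 2 ≤ t
  · have h1 := hpos x hx h
    have h2 : 0 < t / (|M| + 1) / 2 * PhiDD x := by positivity
    have h3 : 0 ≤ (371 / 80 : ℝ) * x 6 ^ 2 := by positivity
    linarith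
  · rw [not_le] at h
    have h1 := hM x hx
    rw [Real.norm_eq_abs] at h1
    have h2 : -(|M| + 1) ≤ PhiDD x := by
      have := neg_abs_le (PhiDD x)
      have := le_abs_self M
      linarith
    have h3 : t / (|M| + 1) / 2 * (-(|M| + 1)) ≤ t / (|M| + 1) / 2 * PhiDD x :=
      mul_le_mul_of_nonneg_left h2 (by positivity)
    have h4 : t / (|M| + 1) / 2 * (-(|M| + 1)) = -(t / 2) := by
      field_simp
    rw [h4] at h3
    linarith

end Pool.Agent.Helper46.M8
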