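import Pool.Agent.Helper46.M8.St.A4a
import Pool.Agent.Helper46.M8.St.A4b
import Pool.Agent.Helper46.M8.St.A5
import Pool.Agent.Helper46.M8.St.B1
import Pool.Agent.Helper46.M8.Ns

/-!
# M8, piece C1
-/

open Filter Metric Module Set
open scoped Topology ContDiff Matrix Matrix.Norms.Elementwise ComplexConjugate

set_option maxSynthPendingDepth 3

namespace Pool.Agent.Helper46.M8
open Pool.Agent.Helper20.PC Pool.Agent.Helper20.HP Pool.Agent.Helper20.M8 Pool.Agent.Helper20.MB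

/-! ### C1 : smoothness of the base metric in the parameters -/
theorem contDiffAt_hm {q : Pm × V} (hU : q.1.1ᴴ * q.1.1 = 1) (hδ : |q.1.2.1| ≤ 1/100) :
    ContDiffAt ℝ ∞ (fun q : Pm × V => hm q.1.1 q.1.2.1 q.2) q := by
  exact contDiffAt_inverse_comp (F := fun q : Pm × V => CC q.1.1 q.1.2.1 q.2)
    contDiff_CC.contDiffAt (CC_inv hU hδ q.2)

theorem contDiffAt_JJ {q : Pm × V} (hU : q.1.1ᴴ * q.1.1 = 1) (hδ : |q.1.2.1| ≤ 1/100) :
    ContDiffAt ℝ ∞ (fun q : Pm × V => JJ q.1.1 q.1.2.1 q.2) q := by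
  have h1 : ContDiffAt ℝ ∞ (fun q : Pm × V => CC q.1.1 q.1.2.1 q.2) q := contDiff_CC.contDiffAt
  have h2 : ContDiffAt ℝ ∞ (fun q : Pm × V => omL q.2) q :=
    (contDiff_omL.comp contDiff_snd).contDiffAt
  exact h1.clm_comp h2

theorem contDiffAt_momL {q : Pm × V} (hU : q.1.1ᴴ * q.1.1 = 1) (hδ : |q.1.2.1| ≤ 1/100) (i : Fin 8) :
    ContDiffAt ℝ ∞ (fun q : Pm × V => momL q.1.1 q.1.2.1 q.2 i) q := by
  have h1 := contDiffAt_hm hU hδ
  have h2 : ContDiffAt ℝ ∞ (fun q : Pm × V => (hm q.1.1 q.1.2.1 q.2).flip) q :=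
    (ContinuousLinearMap.flipₗᵢ ℝ V V ℝ).toContinuousLinearEquiv.contDiff.contDiffAt.comp q h1
  have h3 : ContDiffAt ℝ ∞ (fun q : Pm × V => Kf q.1.1 i q.2) q := (contDiff_Kf i).contDiffAt
  exact h2.clm_apply h3

theorem hm_metAt {U : Mat} {δ : ℝ} (hU : Uᴴ * U = 1) (hδ : |δ| ≤ 1/100) (z : V) :
    MetAt (hm U δ) z := by
  have h1 : ContDiffAt ℝ ∞ (fun q : Pm × V => hm q.1.1 q.1.2.1 q.2) (((U, δ, 0) : Pm), z) :=
    contDiffAt_hm hU hδ
  have h2 : ContDiffAt ℝ ∞ (fun z' : V => ((((U, δ, 0) : Pm), z') : Pm × V)) z :=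
    contDiffAt_const.prodMk contDiffAt_id
  have h3 := h1.comp z h2
  exact ⟨h3.of_le (by norm_cast), Eventually.of_forall fun z' u v => hm_symm hU hδ z' u v,
    Eventually.of_forall fun z' u hu => hm_pos hU hδ z' u hu⟩

end Pool.Agent.Helper46.M8
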