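import Pool.Agent.Helper46.M8.St.A15
import Pool.Agent.Helper46.M8.St.A16
import Pool.Agent.Helper46.M8.Ns

/-!
# M8, piece C2
-/

open Filter Metric Module Set
open scoped Topology ContDiff Matrix Matrix.Norms.Elementwise ComplexConjugate

set_option maxSynthPendingDepth 3

namespace Pool.Agent.Helper46.M8
open Pool.Agent.Helper20.PC Pool.Agent.Helper20.HP Pool.Agent.Helper20.M8 Pool.Agent.Helper20.MB

/-! ### C2 : the limit form of (T) -/
theorem om_param (om : Fin 4 → Fin 4 → ℝ) (hsk : ∀ a b, om a b = - om b a)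
    (hort : ∀ a b, ∑ e, om a e * om b e = if a = b then 1 else 0) :
    ∃ σ : ℝ, σ ^ 2 = 1 ∧ om 1 2 = σ * om 0 3 ∧ om 1 3 = - (σ * om 0 2) ∧ om 2 3 = σ * om 0 1 ∧
      om 0 1 ^ 2 + om 0 2 ^ 2 + om 0 3 ^ 2 = 1 := by
  have d : ∀ a, om a a = 0 := fun a => by have := hsk a a; linarith
  have h00 := hort 0 0
  have h11 := hort 1 1
  have h22 := hort 2 2
  have h01 := hort 0 1
  have h02 := hort 0 2
  have h03 := hort 0 3
  simp only [Fin.sum_univ_four, d, hsk 1 0, hsk 2 0, hsk 3 0, hsk 2 1, hsk 3 1, hsk 3 2] at h00 h11 h22 h01 h02 h03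
  simp only [Fin.isValue, if_true, zero_ne_one, Fin.reduceEq, if_false] at h00 h11 h22 h01 h02 h03
  generalize om 0 1 = x at *
  generalize om 0 2 = y at *
  generalize om 0 3 = z at *
  generalize om 1 2 = p at *
  generalize om 1 3 = q at *
  generalize om 2 3 = r at *
  have h0 : x ^ 2 + y ^ 2 + z ^ 2 = 1 := by linarith
  have hp : p = (x * r - y * q + z * p) * z := by
    linear_combination (-p) * h0 + (-x) * h02 + y * h01
  have hq : q = - ((x * r - y * q + z * p) * y) := by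
    linear_combination (-q) * h0 + (-x) * h03 + z * h01
  have hr : r = (x * r - y * q + z * p) * x := by
    linear_combination (-r) * h0 + (-y) * h03 + z * h02
  refine ⟨x * r - y * q + z * p, ?_, hp, hq, hr, h0⟩
  generalize x * r - y * q + z * p = s at *
  have e1 : (s ^ 2 - 1) * (y ^ 2 + z ^ 2) = 0 := by
    subst hp hq hr
    linear_combination h11 - h0
  have e2 : (s ^ 2 - 1) * (x ^ 2 + z ^ 2) = 0 := by
    subst hp hq hr
    linear_combination h22 - h0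
  have e3 : (s ^ 2 - 1) * (1 + z ^ 2) = 0 := by linear_combination e1 + e2 - (s ^ 2 - 1) * h0
  rcases mul_eq_zero.1 e3 with h | h
  · linarith
  · nlinarith [sq_nonneg z]

/-- the case `c ≠ 0`. -/
theorem Tlim_pos1 (om : Fin 4 → Fin 4 → ℝ) (hsk : ∀ a b, om a b = - om b a)
    (hort : ∀ a b, ∑ e, om a e * om b e = if a = b then 1 else 0) (th u c : ℝ) (w : Fin 4 → ℝ)
    (β : Fin 4 → Fin 4 → ℝ) (hw : w 0 = 0) (hβ : ∀ a b, β a b = - β b a)
    (hz : ∀ i j, i ≠ 0 → j ≠ 0 → β i j = 0) :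
    (371/80) * th ^ 2 * c ^ 2 + (1/1000) * (u ^ 2 + ∑ i, w i ^ 2 + ∑ a, ∑ b, β a b ^ 2)
      ≤ Tlim om th u c w β := by
  obtain ⟨σ, hσ, h12, h13, h23, hv⟩ := om_param om hsk hort
  rw [Tlim_formula om σ hσ hsk h12 h13 h23 hv th u c w β hw hβ]
  have hB : (![β 2 3, - β 1 3, β 1 2] : Fin 3 → ℝ) = 0 := by
    rw [hz 2 3 (by decide) (by decide), hz 1 3 (by decide) (by decide),
      hz 1 2 (by decide) (by decide)]
    ext i; fin_cases i <;> simp
  rw [hB]
  have h := TlimF_pos1 σ th u c ![om 0 1, om 0 2, om 0 3] ![w 1, w 2, w 3] ![β 0 1, β 0 2, β 0 3]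
    hσ (by simp only [dot3, Matrix.cons_val_zero, Matrix.cons_val_one, Matrix.cons_val]; linarith)
  refine le_trans ?_ h
  have hd : ∀ a, β a a = 0 := fun a => by have := hβ a a; linarith
  have hs1 : ∑ i, w i ^ 2 = dot3 ![w 1, w 2, w 3] ![w 1, w 2, w 3] := by
    simp only [Fin.sum_univ_four, hw, dot3, Matrix.cons_val_zero, Matrix.cons_val_one,
      Matrix.cons_val]
    ring
  have hs2 : ∑ a, ∑ b, β a b ^ 2 = 2 * dot3 ![β 0 1, β 0 2, β 0 3] ![β 0 1, β 0 2, β 0 3] := by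
    simp only [Fin.sum_univ_four, hd, hβ 1 0, hβ 2 0, hβ 3 0, hz 1 2 (by decide) (by decide),
      hz 1 3 (by decide) (by decide), hz 2 3 (by decide) (by decide),
      hz 2 1 (by decide) (by decide), hz 3 1 (by decide) (by decide),
      hz 3 2 (by decide) (by decide), dot3, Matrix.cons_val_zero, Matrix.cons_val_one,
      Matrix.cons_val]
    ring
  have h1 : 0 ≤ dot3 ![w 1, w 2, w 3] ![w 1, w 2, w 3] := by
    rw [← hs1]; positivity
  rw [hs1, hs2]
  nlinarith [sq_nonneg u]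

/-- the case `c = 0`. -/
theorem Tlim_pos2 (om : Fin 4 → Fin 4 → ℝ) (hsk : ∀ a b, om a b = - om b a)
    (hort : ∀ a b, ∑ e, om a e * om b e = if a = b then 1 else 0) (th u : ℝ) (w : Fin 4 → ℝ)
    (β : Fin 4 → Fin 4 → ℝ) (hw : w 0 = 0) (hβ : ∀ a b, β a b = - β b a)
    (hz : β 0 1 * β 2 3 - β 0 2 * β 1 3 + β 0 3 * β 1 2 = 0) :
    (1/1000) * (u ^ 2 + ∑ i, w i ^ 2 + ∑ a, ∑ b, β a b ^ 2) ≤ Tlim om th u 0 w β := by
  obtain ⟨σ, hσ, h12, h13, h23, hv⟩ := om_param om hsk hort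
  rw [Tlim_formula om σ hσ hsk h12 h13 h23 hv th u 0 w β hw hβ]
  have h := TlimF_pos2 σ th u ![om 0 1, om 0 2, om 0 3] ![w 1, w 2, w 3] ![β 0 1, β 0 2, β 0 3]
    ![β 2 3, - β 1 3, β 1 2]
    hσ (by simp only [dot3, Matrix.cons_val_zero, Matrix.cons_val_one, Matrix.cons_val]; linarith)
    (by simp only [dot3, Matrix.cons_val_zero, Matrix.cons_val_one, Matrix.cons_val]; linarith)
  refine le_trans ?_ h
  have hd : ∀ a, β a a = 0 := fun a => by have := hβ a a; linarith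
  have hs1 : ∑ i, w i ^ 2 = dot3 ![w 1, w 2, w 3] ![w 1, w 2, w 3] := by
    simp only [Fin.sum_univ_four, hw, dot3, Matrix.cons_val_zero, Matrix.cons_val_one,
      Matrix.cons_val]
    ring
  have hs2 : ∑ a, ∑ b, β a b ^ 2 = 2 * dot3 ![β 0 1, β 0 2, β 0 3] ![β 0 1, β 0 2, β 0 3] +
      2 * dot3 ![β 2 3, - β 1 3, β 1 2] ![β 2 3, - β 1 3, β 1 2] := by
    simp only [Fin.sum_univ_four, hd, hβ 1 0, hβ 2 0, hβ 3 0, hβ 2 1, hβ 3 1, hβ 3 2,
      dot3, Matrix.cons_val_zero, Matrix.cons_val_one, Matrix.cons_val]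
    ring
  have h1 : 0 ≤ dot3 ![w 1, w 2, w 3] ![w 1, w 2, w 3] := by
    rw [← hs1]; positivity
  rw [hs1, hs2]
  nlinarith [sq_nonneg u]

end Pool.Agent.Helper46.M8
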