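import Pool.Agent.Helper46.M8.Frame
import Pool.Agent.Helper46.M8.Ns

/-!
# M8, piece C3
-/

open Filter Metric Module Set
open scoped Topology ContDiff Matrix Matrix.Norms.Elementwise ComplexConjugate

set_option maxSynthPendingDepth 3

namespace Pool.Agent.Helper46.M8
open Pool.Agent.Helper20.PC Pool.Agent.Helper20.HP Pool.Agent.Helper20.M8 Pool.Agent.Helper20.MB

/-! ### C3 : algebra of `Tj` -/

section C3aux
variable {R : Type*} [CommRing R] [Algebra ℝ R]

omit [Algebra ℝ R] in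
private lemma Fx_mul (s : R) (x : Fin 8 → R) : Fx (fun i => s * x i) = s ^ 2 * Fx x := by
  unfold Fx
  ring

private lemma xc_mul (s : R) (m : Fin 8 → R) : xc (fun i => s * m i) = fun i => s * xc m i := by
  funext i
  unfold xc
  split_ifs
  · rw [mul_smul_comm]
  · rfl

private lemma dc_mul (ε : ℝ) (th : R) (om : Fin 4 → Fin 4 → R) (s : R) (w : Fin 4 → R) :
    dc ε th om (fun i => s * w i) = s * dc ε th om w := by
  unfold dc
  have h1 : ∑ i, s * w i * om 0 i = s * ∑ i, w i * om 0 i := by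
    rw [Finset.mul_sum]
    exact Finset.sum_congr rfl fun i _ => by ring
  rw [h1]
  simp only [Algebra.smul_def]
  ring

private lemma dw_mul (ε : ℝ) (th : R) (om : Fin 4 → Fin 4 → R) (s c : R) (w : Fin 4 → R)
    (β : Fin 4 → Fin 4 → R) (i : Fin 4) :
    dw ε th om (s * c) (fun i => s * w i) (fun a b => s * β a b) i = s * dw ε th om c w β i := by
  unfold dw
  have h1 : ∑ j, s * w j * om i j = s * ∑ j, w j * om i j := by
    rw [Finset.mul_sum]
    exact Finset.sum_congr rfl fun i _ => by ring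
  rw [h1]
  split_ifs
  · rw [mul_zero]
  · simp only [Algebra.smul_def]
    ring

private lemma dβ_mul (ε : ℝ) (th : R) (om : Fin 4 → Fin 4 → R) (s : R) (w : Fin 4 → R)
    (β : Fin 4 → Fin 4 → R) (a b : Fin 4) :
    dβ ε th om (fun i => s * w i) (fun a b => s * β a b) a b = s * dβ ε th om w β a b := by
  unfold dβ
  have h1 : ∑ e, (om a e * (s * β e b) + om b e * (s * β a e)) =
      s * ∑ e, (om a e * β e b + om b e * β a e) := by
    rw [Finset.mul_sum]
    exact Finset.sum_congr rfl fun i _ => by ring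
  rw [h1]
  split_ifs <;> simp only [Algebra.smul_def] <;> ring

private lemma OG_mul (ε : ℝ) (k : Fin 4) (om : Fin 4 → Fin 4 → R) (m : Fin 4 → Fin 8 → R)
    (rho q : Fin 4 → Fin 4 → Fin 4 → R) (s c : R) (w : Fin 4 → R) (β : Fin 4 → Fin 4 → R) :
    OG ε k om m rho q (s * c) (fun i => s * w i) (fun a b => s * β a b) =
      s * OG ε k om m rho q c w β := by
  unfold OG
  have h1 : ∑ i, s * w i * (m 0 6 * om i k - m k 6 * om i 0) =
      s * ∑ i, w i * (m 0 6 * om i k - m k 6 * om i 0) := by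
    rw [Finset.mul_sum]
    exact Finset.sum_congr rfl fun i _ => by ring
  have h2 : ∑ a, ∑ b, s * β a b * (rho k a b + ε • q k a b) =
      s * ∑ a, ∑ b, β a b * (rho k a b + ε • q k a b) := by
    simp only [Finset.mul_sum]
    exact Finset.sum_congr rfl fun i _ => Finset.sum_congr rfl fun j _ => by ring
  rw [h1, h2]
  simp only [Algebra.smul_def]
  ring

private lemma SG_mul (ε lam : ℝ) (om f : Fin 4 → Fin 4 → R) (m : Fin 4 → Fin 8 → R) (s c : R)
    (w : Fin 4 → R) (β : Fin 4 → Fin 4 → R) :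
    SG ε lam om f m (s * c) (fun i => s * w i) (fun a b => s * β a b) =
      s ^ 2 * SG ε lam om f m c w β := by
  unfold SG
  have h1 : ∑ a, ∑ b, ∑ d, ∑ e, s * β a b * (s * β d e) * (f a d * f b e) =
      s ^ 2 * ∑ a, ∑ b, ∑ d, ∑ e, β a b * β d e * (f a d * f b e) := by
    simp only [Finset.mul_sum]
    exact Finset.sum_congr rfl fun a _ => Finset.sum_congr rfl fun b _ =>
      Finset.sum_congr rfl fun d _ => Finset.sum_congr rfl fun e _ => by ring
  have h2 : ∑ a, ∑ b, s * β a b * om a b = s * ∑ a, ∑ b, β a b * om a b := by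
    simp only [Finset.mul_sum]
    exact Finset.sum_congr rfl fun i _ => Finset.sum_congr rfl fun j _ => by ring
  have h3 : ∀ i : Fin 8, ∑ a, m a i * (if a = 0 then s * c else ε • (s * w a)) =
      s * ∑ a, m a i * (if a = 0 then c else ε • w a) := by
    intro i
    rw [Finset.mul_sum]
    refine Finset.sum_congr rfl fun a _ => ?_
    split_ifs
    · ring
    · simp only [Algebra.smul_def]
      ring
  rw [h1, h2]
  simp only [h3]
  rw [xc_mul, Fx_mul]
  simp only [Algebra.smul_def]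
  ring

end C3aux

private lemma C_mul_mk (r a b c : ℝ) : J2.C r * ⟨a, b, c⟩ = (⟨r * a, r * b, r * c⟩ : J2) := by
  ext <;> simp

private lemma C_mul_a (r : ℝ) (x : J2) : (J2.C r * x).a = r * x.a := by simp

private lemma C_mul_b (r : ℝ) (x : J2) : (J2.C r * x).b = r * x.b := by simp

private lemma C_mul_c (r : ℝ) (x : J2) : (J2.C r * x).c = r * x.c := by simp

private lemma jc_mul (ε : ℝ) (th : J2) (om : Fin 4 → Fin 4 → J2) (r c : ℝ) (w : Fin 4 → ℝ)
    (β : Fin 4 → Fin 4 → ℝ) :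
    jc ε th om (r * c) (fun i => r * w i) (fun a b => r * β a b) =
      J2.C r * jc ε th om c w β := by
  unfold jc
  have h1 : (fun i => (⟨r * w i, r * dw ε th.a (fun a b => (om a b).a) c w β i, 0⟩ : J2)) =
      fun i => J2.C r * ⟨w i, dw ε th.a (fun a b => (om a b).a) c w β i, 0⟩ := by
    funext i
    rw [C_mul_mk, mul_zero]
  simp only [dc_mul, dw_mul]
  rw [h1, dc_mul, C_mul_b, C_mul_mk]

private lemma jw_mul (ε : ℝ) (th : J2) (om : Fin 4 → Fin 4 → J2) (r c : ℝ) (w : Fin 4 → ℝ)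
    (β : Fin 4 → Fin 4 → ℝ) (i : Fin 4) :
    jw ε th om (r * c) (fun i => r * w i) (fun a b => r * β a b) i =
      J2.C r * jw ε th om c w β i := by
  unfold jw
  have h1 : (fun i => (⟨r * w i, r * dw ε th.a (fun a b => (om a b).a) c w β i, 0⟩ : J2)) =
      fun i => J2.C r * ⟨w i, dw ε th.a (fun a b => (om a b).a) c w β i, 0⟩ := by
    funext i
    rw [C_mul_mk, mul_zero]
  have h2 : (fun a b => (⟨r * β a b, r * dβ ε th.a (fun a b => (om a b).a) w β a b, 0⟩ : J2)) =
      fun a b => J2.C r * ⟨β a b, dβ ε th.a (fun a b => (om a b).a) w β a b, 0⟩ := by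
    funext a b
    rw [C_mul_mk, mul_zero]
  have h3 : (⟨r * c, r * dc ε th.a (fun a b => (om a b).a) w, 0⟩ : J2) =
      J2.C r * ⟨c, dc ε th.a (fun a b => (om a b).a) w, 0⟩ := by
    rw [C_mul_mk, mul_zero]
  simp only [dc_mul, dw_mul, dβ_mul]
  rw [h1, h2, h3, dw_mul, C_mul_b, C_mul_mk]

private lemma jβ_mul (ε : ℝ) (th : J2) (om : Fin 4 → Fin 4 → J2) (r c : ℝ) (w : Fin 4 → ℝ)
    (β : Fin 4 → Fin 4 → ℝ) (a b : Fin 4) :
    jβ ε th om (r * c) (fun i => r * w i) (fun a b => r * β a b) a b =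
      J2.C r * jβ ε th om c w β a b := by
  unfold jβ
  have h1 : (fun i => (⟨r * w i, r * dw ε th.a (fun a b => (om a b).a) c w β i, 0⟩ : J2)) =
      fun i => J2.C r * ⟨w i, dw ε th.a (fun a b => (om a b).a) c w β i, 0⟩ := by
    funext i
    rw [C_mul_mk, mul_zero]
  have h2 : (fun a b => (⟨r * β a b, r * dβ ε th.a (fun a b => (om a b).a) w β a b, 0⟩ : J2)) =
      fun a b => J2.C r * ⟨β a b, dβ ε th.a (fun a b => (om a b).a) w β a b, 0⟩ := by
    funext a b
    rw [C_mul_mk, mul_zero]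
  simp only [dw_mul, dβ_mul]
  rw [h1, h2, dβ_mul, C_mul_b, C_mul_mk]

private lemma jc_zero (th : J2) (om : Fin 4 → Fin 4 → J2) (c : ℝ) (w : Fin 4 → ℝ)
    (β : Fin 4 → Fin 4 → ℝ) : jc 0 th om c w β = J2.C c := by
  ext <;> simp [jc, dc]

/-- at `ε = lam = 0` only `om`, `f`, `m 0 6` and `rho` matter. -/
theorem Tj_congr (K : ℝ) (om f : Fin 4 → Fin 4 → J2) (m m' : Fin 4 → Fin 8 → J2)
    (rho q q' : Fin 4 → Fin 4 → Fin 4 → J2) (u c : ℝ) (w : Fin 4 → ℝ) (β : Fin 4 → Fin 4 → ℝ)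
    (hm : m 0 6 = m' 0 6) :
    Tj 0 0 K om f m rho q u c w β = Tj 0 0 K om f m' rho q' u c w β := by
  have h1 : ∀ (k : Fin 4) (C : J2) (W : Fin 4 → J2) (B : Fin 4 → Fin 4 → J2),
      OG 0 k om m rho q C W B = OG 0 k om m' rho q' C W B := by
    intro k C W B
    unfold OG
    simp only [hm, zero_smul, zero_div]
  have h2 : ∀ (C : J2) (W : Fin 4 → J2) (B : Fin 4 → Fin 4 → J2),
      SG 0 0 om f m C W B = SG 0 0 om f m' C W B := by
    intro C W B
    unfold SG
    have h3 : ∀ n : Fin 4 → Fin 8 → J2,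
        ∑ a, n a 6 * (if a = 0 then C else (0 : ℝ) • W a) = n 0 6 * C := by
      intro n
      rw [Finset.sum_eq_single (0 : Fin 4)]
      · rw [if_pos rfl]
      · intro b _ hb
        rw [if_neg hb, zero_smul, mul_zero]
      · intro h
        exact absurd (Finset.mem_univ _) h
    rw [h3, h3, hm]
    simp only [zero_smul]
  unfold Tj
  simp only [h1, h2, hm]

/-- at `ε = 0` the dependence on `lam` is explicit. -/
theorem Tj_lam (lam K : ℝ) (om f : Fin 4 → Fin 4 → J2) (m : Fin 4 → Fin 8 → J2)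
    (rho q : Fin 4 → Fin 4 → Fin 4 → J2) (u c : ℝ) (w : Fin 4 → ℝ) (β : Fin 4 → Fin 4 → ℝ) :
    Tj 0 lam K om f m rho q u c w β = Tj 0 0 K om f m rho q u c w β
      + (1/2) * lam * c ^ 2 * (Fx (R := J2) (xc (fun i => m 0 i))).c := by
  have h2 : ∀ (C : J2) (W : Fin 4 → J2) (B : Fin 4 → Fin 4 → J2),
      SG 0 lam om f m C W B = SG 0 0 om f m C W B +
        lam • (C ^ 2 * Fx (R := J2) (xc (fun i => m 0 i))) := by
    intro C W B
    unfold SG
    have h3 : ∀ i : Fin 8,
        ∑ a, m a i * (if a = 0 then C else (0 : ℝ) • W a) = C * m 0 i := by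
      intro i
      rw [Finset.sum_eq_single (0 : Fin 4)]
      · rw [if_pos rfl, mul_comm]
      · intro b _ hb
        rw [if_neg hb, zero_smul, mul_zero]
      · intro h
        exact absurd (Finset.mem_univ _) h
    simp only [h3]
    rw [xc_mul, Fx_mul, zero_smul, add_zero]
  unfold Tj
  simp only [h2, jc_zero]
  have h4 : (lam • ((J2.C c) ^ 2 * Fx (R := J2) (xc (fun i => m 0 i))) : J2).c =
      lam * (c ^ 2 * (Fx (R := J2) (xc (fun i => m 0 i))).c) := by
    rw [← map_pow, J2.smul_c, C_mul_c]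
  rw [J2.add_c, h4]
  ring

/-- homogeneity. -/
theorem Tj_homog (ε lam K : ℝ) (om f : Fin 4 → Fin 4 → J2) (m : Fin 4 → Fin 8 → J2)
    (rho q : Fin 4 → Fin 4 → Fin 4 → J2) (r u c : ℝ) (w : Fin 4 → ℝ) (β : Fin 4 → Fin 4 → ℝ) :
    Tj ε lam K om f m rho q (r * u) (r * c) (fun i => r * w i) (fun a b => r * β a b)
      = r ^ 2 * Tj ε lam K om f m rho q u c w β := by
  have hw : jw ε (m 0 6) om (r * c) (fun i => r * w i) (fun a b => r * β a b) =
      fun i => J2.C r * jw ε (m 0 6) om c w β i := funext fun i => jw_mul ε _ om r c w β i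
  have hβ : jβ ε (m 0 6) om (r * c) (fun i => r * w i) (fun a b => r * β a b) =
      fun a b => J2.C r * jβ ε (m 0 6) om c w β a b :=
    funext fun a => funext fun b => jβ_mul ε _ om r c w β a b
  unfold Tj
  simp only [jc_mul, hw, hβ, OG_mul, SG_mul]
  rw [← map_pow, C_mul_b, C_mul_c]
  simp only [C_mul_a, mul_pow]
  rw [← Finset.mul_sum]
  ring

end Pool.Agent.Helper46.M8
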