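import Pool.Agent.Helper46.M8.St.C1
import Pool.Agent.Helper46.M8.Ns

/-!
# M8, piece D1
-/

open Filter Metric Module Set
open scoped Topology ContDiff Matrix Matrix.Norms.Elementwise ComplexConjugate

set_option maxSynthPendingDepth 3

namespace Pool.Agent.Helper46.M8
open Pool.Agent.Helper20.PC Pool.Agent.Helper20.HP Pool.Agent.Helper20.M8 Pool.Agent.Helper20.MB

/-- smoothness of a family of continuous linear maps can be tested on vectors. -/
private lemma D1_clm {Q W E : Type*} [NormedAddCommGroup Q] [NormedSpace ℝ Q]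
    [NormedAddCommGroup W] [NormedSpace ℝ W] [FiniteDimensional ℝ W] [NormedAddCommGroup E]
    [NormedSpace ℝ E] {f : Q → W →L[ℝ] E} {q : Q}
    (h : ∀ y, ContDiffAt ℝ ∞ (fun q => f q y) q) : ContDiffAt ℝ ∞ f q := by
  have e : f = fun q => ∑ i, (LinearMap.toContinuousLinearMap
      ((Module.finBasis ℝ W).coord i)).smulRight (f q (Module.finBasis ℝ W i)) := by
    funext q'
    ext y
    conv_lhs => rw [← (Module.finBasis ℝ W).sum_repr y, map_sum]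
    rw [sum_apply]
    refine Finset.sum_congr rfl fun i _ => ?_
    rw [map_smul]
    rfl
  rw [e]
  refine ContDiffAt.sum fun i _ => ?_
  exact contDiffAt_const.smulRight (h _)

private lemma D1_Gam {P W : Type*} [NormedAddCommGroup P] [NormedSpace ℝ P]
    [NormedAddCommGroup W] [NormedSpace ℝ W] [FiniteDimensional ℝ W]
    {G : P → W → W →L[ℝ] W →L[ℝ] ℝ} {p : P} {z : W}
    (h1 : ContDiffAt ℝ ∞ (fun q : P × W => G q.1 q.2) (p, z)) (hi : (G p z).IsInvertible) :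
    ContDiffAt ℝ ∞ (fun q : P × W => GamL (G q.1) q.2) (p, z) := by
  have h2 : ContDiffAt ℝ ∞ (fun q : P × W => (G q.1 q.2).inverse) (p, z) :=
    contDiffAt_inverse_comp (F := fun q : P × W => G q.1 q.2) h1 hi
  have h3 : ContDiffAt ℝ ∞ (fun q : P × W => fderiv ℝ (G q.1) q.2) (p, z) :=
    contDiffAt_fderiv_param (F := fun q : P × W => G q.1 q.2) h1
  have h4 : ContDiffAt ℝ ∞ (fun q : P × W => (fderiv ℝ (G q.1) q.2).flip) (p, z) :=
    ContDiffAt.comp (g := fun B : W →L[ℝ] W →L[ℝ] W →L[ℝ] ℝ => B.flip) (p, z)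
      (ContinuousLinearMap.flipₗᵢ ℝ W W (W →L[ℝ] ℝ)).contDiff.contDiffAt h3
  have h5 : ContDiffAt ℝ ∞ (fun q : P × W => chrL (G q.1) q.2) (p, z) := by
    unfold chrL
    exact ContDiffAt.const_smul _ ((h3.add h4).sub (contDiffAt_const.clm_comp h4))
  have h6 : ContDiffAt ℝ ∞ (fun q : P × W => (ContinuousLinearMap.compL ℝ W (W →L[ℝ] ℝ) W)
      (G q.1 q.2).inverse) (p, z) :=
    ContDiffAt.comp (g := fun B : (W →L[ℝ] ℝ) →L[ℝ] W => ContinuousLinearMap.compL ℝ W (W →L[ℝ] ℝ) W B) (p, z)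
    (ContinuousLinearMap.compL ℝ W (W →L[ℝ] ℝ) W).contDiff.contDiffAt h2
  unfold GamL
  exact h6.clm_comp h5

private lemma D1_near {P W : Type*} [NormedAddCommGroup P] [NormedSpace ℝ P]
    [NormedAddCommGroup W] [NormedSpace ℝ W]
    {G : P → W → W →L[ℝ] W →L[ℝ] ℝ} {q : P × W}
    (h1 : ContDiffAt ℝ 2 (fun q : P × W => G q.1 q.2) q) :
    ∀ᶠ q' in 𝓝 q, ∀ u v, Gam (G q'.1) q'.2 u v = GamL (G q'.1) q'.2 u v := by
  filter_upwards [h1.eventually (by norm_num)] with q' hq' u v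
  have h2 : ContDiffAt ℝ 2 (fun z' : W => ((q'.1, z') : P × W)) q'.2 :=
    contDiffAt_const.prodMk contDiffAt_id
  have h3 : ContDiffAt ℝ 2 (G q'.1) q'.2 :=
    ContDiffAt.comp (g := fun q : P × W => G q.1 q.2) q'.2 hq' h2
  exact (GamL_eq h3 u v).symm

private lemma D1_inv {q : Pm × V} (hU : q.1.1ᴴ * q.1.1 = 1) (hδ : |q.1.2.1| ≤ 1/100) :
    (hm q.1.1 q.1.2.1 q.2).IsInvertible := by
  obtain ⟨e, he⟩ := CC_inv hU hδ q.2
  refine ⟨e.symm, ?_⟩
  rw [hm, ← he, ContinuousLinearMap.inverse_equiv]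

/-! ### D1 : smoothness of the connection -/
theorem contDiffAt_GamL {q : Pm × V} (hU : q.1.1ᴴ * q.1.1 = 1) (hδ : |q.1.2.1| ≤ 1/100) :
    ContDiffAt ℝ ∞ (fun q : Pm × V => GamL (hm q.1.1 q.1.2.1) q.2) q :=
  D1_Gam (P := Pm) (G := fun p : Pm => hm p.1 p.2.1) (p := q.1) (z := q.2)
    (contDiffAt_hm hU hδ) (D1_inv hU hδ)

/-- near an admissible parameter `Gam = GamL`. -/
theorem Gam_eq_near {q : Pm × V} (hU : q.1.1ᴴ * q.1.1 = 1) (hδ : |q.1.2.1| ≤ 1/100) :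
    ∀ᶠ q' in 𝓝 q, ∀ u v, Gam (hm q'.1.1 q'.1.2.1) q'.2 u v = GamL (hm q'.1.1 q'.1.2.1) q'.2 u v := by
  have h1 : ContDiffAt ℝ 2 (fun q : Pm × V => hm q.1.1 q.1.2.1 q.2) q :=
    (contDiffAt_hm hU hδ).of_le (by norm_cast)
  exact D1_near (P := Pm) (G := fun p : Pm => hm p.1 p.2.1) h1

theorem contDiffAt_AL {q : Pm × V} (hU : q.1.1ᴴ * q.1.1 = 1) (hδ : |q.1.2.1| ≤ 1/100) :
    ContDiffAt ℝ ∞ (fun q : Pm × V => AL q.1.1 q.1.2.1 q.1.2.2 q.2) q := by
  have h1 := contDiffAt_hm hU hδ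
  have hG := contDiffAt_GamL hU hδ
  have hJ := contDiffAt_JJ hU hδ
  have hM := contDiffAt_momL hU hδ 6
  have hε : ContDiffAt ℝ ∞ (fun q : Pm × V => q.1.2.2) q :=
    (contDiff_snd.comp (contDiff_snd.comp contDiff_fst)).contDiffAt
  refine D1_clm fun ζ => D1_clm fun y => ?_
  have e : (fun q : Pm × V => AL q.1.1 q.1.2.1 q.1.2.2 q.2 ζ y) = fun q : Pm × V =>
      ((-(1/2) * hm q.1.1 q.1.2.1 q.2 ζ y.2,
        GamL (hm q.1.1 q.1.2.1) q.2 ζ y.2 + (q.1.2.2 * momL q.1.1 q.1.2.1 q.2 6 ζ) •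
          JJ q.1.1 q.1.2.1 q.2 y.2 + (1/2 * y.1) • ζ) : Yf) := by
    funext q'
    exact AL_apply _ _ _ _ _ _
  rw [e]
  refine ContDiffAt.prodMk ?_ ?_
  · exact contDiffAt_const.mul ((h1.clm_apply contDiffAt_const).clm_apply contDiffAt_const)
  · exact ((hG.clm_apply contDiffAt_const).clm_apply contDiffAt_const |>.add
      ((hε.mul (hM.clm_apply contDiffAt_const)).smul (hJ.clm_apply contDiffAt_const))).add
      contDiffAt_const

end Pool.Agent.Helper46.M8
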