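import Pool.Agent.Helper46.M8.St.C1
import Pool.Agent.Helper46.M8.Ns

/-!
# M8, piece D2
-/

open Filter Metric Module Set
open scoped Topology ContDiff Matrix Matrix.Norms.Elementwise ComplexConjugate

set_option maxSynthPendingDepth 3

namespace Pool.Agent.Helper46.M8
open Pool.Agent.Helper20.PC Pool.Agent.Helper20.HP Pool.Agent.Helper20.M8 Pool.Agent.Helper20.MB

/-- smoothness of a family of continuous linear maps is tested on vectors. -/
private lemma cdat_clm {D E F : Type*} [NormedAddCommGroup D] [NormedSpace ℝ D]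
    [NormedAddCommGroup E] [NormedSpace ℝ E] [NormedAddCommGroup F] [NormedSpace ℝ F]
    [FiniteDimensional ℝ E] {f : D → E →L[ℝ] F} {q : D}
    (h : ∀ y, ContDiffAt ℝ ∞ (fun x => f x y) q) : ContDiffAt ℝ ∞ f q := by
  let d := finrank ℝ E
  have hd : d = finrank ℝ (Fin d → ℝ) := (finrank_fin_fun ℝ).symm
  let e₁ := ContinuousLinearEquiv.ofFinrankEq hd
  let e₂ := (e₁.arrowCongr (1 : F ≃L[ℝ] F)).trans (ContinuousLinearEquiv.piRing (Fin d))
  rw [← Function.id_comp f, ← e₂.symm_comp_self]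
  exact e₂.symm.contDiff.contDiffAt.comp q (contDiffAt_pi.2 fun i => h _)

/-! ### D2 : smoothness of `k` and `S` -/
theorem contDiffAt_kL {q : Pm × V} (hU : q.1.1ᴴ * q.1.1 = 1) (hδ : |q.1.2.1| ≤ 1/100) :
    ContDiffAt ℝ ∞ (fun q : Pm × V => kL q.1.1 q.1.2.1 q.2) q := by
  refine cdat_clm fun y => cdat_clm fun p => ?_
  simp only [kL_apply]
  exact contDiffAt_const.add
    (((contDiffAt_hm hU hδ).clm_apply contDiffAt_const).clm_apply contDiffAt_const)

theorem contDiffAt_SL (lam : ℝ) {q : Pm × V} (hU : q.1.1ᴴ * q.1.1 = 1) (hδ : |q.1.2.1| ≤ 1/100) :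
    @ContDiffAt ℝ _ (Pm × V) _ _ (Yf →L[ℝ] Yf →L[ℝ] Yf →L[ℝ] Yf →L[ℝ] ℝ)
      (ngk4 Yf) (nsk4 Yf) ∞ (fun q : Pm × V => SL q.1.1 q.1.2.1 q.1.2.2 lam q.2) q := by
  have hh : ∀ a b : V, ContDiffAt ℝ ∞ (fun q : Pm × V => h0 q.2 a b) q := fun a b =>
    (((contDiff_h0.contDiffAt.comp q contDiffAt_snd).clm_apply contDiffAt_const).clm_apply
      contDiffAt_const)
  have ho : ∀ a b : V, ContDiffAt ℝ ∞ (fun q : Pm × V => omL q.2 a b) q := fun a b =>
    (((contDiff_omL.contDiffAt.comp q contDiffAt_snd).clm_apply contDiffAt_const).clm_apply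
      contDiffAt_const)
  have hm' : ∀ (i : Fin 8) (a : V),
      ContDiffAt ℝ ∞ (fun q : Pm × V => momL q.1.1 q.1.2.1 q.2 i a) q := fun i a =>
    (contDiffAt_momL hU hδ i).clm_apply contDiffAt_const
  have he : ContDiffAt ℝ ∞ (fun q : Pm × V => q.1.2.2) q :=
    (contDiffAt_snd.comp q (contDiffAt_snd.comp q contDiffAt_fst))
  refine cdat_clm fun y => cdat_clm fun p => cdat_clm fun y' => cdat_clm fun p' => ?_
  simp only [SL_apply]
  refine ((ContDiffAt.add ?_ ?_).add ?_).add ?_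
  · exact contDiffAt_const.mul (((hh _ _).mul (hh _ _)).sub ((hh _ _).mul (hh _ _)))
  · exact contDiffAt_const.mul ((ho _ _).mul (ho _ _))
  · exact (he.mul contDiffAt_const).mul
      (((hm' _ _).mul (ho _ _)).add ((ho _ _).mul (hm' _ _)))
  · refine ((he.pow 2).mul contDiffAt_const).mul ?_
    refine ContDiffAt.sum fun i _ => ContDiffAt.sum fun j _ => ?_
    exact contDiffAt_const.mul ((hm' _ _).mul (hm' _ _))

end Pool.Agent.Helper46.M8
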