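import Pool.Agent.Helper46.M8.St.C1
import Pool.Agent.Helper46.M8.Ns

/-!
# M8, piece D3a
-/

open Filter Metric Module Set
open scoped Topology ContDiff Matrix Matrix.Norms.Elementwise ComplexConjugate

set_option maxSynthPendingDepth 3

namespace Pool.Agent.Helper46.M8
open Pool.Agent.Helper20.PC Pool.Agent.Helper20.HP Pool.Agent.Helper20.M8 Pool.Agent.Helper20.MB

/-! ### D3 : Levi-Civita -/
theorem fderiv_hm {U : Mat} {δ : ℝ} (hU : Uᴴ * U = 1) (hδ : |δ| ≤ 1/100) (z u v w : V) :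
    fderiv ℝ (hm U δ) z u v w
      = hm U δ z (Gam (hm U δ) z u v) w + hm U δ z v (Gam (hm U δ) z u w) := by
  have hM := hm_metAt hU hδ z
  have e : fderiv ℝ (hm U δ) z u v w = dG (hm U δ) z u v w := by
    have h1 := (((hM.smooth.differentiableAt (by norm_num)).hasFDerivAt.clm_apply
      (hasFDerivAt_const v z)).clm_apply (hasFDerivAt_const w z)).fderiv
    rw [dG, h1]
    simp
  rw [e, dG_eq_chr hM, hm_symm hU hδ z v, G_Gam hM, G_Gam hM]

/-- Pull back of a bilinear form to the fibre, as a continuous linear map. -/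
private noncomputable def bTl :
    (V →L[ℝ] V →L[ℝ] ℝ) →L[ℝ] (Yf →L[ℝ] Yf →L[ℝ] ℝ) :=
  ((ContinuousLinearMap.compL ℝ Yf (V →L[ℝ] ℝ) (Yf →L[ℝ] ℝ))
    ((ContinuousLinearMap.compL ℝ Yf V ℝ).flip pT)) ∘L
    ((ContinuousLinearMap.compL ℝ Yf V (V →L[ℝ] ℝ)).flip pT)

private lemma bTl_apply (b : V →L[ℝ] V →L[ℝ] ℝ) (p q : Yf) : bTl b p q = b p.2 q.2 := rfl

theorem kL_par {U : Mat} {δ : ℝ} (hU : Uᴴ * U = 1) (hδ : |δ| ≤ 1/100) (ε : ℝ) (z u : V)
    (p q : Yf) : fderiv ℝ (kL U δ) z u p q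
      = kL U δ z (AL U δ ε z u p) q + kL U δ z p (AL U δ ε z u q) := by
  have hM := hm_metAt hU hδ z
  have hd : DifferentiableAt ℝ (hm U δ) z := hM.smooth.differentiableAt (by norm_num)
  have hk : kL U δ = fun z' => (ContinuousLinearMap.fst ℝ ℝ V).smulRight
      (ContinuousLinearMap.fst ℝ ℝ V) + bTl (hm U δ z') := by
    funext z'
    rw [kL]
    congr 1
  have h1 : HasFDerivAt (kL U δ) (bTl ∘L fderiv ℝ (hm U δ) z) z := by
    rw [hk]
    exact (bTl.hasFDerivAt.comp z hd.hasFDerivAt).const_add _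
  have h2 : fderiv ℝ (kL U δ) z u p q = fderiv ℝ (hm U δ) z u p.2 q.2 := by
    rw [h1.fderiv]
    rfl
  rw [h2, fderiv_hm hU hδ, kL_apply, kL_apply, AL_apply, AL_apply]
  simp only [map_add, map_smul, _root_.add_apply, _root_.smul_apply, smul_eq_mul,
    GamL_eq hM.smooth]
  have h3 := hm_JJ hU hδ z p.2 q.2
  have h4 := hm_JJ hU hδ z q.2 p.2
  rw [hm_symm hU hδ z p.2 (JJ U δ z q.2), hm_symm hU hδ z p.2 u, h3, h4,
    omL_skew z q.2 p.2]
  ring

end Pool.Agent.Helper46.M8
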