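import Pool.Agent.Helper46.M8.St.D3a

/-!
# M8, piece D3b
-/

open Filter Metric Module Set
open scoped Topology ContDiff Matrix Matrix.Norms.Elementwise ComplexConjugate

set_option maxSynthPendingDepth 3

namespace Pool.Agent.Helper46.M8
open Pool.Agent.Helper20.PC Pool.Agent.Helper20.HP Pool.Agent.Helper20.M8 Pool.Agent.Helper20.MB

private theorem d3b_diff {U : Mat} {δ : ℝ} (hU : Uᴴ * U = 1) (hδ : |δ| ≤ 1/100) (z : V) :
    DifferentiableAt ℝ (hm U δ) z := by
  have h1 : ContDiffAt ℝ ∞ (fun q : Pm × V => hm q.1.1 q.1.2.1 q.2) ((U, δ, 0), z) :=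
    contDiffAt_hm (q := ((U, δ, 0), z)) hU hδ
  have h2 : ContDiffAt ℝ ∞ (fun z : V => (((U, δ, 0), z) : Pm × V)) z :=
    contDiffAt_const.prodMk contDiffAt_id
  have h3 : ContDiffAt ℝ ∞ ((fun q : Pm × V => hm q.1.1 q.1.2.1 q.2) ∘
      (fun z : V => (((U, δ, 0), z) : Pm × V))) z := h1.comp z h2
  exact h3.differentiableAt (by simp)

/-! ### D3 : Levi-Civita -/
/-- derivatives of the metric functions along the flow of frames. -/
theorem lie_hm {U : Mat} {δ : ℝ} (hU : Uᴴ * U = 1) (hδ : |δ| ≤ 1/100) (a b : Fin 4) (s : Fr) :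
    lie (XF U δ) (fun s => hm U δ s.1 (s.2 a) (s.2 b)) s = 0 := by
  have hh : HasFDerivAt (hm U δ) (fderiv ℝ (hm U δ) s.1) s.1 := (d3b_diff hU hδ s.1).hasFDerivAt
  have h1 : HasFDerivAt (fun s : Fr => hm U δ s.1)
      ((fderiv ℝ (hm U δ) s.1).comp (ContinuousLinearMap.fst ℝ V (Fin 4 → V))) s :=
    hh.comp s hasFDerivAt_fst
  have h2 : ∀ a : Fin 4, HasFDerivAt (fun s : Fr => s.2 a)
      ((ContinuousLinearMap.proj a).comp (ContinuousLinearMap.snd ℝ V (Fin 4 → V))) s := fun a =>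
    ((ContinuousLinearMap.proj a).comp (ContinuousLinearMap.snd ℝ V (Fin 4 → V))).hasFDerivAt
  have h3 := (h1.clm_apply (h2 a)).clm_apply (h2 b)
  unfold lie
  rw [h3.fderiv]
  have e := fderiv_hm hU hδ s.1 (s.2 0) (s.2 a) (s.2 b)
  simp only [XF, _root_.add_apply, ContinuousLinearMap.comp_apply,
    ContinuousLinearMap.flip_apply, ContinuousLinearMap.coe_fst', ContinuousLinearMap.coe_snd',
    ContinuousLinearMap.proj_apply, map_neg, _root_.neg_apply]
  rw [e]
  ring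

end Pool.Agent.Helper46.M8
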