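import Pool.Agent.Helper46.M8.St.A7
import Pool.Agent.Helper46.M8.St.D3a
import Pool.Agent.Helper46.M8.Ns

/-!
# M8, piece D4
-/

open Filter Metric Module Set
open scoped Topology ContDiff Matrix Matrix.Norms.Elementwise ComplexConjugate

set_option maxSynthPendingDepth 3

namespace Pool.Agent.Helper46.M8
open Pool.Agent.Helper20.PC Pool.Agent.Helper20.HP Pool.Agent.Helper20.M8 Pool.Agent.Helper20.MB

private theorem d4_slice (U : Mat) (δ : ℝ) (z : V) :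
    ContDiffAt ℝ ∞ (fun z : V => (((U, δ, 0), z) : Pm × V)) z :=
  contDiffAt_const.prodMk contDiffAt_id

private theorem d4_hm {U : Mat} {δ : ℝ} (hU : Uᴴ * U = 1) (hδ : |δ| ≤ 1/100) (z : V) :
    HasFDerivAt (hm U δ) (fderiv ℝ (hm U δ) z) z := by
  have h1 : ContDiffAt ℝ ∞ (fun q : Pm × V => hm q.1.1 q.1.2.1 q.2) ((U, δ, 0), z) :=
    contDiffAt_hm (q := ((U, δ, 0), z)) hU hδ
  have h3 : ContDiffAt ℝ ∞ ((fun q : Pm × V => hm q.1.1 q.1.2.1 q.2) ∘
      (fun z : V => (((U, δ, 0), z) : Pm × V))) z := h1.comp z (d4_slice U δ z)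
  exact (h3.differentiableAt (by simp)).hasFDerivAt

private theorem d4_CC (U : Mat) (δ : ℝ) (z : V) :
    HasFDerivAt (CC U δ) (fderiv ℝ (CC U δ) z) z := by
  have h1 : ContDiffAt ℝ ∞ (fun q : Pm × V => CC q.1.1 q.1.2.1 q.2) ((U, δ, 0), z) :=
    contDiff_CC.contDiffAt
  have h3 : ContDiffAt ℝ ∞ ((fun q : Pm × V => CC q.1.1 q.1.2.1 q.2) ∘
      (fun z : V => (((U, δ, 0), z) : Pm × V))) z := h1.comp z (d4_slice U δ z)
  exact (h3.differentiableAt (by simp)).hasFDerivAt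

private theorem d4_Kf (U : Mat) (i : Fin 8) (z : V) :
    HasFDerivAt (Kf U i) (fderiv ℝ (Kf U i) z) z := by
  have h1 : ContDiffAt ℝ ∞ (fun q : Pm × V => Kf q.1.1 i q.2) ((U, (0 : ℝ), (0 : ℝ)), z) :=
    (contDiff_Kf i).contDiffAt
  have h3 : ContDiffAt ℝ ∞ ((fun q : Pm × V => Kf q.1.1 i q.2) ∘
      (fun z : V => (((U, 0, 0), z) : Pm × V))) z := h1.comp z (d4_slice U 0 z)
  exact (h3.differentiableAt (by simp)).hasFDerivAt

/-- the derivative of the momentum along the flow: `h(w, Gam(w, K) + DK w)`. -/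
private theorem d4_lie {U : Mat} {δ : ℝ} (hU : Uᴴ * U = 1) (hδ : |δ| ≤ 1/100) (i : Fin 8)
    (s : Fr) : lie (XF U δ) (sM U δ 0 i) s =
      hm U δ s.1 (s.2 0) (Gam (hm U δ) s.1 (s.2 0) (Kf U i s.1)) +
        hm U δ s.1 (s.2 0) (fderiv ℝ (Kf U i) s.1 (s.2 0)) := by
  have h1 : HasFDerivAt (fun s : Fr => hm U δ s.1)
      ((fderiv ℝ (hm U δ) s.1).comp (ContinuousLinearMap.fst ℝ V (Fin 4 → V))) s :=
    (d4_hm hU hδ s.1).comp s hasFDerivAt_fst
  have h2 : HasFDerivAt (fun s : Fr => s.2 0)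
      ((ContinuousLinearMap.proj 0).comp (ContinuousLinearMap.snd ℝ V (Fin 4 → V))) s :=
    ((ContinuousLinearMap.proj 0).comp (ContinuousLinearMap.snd ℝ V (Fin 4 → V))).hasFDerivAt
  have h3 : HasFDerivAt (fun s : Fr => Kf U i s.1)
      ((fderiv ℝ (Kf U i) s.1).comp (ContinuousLinearMap.fst ℝ V (Fin 4 → V))) s :=
    (d4_Kf U i s.1).comp s hasFDerivAt_fst
  have h4 := (h1.clm_apply h2).clm_apply h3
  have h5 : HasFDerivAt (sM U δ 0 i) _ s := h4
  unfold lie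
  rw [h5.fderiv]
  have e := fderiv_hm hU hδ s.1 (s.2 0) (s.2 0) (Kf U i s.1)
  simp only [XF, _root_.add_apply, ContinuousLinearMap.comp_apply,
    ContinuousLinearMap.flip_apply, ContinuousLinearMap.coe_fst', ContinuousLinearMap.coe_snd',
    ContinuousLinearMap.proj_apply, map_neg, _root_.neg_apply]
  rw [e]
  ring

/-- derivative of the cometric -/
private theorem d4_DCC (U : Mat) (δ : ℝ) (z v : V) (ξ η : V →L[ℝ] ℝ) :
    η (fderiv ℝ (CC U δ) z v ξ) = ∑ j, ∑ k, (Cm δ j k * ξ (fderiv ℝ (Kf U j) z v) * η (Kf U k z) +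
      Cm δ j k * ξ (Kf U j z) * η (fderiv ℝ (Kf U k) z v)) := by
  have h1 : HasFDerivAt (fun z => η (CC U δ z ξ)) (η.comp ((fderiv ℝ (CC U δ) z).flip ξ)) z := by
    have h2 := (d4_CC U δ z).clm_apply (hasFDerivAt_const ξ z)
    have h3 := η.hasFDerivAt.comp z h2
    refine h3.congr_fderiv ?_
    ext w
    simp
  have h2 : (fun z => η (CC U δ z ξ)) =
      fun z => ∑ j, ∑ k, Cm δ j k * ξ (Kf U j z) * η (Kf U k z) := by
    funext z
    rw [CC_apply, map_sum]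
    refine Finset.sum_congr rfl fun j _ => ?_
    rw [map_sum]
    refine Finset.sum_congr rfl fun k _ => ?_
    rw [map_smul, smul_eq_mul]
  have h3 : ∀ j k, HasFDerivAt (fun z => Cm δ j k * ξ (Kf U j z) * η (Kf U k z))
      ((Cm δ j k * ξ (Kf U j z)) • (η.comp (fderiv ℝ (Kf U k) z)) +
        η (Kf U k z) • (Cm δ j k • (ξ.comp (fderiv ℝ (Kf U j) z)))) z := by
    intro j k
    have a1 : HasFDerivAt (fun z => ξ (Kf U j z)) (ξ.comp (fderiv ℝ (Kf U j) z)) z :=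
      ξ.hasFDerivAt.comp z (d4_Kf U j z)
    have a2 : HasFDerivAt (fun z => η (Kf U k z)) (η.comp (fderiv ℝ (Kf U k) z)) z :=
      η.hasFDerivAt.comp z (d4_Kf U k z)
    exact (a1.const_mul (Cm δ j k)).mul a2
  have h4 : HasFDerivAt (fun z => ∑ j, ∑ k, Cm δ j k * ξ (Kf U j z) * η (Kf U k z))
      (∑ j, ∑ k, ((Cm δ j k * ξ (Kf U j z)) • (η.comp (fderiv ℝ (Kf U k) z)) +
        η (Kf U k z) • (Cm δ j k • (ξ.comp (fderiv ℝ (Kf U j) z))))) z := by
    refine HasFDerivAt.fun_sum fun j _ => ?_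
    refine HasFDerivAt.fun_sum fun k _ => ?_
    exact h3 j k
  rw [h2] at h1
  have h5 := h1.unique h4
  have h6 := congrArg (fun L : V →L[ℝ] ℝ => L v) h5
  simp only [ContinuousLinearMap.comp_apply, ContinuousLinearMap.flip_apply,
    ContinuousLinearMap.sum_apply, _root_.add_apply, _root_.smul_apply, smul_eq_mul] at h6
  rw [h6]
  refine Finset.sum_congr rfl fun j _ => Finset.sum_congr rfl fun k _ => ?_
  ring

/-- `(D_v h)(w, w) = - ξ((D_v CC) ξ)`, `ξ = h(w, ·)`. -/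
private theorem d4_Dh {U : Mat} {δ : ℝ} (hU : Uᴴ * U = 1) (hδ : |δ| ≤ 1/100) (z v w : V) :
    fderiv ℝ (hm U δ) z v w w =
      - (hm U δ z w) (fderiv ℝ (CC U δ) z v (hm U δ z w)) := by
  have h1 : HasFDerivAt (fun z => CC U δ z (hm U δ z w)) (0 : V →L[ℝ] V) z := by
    have e : (fun z => CC U δ z (hm U δ z w)) = fun _ => w := funext fun z => CC_hm hU hδ z w
    rw [e]
    exact hasFDerivAt_const w z
  have h2 : HasFDerivAt (fun z => hm U δ z w) ((fderiv ℝ (hm U δ) z).flip w) z := by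
    have := (d4_hm hU hδ z).clm_apply (hasFDerivAt_const w z)
    refine this.congr_fderiv ?_
    ext a b
    simp
  have h3 := (d4_CC U δ z).clm_apply h2
  have h4 := h3.unique h1
  have h5 := congrArg (fun L : V →L[ℝ] V => (hm U δ z w) (L v)) h4
  simp only [_root_.add_apply, ContinuousLinearMap.comp_apply, ContinuousLinearMap.flip_apply,
    _root_.zero_apply, map_add, map_zero] at h5
  have h6 : (hm U δ z w) (CC U δ z (fderiv ℝ (hm U δ) z v w)) = fderiv ℝ (hm U δ) z v w w := by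
    rw [CC_symm, CC_hm hU hδ]
  rw [h6] at h5
  linarith

/-! ### D4 : derivative of the momenta along the geodesic flow -/
theorem lie_sM0 {U : Mat} {δ : ℝ} (hU : Uᴴ * U = 1) (hδ : |δ| ≤ 1/100) (i : Fin 8) (s : Fr) :
    lie (XF U δ) (sM U δ 0 i) s = ∑ j, ∑ k, Cm δ j k * sM U δ 0 k s
      * hm U δ s.1 (s.2 0) (KA (Uᴴ * (Bs i * Bs j - Bs j * Bs i) * U) s.1) := by
  set x := s.1 with hx
  set w := s.2 0 with hw
  set ξ : V →L[ℝ] ℝ := hm U δ x w with hξ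
  have hM : ∀ k, sM U δ 0 k s = ξ (Kf U k x) := fun k => rfl
  have hmet := hm_metAt hU hδ x
  -- first term
  have t1 : ξ (Gam (hm U δ) x w (Kf U i x)) =
      - ∑ j, ∑ k, Cm δ j k * ξ (Kf U k x) * ξ (fderiv ℝ (Kf U j) x (Kf U i x)) := by
    have a1 := fderiv_hm hU hδ x (Kf U i x) w w
    rw [hm_symm hU hδ x (Gam (hm U δ) x (Kf U i x) w) w, Gam_symm hmet (Kf U i x) w] at a1
    have a2 := d4_Dh hU hδ x (Kf U i x) w
    have a3 := d4_DCC U δ x (Kf U i x) ξ ξ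
    rw [← hξ] at a1 a2
    rw [a3] at a2
    have a4 : (∑ j, ∑ k, (Cm δ j k * ξ (fderiv ℝ (Kf U j) x (Kf U i x)) * ξ (Kf U k x) +
        Cm δ j k * ξ (Kf U j x) * ξ (fderiv ℝ (Kf U k) x (Kf U i x)))) =
        2 * ∑ j, ∑ k, Cm δ j k * ξ (Kf U k x) * ξ (fderiv ℝ (Kf U j) x (Kf U i x)) := by
      have b1 : (∑ j, ∑ k, (Cm δ j k * ξ (fderiv ℝ (Kf U j) x (Kf U i x)) * ξ (Kf U k x) +
        Cm δ j k * ξ (Kf U j x) * ξ (fderiv ℝ (Kf U k) x (Kf U i x)))) =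
        (∑ j, ∑ k, Cm δ j k * ξ (fderiv ℝ (Kf U j) x (Kf U i x)) * ξ (Kf U k x)) +
        ∑ j, ∑ k, Cm δ j k * ξ (Kf U j x) * ξ (fderiv ℝ (Kf U k) x (Kf U i x)) := by
        simp only [Finset.sum_add_distrib]
      have b2 : (∑ j, ∑ k, Cm δ j k * ξ (Kf U j x) * ξ (fderiv ℝ (Kf U k) x (Kf U i x))) =
          ∑ j, ∑ k, Cm δ j k * ξ (Kf U k x) * ξ (fderiv ℝ (Kf U j) x (Kf U i x)) := by
        rw [Finset.sum_comm]
        refine Finset.sum_congr rfl fun j _ => Finset.sum_congr rfl fun k _ => ?_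
        rw [Cm_symm δ k j]
      have b3 : (∑ j, ∑ k, Cm δ j k * ξ (fderiv ℝ (Kf U j) x (Kf U i x)) * ξ (Kf U k x)) =
          ∑ j, ∑ k, Cm δ j k * ξ (Kf U k x) * ξ (fderiv ℝ (Kf U j) x (Kf U i x)) := by
        refine Finset.sum_congr rfl fun j _ => Finset.sum_congr rfl fun k _ => ?_
        ring
      rw [b1, b2, b3]
      ring
    rw [a4] at a2
    linarith
  -- second term
  have t2 : ξ (fderiv ℝ (Kf U i) x w) =
      ∑ j, ∑ k, Cm δ j k * ξ (Kf U k x) * ξ (fderiv ℝ (Kf U i) x (Kf U j x)) := by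
    have a1 := sum_mom hU hδ x w
    have a2 : ξ (fderiv ℝ (Kf U i) x w) = ξ (fderiv ℝ (Kf U i) x
        (∑ i, ∑ j, (Cm δ i j * momL U δ x i w) • Kf U j x)) := by rw [a1]
    rw [a2]
    simp only [map_sum, map_smul, smul_eq_mul]
    rw [Finset.sum_comm]
    refine Finset.sum_congr rfl fun j _ => Finset.sum_congr rfl fun k _ => ?_
    rw [Cm_symm δ k j]
    rfl
  rw [d4_lie hU hδ i s]
  change ξ (Gam (hm U δ) x w (Kf U i x)) + ξ (fderiv ℝ (Kf U i) x w) = _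
  rw [t1, t2, neg_add_eq_sub, ← Finset.sum_sub_distrib]
  refine Finset.sum_congr rfl fun j _ => ?_
  rw [← Finset.sum_sub_distrib]
  refine Finset.sum_congr rfl fun k _ => ?_
  rw [hM k, ← mul_sub, ← map_sub]
  congr 2
  have hUU : U * Uᴴ = 1 := mul_eq_one_comm.1 hU
  have e1 : Uᴴ * (Bs i * Bs j - Bs j * Bs i) * U =
      (Uᴴ * Bs i * U) * (Uᴴ * Bs j * U) - (Uᴴ * Bs j * U) * (Uᴴ * Bs i * U) := by
    have e2 : ∀ A B : Mat, (Uᴴ * A * U) * (Uᴴ * B * U) = Uᴴ * (A * B) * U := by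
      intro A B
      calc (Uᴴ * A * U) * (Uᴴ * B * U) = Uᴴ * A * (U * Uᴴ) * B * U := by
            simp only [Matrix.mul_assoc]
        _ = Uᴴ * (A * B) * U := by rw [hUU, Matrix.mul_one]; simp only [Matrix.mul_assoc]
    rw [e2, e2, Matrix.mul_sub, Matrix.sub_mul]
  rw [e1]
  exact KA_bracket (Uᴴ * Bs i * U) (Uᴴ * Bs j * U) x

end Pool.Agent.Helper46.M8
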