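import Pool.Agent.Helper46.M8.St.B1
import Pool.Agent.Helper46.M8.St.B2
import Pool.Agent.Helper46.M8.Ns

/-!
# M8, piece D5
-/

open Filter Metric Module Set
open scoped Topology ContDiff Matrix Matrix.Norms.Elementwise ComplexConjugate

set_option maxSynthPendingDepth 3

namespace Pool.Agent.Helper46.M8
open Pool.Agent.Helper20.PC Pool.Agent.Helper20.HP Pool.Agent.Helper20.M8 Pool.Agent.Helper20.MB

private theorem hm_fun_zero {U : Mat} (hU : Uᴴ * U = 1) : hm U 0 = h0 := funext (hm_zero hU)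

/-- the derivative of `s ↦ B_x (W_a, W_b)` along the flow of `XF U 0`. -/
private theorem lie_bil {U : Mat} (hU : Uᴴ * U = 1) {B : V → V →L[ℝ] V →L[ℝ] ℝ}
    (hB : ContDiff ℝ ∞ B) (a b : Fin 4) (s : Fr)
    (hpar : ∀ z u v w : V,
      fderiv ℝ B z u v w = B z (Gam h0 z u v) w + B z v (Gam h0 z u w)) :
    lie (XF U 0) (fun s : Fr => B s.1 (s.2 a) (s.2 b)) s = 0 := by
  have hBd : HasFDerivAt B (fderiv ℝ B s.1) s.1 :=
    (hB.differentiable (by simp)).differentiableAt.hasFDerivAt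
  have h1 : HasFDerivAt (fun s : Fr => B s.1)
      ((fderiv ℝ B s.1).comp (ContinuousLinearMap.fst ℝ V (Fin 4 → V))) s :=
    hBd.comp s hasFDerivAt_fst
  have hW : ∀ c : Fin 4, HasFDerivAt (fun s : Fr => s.2 c)
      ((ContinuousLinearMap.proj (R := ℝ) (φ := fun _ : Fin 4 => V) c).comp
        (ContinuousLinearMap.snd ℝ V (Fin 4 → V))) s := fun c =>
    ((ContinuousLinearMap.proj (R := ℝ) (φ := fun _ : Fin 4 => V) c).comp
        (ContinuousLinearMap.snd ℝ V (Fin 4 → V))).hasFDerivAt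
  have h2 := ((h1.clm_apply (hW a)).clm_apply (hW b))
  rw [lie, h2.fderiv]
  simp [XF, hm_fun_zero hU, hpar]

/-! ### D5 : parallel tensors at `δ = 0` -/
theorem lie_sOm0 {U : Mat} (hU : Uᴴ * U = 1) (a b : Fin 4) (s : Fr) :
    lie (XF U 0) (sOm a b) s = 0 :=
  lie_bil hU contDiff_omL a b s omL_par

theorem lie_sF0 {U : Mat} (hU : Uᴴ * U = 1) (a b : Fin 4) (s : Fr) :
    lie (XF U 0) (sF a b) s = 0 := by
  refine lie_bil hU contDiff_h0 a b s ?_
  intro z u v w
  have hM := h0_metAt z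
  have e : fderiv ℝ h0 z u v w = dG h0 z u v w := by
    have h1 := (((hM.smooth.differentiableAt (by norm_num)).hasFDerivAt.clm_apply
      (hasFDerivAt_const v z)).clm_apply (hasFDerivAt_const w z)).fderiv
    rw [dG, h1]
    simp
  rw [e, dG_eq_chr hM, G_Gam hM, h0_symm z v, G_Gam hM]

/-- the curvature at `δ = 0`. -/
theorem sR_zero {U : Mat} (hU : Uᴴ * U = 1) (k a b : Fin 4) (s : Fr) :
    sR U 0 k a b s = sF k b s * sF 0 a s - sF 0 b s * sF a k s + sOm k b s * sOm 0 a s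
      - sOm 0 b s * sOm k a s - 2 * sOm 0 k s * sOm b a s := by
  have hi : ∀ x y : V, h0 s.1 x (iL y) = omL s.1 y x := fun x y => by
    rw [h0_symm]; rfl
  rw [sR, hm_fun_zero hU, Riem_h0]
  simp only [map_add, map_sub, map_smul, smul_eq_mul, hi, sF, sOm]
  rw [h0_symm s.1 (s.2 a) (s.2 0)]

end Pool.Agent.Helper46.M8
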