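import Pool.Agent.Helper46.M8.St.D1
import Pool.Agent.Helper46.M8.St.D3a
import Pool.Agent.Helper46.M8.Ns

/-!
# M8, piece D6
-/

open Filter Metric Module Set
open scoped Topology ContDiff Matrix Matrix.Norms.Elementwise ComplexConjugate

set_option maxSynthPendingDepth 3

namespace Pool.Agent.Helper46.M8
open Pool.Agent.Helper20.PC Pool.Agent.Helper20.HP Pool.Agent.Helper20.M8 Pool.Agent.Helper20.MB

/-! ### D6 : the curvature of the connection -/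

theorem D6_slice {E : Type*} [NormedAddCommGroup E] [NormedSpace ℝ E] {F : Pm × V → E} (p : Pm)
    (z : V) (h : ContDiffAt ℝ ∞ F (p, z)) : DifferentiableAt ℝ (fun z' => F (p, z')) z := by
  have h1 : ContDiffAt ℝ ∞ (fun z' : V => (p, z')) z := contDiffAt_const.prodMk contDiffAt_id
  have h2 : ContDiffAt ℝ ∞ (fun z' => F (p, z')) z := ContDiffAt.comp z h h1
  exact h2.differentiableAt (by norm_num)

theorem D6_diff {U : Mat} {δ : ℝ} (hU : Uᴴ * U = 1) (hδ : |δ| ≤ 1/100) (ε : ℝ) (z : V) :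
    DifferentiableAt ℝ (hm U δ) z ∧ DifferentiableAt ℝ (GamL (hm U δ)) z ∧
      DifferentiableAt ℝ (fun z' => momL U δ z' 6) z ∧ DifferentiableAt ℝ (JJ U δ) z ∧
      DifferentiableAt ℝ (AL U δ ε) z :=
  ⟨D6_slice (U, δ, ε) z (contDiffAt_hm (q := ((U, δ, ε), z)) hU hδ),
    D6_slice (U, δ, ε) z (contDiffAt_GamL (q := ((U, δ, ε), z)) hU hδ),
    D6_slice (U, δ, ε) z (contDiffAt_momL (q := ((U, δ, ε), z)) hU hδ 6),
    D6_slice (U, δ, ε) z (contDiffAt_JJ (q := ((U, δ, ε), z)) hU hδ),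
    D6_slice (U, δ, ε) z (contDiffAt_AL (q := ((U, δ, ε), z)) hU hδ)⟩

/-- the derivative of the connection form. -/
theorem D6_fderiv {U : Mat} {δ : ℝ} (hU : Uᴴ * U = 1) (hδ : |δ| ≤ 1/100) (ε : ℝ) (z ζ ζ' : V)
    (y : Yf) : fderiv ℝ (AL U δ ε) z ζ ζ' y =
      (-(1/2) * fderiv ℝ (hm U δ) z ζ ζ' y.2,
        fderiv ℝ (GamL (hm U δ)) z ζ ζ' y.2 +
          ((ε * momL U δ z 6 ζ') • fderiv ℝ (JJ U δ) z ζ y.2 +
            (ε * fderiv ℝ (fun z' => momL U δ z' 6) z ζ ζ') • JJ U δ z y.2)) := by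
  obtain ⟨dh, dG, dm, dJ, dA⟩ := D6_diff hU hδ ε z
  have e1 := ((dA.hasFDerivAt.clm_apply (hasFDerivAt_const ζ' z)).clm_apply
    (hasFDerivAt_const y z)).fderiv
  have e2 : fderiv ℝ (AL U δ ε) z ζ ζ' y = fderiv ℝ (fun z' => AL U δ ε z' ζ' y) z ζ := by
    rw [e1]
    simp
  have f1 := ((dh.hasFDerivAt.clm_apply (hasFDerivAt_const ζ' z)).clm_apply
    (hasFDerivAt_const y.2 z)).const_mul (-(1/2))
  have f2 := (dG.hasFDerivAt.clm_apply (hasFDerivAt_const ζ' z)).clm_apply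
    (hasFDerivAt_const y.2 z)
  have f3 := (dm.hasFDerivAt.clm_apply (hasFDerivAt_const ζ' z)).const_mul ε
  have f4 := dJ.hasFDerivAt.clm_apply (hasFDerivAt_const y.2 z)
  have f5 := (f2.add (f3.smul f4)).add (hasFDerivAt_const ((1/2 * y.1) • ζ') z)
  have f6 := (f1.prodMk f5).fderiv
  have e3 : (fun z' => AL U δ ε z' ζ' y) = fun z' => ((-(1/2) * hm U δ z' ζ' y.2,
      GamL (hm U δ) z' ζ' y.2 + (ε * momL U δ z' 6 ζ') • JJ U δ z' y.2 + (1/2 * y.1) • ζ') : Yf) := by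
    funext z'
    rw [AL_apply]
  rw [e2, e3]
  refine (DFunLike.congr_fun f6 ζ).trans ?_
  ext <;> simp

theorem D6_Gam {U : Mat} {δ : ℝ} (hU : Uᴴ * U = 1) (hδ : |δ| ≤ 1/100) (z u v : V) :
    Gam (hm U δ) z u v = GamL (hm U δ) z u v :=
  (GamL_eq (hm_metAt hU hδ z).smooth u v).symm

theorem D6_GamL_symm {U : Mat} {δ : ℝ} (hU : Uᴴ * U = 1) (hδ : |δ| ≤ 1/100) (z u v : V) :
    GamL (hm U δ) z u v = GamL (hm U δ) z v u := by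
  rw [← D6_Gam hU hδ, ← D6_Gam hU hδ, Gam_symm (hm_metAt hU hδ z)]

theorem D6_Riem {U : Mat} {δ : ℝ} (hU : Uᴴ * U = 1) (hδ : |δ| ≤ 1/100) (z ζ ζ' v : V) :
    Riem (hm U δ) z ζ ζ' v = fderiv ℝ (GamL (hm U δ)) z ζ ζ' v - fderiv ℝ (GamL (hm U δ)) z ζ' ζ v +
      GamL (hm U δ) z ζ (GamL (hm U δ) z ζ' v) - GamL (hm U δ) z ζ' (GamL (hm U δ) z ζ v) := by
  have dG := (D6_diff hU hδ 0 z).2.1
  have e : ∀ u, fderiv ℝ (fun z' => Gam (hm U δ) z' u v) z =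
      fderiv ℝ (fun z' => GamL (hm U δ) z' u v) z := by
    intro u
    congr 1
    funext z'
    exact D6_Gam hU hδ z' u v
  have e2 : ∀ u t, fderiv ℝ (fun z' => GamL (hm U δ) z' u v) z t =
      fderiv ℝ (GamL (hm U δ)) z t u v := by
    intro u t
    rw [((dG.hasFDerivAt.clm_apply (hasFDerivAt_const u z)).clm_apply
      (hasFDerivAt_const v z)).fderiv]
    simp
  rw [Riem, e, e, e2, e2]
  simp only [D6_Gam hU hδ]

/-- the part of the curvature which is linear in `ε`. -/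
noncomputable def D6_Q (U : Mat) (δ : ℝ) (z ζ ζ' v : V) : V :=
  (fderiv ℝ (fun z' => momL U δ z' 6) z ζ ζ' - fderiv ℝ (fun z' => momL U δ z' 6) z ζ' ζ) •
      JJ U δ z v +
    (momL U δ z 6 ζ' • fderiv ℝ (JJ U δ) z ζ v - momL U δ z 6 ζ • fderiv ℝ (JJ U δ) z ζ' v) +
    (momL U δ z 6 ζ' • GamL (hm U δ) z ζ (JJ U δ z v) -
      momL U δ z 6 ζ • GamL (hm U δ) z ζ' (JJ U δ z v)) +
    (momL U δ z 6 ζ • JJ U δ z (GamL (hm U δ) z ζ' v) -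
      momL U δ z 6 ζ' • JJ U δ z (GamL (hm U δ) z ζ v))

theorem D6_OmV (A : V → V →L[ℝ] Yf →L[ℝ] Yf) (z ζ ζ' : V) (y : Yf) :
    OmV A z ζ ζ' y = fderiv ℝ A z ζ ζ' y - fderiv ℝ A z ζ' ζ y + A z ζ (A z ζ' y) -
      A z ζ' (A z ζ y) := by
  simp [OmV]

theorem D6_T {U : Mat} {δ : ℝ} (hU : Uᴴ * U = 1) (hδ : |δ| ≤ 1/100) (ε : ℝ) (z ζ ζ' : V) (y : Yf) :
    (OmV (AL U δ ε) z ζ ζ' y).2
      = (ε/2 * y.1) • (momL U δ z 6 ζ • JJ U δ z ζ' - momL U δ z 6 ζ' • JJ U δ z ζ)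
        + Riem (hm U δ) z ζ ζ' y.2 + ε • D6_Q U δ z ζ ζ' y.2
        - (1/4 : ℝ) • (hm U δ z ζ' y.2 • ζ - hm U δ z ζ y.2 • ζ') := by
  rw [D6_OmV, D6_Riem hU hδ, D6_Q, D6_fderiv hU hδ, D6_fderiv hU hδ]
  simp only [AL_apply, Prod.snd_sub, Prod.snd_add, map_add, map_smul, smul_add, smul_sub]
  rw [D6_GamL_symm hU hδ z ζ' ζ]
  module

theorem OmV_e {U : Mat} {δ : ℝ} (hU : Uᴴ * U = 1) (hδ : |δ| ≤ 1/100) (ε : ℝ) (z ζ ζ' : V) (y : Yf) :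
    (OmV (AL U δ ε) z ζ ζ' y).1
      = (ε/2) * (momL U δ z 6 ζ * omL z y.2 ζ' - momL U δ z 6 ζ' * omL z y.2 ζ) := by
  rw [D6_OmV, D6_fderiv hU hδ, D6_fderiv hU hδ]
  simp only [AL_apply, Prod.fst_sub, Prod.fst_add, map_add, map_smul, smul_eq_mul]
  rw [fderiv_hm hU hδ, fderiv_hm hU hδ]
  simp only [D6_Gam hU hδ]
  rw [D6_GamL_symm hU hδ z ζ' ζ, hm_symm hU hδ z ζ' ζ, hm_symm hU hδ z ζ (JJ U δ z y.2),
    hm_symm hU hδ z ζ' (JJ U δ z y.2), hm_JJ hU hδ, hm_JJ hU hδ]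
  ring

theorem OmV_T {U : Mat} {δ : ℝ} (hU : Uᴴ * U = 1) (hδ : |δ| ≤ 1/100) (ε : ℝ) (z ζ ζ' : V) (y : Yf) :
    (OmV (AL U δ ε) z ζ ζ' y).2
      = (ε/2 * y.1) • (momL U δ z 6 ζ • JJ U δ z ζ' - momL U δ z 6 ζ' • JJ U δ z ζ)
        + Riem (hm U δ) z ζ ζ' y.2
        + ε • ((OmV (AL U δ 1) z ζ ζ' (0, y.2)).2 - (OmV (AL U δ 0) z ζ ζ' (0, y.2)).2)
        - (1/4 : ℝ) • (hm U δ z ζ' y.2 • ζ - hm U δ z ζ y.2 • ζ') := by
  rw [D6_T hU hδ ε, D6_T hU hδ 1, D6_T hU hδ 0]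
  module

end Pool.Agent.Helper46.M8
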