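import Pool.Agent.Helper46.M8.St.D4
import Pool.Agent.Helper46.M8.Ns

/-!
# M8, piece E1
-/

open Filter Metric Module Set
open scoped Topology ContDiff Matrix Matrix.Norms.Elementwise ComplexConjugate

set_option maxSynthPendingDepth 3

namespace Pool.Agent.Helper46.M8
open Pool.Agent.Helper20.PC Pool.Agent.Helper20.HP Pool.Agent.Helper20.M8 Pool.Agent.Helper20.MB

/-! ### E1 : the Euler equation -/

lemma E1_KA_add (A B : Mat) (z : V) : KA (A + B) z = KA A z + KA B z := by
  ext i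
  simp only [KA, Matrix.add_apply, Pi.add_apply, Fin.sum_univ_two]
  ring

lemma E1_KA_smul (r : ℝ) (A : Mat) (z : V) : KA (r • A) z = r • KA A z := by
  ext i
  simp only [KA, Matrix.smul_apply, Pi.smul_apply, Fin.sum_univ_two, Complex.real_smul]
  ring

/-- the momentum of the covector `h(w,·)` as a real linear map of the matrix. -/
noncomputable def E1_momMat (U : Mat) (δ : ℝ) (z w : V) : Mat →ₗ[ℝ] ℝ where
  toFun B := hm U δ z w (KA (Uᴴ * B * U) z)
  map_add' A B := by
    rw [Matrix.mul_add, Matrix.add_mul, E1_KA_add, map_add]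
  map_smul' r A := by
    rw [Matrix.mul_smul, Matrix.smul_mul, E1_KA_smul, map_smul, RingHom.id_apply]

lemma E1_momMat_apply (U : Mat) (δ : ℝ) (z w : V) (B : Mat) :
    E1_momMat U δ z w B = hm U δ z w (KA (Uᴴ * B * U) z) := rfl

theorem euler {U : Mat} {δ : ℝ} (hU : Uᴴ * U = 1) (hδ : |δ| ≤ 1/100) (i : Fin 8) (s : Fr) :
    lie (XF U δ) (sM U δ 0 i) s = δ * Em (fun j => sM U δ 0 j s) i := by
  have e : ∀ j, sM U δ 0 j s = E1_momMat U δ s.1 (s.2 0) (Bs j) := fun j => rfl
  rw [lie_sM0 hU hδ i s]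
  have h := bracket_alg δ (E1_momMat U δ s.1 (s.2 0)) i
  simp only [e]
  rw [← h]
  rfl

end Pool.Agent.Helper46.M8
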