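import Pool.Agent.Helper46.M8.St.D1
import Pool.Agent.Helper46.M8.Ns

/-!
# M8, piece E2a
-/

open Filter Metric Module Set
open scoped Topology ContDiff Matrix Matrix.Norms.Elementwise ComplexConjugate

set_option maxSynthPendingDepth 3

namespace Pool.Agent.Helper46.M8
open Pool.Agent.Helper20.PC Pool.Agent.Helper20.HP Pool.Agent.Helper20.M8 Pool.Agent.Helper20.MB

theorem contDiff_comp2 (a : Fin 4) : ContDiff ℝ ∞ (fun q : Pm × Fr => q.2.2 a) :=
  contDiff_pi.1 (contDiff_snd.comp contDiff_snd) a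

theorem contDiff_snd2 (a : Fin 4) : ContDiff ℝ ∞ (fun s : Fr => s.2 a) :=
  contDiff_pi.1 contDiff_snd a

theorem contDiff_base : ContDiff ℝ ∞ (fun q : Pm × Fr => (q.1, q.2.1)) :=
  contDiff_fst.prodMk (contDiff_fst.comp contDiff_snd)

/-! ### E2 : smoothness of the flow and of the functions on frames -/
theorem contDiffAt_XF {q : Pm × Fr} (hU : q.1.1ᴴ * q.1.1 = 1) (hδ : |q.1.2.1| ≤ 1/100) :
    ContDiffAt ℝ ∞ (fun q : Pm × Fr => XF q.1.1 q.1.2.1 q.2) q := by
  have h1 : ContDiffAt ℝ ∞ (fun q : Pm × Fr => GamL (hm q.1.1 q.1.2.1) q.2.1) q := by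
    have h := contDiffAt_GamL (q := (q.1, q.2.1)) hU hδ
    exact h.comp q contDiff_base.contDiffAt
  have h2 : ContDiffAt ℝ ∞ (fun q : Pm × Fr => ((q.2.2 0, fun a =>
      - GamL (hm q.1.1 q.1.2.1) q.2.1 (q.2.2 0) (q.2.2 a)) : Fr)) q := by
    refine (contDiff_comp2 0).contDiffAt.prodMk ?_
    rw [contDiffAt_pi]
    intro a
    exact ((h1.clm_apply (contDiff_comp2 0).contDiffAt).clm_apply
      (contDiff_comp2 a).contDiffAt).neg
  refine h2.congr_of_eventuallyEq ?_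
  have h3 := Gam_eq_near (q := (q.1, q.2.1)) hU hδ
  have h4 : Tendsto (fun q : Pm × Fr => (q.1, q.2.1)) (𝓝 q) (𝓝 (q.1, q.2.1)) :=
    contDiff_base.continuous.tendsto q
  filter_upwards [h4.eventually h3] with q' hq'
  unfold XF
  refine Prod.ext rfl ?_
  funext a
  simp only
  rw [hq']

theorem contDiff_sOm (a b : Fin 4) : ContDiff ℝ ∞ (sOm a b) := by
  unfold sOm
  exact ((contDiff_omL.comp contDiff_fst).clm_apply (contDiff_snd2 a)).clm_apply (contDiff_snd2 b)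

theorem contDiff_sF (a b : Fin 4) : ContDiff ℝ ∞ (sF a b) := by
  unfold sF
  exact ((contDiff_h0.comp contDiff_fst).clm_apply (contDiff_snd2 a)).clm_apply (contDiff_snd2 b)

theorem contDiffAt_sM {q : Pm × Fr} (hU : q.1.1ᴴ * q.1.1 = 1) (hδ : |q.1.2.1| ≤ 1/100) (a : Fin 4)
    (i : Fin 8) : ContDiffAt ℝ ∞ (fun q : Pm × Fr => sM q.1.1 q.1.2.1 a i q.2) q := by
  have h1 : ContDiffAt ℝ ∞ (fun q : Pm × Fr => momL q.1.1 q.1.2.1 q.2.1 i) q := by
    have h := contDiffAt_momL (q := (q.1, q.2.1)) hU hδ i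
    exact h.comp q contDiff_base.contDiffAt
  exact h1.clm_apply (contDiff_comp2 a).contDiffAt

end Pool.Agent.Helper46.M8
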