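import Pool.Agent.Helper46.M8.St.D1
import Pool.Agent.Helper46.M8.Ns

/-!
# M8, piece E2b
-/

open Filter Metric Module Set
open scoped Topology ContDiff Matrix Matrix.Norms.Elementwise ComplexConjugate

set_option maxSynthPendingDepth 3

namespace Pool.Agent.Helper46.M8
open Pool.Agent.Helper20.PC Pool.Agent.Helper20.HP Pool.Agent.Helper20.M8 Pool.Agent.Helper20.MB

private theorem E2b_comp (a : Fin 4) : ContDiff ℝ ∞ (fun q : Pm × Fr => q.2.2 a) :=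
  contDiff_pi.1 (contDiff_snd.comp contDiff_snd) a

private theorem E2b_base : ContDiff ℝ ∞ (fun q : Pm × Fr => (q.1, q.2.1)) :=
  contDiff_fst.prodMk (contDiff_fst.comp contDiff_snd)

private theorem E2b_pull {E : Type*} [NormedAddCommGroup E] [NormedSpace ℝ E] {F : Pm × V → E}
    {q : Pm × Fr} (h : ContDiffAt ℝ ∞ F (q.1, q.2.1)) :
    ContDiffAt ℝ ∞ (fun q : Pm × Fr => F (q.1, q.2.1)) q :=
  ContDiffAt.comp (g := F) q h E2b_base.contDiffAt

/-- the derivative of the connection form -/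
private noncomputable def E2b_D (q : Pm × V) : V →L[ℝ] V →L[ℝ] V →L[ℝ] V :=
  fderiv ℝ (fun z' => GamL (hm q.1.1 q.1.2.1) z') q.2

/-- the curvature in terms of `GamL` -/
private noncomputable def E2b_R (q : Pm × V) (u v w : V) : V :=
  E2b_D q u v w - E2b_D q v u w
    + GamL (hm q.1.1 q.1.2.1) q.2 u (GamL (hm q.1.1 q.1.2.1) q.2 v w)
    - GamL (hm q.1.1 q.1.2.1) q.2 v (GamL (hm q.1.1 q.1.2.1) q.2 u w)

private theorem E2b_D_smooth {q : Pm × V} (hU : q.1.1ᴴ * q.1.1 = 1) (hδ : |q.1.2.1| ≤ 1/100) :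
    ContDiffAt ℝ ∞ E2b_D q := by
  have h := contDiffAt_GamL hU hδ
  exact contDiffAt_fderiv_param (F := fun q : Pm × V => GamL (hm q.1.1 q.1.2.1) q.2)
    (p := q.1) (z := q.2) h

private theorem E2b_Riem_near {q : Pm × V} (hU : q.1.1ᴴ * q.1.1 = 1) (hδ : |q.1.2.1| ≤ 1/100) :
    ∀ᶠ q' in 𝓝 q, ∀ u v w, Riem (hm q'.1.1 q'.1.2.1) q'.2 u v w = E2b_R q' u v w := by
  have h1 := (Gam_eq_near hU hδ).eventually_nhds
  have h2 : ∀ᶠ q' in 𝓝 q, ContDiffAt ℝ 1 (fun q : Pm × V => GamL (hm q.1.1 q.1.2.1) q.2) q' :=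
    ((contDiffAt_GamL hU hδ).of_le (m := 1) (by norm_cast)).eventually (by norm_num)
  filter_upwards [h1, h2] with q' h1 h2 u v w
  have hs : Tendsto (fun z' : V => ((q'.1, z') : Pm × V)) (𝓝 q'.2) (𝓝 q') := by
    have : Continuous (fun z' : V => ((q'.1, z') : Pm × V)) := by fun_prop
    exact this.tendsto q'.2
  have h3 : ∀ a b : V, fderiv ℝ (fun z' => Gam (hm q'.1.1 q'.1.2.1) z' a b) q'.2 =
      fderiv ℝ (fun z' => GamL (hm q'.1.1 q'.1.2.1) z' a b) q'.2 := by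
    intro a b
    refine Filter.EventuallyEq.fderiv_eq ?_
    filter_upwards [hs.eventually h1] with z' hz'
    exact hz' a b
  have h4 : DifferentiableAt ℝ (fun z' : V => GamL (hm q'.1.1 q'.1.2.1) z') q'.2 := by
    have h5 : DifferentiableAt ℝ (fun q : Pm × V => GamL (hm q.1.1 q.1.2.1) q.2)
        ((fun z' : V => ((q'.1, z') : Pm × V)) q'.2) := h2.differentiableAt (by norm_num)
    have h6 : DifferentiableAt ℝ (fun z' : V => ((q'.1, z') : Pm × V)) q'.2 := by fun_prop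
    exact h5.comp q'.2 h6
  have h5 : ∀ a b c : V, fderiv ℝ (fun z' => GamL (hm q'.1.1 q'.1.2.1) z' a b) q'.2 c =
      E2b_D q' c a b := by
    intro a b c
    have h6 := ((h4.hasFDerivAt.clm_apply (hasFDerivAt_const a q'.2)).clm_apply
      (hasFDerivAt_const b q'.2)).fderiv
    rw [h6]
    simp [E2b_D]
  have h6 : ∀ a b : V, Gam (hm q'.1.1 q'.1.2.1) q'.2 a b = GamL (hm q'.1.1 q'.1.2.1) q'.2 a b :=
    h1.self_of_nhds
  rw [Riem, h3, h3, h5, h5, h6, h6, h6, h6, E2b_R]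

/-! ### E2 : smoothness of the flow and of the functions on frames -/
theorem contDiffAt_sR {q : Pm × Fr} (hU : q.1.1ᴴ * q.1.1 = 1) (hδ : |q.1.2.1| ≤ 1/100)
    (k a b : Fin 4) : ContDiffAt ℝ ∞ (fun q : Pm × Fr => sR q.1.1 q.1.2.1 k a b q.2) q := by
  have h1 : ContDiffAt ℝ ∞ (fun q : Pm × Fr => GamL (hm q.1.1 q.1.2.1) q.2.1) q := by
    have h := contDiffAt_GamL (q := (q.1, q.2.1)) hU hδ
    have h2 := E2b_pull (F := fun q : Pm × V => GamL (hm q.1.1 q.1.2.1) q.2) h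
    exact h2
  have h2 : ContDiffAt ℝ ∞ (fun q : Pm × Fr => E2b_D (q.1, q.2.1)) q := by
    have h := E2b_D_smooth (q := (q.1, q.2.1)) hU hδ
    exact E2b_pull (F := E2b_D) h
  have h3 : ContDiffAt ℝ ∞ (fun q : Pm × Fr => hm q.1.1 q.1.2.1 q.2.1) q := by
    have h := contDiffAt_hm (q := (q.1, q.2.1)) hU hδ
    have h2 := E2b_pull (F := fun q : Pm × V => hm q.1.1 q.1.2.1 q.2) h
    exact h2
  have w : ∀ c : Fin 4, ContDiffAt ℝ ∞ (fun q : Pm × Fr => q.2.2 c) q := fun c =>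
    (E2b_comp c).contDiffAt
  have h4 : ContDiffAt ℝ ∞ (fun q : Pm × Fr => hm q.1.1 q.1.2.1 q.2.1 (q.2.2 a)
      (E2b_R (q.1, q.2.1) (q.2.2 0) (q.2.2 k) (q.2.2 b))) q := by
    refine (h3.clm_apply (w a)).clm_apply ?_
    unfold E2b_R
    refine ContDiffAt.sub (ContDiffAt.add (ContDiffAt.sub ?_ ?_) ?_) ?_
    · exact ((h2.clm_apply (w 0)).clm_apply (w k)).clm_apply (w b)
    · exact ((h2.clm_apply (w k)).clm_apply (w 0)).clm_apply (w b)
    · exact (h1.clm_apply (w 0)).clm_apply ((h1.clm_apply (w k)).clm_apply (w b))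
    · exact (h1.clm_apply (w k)).clm_apply ((h1.clm_apply (w 0)).clm_apply (w b))
  refine h4.congr_of_eventuallyEq ?_
  have h5 := E2b_Riem_near (q := (q.1, q.2.1)) hU hδ
  have h6 : Tendsto (fun q : Pm × Fr => (q.1, q.2.1)) (𝓝 q) (𝓝 (q.1, q.2.1)) :=
    E2b_base.continuous.tendsto q
  filter_upwards [h6.eventually h5] with q' hq'
  unfold sR
  rw [hq']

/-- the curvature of a smooth family of connections is smooth -/
private theorem E2b_gen {Q B W X : Type*} [NormedAddCommGroup Q] [NormedSpace ℝ Q]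
    [NormedAddCommGroup B] [NormedSpace ℝ B] [NormedAddCommGroup W] [NormedSpace ℝ W]
    [NormedAddCommGroup X] [NormedSpace ℝ X] {F : Q × B → B →L[ℝ] W →L[ℝ] W}
    {pq : X → Q} {x u v : X → B} {w : X → W} {t : X} (hF : ContDiffAt ℝ ∞ F (pq t, x t))
    (hp : ContDiffAt ℝ ∞ pq t) (hx : ContDiffAt ℝ ∞ x t) (hu : ContDiffAt ℝ ∞ u t)
    (hv : ContDiffAt ℝ ∞ v t) (hw : ContDiffAt ℝ ∞ w t) :
    ContDiffAt ℝ ∞ (fun s => OmV (fun z' => F (pq s, z')) (x s) (u s) (v s) (w s)) t := by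
  have h1 : ContDiffAt ℝ ∞ (fun s => F (pq s, x s)) t :=
    ContDiffAt.comp (g := F) (f := fun s => (pq s, x s)) t hF (hp.prodMk hx)
  have h2 : ContDiffAt ℝ ∞ (fun s => fderiv ℝ (fun z' => F (pq s, z')) (x s)) t :=
    ContDiffAt.comp (g := fun q : Q × B => fderiv ℝ (fun z' => F (q.1, z')) q.2)
      (f := fun s => (pq s, x s)) t (contDiffAt_fderiv_param (F := F) hF) (hp.prodMk hx)
  unfold OmV
  refine ContDiffAt.clm_apply (ContDiffAt.sub (ContDiffAt.add (ContDiffAt.sub ?_ ?_) ?_) ?_) hw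
  · exact (h2.clm_apply hu).clm_apply hv
  · exact (h2.clm_apply hv).clm_apply hu
  · exact (h1.clm_apply hu).clm_comp (h1.clm_apply hv)
  · exact (h1.clm_apply hv).clm_comp (h1.clm_apply hu)

/-- the curvature of `AL U δ e` for fixed `e` is smooth in the parameters -/
private theorem E2b_Om (e : ℝ) {q : Pm × Fr} (hU : q.1.1ᴴ * q.1.1 = 1) (hδ : |q.1.2.1| ≤ 1/100)
    (k b : Fin 4) : ContDiffAt ℝ ∞ (fun q : Pm × Fr =>
      OmV (B := V) (W := Yf) (AL q.1.1 q.1.2.1 e) q.2.1 (q.2.2 0) (q.2.2 k)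
        ((0, q.2.2 b) : Yf)) q := by
  have h0 : ContDiffAt ℝ ∞ (fun q : Pm × V => AL q.1.1 q.1.2.1 e q.2) (q.1, q.2.1) := by
    have h1 : ContDiffAt ℝ ∞ (fun q : Pm × V => (((q.1.1, q.1.2.1, e) : Pm), q.2))
        (q.1, q.2.1) := by fun_prop
    exact ContDiffAt.comp (g := fun q : Pm × V => AL q.1.1 q.1.2.1 q.1.2.2 q.2) (q.1, q.2.1)
      (contDiffAt_AL (q := ((q.1.1, q.1.2.1, e), q.2.1)) hU hδ) h1
  have w : ∀ c : Fin 4, ContDiffAt ℝ ∞ (fun q : Pm × Fr => q.2.2 c) q := fun c =>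
    (E2b_comp c).contDiffAt
  have w0 : ContDiffAt ℝ ∞ (fun q : Pm × Fr => ((0, q.2.2 b) : Yf)) q :=
    contDiffAt_const.prodMk (w b)
  have w1 : ContDiffAt ℝ ∞ (fun q : Pm × Fr => q.2.1) q := contDiffAt_fst.comp q contDiffAt_snd
  have h1 := E2b_gen (F := fun q : Pm × V => AL q.1.1 q.1.2.1 e q.2)
    (pq := fun q : Pm × Fr => q.1) (x := fun q : Pm × Fr => q.2.1) (u := fun q : Pm × Fr => q.2.2 0)
    (v := fun q : Pm × Fr => q.2.2 k) (t := q) h0 contDiffAt_fst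
    w1 (w 0) (w k) w0
  dsimp only at h1
  exact h1

theorem contDiffAt_sQ {q : Pm × Fr} (hU : q.1.1ᴴ * q.1.1 = 1) (hδ : |q.1.2.1| ≤ 1/100)
    (k a b : Fin 4) : ContDiffAt ℝ ∞ (fun q : Pm × Fr => sQ q.1.1 q.1.2.1 k a b q.2) q := by
  have h3 : ContDiffAt ℝ ∞ (fun q : Pm × Fr => hm q.1.1 q.1.2.1 q.2.1) q := by
    have h := contDiffAt_hm (q := (q.1, q.2.1)) hU hδ
    have h2 := E2b_pull (F := fun q : Pm × V => hm q.1.1 q.1.2.1 q.2) h
    exact h2
  have w : ContDiffAt ℝ ∞ (fun q : Pm × Fr => q.2.2 a) q := (E2b_comp a).contDiffAt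
  have h4 := (E2b_Om 1 hU hδ k b).snd
  have h5 := (E2b_Om 0 hU hδ k b).snd
  have h6 := (h3.clm_apply w).clm_apply (h4.sub h5)
  exact h6

end Pool.Agent.Helper46.M8
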