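import Pool.Agent.Helper46.M8.St.D1
import Pool.Agent.Helper46.M8.St.D2
import Pool.Agent.Helper46.M8.St.D3a
import Pool.Agent.Helper20.MB.Skew
import Pool.Agent.Helper46.M8.Ns

/-!
# M8, piece E3
-/

open Filter Metric Module Set
open scoped Topology ContDiff Matrix Matrix.Norms.Elementwise ComplexConjugate

set_option maxSynthPendingDepth 3

namespace Pool.Agent.Helper46.M8
open Pool.Agent.Helper20.PC Pool.Agent.Helper20.HP Pool.Agent.Helper20.M8 Pool.Agent.Helper20.MB

/-! ### E3 : the curvature is skew -/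
theorem OmV_skew {U : Mat} {δ : ℝ} (hU : Uᴴ * U = 1) (hδ : |δ| ≤ 1/100) (ε : ℝ) (z ζ ζ' : V) (p q : Yf) :
    kL U δ z (OmV (AL U δ ε) z ζ ζ' p) q = - kL U δ z p (OmV (AL U δ ε) z ζ ζ' q) := by
  have hk : ContDiffAt ℝ 2 (kL U δ) z := by
    have h := contDiffAt_kL (q := ((U, δ, ε), z)) hU hδ
    exact (h.comp z (contDiffAt_const.prodMk contDiffAt_id)).of_le (by norm_cast)
  have hA : ContDiffAt ℝ 2 (AL U δ ε) z := by
    have h := contDiffAt_AL (q := ((U, δ, ε), z)) hU hδ
    exact (h.comp z (contDiffAt_const.prodMk contDiffAt_id)).of_le (by norm_cast)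
  have h := OmV_skew_of hk hA (Eventually.of_forall fun x' u p q => kL_par hU hδ ε x' u p q)
    ζ ζ' p q
  linarith

end Pool.Agent.Helper46.M8
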