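import Pool.Agent.Helper46.M8.St.D1
import Pool.Agent.Helper46.M8.St.D2
import Pool.Agent.Helper46.M8.St.D3a
import Pool.Agent.Helper46.M8.Ns

/-!
# M8, piece E4
-/

open Filter Metric Module Set
open scoped Topology ContDiff Matrix Matrix.Norms.Elementwise ComplexConjugate

set_option maxSynthPendingDepth 3

namespace Pool.Agent.Helper46.M8
open Pool.Agent.Helper20.PC Pool.Agent.Helper20.HP Pool.Agent.Helper20.M8 Pool.Agent.Helper20.MB

private lemma contDiff_incl (p : Pm) : ContDiff ℝ ∞ (fun z' : V => (p, z')) :=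
  contDiff_const.prodMk contDiff_id

/-- composition, in the form `fun x => g (f x)`. -/
private lemma E4_cmp {E F G : Type*} [NormedAddCommGroup E] [NormedSpace ℝ E]
    [NormedAddCommGroup F] [NormedSpace ℝ F] [NormedAddCommGroup G] [NormedSpace ℝ G]
    {g : F → G} {f : E → F} {x : E} (hg : ContDiffAt ℝ ∞ g (f x)) (hf : ContDiffAt ℝ ∞ f x) :
    ContDiffAt ℝ ∞ (fun x => g (f x)) x := hg.comp x hf

private lemma E4_A {U : Mat} {δ : ℝ} (hU : Uᴴ * U = 1) (hδ : |δ| ≤ 1/100) (ε : ℝ) (z : V) :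
    ContDiffAt ℝ ∞ (fun x => AL U δ ε x) z :=
  E4_cmp (g := fun q : Pm × V => AL q.1.1 q.1.2.1 q.1.2.2 q.2)
    (f := fun z : V => (((U, δ, ε) : Pm), z))
    (contDiffAt_AL (q := (((U, δ, ε) : Pm), z)) hU hδ) (contDiff_incl (U, δ, ε)).contDiffAt

private lemma E4_k {U : Mat} {δ : ℝ} (hU : Uᴴ * U = 1) (hδ : |δ| ≤ 1/100) (ε : ℝ) (z : V) :
    ContDiffAt ℝ ∞ (fun x => kL U δ x) z :=
  E4_cmp (g := fun q : Pm × V => kL q.1.1 q.1.2.1 q.2)
    (f := fun z : V => (((U, δ, ε) : Pm), z))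
    (contDiffAt_kL (q := (((U, δ, ε) : Pm), z)) hU hδ) (contDiff_incl (U, δ, ε)).contDiffAt

private lemma E4_S {U : Mat} {δ : ℝ} (hU : Uᴴ * U = 1) (hδ : |δ| ≤ 1/100) (ε lam : ℝ) (z : V) :
    @ContDiffAt ℝ _ V _ _ (Yf →L[ℝ] Yf →L[ℝ] Yf →L[ℝ] Yf →L[ℝ] ℝ) (ngk4 Yf) (nsk4 Yf) ∞
        (fun x => SL U δ ε lam x) z :=
  E4_cmp (g := fun q : Pm × V => SL q.1.1 q.1.2.1 q.1.2.2 lam q.2)
    (f := fun z : V => (((U, δ, ε) : Pm), z))
    (contDiffAt_SL lam (q := (((U, δ, ε) : Pm), z)) hU hδ) (contDiff_incl (U, δ, ε)).contDiffAt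

private lemma Fsm_symm (i j : Fin 8) : Fsm i j = Fsm j i := by
  fin_cases i <;> fin_cases j <;> simp [Fsm]

private lemma swap_smul (y p : Yf) : p.1 • y.2 - y.1 • p.2 = -(y.1 • p.2 - p.1 • y.2) := by
  rw [neg_sub]

/-! ### E4 : the data are good -/
theorem Dd_good {U : Mat} {δ : ℝ} (hU : Uᴴ * U = 1) (hδ : |δ| ≤ 1/100) (ε lam : ℝ) (z : V) :
    (Dd U δ ε lam).Good z := by
  have hj := (contDiff_incl (U, δ, ε)).contDiffAt (x := z)
  refine ⟨?_, ?_, ?_, ?_, ?_, ?_, ?_, ?_, ?_, ?_, ?_⟩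
  · exact (contDiffAt_hm (q := ((U, δ, ε), z)) hU hδ).comp z hj
  · exact E4_A hU hδ ε z
  · exact E4_k hU hδ ε z
  · exact E4_S hU hδ ε lam z
  · exact Eventually.of_forall fun x' u v => hm_symm hU hδ x' u v
  · exact Eventually.of_forall fun x' u hu => hm_pos hU hδ x' u hu
  · refine Eventually.of_forall fun x' p q => ?_
    show kL U δ x' p q = kL U δ x' q p
    rw [kL_apply, kL_apply, hm_symm hU hδ x' p.2 q.2]
    ring
  · refine Eventually.of_forall fun x' p hp => ?_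
    show 0 < kL U δ x' p p
    rw [kL_apply]
    by_cases h2 : p.2 = 0
    · have h1 : p.1 ≠ 0 := by
        intro h1
        exact hp (Prod.ext h1 h2)
      rw [h2]
      have := mul_self_pos.mpr h1
      simpa using this
    · have := hm_pos hU hδ x' p.2 h2
      nlinarith [mul_self_nonneg p.1]
  · exact Eventually.of_forall fun x' u p q => kL_par hU hδ ε x' u p q
  · refine Eventually.of_forall fun x' a b c d => ?_
    show SL U δ ε lam x' a b c d = - SL U δ ε lam x' b a c d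
    rw [SL_apply, SL_apply, omL_skew x' b.2 a.2, swap_smul a b]
    simp only [map_neg, neg_mul, mul_neg, Finset.sum_neg_distrib]
    ring
  · refine Eventually.of_forall fun x' a b c d => ?_
    show SL U δ ε lam x' a b c d = SL U δ ε lam x' c d a b
    rw [SL_apply, SL_apply, h0_symm x' c.2 a.2, h0_symm x' d.2 b.2, h0_symm x' d.2 a.2,
      h0_symm x' c.2 b.2]
    have e : ∑ i, ∑ j, Fsm i j * (momL U δ x' i (a.1 • b.2 - b.1 • a.2)
          * momL U δ x' j (c.1 • d.2 - d.1 • c.2)) =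
        ∑ i, ∑ j, Fsm i j * (momL U δ x' i (c.1 • d.2 - d.1 • c.2)
          * momL U δ x' j (a.1 • b.2 - b.1 • a.2)) := by
      rw [Finset.sum_comm]
      refine Finset.sum_congr rfl fun i _ => Finset.sum_congr rfl fun j _ => ?_
      rw [Fsm_symm j i]
      ring
    rw [e]
    ring

end Pool.Agent.Helper46.M8
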