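import Pool.Agent.Helper46.M8.St.C3
import Pool.Agent.Helper46.M8.St.D5
import Pool.Agent.Helper46.M8.St.E1
import Pool.Agent.Helper46.M8.St.E2a
import Pool.Agent.Helper46.M8.Ns

/-!
# M8, piece E5
-/

open Filter Metric Module Set
open scoped Topology ContDiff Matrix Matrix.Norms.Elementwise ComplexConjugate

set_option maxSynthPendingDepth 3

namespace Pool.Agent.Helper46.M8
open Pool.Agent.Helper20.PC Pool.Agent.Helper20.HP Pool.Agent.Helper20.M8 Pool.Agent.Helper20.MB

section E5aux
variable {E : Type*} [NormedAddCommGroup E] [NormedSpace ℝ E]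

/-- `f` is differentiable and constant along `X`. -/
private structure Cst (X : E → E) (f : E → ℝ) : Prop where
  d : Differentiable ℝ f
  l : ∀ s, lie X f s = 0

private lemma Cst.mul {X : E → E} {f g : E → ℝ} (hf : Cst X f) (hg : Cst X g) :
    Cst X (fun s => f s * g s) := by
  refine ⟨hf.d.mul hg.d, fun s => ?_⟩
  have h1 := hf.l s
  have h2 := hg.l s
  unfold lie at h1 h2 ⊢
  have h := ((hf.d s).hasFDerivAt.mul (hg.d s).hasFDerivAt).fderiv
  have e : (fun s => f s * g s) = f * g := rfl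
  rw [e, h]
  simp [h1, h2]

private lemma Cst.add {X : E → E} {f g : E → ℝ} (hf : Cst X f) (hg : Cst X g) :
    Cst X (fun s => f s + g s) := by
  refine ⟨hf.d.add hg.d, fun s => ?_⟩
  have h1 := hf.l s
  have h2 := hg.l s
  unfold lie at h1 h2 ⊢
  have h := ((hf.d s).hasFDerivAt.add (hg.d s).hasFDerivAt).fderiv
  have e : (fun s => f s + g s) = f + g := rfl
  rw [e, h]
  simp [h1, h2]

private lemma Cst.sub {X : E → E} {f g : E → ℝ} (hf : Cst X f) (hg : Cst X g) :
    Cst X (fun s => f s - g s) := by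
  refine ⟨hf.d.sub hg.d, fun s => ?_⟩
  have h1 := hf.l s
  have h2 := hg.l s
  unfold lie at h1 h2 ⊢
  have h := ((hf.d s).hasFDerivAt.sub (hg.d s).hasFDerivAt).fderiv
  have e : (fun s => f s - g s) = f - g := rfl
  rw [e, h]
  simp [h1, h2]

private lemma Cst.const (X : E → E) (r : ℝ) : Cst X (fun _ => r) := by
  refine ⟨differentiable_const r, fun s => ?_⟩
  unfold lie
  simp

private lemma jetF_cst {X : E → E} {f : E → ℝ} (h : ∀ s, lie X f s = 0) (s : E) :
    jetF X f s = J2.C (f s) := by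
  have e : lie X f = fun _ => (0 : ℝ) := funext h
  ext
  · rfl
  · simp [jetF, h]
  · simp only [jetF, J2.C_c]
    rw [e]
    simp [lie]

end E5aux

/-! ### E5 : (T) at `δ = ε = 0` -/
theorem TF_zero {U : Mat} (hU : Uᴴ * U = 1) (W : Fin 4 → V) (hW : ON (h0 0) W) (u c : ℝ)
    (w : Fin 4 → ℝ) (β : Fin 4 → Fin 4 → ℝ) :
    TF U 0 0 0 W u c w β
      = Tlim (fun a b => omL 0 (W a) (W b)) (momL U 0 0 6 (W 0)) u c w β := by
  have hO : ∀ a b, Cst (XF U 0) (sOm a b) := fun a b =>
    ⟨(contDiff_sOm a b).differentiable (by simp), fun s => lie_sOm0 hU a b s⟩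
  have hF : ∀ a b, Cst (XF U 0) (sF a b) := fun a b =>
    ⟨(contDiff_sF a b).differentiable (by simp), fun s => lie_sF0 hU a b s⟩
  have h1 : (fun a b => jetF (XF U 0) (sOm a b) (0, W))
      = fun a b => J2.C (omL 0 (W a) (W b)) := by
    funext a b
    rw [jetF_cst (hO a b).l]
    rfl
  have h2 : (fun a b => jetF (XF U 0) (sF a b) (0, W))
      = fun a b => J2.C (if a = b then 1 else 0) := by
    funext a b
    rw [jetF_cst (hF a b).l, ← hW a b]
    rfl
  have h3 : (fun k a b => jetF (XF U 0) (sR U 0 k a b) (0, W))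
      = fun k a b => J2.C (rho0 (fun a b => omL 0 (W a) (W b)) k a b) := by
    funext k a b
    have e : sR U 0 k a b = fun s => sF k b s * sF 0 a s - sF 0 b s * sF a k s
        + sOm k b s * sOm 0 a s - sOm 0 b s * sOm k a s - 2 * sOm 0 k s * sOm b a s :=
      funext fun s => sR_zero hU k a b s
    have hc : Cst (XF U 0) (sR U 0 k a b) := by
      rw [e]
      exact (((((hF k b).mul (hF 0 a)).sub ((hF 0 b).mul (hF a k))).add
        ((hO k b).mul (hO 0 a))).sub ((hO 0 b).mul (hO k a))).sub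
        (((Cst.const (XF U 0) 2).mul (hO 0 k)).mul (hO b a))
    rw [jetF_cst hc.l, e]
    congr 1
    have f1 : ∀ a b, sF a b ((0, W) : Fr) = if a = b then 1 else 0 := fun a b => hW a b
    have f2 : ∀ a b, sOm a b ((0, W) : Fr) = omL 0 (W a) (W b) := fun a b => rfl
    simp only [f1, f2, rho0]
    have g1 : (if (0 : Fin 4) = a then (1 : ℝ) else 0) = if a = 0 then 1 else 0 := by
      by_cases h : a = 0
      · simp [h]
      · simp [h, Ne.symm h]
    have g2 : (if (0 : Fin 4) = b then (1 : ℝ) else 0) = if b = 0 then 1 else 0 := by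
      by_cases h : b = 0
      · simp [h]
      · simp [h, Ne.symm h]
    rw [g1, g2]
  have h4 : jetF (XF U 0) (sM U 0 0 6) (0, W) = J2.C (momL U 0 0 6 (W 0)) := by
    rw [jetF_cst (fun s => by rw [euler hU (by norm_num) 6 s, zero_mul])]
    rfl
  have h5 : num (hm U 0) 0 (W 0) (W 1) = 1 + 3 * omL 0 (W 0) (W 1) ^ 2 := by
    have e : hm U 0 = h0 := funext fun z => hm_zero hU z
    rw [e, num_h0, hW, hW, hW]
    norm_num
  unfold TF Tlim
  rw [h1, h2, h3, h5]
  apply Tj_congr
  simp only [and_self, if_true]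
  exact h4

end Pool.Agent.Helper46.M8
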