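import Pool.Agent.Helper46.M8.St.B1
import Pool.Agent.Helper46.M8.Ns

/-!
# M8, piece E7
-/

open Filter Metric Module Set
open scoped Topology ContDiff Matrix Matrix.Norms.Elementwise ComplexConjugate

set_option maxSynthPendingDepth 3

namespace Pool.Agent.Helper46.M8
open Pool.Agent.Helper20.PC Pool.Agent.Helper20.HP Pool.Agent.Helper20.M8 Pool.Agent.Helper20.MB

/-! ### E7 : vectors in frames -/

/-- extension of orthonormal families, for a positive definite symmetric bilinear form. -/
private theorem ext_frame {E : Type*} [AddCommGroup E] [Module ℝ E] {n : ℕ} [NeZero n]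
    (hn : finrank ℝ E = n) (B : E →ₗ[ℝ] E →ₗ[ℝ] ℝ) (hs : ∀ x y, B x y = B y x)
    (hp : ∀ x, x ≠ 0 → 0 < B x x) (s : Set (Fin n)) (v : Fin n → E)
    (hv : ∀ i ∈ s, ∀ j ∈ s, B (v i) (v j) = if i = j then 1 else 0) :
    ∃ W : Fin n → E, (∀ a b, B (W a) (W b) = if a = b then 1 else 0) ∧ ∀ i ∈ s, W i = v i := by
  classical
  have hfin : FiniteDimensional ℝ E :=
    FiniteDimensional.of_finrank_pos (by rw [hn]; exact Nat.pos_of_ne_zero (NeZero.ne n))
  let core : InnerProductSpace.Core ℝ E :=
    { inner := fun x y => B x y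
      conj_inner_symm := fun x y => by
        change (starRingEnd ℝ) (B y x) = B x y
        rw [hs y x]; rfl
      re_inner_nonneg := fun x => by
        change 0 ≤ B x x
        rcases eq_or_ne x 0 with h | h
        · rw [h]; simp
        · exact (hp x h).le
      add_left := fun x y z => by
        change B (x + y) z = B x z + B y z
        rw [map_add]; rfl
      smul_left := fun x y r => by
        change B (r • x) y = r * B x y
        rw [map_smul]; rfl
      definite := fun x h => by
        by_contra hx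
        exact absurd h (hp x hx).ne' }
  letI i1 : NormedAddCommGroup E := core.toNormedAddCommGroup
  letI i2 : InnerProductSpace ℝ E := InnerProductSpace.ofCore core.toCore
  have hin : ∀ x y : E, inner ℝ x y = B x y := fun x y => rfl
  have hon : Orthonormal ℝ (s.domRestrict v) := by
    rw [orthonormal_iff_ite]
    intro i j
    rw [hin]
    have := hv i i.2 j j.2
    simpa [Subtype.ext_iff] using this
  obtain ⟨b, hb⟩ := hon.exists_orthonormalBasis_extension_of_card_eq (by simpa using hn)
  refine ⟨b, fun i j => ?_, hb⟩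
  rw [← hin]
  exact orthonormal_iff_ite.mp b.orthonormal i j

private theorem gen_frame_sum {E : Type*} [AddCommGroup E] [Module ℝ E] {n : ℕ} [NeZero n]
    (hn : finrank ℝ E = n) (B : E →ₗ[ℝ] E →ₗ[ℝ] ℝ) (W : Fin n → E)
    (hW : ∀ a b, B (W a) (W b) = if a = b then 1 else 0) (v : E) :
    ∑ a, B v (W a) • W a = v := by
  classical
  have hfin : FiniteDimensional ℝ E :=
    FiniteDimensional.of_finrank_pos (by rw [hn]; exact Nat.pos_of_ne_zero (NeZero.ne n))
  have hsum : ∀ (c : Fin n → ℝ) (b : Fin n), B (∑ a, c a • W a) (W b) = c b := by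
    intro c b
    rw [map_sum, LinearMap.sum_apply]
    simp [hW]
  have hli : LinearIndependent ℝ W := by
    rw [Fintype.linearIndependent_iff]
    intro c hc b
    have := hsum c b
    rw [hc] at this
    simpa using this.symm
  have htop : Submodule.span ℝ (Set.range W) = ⊤ :=
    hli.span_eq_top_of_card_eq_finrank (by simpa using hn.symm)
  have hv : v ∈ Submodule.span ℝ (Set.range W) := by rw [htop]; trivial
  obtain ⟨c, hc⟩ := (Submodule.mem_span_range_iff_exists_fun ℝ).mp hv
  have : ∀ b, B v (W b) = c b := fun b => by rw [← hc]; exact hsum c b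
  simp only [this]
  exact hc

private theorem finrank_V : finrank ℝ V = 4 := by
  have h : finrank ℝ (Fin 2 → ℂ) = 4 := by
    rw [Module.finrank_pi_fintype]
    simp [Complex.finrank_real_complex]
  exact h

private noncomputable def bilG (G : V →L[ℝ] V →L[ℝ] ℝ) : V →ₗ[ℝ] V →ₗ[ℝ] ℝ :=
  LinearMap.mk₂ ℝ (fun x y => G x y) (fun x y z => by simp) (fun c x y => by simp)
    (fun x y z => by simp) (fun c x y => by simp)

theorem frame_sum {U : Mat} {δ : ℝ} (hU : Uᴴ * U = 1) (hδ : |δ| ≤ 1/100) {z : V} {W : Fin 4 → V} (hW : ON (hm U δ z) W) (v : V) :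
    ∑ a, hm U δ z v (W a) • W a = v :=
  gen_frame_sum finrank_V (bilG (hm U δ z)) W hW v

theorem exists_frame {U : Mat} {δ : ℝ} (hU : Uᴴ * U = 1) (hδ : |δ| ≤ 1/100) (z X Y : V)
    (hX : hm U δ z X X = 1) (hXY : hm U δ z X Y = 0) :
    ∃ (W : Fin 4 → V) (u : ℝ), ON (hm U δ z) W ∧ W 0 = X ∧ Y = u • W 1 := by
  classical
  have hs : ∀ x y, bilG (hm U δ z) x y = bilG (hm U δ z) y x := fun x y => hm_symm hU hδ z x y
  have hp : ∀ x, x ≠ 0 → 0 < bilG (hm U δ z) x x := fun x hx => hm_pos hU hδ z x hx
  have h01 : (0 : Fin 4) ≠ 1 := by decide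
  rcases eq_or_ne Y 0 with hY | hY
  · obtain ⟨W, hW, h0⟩ := ext_frame finrank_V (bilG (hm U δ z)) hs hp {0} (fun _ => X) (by
      intro i hi j hj
      rw [mem_singleton_iff] at hi hj
      rw [hi, hj, if_pos rfl]
      exact hX)
    exact ⟨W, 0, hW, h0 0 rfl, by rw [hY, zero_smul]⟩
  · set q : ℝ := hm U δ z Y Y with hq
    have hq0 : 0 < q := hm_pos hU hδ z Y hY
    have hsq : 0 < √q := Real.sqrt_pos.mpr hq0
    have hsq2 : √q * √q = q := Real.mul_self_sqrt hq0.le
    let v : Fin 4 → V := fun i => if i = 0 then X else (√q)⁻¹ • Y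
    have hv0 : v 0 = X := if_pos rfl
    have hv1 : v 1 = (√q)⁻¹ • Y := if_neg h01.symm
    have hYX : hm U δ z Y X = 0 := by rw [hm_symm hU hδ]; exact hXY
    obtain ⟨W, hW, h0⟩ := ext_frame finrank_V (bilG (hm U δ z)) hs hp {0, 1} v (by
      intro i hi j hj
      change hm U δ z (v i) (v j) = _
      rcases hi with rfl | hi <;> rcases hj with rfl | hj
      · rw [hv0, if_pos rfl]; exact hX
      · rw [mem_singleton_iff] at hj
        rw [hj, hv0, hv1, if_neg h01, map_smul, hXY, smul_zero]
      · rw [mem_singleton_iff] at hi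
        rw [hi, hv0, hv1, if_neg h01.symm, map_smul, ContinuousLinearMap.smul_apply, hYX, smul_zero]
      · rw [mem_singleton_iff] at hi hj
        rw [hi, hj, hv1, if_pos rfl, map_smul, map_smul, ContinuousLinearMap.smul_apply, ← hq,
          smul_eq_mul, smul_eq_mul]
        field_simp
        nlinarith)
    refine ⟨W, √q, hW, by rw [h0 0 (Or.inl rfl), hv0], ?_⟩
    rw [h0 1 (Or.inr rfl), hv1, smul_smul, mul_inv_cancel₀ hsq.ne', one_smul]

end Pool.Agent.Helper46.M8
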