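import Pool.Agent.Helper46.M8.St.D3b
import Pool.Agent.Helper46.M8.St.E7
import Pool.Agent.Helper46.M8.Ns

/-!
# M8, piece E6
-/

open Filter Metric Module Set
open scoped Topology ContDiff Matrix Matrix.Norms.Elementwise ComplexConjugate

set_option maxSynthPendingDepth 3

namespace Pool.Agent.Helper46.M8
open Pool.Agent.Helper20.PC Pool.Agent.Helper20.HP Pool.Agent.Helper20.M8 Pool.Agent.Helper20.MB

/-! ### E6 : derivatives along the flow `XB` -/
lemma E6_diff_hm {U : Mat} {δ : ℝ} (hU : Uᴴ * U = 1) (hδ : |δ| ≤ 1/100) (z : V) :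
    DifferentiableAt ℝ (hm U δ) z :=
  (hm_metAt hU hδ z).smooth.differentiableAt (by norm_num)

lemma E6_diff_f {U : Mat} {δ : ℝ} (hU : Uᴴ * U = 1) (hδ : |δ| ≤ 1/100) (a b : Fin 4) (s : Fr) :
    DifferentiableAt ℝ (fun s : Fr => hm U δ s.1 (s.2 a) (s.2 b)) s := by
  have h1 : DifferentiableAt ℝ (fun s : Fr => hm U δ s.1) s :=
    (E6_diff_hm hU hδ s.1).comp s differentiableAt_fst
  have h2 : ∀ a : Fin 4, DifferentiableAt ℝ (fun s : Fr => s.2 a) s := fun a =>
    (differentiableAt_pi.1 (differentiableAt_snd (𝕜 := ℝ) (p := s))) a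
  exact (h1.clm_apply (h2 a)).clm_apply (h2 b)

theorem curve_ON {U : Mat} {δ : ℝ} (hU : Uᴴ * U = 1) (hδ : |δ| ≤ 1/100) (ε : ℝ) {γ : ℝ → Fs}
    (hγ : ∀ᶠ t in 𝓝 (0 : ℝ), HasDerivAt γ (XB U δ ε (γ t)) t)
    (h0 : ON (hm U δ (γ 0).1.1) (γ 0).1.2) :
    ∀ᶠ t in 𝓝 (0 : ℝ), ON (hm U δ (γ t).1.1) (γ t).1.2 := by
  obtain ⟨r, hr, hball⟩ := Metric.eventually_nhds_iff_ball.1 hγ
  have hd : ∀ a b : Fin 4, ∀ t ∈ ball (0 : ℝ) r,
      HasDerivAt (fun t => hm U δ (γ t).1.1 ((γ t).1.2 a) ((γ t).1.2 b)) 0 t := by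
    intro a b t ht
    have h1 : HasDerivAt (fun t => (γ t).1) (XF U δ (γ t).1) t := (hball t ht).fst
    have h2 := (E6_diff_f hU hδ a b (γ t).1).hasFDerivAt.comp_hasDerivAt t h1
    have h3 := lie_hm hU hδ a b (γ t).1
    rw [lie] at h3
    rw [h3] at h2
    exact h2
  filter_upwards [ball_mem_nhds (0 : ℝ) hr] with t ht
  intro a b
  have h1 := IsOpen.is_const_of_deriv_eq_zero isOpen_ball (convex_ball (0 : ℝ) r).isPreconnected
    (f := fun t => hm U δ (γ t).1.1 ((γ t).1.2 a) ((γ t).1.2 b))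
    (fun t ht => (hd a b t ht).differentiableAt.differentiableWithinAt)
    (fun t ht => (hd a b t ht).deriv) ht (mem_ball_self hr)
  rw [← h0 a b]
  exact h1

/-- the components of a vector of the fibre. -/
theorem deriv_comp {U : Mat} {δ : ℝ} (hU : Uᴴ * U = 1) (hδ : |δ| ≤ 1/100) (ε : ℝ) {x : ℝ → V} {W : Fin 4 → ℝ → V} {y : ℝ → Yf} {t : ℝ}
    (hx : HasDerivAt x (W 0 t) t)
    (hW : ∀ a, HasDerivAt (W a) (- Gam (hm U δ) (x t) (W 0 t) (W a t)) t)
    (hy : HasDerivAt y (- AL U δ ε (x t) (W 0 t) (y t)) t)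
    (hON : ON (hm U δ (x t)) (fun a => W a t)) :
    HasDerivAt (fun t => (y t).1) ((1/2) * hm U δ (x t) (y t).2 (W 0 t)) t ∧
    ∀ a, HasDerivAt (fun t => hm U δ (x t) (y t).2 (W a t))
      (ε * (momL U δ (x t) 6 (W 0 t) * ∑ b, omL (x t) (W a t) (W b t)
          * hm U δ (x t) (y t).2 (W b t))
        - (if a = 0 then (1/2) * (y t).1 else 0)) t := by
  have h1 : HasDerivAt (fun t => (y t).1) (- AL U δ ε (x t) (W 0 t) (y t)).1 t := hy.fst
  have h2 : HasDerivAt (fun t => (y t).2) (- AL U δ ε (x t) (W 0 t) (y t)).2 t := hy.snd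
  rw [AL_apply] at h1 h2
  refine ⟨?_, fun a => ?_⟩
  · refine h1.congr_deriv ?_
    rw [hm_symm hU hδ (x t) (y t).2 (W 0 t)]
    simp
  · have hh := (E6_diff_hm hU hδ (x t)).hasFDerivAt.comp_hasDerivAt t hx
    have h3 := (hh.clm_apply h2).clm_apply (hW a)
    refine h3.congr_deriv ?_
    have hG : GamL (hm U δ) (x t) (W 0 t) (y t).2 = Gam (hm U δ) (x t) (W 0 t) (y t).2 :=
      GamL_eq (hm_metAt hU hδ (x t)).smooth _ _
    have hf := fderiv_hm hU hδ (x t) (W 0 t) (y t).2 (W a t)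
    have hsum : omL (x t) (y t).2 (W a t) = - ∑ b, omL (x t) (W a t) (W b t)
          * hm U δ (x t) (y t).2 (W b t) := by
      rw [omL_skew]
      congr 1
      conv_lhs => rw [← frame_sum hU hδ hON (y t).2]
      rw [map_sum]
      refine Finset.sum_congr rfl fun b _ => ?_
      rw [map_smul, smul_eq_mul, mul_comm]
    have hW0 : hm U δ (x t) (W 0 t) (W a t) = if a = 0 then 1 else 0 := by
      have := hON 0 a
      simp only at this
      rw [this]
      by_cases ha : a = 0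
      · simp [ha]
      · simp [ha, Ne.symm ha]
    simp only [Prod.snd_neg, map_neg, map_add, map_smul, _root_.add_apply, _root_.neg_apply, _root_.smul_apply,
      smul_eq_mul, hG, hm_JJ hU hδ, hsum, hW0, Function.comp]
    rw [hf]
    by_cases ha : a = 0
    · simp only [ha, if_true]
      ring
    · simp only [ha, if_false]
      ring

end Pool.Agent.Helper46.M8
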