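import Pool.Agent.Helper46.M8.St.E1
import Pool.Agent.Helper46.M8.St.E2a
import Pool.Agent.Helper46.M8.Ns

/-!
# M8, piece F1
-/

open Filter Metric Module Set
open scoped Topology ContDiff Matrix Matrix.Norms.Elementwise ComplexConjugate

set_option maxSynthPendingDepth 3

namespace Pool.Agent.Helper46.M8
open Pool.Agent.Helper20.PC Pool.Agent.Helper20.HP Pool.Agent.Helper20.M8 Pool.Agent.Helper20.MB

/-! ### F1 : the jet of `F` -/

private lemma map_Ex {R S : Type*} [CommRing R] [CommRing S] (φ : R →+* S) (x : Fin 8 → R)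
    (i : Fin 8) : φ (Ex x i) = Ex (fun j => φ (x j)) i := by
  have h2 : φ 2 = 2 := map_ofNat φ 2
  have h3 : φ 3 = 3 := map_ofNat φ 3
  have h4 : φ 4 = 4 := map_ofNat φ 4
  have h5 : φ 5 = 5 := map_ofNat φ 5
  have h6 : φ 6 = 6 := map_ofNat φ 6
  have h9 : φ 9 = 9 := map_ofNat φ 9
  fin_cases i <;> simp [Ex, h2, h3, h4, h5, h6, h9]

private lemma map_Fx {R S : Type*} [CommRing R] [CommRing S] (φ : R →+* S) (x : Fin 8 → R) :
    φ (Fx x) = Fx (fun j => φ (x j)) := by
  have h2 : φ 2 = 2 := map_ofNat φ 2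
  have h4 : φ 4 = 4 := map_ofNat φ 4
  have h6 : φ 6 = 6 := map_ofNat φ 6
  have h9 : φ 9 = 9 := map_ofNat φ 9
  have h11 : φ 11 = 11 := map_ofNat φ 11
  have h15 : φ 15 = 15 := map_ofNat φ 15
  have h18 : φ 18 = 18 := map_ofNat φ 18
  have h19 : φ 19 = 19 := map_ofNat φ 19
  simp [Fx, h2, h4, h6, h9, h11, h15, h18, h19]

/-- change of the time unit of a jet. -/
private def scJ (δ : ℝ) : J2 →+* J2 where
  toFun u := ⟨u.a, δ * u.b, δ ^ 2 * u.c⟩
  map_one' := by ext <;> simp
  map_mul' u v := by ext <;> simp <;> ring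
  map_zero' := by ext <;> simp
  map_add' u v := by ext <;> simp <;> ring

/-- the first order part of a jet. -/
private def j1 : J2 →+* DualNumber ℝ where
  toFun u := (u.a, u.b)
  map_one' := rfl
  map_mul' u v := by
    refine TrivSqZeroExt.ext rfl ?_
    rw [TrivSqZeroExt.snd_mul]
    show (u * v).b = u.a • v.b + MulOpposite.op v.a • u.b
    simp
  map_zero' := rfl
  map_add' u v := rfl

section dif
variable {E : Type*} [NormedAddCommGroup E] [NormedSpace ℝ E]

/-- functions differentiable at `s`. -/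
private def difS (s : E) : Subring (E → ℝ) where
  carrier := {f | DifferentiableAt ℝ f s}
  mul_mem' ha hb := DifferentiableAt.mul ha hb
  one_mem' := differentiableAt_const (1 : ℝ)
  add_mem' ha hb := DifferentiableAt.add ha hb
  zero_mem' := differentiableAt_const (0 : ℝ)
  neg_mem' ha := DifferentiableAt.neg ha

private noncomputable def difH (X : E → E) (s : E) : difS s →+* DualNumber ℝ where
  toFun f := (f.1 s, lie X f.1 s)
  map_one' := by
    refine TrivSqZeroExt.ext rfl ?_
    show lie X (1 : E → ℝ) s = 0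
    have : (1 : E → ℝ) = fun _ => (1 : ℝ) := rfl
    rw [lie, this, fderiv_fun_const]
    rfl
  map_mul' f g := by
    refine TrivSqZeroExt.ext rfl ?_
    rw [TrivSqZeroExt.snd_mul]
    show lie X (f.1 * g.1) s = f.1 s • lie X g.1 s + MulOpposite.op (g.1 s) • lie X f.1 s
    have hf : DifferentiableAt ℝ f.1 s := f.2
    have hg : DifferentiableAt ℝ g.1 s := g.2
    simp only [lie]
    rw [fderiv_mul hf hg]
    simp [mul_comm]
  map_zero' := by
    refine TrivSqZeroExt.ext rfl ?_
    show lie X (0 : E → ℝ) s = 0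
    have : (0 : E → ℝ) = fun _ => (0 : ℝ) := rfl
    rw [lie, this, fderiv_fun_const]
    rfl
  map_add' f g := by
    refine TrivSqZeroExt.ext rfl ?_
    show lie X (f.1 + g.1) s = lie X f.1 s + lie X g.1 s
    have hf : DifferentiableAt ℝ f.1 s := f.2
    have hg : DifferentiableAt ℝ g.1 s := g.2
    simp only [lie]
    rw [fderiv_add hf hg]
    rfl

/-- the derivative of the slow flow. -/
private lemma lie_Ex (X : E → E) (s : E) (g : Fin 8 → E → ℝ) (hg : ∀ j, DifferentiableAt ℝ (g j) s)
    (i : Fin 8) : lie X (fun t => Ex (fun j => g j t) i) s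
      = (Ex (R := J2) (fun j => ⟨g j s, lie X (g j) s, 0⟩) i).b := by
  set G : Fin 8 → difS s := fun j => ⟨g j, hg j⟩ with hG
  have h1 : difH X s (Ex G i) = j1 (Ex (R := J2) (fun j => ⟨g j s, lie X (g j) s, 0⟩) i) := by
    rw [map_Ex, map_Ex]
    rfl
  have h2 : (Ex G i : difS s).1 = fun t => Ex (fun j => g j t) i := by
    have h3 := map_Ex (difS s).subtype G i
    funext t
    have h4 := congrFun h3 t
    have h5 := map_Ex (Pi.evalRingHom (fun _ : E => ℝ) t) (fun j => (difS s).subtype (G j)) i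
    exact h4.trans h5
  have h6 : (difH X s (Ex G i)).2 = lie X (fun t => Ex (fun j => g j t) i) s := by
    rw [← h2]
    rfl
  rw [← h6, h1]
  rfl

end dif

private lemma Ex_scale (δ : ℝ) (x v : Fin 8 → ℝ) (i : Fin 8) :
    (Ex (R := J2) (fun j => ⟨x j, δ * v j, 0⟩) i).b
      = δ * (Ex (R := J2) (fun j => ⟨x j, v j, 0⟩) i).b := by
  have h := map_Ex (scJ δ) (fun j => (⟨x j, v j, 0⟩ : J2)) i
  have h2 : (fun j => scJ δ (⟨x j, v j, 0⟩ : J2)) = fun j => (⟨x j, δ * v j, 0⟩ : J2) := by
    funext j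
    ext <;> simp [scJ]
  rw [h2] at h
  rw [← h]
  rfl

private lemma Fx_scale (δ : ℝ) (x v w : Fin 8 → ℝ) :
    (Fx (R := J2) (fun j => ⟨x j, δ * v j, δ ^ 2 * w j⟩)).c
      = δ ^ 2 * (Fx (R := J2) (fun j => ⟨x j, v j, w j⟩)).c := by
  have h := map_Fx (scJ δ) (fun j => (⟨x j, v j, w j⟩ : J2))
  have h2 : (fun j => scJ δ (⟨x j, v j, w j⟩ : J2)) = fun j => (⟨x j, δ * v j, δ ^ 2 * w j⟩ : J2) := by
    funext j
    ext <;> simp [scJ]
  rw [h2] at h
  rw [← h]
  rfl

theorem F_jet {U : Mat} {δ : ℝ} (hU : Uᴴ * U = 1) (hδ : |δ| ≤ 1/100) (s : Fr) :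
    (Fx (R := J2) (xc (fun i => jetF (XF U δ) (sM U δ 0 i) s))).c
      = δ ^ 2 * PhiDD (xc (fun i => sM U δ 0 i s)) := by
  set X := XF U δ with hX
  set m : Fin 8 → Fr → ℝ := fun i => sM U δ 0 i with hm
  have hdiff : ∀ i t, DifferentiableAt ℝ (m i) t := by
    intro i t
    have h1 : ContDiffAt ℝ ∞ (fun q : Pm × Fr => sM q.1.1 q.1.2.1 0 i q.2) ((U, δ, 0), t) :=
      contDiffAt_sM (q := ((U, δ, 0), t)) hU hδ 0 i
    have h2 : DifferentiableAt ℝ (fun q : Pm × Fr => sM q.1.1 q.1.2.1 0 i q.2) ((U, δ, 0), t) :=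
      h1.differentiableAt (by simp)
    have h3 : DifferentiableAt ℝ (fun t : Fr => (((U, δ, 0), t) : Pm × Fr)) t :=
      (differentiableAt_const _).prodMk differentiableAt_id
    exact DifferentiableAt.comp t (f := fun t : Fr => (((U, δ, 0), t) : Pm × Fr)) h2 h3
  have heul : ∀ i, lie X (m i) = fun t => δ * Em (fun j => m j t) i := fun i => by
    funext t
    exact euler hU hδ i t
  -- the coordinates `x`
  set y : Fin 8 → Fr → ℝ := fun i t => xc (fun j => m j t) i with hy
  have hydiff : ∀ i t, DifferentiableAt ℝ (y i) t := by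
    intro i t
    by_cases hi : i = 7
    · have : y i = fun t => (1/3 : ℝ) * m 7 t := by
        funext t; simp only [hy, xc, if_pos hi, smul_eq_mul]
      rw [this]
      exact (hdiff 7 t).const_mul _
    · have : y i = m i := by
        funext t; simp only [hy, xc, if_neg hi]
      rw [this]
      exact hdiff i t
  have hylie : ∀ i t, lie X (y i) t = δ * Ex (fun j => y j t) i := by
    intro i t
    by_cases hi : i = 7
    · have h1 : y i = fun t => (1/3 : ℝ) * m 7 t := by
        funext t; simp only [hy, xc, if_pos hi, smul_eq_mul]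
      rw [h1, lie, fderiv_const_mul (hdiff 7 t)]
      have h2 : fderiv ℝ (m 7) t (X t) = δ * Em (fun j => m j t) 7 := congrFun (heul 7) t
      rw [_root_.smul_apply, h2, hi]
      simp only [Em, if_true, smul_eq_mul]
      ring_nf
      rfl
    · have h1 : y i = m i := by
        funext t; simp only [hy, xc, if_neg hi]
      rw [h1, heul i]
      simp only [Em, if_neg hi, one_mul]
      rfl
  have hmy : ∀ i t, Em (fun j => m j t) i = (if i = 7 then 3 else 1) * Ex (fun j => y j t) i :=
    fun i t => rfl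
  have hlie2 : ∀ i, lie X (lie X (m i)) s = (if i = 7 then 3 else 1) *
      (δ ^ 2 * (Ex (R := J2) (fun j => ⟨y j s, Ex (fun l => y l s) j, 0⟩) i).b) := by
    intro i
    have h1 : lie X (m i) = fun t => (δ * (if i = 7 then 3 else 1)) * Ex (fun j => y j t) i := by
      rw [heul i]
      funext t
      rw [hmy i t]
      ring
    have h2 : DifferentiableAt ℝ (fun t => Ex (fun j => y j t) i) s := by
      have h3 : (Ex (fun j => (⟨y j, hydiff j s⟩ : difS s)) i : difS s).1
          = fun t => Ex (fun j => y j t) i := by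
        have h3 := map_Ex (difS s).subtype (fun j => (⟨y j, hydiff j s⟩ : difS s)) i
        funext t
        have h4 := congrFun h3 t
        have h5 := map_Ex (Pi.evalRingHom (fun _ : Fr => ℝ) t)
          (fun j => (difS s).subtype (⟨y j, hydiff j s⟩ : difS s)) i
        exact h4.trans h5
      rw [← h3]
      exact (Ex (fun j => (⟨y j, hydiff j s⟩ : difS s)) i : difS s).2
    rw [h1, lie, fderiv_const_mul h2, _root_.smul_apply]
    have h4 := lie_Ex X s y (fun j => hydiff j s) i
    rw [lie] at h4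
    rw [h4]
    have h5 : (fun j => (⟨y j s, lie X (y j) s, 0⟩ : J2))
        = fun j => (⟨y j s, δ * Ex (fun l => y l s) j, 0⟩ : J2) := by
      funext j
      rw [hylie j s]
    rw [h5, Ex_scale, smul_eq_mul]
    ring
  have hjet : (xc (fun i => jetF X (m i) s) : Fin 8 → J2)
      = fun i => ⟨y i s, δ * Ex (fun l => y l s) i,
        δ ^ 2 * (Ex (R := J2) (fun j => ⟨y j s, Ex (fun l => y l s) j, 0⟩) i).b⟩ := by
    funext i
    have h7 : ∀ i, jetF X (m i) s = ⟨m i s, δ * ((if i = 7 then 3 else 1) * Ex (fun j => y j s) i),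
        (if i = 7 then 3 else 1) *
          (δ ^ 2 * (Ex (R := J2) (fun j => ⟨y j s, Ex (fun l => y l s) j, 0⟩) i).b)⟩ := by
      intro i
      rw [jetF, hlie2 i, heul i]
      simp only [hmy i s]
    by_cases hi : i = 7
    · subst hi
      simp only [xc, if_true]
      rw [h7 7]
      ext
      · simp [hy, xc]
      · simp only [J2.smul_b, if_true]
        ring
      · simp only [J2.smul_c, if_true]
        ring
    · simp only [xc, if_neg hi]
      rw [h7 i]
      ext
      · simp [hy, xc, hi]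
      · simp [hi]
      · simp [hi]
  rw [hjet, Fx_scale]
  rfl

end Pool.Agent.Helper46.M8
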