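import Pool.Agent.Helper46.M8.St.A14
import Pool.Agent.Helper46.M8.St.E2a
import Pool.Agent.Helper46.M8.St.E2b
import Pool.Agent.Helper46.M8.Ns

/-!
# M8, piece F2
-/

open Filter Metric Module Set
open scoped Topology ContDiff Matrix Matrix.Norms.Elementwise ComplexConjugate

set_option maxSynthPendingDepth 3

namespace Pool.Agent.Helper46.M8
open Pool.Agent.Helper20.PC Pool.Agent.Helper20.HP Pool.Agent.Helper20.M8 Pool.Agent.Helper20.MB

/-! ### F2 : continuity -/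
/-- jets of a smooth family are continuous on the set of configurations. -/
theorem contJ_jet {F : Pm × Fr → ℝ}
    (hF : ∀ q : Pm × Fr, q.1.1ᴴ * q.1.1 = 1 → |q.1.2.1| ≤ 1/100 → ContDiffAt ℝ ∞ F q) :
    ContJ {q : Cf | q.1.1ᴴ * q.1.1 = 1 ∧ |q.1.2.1| ≤ 1/100}
      (fun q : Cf => jetF (XF q.1.1 q.1.2.1) (fun s => F (q.1, s)) (0, q.2.1)) := by
  have key := fun (q : Cf) (hq : q.1.1ᴴ * q.1.1 = 1 ∧ |q.1.2.1| ≤ 1/100) =>
    contDiffAt_jet_param (X := fun q : Pm × Fr => XF q.1.1 q.1.2.1 q.2) (f := F) (p := q.1)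
      (z := ((0, q.2.1) : Fr)) (contDiffAt_XF hq.1 hq.2) (hF _ hq.1 hq.2)
  have hc : Continuous (fun q : Cf => ((q.1, (0, q.2.1)) : Pm × Fr)) := by fun_prop
  exact ⟨fun q hq => (ContinuousAt.comp (f := fun q : Cf => ((q.1, (0, q.2.1)) : Pm × Fr))
      (key q hq).1.continuousAt hc.continuousAt).continuousWithinAt,
    fun q hq => (ContinuousAt.comp (f := fun q : Cf => ((q.1, (0, q.2.1)) : Pm × Fr))
      (key q hq).2.1.continuousAt hc.continuousAt).continuousWithinAt,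
    fun q hq => (ContinuousAt.comp (f := fun q : Cf => ((q.1, (0, q.2.1)) : Pm × Fr))
      (key q hq).2.2.continuousAt hc.continuousAt).continuousWithinAt⟩

theorem continuousOn_TFp (lam : ℝ) :
    ContinuousOn (TFp lam) {q : Cf | q.1.1ᴴ * q.1.1 = 1 ∧ |q.1.2.1| ≤ 1/100} := by
  have hK : ContinuousOn (fun q : Cf => num (hm q.1.1 q.1.2.1) 0 (q.2.1 0) (q.2.1 1))
      {q : Cf | q.1.1ᴴ * q.1.1 = 1 ∧ |q.1.2.1| ≤ 1/100} := by
    refine ContinuousOn.congr (contJ_jet (F := fun q : Pm × Fr => sR q.1.1 q.1.2.1 1 0 1 q.2)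
      (fun q h1 h2 => contDiffAt_sR h1 h2 1 0 1)).1 (fun q hq => ?_)
    change num (hm q.1.1 q.1.2.1) 0 (q.2.1 0) (q.2.1 1) = sR q.1.1 q.1.2.1 1 0 1 (0, q.2.1)
    rw [← G_Riem (hm_metAt hq.1 hq.2 0), hm_symm hq.1 hq.2]
    rfl
  refine continuousOn_Tj (X := Cf) lam (ε := fun q => q.1.2.2)
    (K := fun q => num (hm q.1.1 q.1.2.1) 0 (q.2.1 0) (q.2.1 1)) (u := fun q => q.2.2.1)
    (c := fun q => q.2.2.2.1)
    (om := fun q a b => jetF (XF q.1.1 q.1.2.1) (sOm a b) (0, q.2.1))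
    (f := fun q a b => jetF (XF q.1.1 q.1.2.1) (sF a b) (0, q.2.1))
    (m := fun q a i => jetF (XF q.1.1 q.1.2.1) (sM q.1.1 q.1.2.1 a i) (0, q.2.1))
    (rho := fun q k a b => jetF (XF q.1.1 q.1.2.1) (sR q.1.1 q.1.2.1 k a b) (0, q.2.1))
    (q := fun q k a b => jetF (XF q.1.1 q.1.2.1) (sQ q.1.1 q.1.2.1 k a b) (0, q.2.1))
    (w := fun q => q.2.2.2.2.1) (β := fun q => q.2.2.2.2.2) ?_ hK ?_ ?_ ?_ ?_ ?_ ?_ ?_ ?_ ?_
  · fun_prop
  · fun_prop
  · fun_prop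
  · exact fun a b => contJ_jet (F := fun q : Pm × Fr => sOm a b q.2)
      (fun q _ _ => ((contDiff_sOm a b).comp contDiff_snd).contDiffAt)
  · exact fun a b => contJ_jet (F := fun q : Pm × Fr => sF a b q.2)
      (fun q _ _ => ((contDiff_sF a b).comp contDiff_snd).contDiffAt)
  · exact fun a i => contJ_jet (F := fun q : Pm × Fr => sM q.1.1 q.1.2.1 a i q.2)
      (fun q h1 h2 => contDiffAt_sM h1 h2 a i)
  · exact fun k a b => contJ_jet (F := fun q : Pm × Fr => sR q.1.1 q.1.2.1 k a b q.2)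
      (fun q h1 h2 => contDiffAt_sR h1 h2 k a b)
  · exact fun k a b => contJ_jet (F := fun q : Pm × Fr => sQ q.1.1 q.1.2.1 k a b q.2)
      (fun q h1 h2 => contDiffAt_sQ h1 h2 k a b)
  · intro i
    fun_prop
  · intro a b
    fun_prop

end Pool.Agent.Helper46.M8
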