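import Pool.Agent.Helper46.M8.St.A8
import Pool.Agent.Helper46.M8.St.C2
import Pool.Agent.Helper46.M8.St.E5
import Pool.Agent.Helper46.M8.St.E7
import Pool.Agent.Helper46.M8.Ns

/-!
# M8, piece F3
-/

open Filter Metric Module Set
open scoped Topology ContDiff Matrix Matrix.Norms.Elementwise ComplexConjugate

set_option maxSynthPendingDepth 3

namespace Pool.Agent.Helper46.M8
open Pool.Agent.Helper20.PC Pool.Agent.Helper20.HP Pool.Agent.Helper20.M8 Pool.Agent.Helper20.MB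

/-- the matrix of the Kaehler form in an orthonormal frame is orthogonal. -/
private lemma om_orth {U : Mat} (hU : Uᴴ * U = 1) {W : Fin 4 → V} (hW : ON (h0 0) W)
    (a b : Fin 4) :
    ∑ e, omL 0 (W a) (W e) * omL 0 (W b) (W e) = if a = b then 1 else 0 := by
  have hz : hm U 0 0 = h0 0 := hm_zero hU 0
  have hW' : ON (hm U 0 0) W := by rw [hz]; exact hW
  have hδ : |(0 : ℝ)| ≤ 1/100 := by norm_num
  have h1 : ∑ e, hm U 0 0 (iL (W a)) (W e) • W e = iL (W a) := frame_sum hU hδ hW' (iL (W a))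
  rw [hz] at h1
  have h2 : ∀ x y : V, omL 0 x y = h0 0 (iL x) y := fun x y => rfl
  have h3 : h0 0 (iL (W b)) (iL (W a)) = ∑ e, omL 0 (W a) (W e) * omL 0 (W b) (W e) := by
    conv_lhs => rw [← h1]
    rw [map_sum]
    refine Finset.sum_congr rfl fun e _ => ?_
    rw [map_smul, smul_eq_mul, h2, h2]
  rw [← h3, h0_iL, h0_symm]
  exact hW a b

/-! ### F3 : positivity of the limit -/
theorem limit_pos {κ : ℝ} (hκ : ∀ x ∈ Orb, 0 < (371/80) * x 6 ^ 2 + (κ/2) * PhiDD x) {U : Mat}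
    (hU : Uᴴ * U = 1) {W : Fin 4 → V} (hW : ON (h0 0) W) {u c : ℝ} {w : Fin 4 → ℝ}
    {β : Fin 4 → Fin 4 → ℝ} (hC : Cns 0 c w β) (hn : nrm u c w β ≠ 0) :
    0 < TF U 0 0 0 W u c w β + (κ/2) * c ^ 2 * PhiDD (xc (fun i => momL U 0 0 i (W 0))) := by
  obtain ⟨hw0, hβ, hcβ, hpl⟩ := hC
  rw [TF_zero hU W hW]
  have hsk : ∀ a b, omL 0 (W a) (W b) = - omL 0 (W b) (W a) := fun a b => omL_skew 0 _ _
  have hort := om_orth hU hW
  have hz : hm U 0 0 = h0 0 := hm_zero hU 0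
  have hmom : (fun i => momL U 0 0 i (W 0)) = fun i => h0 0 (W 0) (Kf U i 0) := by
    funext i
    rw [momL_apply, hz]
  have hW00 : h0 0 (W 0) (W 0) = 1 := by simpa using hW 0 0
  have hx : xc (fun i => momL U 0 0 i (W 0)) ∈ Orb := by
    rw [hmom]
    exact orbit_mem hU (W 0) hW00
  have hx6 : xc (fun i => momL U 0 0 i (W 0)) 6 = momL U 0 0 6 (W 0) := by
    simp [xc]
  have hk := hκ _ hx
  rw [hx6] at hk
  set x := xc (fun i => momL U 0 0 i (W 0)) with hxdef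
  set th := momL U 0 0 6 (W 0) with hth
  have hs1 : 0 ≤ ∑ i, w i ^ 2 := Finset.sum_nonneg fun i _ => sq_nonneg _
  have hs2 : 0 ≤ ∑ a, ∑ b, β a b ^ 2 :=
    Finset.sum_nonneg fun i _ => Finset.sum_nonneg fun j _ => sq_nonneg _
  have hu2 := sq_nonneg u
  by_cases hc : c = 0
  · subst hc
    have h1 := Tlim_pos2 (fun a b => omL 0 (W a) (W b)) hsk hort th u w β hw0 hβ hpl
    have h2 : 0 < u ^ 2 + ∑ i, w i ^ 2 + ∑ a, ∑ b, β a b ^ 2 := by
      have h3 : nrm u 0 w β = u ^ 2 + ∑ i, w i ^ 2 + ∑ a, ∑ b, β a b ^ 2 := by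
        unfold nrm; ring
      rw [h3] at hn
      exact lt_of_le_of_ne (by linarith) (Ne.symm hn)
    have h4 : (κ / 2) * (0 : ℝ) ^ 2 * PhiDD x = 0 := by ring
    rw [h4]
    linarith
  · have hz0 : ∀ i j, i ≠ 0 → j ≠ 0 → β i j = 0 := by
      intro i j hi hj
      have h1 := hcβ i j hi hj
      rw [zero_mul] at h1
      exact (mul_eq_zero.mp h1).resolve_left hc
    have h1 := Tlim_pos1 (fun a b => omL 0 (W a) (W b)) hsk hort th u c w β hw0 hβ hz0
    have hc2 : 0 < c ^ 2 := by positivity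
    have h2 := mul_pos hc2 hk
    have h3 : c ^ 2 * (371 / 80 * th ^ 2 + κ / 2 * PhiDD x)
        = 371 / 80 * th ^ 2 * c ^ 2 + κ / 2 * c ^ 2 * PhiDD x := by ring
    rw [h3] at h2
    linarith

end Pool.Agent.Helper46.M8
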