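import Pool.Agent.Helper46.M8.St.E6
import Pool.Agent.Helper46.M8.Ns

/-!
# M8, piece F4
-/

open Filter Metric Module Set
open scoped Topology ContDiff Matrix Matrix.Norms.Elementwise ComplexConjugate

set_option maxSynthPendingDepth 3

namespace Pool.Agent.Helper46.M8
open Pool.Agent.Helper20.PC Pool.Agent.Helper20.HP Pool.Agent.Helper20.M8 Pool.Agent.Helper20.MB

/-! ### F4 : evolution of `c`, `w`, `β` -/

private theorem fstD {E F : Type*} [NormedAddCommGroup E] [NormedSpace ℝ E] [NormedAddCommGroup F]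
    [NormedSpace ℝ F] {g : ℝ → E × F} {g' : E × F} {t : ℝ} (h : HasDerivAt g g' t) :
    HasDerivAt (fun t => (g t).1) g'.1 t :=
  (hasFDerivAt_fst (𝕜 := ℝ) (p := g t)).comp_hasDerivAt t h

private theorem sndD {E F : Type*} [NormedAddCommGroup E] [NormedSpace ℝ E] [NormedAddCommGroup F]
    [NormedSpace ℝ F] {g : ℝ → E × F} {g' : E × F} {t : ℝ} (h : HasDerivAt g g' t) :
    HasDerivAt (fun t => (g t).2) g'.2 t :=
  (hasFDerivAt_snd (𝕜 := ℝ) (p := g t)).comp_hasDerivAt t h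

/-- the derivatives of the components along a curve. -/
private theorem comps {U : Mat} {δ : ℝ} (hU : Uᴴ * U = 1) (hδ : |δ| ≤ 1/100) (ε : ℝ) {γ : ℝ → Fs} {t : ℝ}
    (hγ : HasDerivAt γ (XB U δ ε (γ t)) t) (hON : ON (hm U δ (γ t).1.1) (γ t).1.2) :
    (HasDerivAt (fun t => (γ t).2.1.1) ((1/2) * hm U δ (γ t).1.1 (γ t).2.1.2 ((γ t).1.2 0)) t ∧
    ∀ a, HasDerivAt (fun t => hm U δ (γ t).1.1 (γ t).2.1.2 ((γ t).1.2 a))
      (ε * (sM U δ 0 6 (γ t).1 * ∑ b, sOm a b (γ t).1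
          * hm U δ (γ t).1.1 (γ t).2.1.2 ((γ t).1.2 b))
        - (if a = 0 then (1/2) * (γ t).2.1.1 else 0)) t) ∧
    (HasDerivAt (fun t => (γ t).2.2.1) ((1/2) * hm U δ (γ t).1.1 (γ t).2.2.2 ((γ t).1.2 0)) t ∧
    ∀ a, HasDerivAt (fun t => hm U δ (γ t).1.1 (γ t).2.2.2 ((γ t).1.2 a))
      (ε * (sM U δ 0 6 (γ t).1 * ∑ b, sOm a b (γ t).1
          * hm U δ (γ t).1.1 (γ t).2.2.2 ((γ t).1.2 b))
        - (if a = 0 then (1/2) * (γ t).2.2.1 else 0)) t) := by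
  have h1 : HasDerivAt (fun t => (γ t).1) (XF U δ (γ t).1) t :=
    fstD hγ
  have h2 : HasDerivAt (fun t => (γ t).2)
      ((- AL U δ ε (γ t).1.1 ((γ t).1.2 0) (γ t).2.1, - AL U δ ε (γ t).1.1 ((γ t).1.2 0) (γ t).2.2) : Yf × Yf) t :=
    sndD hγ
  have hx : HasDerivAt (fun t => (γ t).1.1) ((γ t).1.2 0) t :=
    fstD h1
  have hWW : HasDerivAt (fun t => (γ t).1.2)
      (fun a => - Gam (hm U δ) (γ t).1.1 ((γ t).1.2 0) ((γ t).1.2 a)) t :=
    sndD h1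
  have hW : ∀ a, HasDerivAt (fun t => (γ t).1.2 a)
      (- Gam (hm U δ) (γ t).1.1 ((γ t).1.2 0) ((γ t).1.2 a)) t := fun a => (hasDerivAt_pi.1 hWW) a
  have hy : HasDerivAt (fun t => (γ t).2.1) (- AL U δ ε (γ t).1.1 ((γ t).1.2 0) (γ t).2.1) t :=
    fstD h2
  have hp : HasDerivAt (fun t => (γ t).2.2) (- AL U δ ε (γ t).1.1 ((γ t).1.2 0) (γ t).2.2) t :=
    sndD h2
  have A := deriv_comp (x := fun t => (γ t).1.1) (W := fun a t => (γ t).1.2 a)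
    (y := fun t => (γ t).2.1) hU hδ ε hx hW hy hON
  have B := deriv_comp (x := fun t => (γ t).1.1) (W := fun a t => (γ t).1.2 a)
    (y := fun t => (γ t).2.2) hU hδ ε hx hW hp hON
  simp only [sM, sOm]
  exact ⟨⟨A.1, A.2⟩, ⟨B.1, B.2⟩⟩

private theorem sOm_self (a : Fin 4) (s : Fr) : sOm a a s = 0 := by
  have := omL_skew s.1 (s.2 a) (s.2 a)
  unfold sOm
  linarith

theorem deriv_cS {U : Mat} {δ : ℝ} (hU : Uᴴ * U = 1) (hδ : |δ| ≤ 1/100) (ε : ℝ) {γ : ℝ → Fs} {t : ℝ}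
    (hγ : HasDerivAt γ (XB U δ ε (γ t)) t) (hON : ON (hm U δ (γ t).1.1) (γ t).1.2) :
    HasDerivAt (fun t => cS U δ ε (γ t))
      (dc ε (sM U δ 0 6 (γ t).1) (fun a b => sOm a b (γ t).1) (wS U δ (γ t))) t := by
  obtain ⟨⟨y1, y2⟩, p1, p2⟩ := comps hU hδ ε hγ hON
  have h := ((y1.mul (p2 0)).sub (p1.mul (y2 0))).const_mul ε
  have e0 := sOm_self 0 (γ t).1
  refine h.congr_deriv ?_
  simp only [dc, wS, Fin.sum_univ_four, smul_eq_mul, e0, if_true, Fin.isValue]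
  simp
  ring

theorem deriv_wS {U : Mat} {δ : ℝ} (hU : Uᴴ * U = 1) (hδ : |δ| ≤ 1/100) (ε : ℝ) {γ : ℝ → Fs} {t : ℝ}
    (hγ : HasDerivAt γ (XB U δ ε (γ t)) t) (hON : ON (hm U δ (γ t).1.1) (γ t).1.2) (i : Fin 4) :
    HasDerivAt (fun t => wS U δ (γ t) i)
      (dw ε (sM U δ 0 6 (γ t).1) (fun a b => sOm a b (γ t).1) (cS U δ ε (γ t)) (wS U δ (γ t))
        (bS U δ (γ t)) i) t := by
  obtain ⟨⟨y1, y2⟩, p1, p2⟩ := comps hU hδ ε hγ hON
  by_cases hi : i = 0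
  · subst hi
    simp only [wS, dw, if_true]
    exact hasDerivAt_const _ _
  · simp only [wS, dw, if_neg hi]
    have h := (y1.mul (p2 i)).sub (p1.mul (y2 i))
    refine h.congr_deriv ?_
    simp only [cS, bS, Fin.sum_univ_four, smul_eq_mul, if_neg hi]
    simp
    ring

theorem deriv_bS {U : Mat} {δ : ℝ} (hU : Uᴴ * U = 1) (hδ : |δ| ≤ 1/100) (ε : ℝ) {γ : ℝ → Fs} {t : ℝ}
    (hγ : HasDerivAt γ (XB U δ ε (γ t)) t) (hON : ON (hm U δ (γ t).1.1) (γ t).1.2) (a b : Fin 4) :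
    HasDerivAt (fun t => bS U δ (γ t) a b)
      (dβ ε (sM U δ 0 6 (γ t).1) (fun a b => sOm a b (γ t).1) (wS U δ (γ t)) (bS U δ (γ t)) a b)
      t := by
  obtain ⟨⟨y1, y2⟩, p1, p2⟩ := comps hU hδ ε hγ hON
  have h := ((y2 a).mul (p2 b)).sub ((y2 b).mul (p2 a))
  refine h.congr_deriv ?_
  simp only [dβ, wS, bS, Fin.sum_univ_four, smul_eq_mul]
  rcases eq_or_ne a 0 with rfl | ha
  · rcases eq_or_ne b 0 with rfl | hb
    · simp only [if_true]; ring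
    · simp only [if_true, if_neg hb]; ring
  · rcases eq_or_ne b 0 with rfl | hb
    · simp only [if_true, if_neg ha]; ring
    · simp only [if_neg ha, if_neg hb]; ring

end Pool.Agent.Helper46.M8
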