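import Pool.Agent.Helper46.M8.St.D6
import Pool.Agent.Helper46.M8.St.E3
import Pool.Agent.Helper46.M8.St.E7
import Pool.Agent.Helper46.M8.Ns

/-!
# M8, piece F5a
-/

open Filter Metric Module Set
open scoped Topology ContDiff Matrix Matrix.Norms.Elementwise ComplexConjugate

set_option maxSynthPendingDepth 3

namespace Pool.Agent.Helper46.M8
open Pool.Agent.Helper20.PC Pool.Agent.Helper20.HP Pool.Agent.Helper20.M8 Pool.Agent.Helper20.MB

/-! ### F5 : the functions in frames -/

private lemma F5a_alg (ε : ℝ) (k : Fin 4) (ye pe : ℝ) (ya pa : Fin 4 → ℝ)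
    (om : Fin 4 → Fin 4 → ℝ) (m : Fin 4 → Fin 8 → ℝ) (r0 r1 : Fin 4 → Fin 4 → ℝ)
    (hom : om 0 0 = 0) (h0 : ∀ a b, r0 a b = - r0 b a) (h1 : ∀ a b, r1 a b = - r1 b a)
    (rho q : Fin 4 → Fin 4 → Fin 4 → ℝ)
    (hrho : ∀ a b, rho k a b = r0 a b + (1/4) * ((if k = b then 1 else 0) * (if a = 0 then 1 else 0)
      - (if b = 0 then 1 else 0) * (if a = k then 1 else 0)))
    (hq : ∀ a b, q k a b = r1 a b - r0 a b) :
    ye * ((ε/2) * (m 0 6 * (∑ a, pa a * om a k) - m k 6 * (∑ a, pa a * om a 0)))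
      + ((ε/2 * pe) * (m 0 6 * (-(∑ a, ya a * om a k)) - m k 6 * (-(∑ a, ya a * om a 0)))
        + ((∑ a, ya a * ∑ b, pa b * r0 a b)
          + ε * ((∑ a, ya a * ∑ b, pa b * r1 a b) - (∑ a, ya a * ∑ b, pa b * r0 a b))))
      = OG ε k om m rho q (ε * (ye * pa 0 - pe * ya 0))
          (fun i => if i = 0 then 0 else ye * pa i - pe * ya i)
          (fun a b => ya a * pa b - ya b * pa a) := by
  have hsk : ∀ r : Fin 4 → Fin 4 → ℝ, (∀ a b, r a b = - r b a) →
      (∑ a, ya a * ∑ b, pa b * r a b) = (1/2) * ∑ a, ∑ b, (ya a * pa b - ya b * pa a) * r a b := by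
    intro r hr
    have e1 : ∑ a, ∑ b, (ya a * pa b - ya b * pa a) * r a b
        = ∑ a, ∑ b, ya a * pa b * r a b + ∑ a, ∑ b, ya b * pa a * r b a := by
      rw [← Finset.sum_add_distrib]
      refine Finset.sum_congr rfl fun a _ => ?_
      rw [← Finset.sum_add_distrib]
      refine Finset.sum_congr rfl fun b _ => ?_
      rw [hr b a]
      ring
    have e2 : ∑ a, ∑ b, ya b * pa a * r b a = ∑ a, ∑ b, ya a * pa b * r a b :=
      Finset.sum_comm
    rw [e1, e2]
    have e3 : ∑ a, ya a * ∑ b, pa b * r a b = ∑ a, ∑ b, ya a * pa b * r a b := by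
      refine Finset.sum_congr rfl fun a _ => ?_
      rw [Finset.mul_sum]
      refine Finset.sum_congr rfl fun b _ => ?_
      ring
    rw [e3]
    ring
  have hR : ∑ a, ∑ b, (ya a * pa b - ya b * pa a) * (rho k a b + ε • q k a b)
      = ∑ a, ∑ b, (ya a * pa b - ya b * pa a) * r0 a b
        + ε * (∑ a, ∑ b, (ya a * pa b - ya b * pa a) * r1 a b
          - ∑ a, ∑ b, (ya a * pa b - ya b * pa a) * r0 a b)
        + (1/2) * (ya 0 * pa k - ya k * pa 0) := by
    have e4 : ∑ a, ∑ b, (ya a * pa b - ya b * pa a) * ((1/4) *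
        ((if k = b then (1 : ℝ) else 0) * (if a = 0 then (1 : ℝ) else 0)
        - (if b = 0 then (1 : ℝ) else 0) * (if a = k then (1 : ℝ) else 0)))
        = (1/2) * (ya 0 * pa k - ya k * pa 0) := by
      fin_cases k <;> simp [Fin.sum_univ_four] <;> ring
    rw [← e4, mul_sub, Finset.mul_sum, Finset.mul_sum, ← Finset.sum_sub_distrib,
      ← Finset.sum_add_distrib, ← Finset.sum_add_distrib]
    refine Finset.sum_congr rfl fun a _ => ?_
    rw [Finset.mul_sum, Finset.mul_sum, ← Finset.sum_sub_distrib,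
      ← Finset.sum_add_distrib, ← Finset.sum_add_distrib]
    refine Finset.sum_congr rfl fun b _ => ?_
    rw [hrho, hq, smul_eq_mul]
    ring
  unfold OG
  rw [hR, hsk r0 h0, hsk r1 h1]
  simp only [smul_eq_mul, Fin.sum_univ_four (f := fun a => pa a * om a k),
    Fin.sum_univ_four (f := fun a => pa a * om a 0), Fin.sum_univ_four (f := fun a => ya a * om a k),
    Fin.sum_univ_four (f := fun a => ya a * om a 0)]
  have e5 : ∑ i : Fin 4, (if i = 0 then (0 : ℝ) else ye * pa i - pe * ya i)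
      * (m 0 6 * om i k - m k 6 * om i 0)
      = (ye * pa 1 - pe * ya 1) * (m 0 6 * om 1 k - m k 6 * om 1 0)
        + (ye * pa 2 - pe * ya 2) * (m 0 6 * om 2 k - m k 6 * om 2 0)
        + (ye * pa 3 - pe * ya 3) * (m 0 6 * om 3 k - m k 6 * om 3 0) := by
    simp [Fin.sum_univ_four]
  rw [e5, hom]
  ring

theorem OmS_frame {U : Mat} {δ : ℝ} (hU : Uᴴ * U = 1) (hδ : |δ| ≤ 1/100) (ε : ℝ) (s : Fs)
    (hON : ON (hm U δ s.1.1) s.1.2) (k : Fin 4) :
    kL U δ s.1.1 s.2.1 (OmV (AL U δ ε) s.1.1 (s.1.2 0) (s.1.2 k) s.2.2)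
      = OG ε k (fun a b => sOm a b s.1) (fun a i => sM U δ a i s.1) (fun k a b => sR U δ k a b s.1)
          (fun k a b => sQ U δ k a b s.1) (cS U δ ε s) (wS U δ s) (bS U δ s) := by
  obtain ⟨⟨x, W⟩, ⟨ye, y⟩, ⟨pe, p⟩⟩ := s
  simp only at hON ⊢
  set G := hm U δ x with hG
  set R0 : V → V := fun v => (OmV (AL U δ 0) x (W 0) (W k) (0, v)).2 with hR0
  set R1 : V → V := fun v => (OmV (AL U δ 1) x (W 0) (W k) (0, v)).2 with hR1
  have hRiem : ∀ v, Riem (hm U δ) x (W 0) (W k) v
      = R0 v + (1/4 : ℝ) • (G (W k) v • W 0 - G (W 0) v • W k) := by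
    intro v
    have := OmV_T hU hδ 0 x (W 0) (W k) (0, v)
    simp only [zero_div, zero_mul, zero_smul, zero_add, add_zero] at this
    rw [hR0]
    simp only
    rw [this]
    abel
  have hGs : ∀ u v, G u v = G v u := fun u v => hm_symm hU hδ x u v
  have skew : ∀ e : ℝ, ∀ a b : Fin 4, G (W a) (OmV (AL U δ e) x (W 0) (W k) (0, W b)).2
      = - G (W b) (OmV (AL U δ e) x (W 0) (W k) (0, W a)).2 := by
    intro e a b
    have h := OmV_skew hU hδ e x (W 0) (W k) (0, W b) (0, W a)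
    rw [kL_apply, kL_apply] at h
    simp only [mul_zero, zero_mul, zero_add] at h
    rw [hGs (W a), ← hG] at *
    exact h
  have hlin : ∀ e : ℝ, (OmV (AL U δ e) x (W 0) (W k) (0, p)).2
      = ∑ b, G p (W b) • (OmV (AL U δ e) x (W 0) (W k) (0, W b)).2 := by
    intro e
    have hp : ((0 : ℝ), p) = ∑ b, G p (W b) • ((0 : ℝ), W b) := by
      ext1
      · simp [Prod.fst_sum]
      · rw [Prod.snd_sum]
        simpa using (frame_sum hU hδ hON p).symm
    conv_lhs => rw [hp]
    rw [map_sum, Prod.snd_sum]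
    refine Finset.sum_congr rfl fun b _ => ?_
    rw [map_smul]
    rfl
  have hGy : ∀ v, G y v = ∑ a, G y (W a) * G (W a) v := by
    intro v
    conv_lhs => rw [← frame_sum hU hδ hON y]
    rw [map_sum]
    simp
    rfl
  have hGR : ∀ e : ℝ, G y (OmV (AL U δ e) x (W 0) (W k) (0, p)).2
      = ∑ a, G y (W a) * ∑ b, G p (W b) * G (W a) (OmV (AL U δ e) x (W 0) (W k) (0, W b)).2 := by
    intro e
    rw [hGy]
    refine Finset.sum_congr rfl fun a _ => ?_
    rw [hlin e, map_sum]
    simp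
  have hom : ∀ v w : V, omL x v w = ∑ a, G v (W a) * omL x (W a) w := by
    intro v w
    conv_lhs => rw [← frame_sum hU hδ hON v]
    rw [map_sum]
    simp
    rfl
  have key := F5a_alg ε k ye pe (fun a => G y (W a)) (fun a => G p (W a))
    (fun a b => sOm a b (x, W)) (fun a i => sM U δ a i (x, W))
    (fun a b => G (W a) (R0 (W b))) (fun a b => G (W a) (R1 (W b)))
    (by
      have := omL_skew x (W 0) (W 0)
      simp only [sOm]
      linarith)
    (fun a b => skew 0 a b) (fun a b => skew 1 a b)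
    (fun k a b => sR U δ k a b (x, W)) (fun k a b => sQ U δ k a b (x, W))
    (by
      intro a b
      simp only [sR]
      rw [hRiem]
      rw [map_add, map_smul, map_sub, map_smul, map_smul]
      simp only [smul_eq_mul]
      rw [hON k b, hON a 0, hON 0 b, hON a k]
      simp only [eq_comm (a := (0 : Fin 4)) (b := b)]
      rfl)
    (by
      intro a b
      simp only [sQ]
      rw [map_sub])
  have hw : wS U δ ((x, W), (ye, y), (pe, p))
      = fun i => if i = 0 then 0 else ye * G p (W i) - pe * G y (W i) := by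
    funext i
    simp only [wS, hG]
  have hb : bS U δ ((x, W), (ye, y), (pe, p))
      = fun a b => G y (W a) * G p (W b) - G y (W b) * G p (W a) := by
    funext a b
    simp only [bS, hG]
  have hc : cS U δ ε ((x, W), (ye, y), (pe, p)) = ε * (ye * G p (W 0) - pe * G y (W 0)) := by
    simp only [cS, hG]
  rw [hw, hb, hc, ← key, kL_apply, OmV_e hU hδ, OmV_T hU hδ, hRiem]
  simp only [sOm, sM, ← hG]
  have e1 : G y (JJ U δ x (W k)) = - ∑ a, G y (W a) * omL x (W a) (W k) := by
    rw [hGs, hm_JJ hU hδ, omL_skew, hom]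
  have e2 : G y (JJ U δ x (W 0)) = - ∑ a, G y (W a) * omL x (W a) (W 0) := by
    rw [hGs, hm_JJ hU hδ, omL_skew, hom]
  have e3 := hGR 0
  have e4 := hGR 1
  rw [← hom p (W k), ← hom p (W 0), ← e3, ← e4]
  simp only [map_add, map_sub, map_smul, smul_eq_mul, hR0]
  rw [e1, e2]
  ring

end Pool.Agent.Helper46.M8
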