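import Pool.Agent.Helper46.M8.St.E7
import Pool.Agent.Helper46.M8.Ns

/-!
# M8, piece F5b
-/

open Filter Metric Module Set
open scoped Topology ContDiff Matrix Matrix.Norms.Elementwise ComplexConjugate

set_option maxSynthPendingDepth 3

namespace Pool.Agent.Helper46.M8
open Pool.Agent.Helper20.PC Pool.Agent.Helper20.HP Pool.Agent.Helper20.M8 Pool.Agent.Helper20.MB

/-! ### F5 : the functions in frames -/

private theorem ss4 (u v : Fin 4 → Fin 4 → ℝ) :
    ∑ a, ∑ b, ∑ d, ∑ e, u a d * v b e = (∑ a, ∑ d, u a d) * (∑ b, ∑ e, v b e) := by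
  have h : ∑ a, ∑ b, ∑ d, ∑ e, u a d * v b e = ∑ a, ∑ d, ∑ b, ∑ e, u a d * v b e :=
    Finset.sum_congr rfl fun a _ => Finset.sum_comm
  rw [h]
  simp only [← Finset.mul_sum, ← Finset.sum_mul]

private theorem quart (y p : Fin 4 → ℝ) (f : Fin 4 → Fin 4 → ℝ) :
    ∑ a, ∑ b, ∑ d, ∑ e, (y a * p b - y b * p a) * (y d * p e - y e * p d) * (f a d * f b e)
      = 2 * ((∑ a, ∑ d, y a * y d * f a d) * (∑ b, ∑ e, p b * p e * f b e)
        - (∑ a, ∑ d, y a * p d * f a d) * (∑ b, ∑ e, p b * y e * f b e)) := by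
  have e : ∀ a b d e : Fin 4, (y a * p b - y b * p a) * (y d * p e - y e * p d) * (f a d * f b e)
      = (y a * y d * f a d) * (p b * p e * f b e) - (y a * p d * f a d) * (p b * y e * f b e)
        - (p a * y d * f a d) * (y b * p e * f b e) + (p a * p d * f a d) * (y b * y e * f b e) := by
    intro a b d e; ring
  simp only [e, Finset.sum_add_distrib, Finset.sum_sub_distrib]
  rw [ss4, ss4, ss4, ss4]
  ring

private theorem bil_frame (B : V →L[ℝ] V →L[ℝ] ℝ) (Y P : Fin 4 → ℝ) (W : Fin 4 → V) :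
    B (∑ a, Y a • W a) (∑ b, P b • W b) = ∑ a, ∑ b, Y a * P b * B (W a) (W b) := by
  simp only [map_sum, map_smul, _root_.sum_apply, _root_.smul_apply, smul_eq_mul,
    Finset.mul_sum]
  rw [Finset.sum_comm]
  refine Finset.sum_congr rfl fun a _ => Finset.sum_congr rfl fun b _ => ?_
  ring

theorem SS_frame {U : Mat} {δ : ℝ} (hU : Uᴴ * U = 1) (hδ : |δ| ≤ 1/100) (ε lam : ℝ) (s : Fs)
    (hON : ON (hm U δ s.1.1) s.1.2) :
    SL U δ ε lam s.1.1 s.2.1 s.2.2 s.2.1 s.2.2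
      = SG ε lam (fun a b => sOm a b s.1) (fun a b => sF a b s.1) (fun a i => sM U δ a i s.1)
          (cS U δ ε s) (wS U δ s) (bS U δ s) := by
  obtain ⟨⟨x, W⟩, y, p⟩ := s
  simp only at hON ⊢
  set Y : Fin 4 → ℝ := fun a => hm U δ x y.2 (W a) with hY
  set P : Fin 4 → ℝ := fun a => hm U δ x p.2 (W a) with hP
  have ey : y.2 = ∑ a, Y a • W a := (frame_sum hU hδ hON y.2).symm
  have ep : p.2 = ∑ a, P a • W a := (frame_sum hU hδ hON p.2).symm
  -- the momenta
  have em : ∀ i, ∑ a, momL U δ x i (W a) * (if a = 0 then cS U δ ε ((x, W), y, p)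
      else ε * wS U δ ((x, W), y, p) a) = ε * momL U δ x i (y.1 • p.2 - p.1 • y.2) := by
    intro i
    have : y.1 • p.2 - p.1 • y.2 = ∑ a, (y.1 * P a - p.1 * Y a) • W a := by
      rw [ey, ep]
      simp only [Finset.smul_sum, smul_smul, sub_smul, Finset.sum_sub_distrib]
    rw [this, map_sum, Finset.mul_sum]
    refine Finset.sum_congr rfl fun a _ => ?_
    rw [map_smul, smul_eq_mul]
    by_cases ha : a = 0
    · subst ha
      simp only [if_true, cS, hY, hP]
      ring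
    · simp only [if_neg ha, wS, hY, hP]
      ring
  have eom : (1/2 : ℝ) * ∑ a, ∑ b, bS U δ ((x, W), y, p) a b * omL x (W a) (W b) = omL x y.2 p.2 := by
    have h1 : omL x y.2 p.2 = ∑ a, ∑ b, Y a * P b * omL x (W a) (W b) := by
      rw [ey, ep, bil_frame]
    have h2 : omL x p.2 y.2 = ∑ a, ∑ b, P a * Y b * omL x (W a) (W b) := by
      rw [ey, ep, bil_frame]
    have h3 : omL x p.2 y.2 = - omL x y.2 p.2 := omL_skew x p.2 y.2
    have h4 : ∑ a, ∑ b, bS U δ ((x, W), y, p) a b * omL x (W a) (W b)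
        = omL x y.2 p.2 - omL x p.2 y.2 := by
      rw [h1, h2, ← Finset.sum_sub_distrib]
      refine Finset.sum_congr rfl fun a _ => ?_
      rw [← Finset.sum_sub_distrib]
      refine Finset.sum_congr rfl fun b _ => ?_
      simp only [bS, hY, hP]
      ring
    rw [h4, h3]; ring
  have eq4 : ∑ a, ∑ b, ∑ d, ∑ e, bS U δ ((x, W), y, p) a b * bS U δ ((x, W), y, p) d e
      * (h0 x (W a) (W d) * h0 x (W b) (W e))
      = 2 * (h0 x y.2 y.2 * h0 x p.2 p.2 - h0 x p.2 y.2 * h0 x y.2 p.2) := by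
    have h1 : h0 x y.2 y.2 = ∑ a, ∑ b, Y a * Y b * h0 x (W a) (W b) := by
      conv_lhs => rw [ey, bil_frame]
    have h2 : h0 x p.2 p.2 = ∑ a, ∑ b, P a * P b * h0 x (W a) (W b) := by
      conv_lhs => rw [ep, bil_frame]
    have h3 : h0 x y.2 p.2 = ∑ a, ∑ b, Y a * P b * h0 x (W a) (W b) := by
      conv_lhs => rw [ey, ep, bil_frame]
    have h4 : h0 x p.2 y.2 = ∑ a, ∑ b, P a * Y b * h0 x (W a) (W b) := by
      conv_lhs => rw [ey, ep, bil_frame]
    rw [h1, h2, h3, h4]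
    have := quart Y P (fun a b => h0 x (W a) (W b))
    simp only [bS]
    rw [this]
    ring
  rw [SL_apply]
  simp only [SG, sOm, sF, sM, smul_eq_mul]
  rw [eq4, eom, em 6, ← Fsm_eq]
  simp only [em]
  have e5 : ∑ i, ∑ j, Fsm i j * (ε * momL U δ x i (y.1 • p.2 - p.1 • y.2))
      * (ε * momL U δ x j (y.1 • p.2 - p.1 • y.2))
      = ε ^ 2 * ∑ i, ∑ j, Fsm i j * (momL U δ x i (y.1 • p.2 - p.1 • y.2)
          * momL U δ x j (y.1 • p.2 - p.1 • y.2)) := by
    simp only [Finset.mul_sum]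
    refine Finset.sum_congr rfl fun i _ => Finset.sum_congr rfl fun j _ => ?_
    ring
  rw [e5]
  ring

end Pool.Agent.Helper46.M8
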