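import Pool.Agent.Helper46.M8.St.E7
import Pool.Agent.Helper46.M8.Ns

/-!
# M8, piece F6
-/

open Filter Metric Module Set
open scoped Topology ContDiff Matrix Matrix.Norms.Elementwise ComplexConjugate

set_option maxSynthPendingDepth 3

namespace Pool.Agent.Helper46.M8
open Pool.Agent.Helper20.PC Pool.Agent.Helper20.HP Pool.Agent.Helper20.M8 Pool.Agent.Helper20.MB

/-! ### F6 : the constraints and the norm -/
theorem Cns_S (U : Mat) (δ ε : ℝ) (s : Fs) : Cns ε (cS U δ ε s) (wS U δ s) (bS U δ s) := by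
  refine ⟨by simp [wS], fun a b => by simp only [bS]; ring, fun i j hi hj => ?_, ?_⟩
  · simp only [cS, wS, bS, if_neg hi, if_neg hj]
    ring
  · simp only [bS]
    ring

theorem kpp_eq {U : Mat} {δ : ℝ} (hU : Uᴴ * U = 1) (hδ : |δ| ≤ 1/100) {ε : ℝ} (hε : ε ≠ 0) (s : Fs)
    (hON : ON (hm U δ s.1.1) s.1.2) (hy : kL U δ s.1.1 s.2.1 s.2.1 = 1)
    (hyp : kL U δ s.1.1 s.2.1 s.2.2 = 0) :
    kL U δ s.1.1 s.2.2 s.2.2 = (cS U δ ε s / ε) ^ 2 + ∑ i, wS U δ s i ^ 2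
      + (1/2) * ∑ a, ∑ b, bS U δ s a b ^ 2 := by
  have key : ∀ u v : V, hm U δ s.1.1 u v =
      ∑ a, hm U δ s.1.1 u (s.1.2 a) * hm U δ s.1.1 v (s.1.2 a) := by
    intro u v
    conv_lhs => rw [← frame_sum hU hδ hON v]
    rw [map_sum]
    refine Finset.sum_congr rfl fun a _ => ?_
    rw [map_smul, smul_eq_mul, mul_comm]
  have hc : cS U δ ε s / ε = s.2.1.1 * hm U δ s.1.1 s.2.2.2 (s.1.2 0)
      - s.2.2.1 * hm U δ s.1.1 s.2.1.2 (s.1.2 0) := by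
    unfold cS
    field_simp
  rw [hc]
  rw [kL_apply, key] at hy hyp ⊢
  simp only [wS, bS, Fin.sum_univ_four, if_true, Fin.isValue, one_ne_zero, if_false,
    show (2 : Fin 4) ≠ 0 by decide, show (3 : Fin 4) ≠ 0 by decide] at hy hyp ⊢
  set ye := s.2.1.1
  set pe := s.2.2.1
  set y0 := hm U δ s.1.1 s.2.1.2 (s.1.2 0)
  set y1 := hm U δ s.1.1 s.2.1.2 (s.1.2 1)
  set y2 := hm U δ s.1.1 s.2.1.2 (s.1.2 2)
  set y3 := hm U δ s.1.1 s.2.1.2 (s.1.2 3)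
  set p0 := hm U δ s.1.1 s.2.2.2 (s.1.2 0)
  set p1 := hm U δ s.1.1 s.2.2.2 (s.1.2 1)
  set p2 := hm U δ s.1.1 s.2.2.2 (s.1.2 2)
  set p3 := hm U δ s.1.1 s.2.2.2 (s.1.2 3)
  linear_combination (-(pe * pe + (p0 * p0 + p1 * p1 + p2 * p2 + p3 * p3))) * hy +
    (ye * pe + (y0 * p0 + y1 * p1 + y2 * p2 + y3 * p3)) * hyp

end Pool.Agent.Helper46.M8
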