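import Pool.Agent.Helper46.M8.St.A13
import Pool.Agent.Helper46.M8.St.C1
import Pool.Agent.Helper46.M8.Ns

/-!
# M8, piece F7
-/

open Filter Metric Module Set
open scoped Topology ContDiff Matrix Matrix.Norms.Elementwise ComplexConjugate

set_option maxSynthPendingDepth 3

namespace Pool.Agent.Helper46.M8
open Pool.Agent.Helper20.PC Pool.Agent.Helper20.HP Pool.Agent.Helper20.M8 Pool.Agent.Helper20.MB

/-! ### F7 : compactness -/

namespace F7

/-- the compact set of `(U, δ)`. -/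
def PU : Set (Mat × ℝ) := {U : Mat | Uᴴ * U = 1} ×ˢ Icc (0 : ℝ) (1/100)

theorem isCompact_PU : IsCompact PU := isCompact_unitary.prod isCompact_Icc

theorem abs_le_of_mem {p : Mat × ℝ} (hp : p ∈ PU) : |p.2| ≤ 1/100 := by
  rw [abs_of_nonneg hp.2.1]
  exact hp.2.2

theorem contOn_hm : ContinuousOn (fun p : Mat × ℝ => hm p.1 p.2 0) PU := by
  intro p hp
  apply ContinuousAt.continuousWithinAt
  have h1 : ContDiffAt ℝ ∞ (fun q : Pm × V => hm q.1.1 q.1.2.1 q.2)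
      (((p.1, p.2, 0) : Pm), (0 : V)) := contDiffAt_hm hp.1 (abs_le_of_mem hp)
  have h2 : ContinuousAt (fun p : Mat × ℝ => ((((p.1, p.2, 0) : Pm), (0 : V)) : Pm × V)) p := by
    fun_prop
  exact ContinuousAt.comp (f := fun p : Mat × ℝ => ((((p.1, p.2, 0) : Pm), (0 : V)) : Pm × V))
    (g := fun q : Pm × V => hm q.1.1 q.1.2.1 q.2) h1.continuousAt h2

/-- uniform lower bound of the metric. -/
theorem exists_lower : ∃ c : ℝ, 0 < c ∧ ∀ p ∈ PU, ∀ v : V, c * ‖v‖ ^ 2 ≤ hm p.1 p.2 0 v v := by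
  have hK : IsCompact (PU ×ˢ sphere (0 : V) 1) := isCompact_PU.prod (isCompact_sphere _ _)
  have hc : ContinuousOn (fun q : (Mat × ℝ) × V => hm q.1.1 q.1.2 0 q.2 q.2)
      (PU ×ˢ sphere (0 : V) 1) := by
    have h1 : ContinuousOn (fun q : (Mat × ℝ) × V => hm q.1.1 q.1.2 0) (PU ×ˢ sphere (0 : V) 1) :=
      contOn_hm.comp continuous_fst.continuousOn fun q hq => hq.1
    exact (h1.clm_apply continuous_snd.continuousOn).clm_apply continuous_snd.continuousOn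
  obtain ⟨c, hc0, hcm⟩ := hK.exists_forall_le' hc (a := 0) (by
    intro q hq
    refine hm_pos hq.1.1 (abs_le_of_mem hq.1) 0 q.2 ?_
    intro h0
    have h2 := hq.2
    rw [h0, mem_sphere_zero_iff_norm, norm_zero] at h2
    exact zero_ne_one h2)
  refine ⟨c, hc0, fun p hp v => ?_⟩
  by_cases hv : v = 0
  · simp [hv]
  · have hn : 0 < ‖v‖ := norm_pos_iff.2 hv
    have h1 := hcm (p, ‖v‖⁻¹ • v) ⟨hp, by
      rw [mem_sphere_zero_iff_norm, norm_smul, norm_inv, norm_norm, inv_mul_cancel₀ hn.ne']⟩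
    have h2 : hm p.1 p.2 0 (‖v‖⁻¹ • v) (‖v‖⁻¹ • v) = (‖v‖⁻¹) ^ 2 * hm p.1 p.2 0 v v := by
      simp only [map_smul, FunLike.coe_smul, Pi.smul_apply, smul_eq_mul]
      ring
    simp only [] at h1
    rw [h2] at h1
    calc c * ‖v‖ ^ 2 ≤ (‖v‖⁻¹) ^ 2 * hm p.1 p.2 0 v v * ‖v‖ ^ 2 :=
          mul_le_mul_of_nonneg_right h1 (by positivity)
      _ = hm p.1 p.2 0 v v := by field_simp

theorem exists_radius : ∃ R : ℝ, ∀ p ∈ PU, ∀ v : V, hm p.1 p.2 0 v v = 1 → ‖v‖ ≤ R := by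
  obtain ⟨c, hc0, hc⟩ := exists_lower
  refine ⟨1 / c + 1, fun p hp v hv => ?_⟩
  have h1 := hc p hp v
  rw [hv] at h1
  have h2 : ‖v‖ ^ 2 ≤ 1 / c := by
    rw [le_div_iff₀ hc0]
    linarith
  have h3 : 0 < 1 / c := by positivity
  nlinarith [norm_nonneg v, sq_nonneg (‖v‖ - 1)]

/-- a large compact set. -/
def Big (R : ℝ) : Set Cf :=
  ({U : Mat | Uᴴ * U = 1} ×ˢ (Icc (0 : ℝ) (1/100) ×ˢ Icc (0 : ℝ) 1)) ×ˢ
    (closedBall (0 : Fin 4 → V) R ×ˢ (closedBall (0 : ℝ) 1 ×ˢ (closedBall (0 : ℝ) 1 ×ˢ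
      (closedBall (0 : Fin 4 → ℝ) 1 ×ˢ closedBall (0 : Fin 4 → Fin 4 → ℝ) 1))))

theorem isCompact_Big (R : ℝ) : IsCompact (Big R) :=
  (isCompact_unitary.prod (isCompact_Icc.prod isCompact_Icc)).prod
    ((isCompact_closedBall _ _).prod ((isCompact_closedBall _ _).prod
      ((isCompact_closedBall _ _).prod ((isCompact_closedBall _ _).prod
        (isCompact_closedBall _ _)))))

/-- the Gram matrix. -/
noncomputable def Gr (q : Cf) (a b : Fin 4) : ℝ := hm q.1.1 q.1.2.1 0 (q.2.1 a) (q.2.1 b)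

theorem contOn_Gr (R : ℝ) : ContinuousOn Gr (Big R) := by
  have h1 : ContinuousOn (fun q : Cf => hm q.1.1 q.1.2.1 0) (Big R) :=
    contOn_hm.comp (f := fun q : Cf => ((q.1.1, q.1.2.1) : Mat × ℝ)) (by fun_prop)
      fun q hq => ⟨hq.1.1, hq.1.2.1⟩
  refine continuousOn_pi.2 fun a => continuousOn_pi.2 fun b => ?_
  exact (h1.clm_apply (by fun_prop)).clm_apply (by fun_prop)

/-- the constraints which do not involve the metric. -/
def Rest : Set Cf := {q | Cns q.1.2.2 q.2.2.2.1 q.2.2.2.2.1 q.2.2.2.2.2 ∧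
  nrm q.2.2.1 q.2.2.2.1 q.2.2.2.2.1 q.2.2.2.2.2 = 1}

theorem closed_forall {X ι : Type*} [TopologicalSpace X] {P : ι → X → Prop}
    (h : ∀ i, IsClosed {x | P i x}) : IsClosed {x | ∀ i, P i x} := by
  have e : {x | ∀ i, P i x} = ⋂ i, {x | P i x} := by
    ext x
    simp
  rw [e]
  exact isClosed_iInter h

theorem closed_imp {X : Type*} [TopologicalSpace X] {p : Prop} {P : X → Prop}
    (h : IsClosed {x | P x}) : IsClosed {x | p → P x} := by
  by_cases hp : p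
  · simpa [hp] using h
  · simp [hp]

theorem isClosed_Rest : IsClosed Rest := by
  unfold Rest Cns nrm
  refine IsClosed.inter (IsClosed.inter ?_ (IsClosed.inter ?_ (IsClosed.inter ?_ ?_))) ?_
  · exact isClosed_eq (by fun_prop) continuous_const
  · exact closed_forall fun a => closed_forall fun b => isClosed_eq (by fun_prop) (by fun_prop)
  · exact closed_forall fun a => closed_forall fun b => closed_imp (closed_imp
      (isClosed_eq (by fun_prop) (by fun_prop)))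
  · exact isClosed_eq (by fun_prop) continuous_const
  · exact isClosed_eq (by fun_prop) continuous_const

theorem abs_le_one_of_sq {x : ℝ} (h : x ^ 2 ≤ 1) : ‖x‖ ≤ 1 := by
  rw [Real.norm_eq_abs]
  exact sq_le_one_iff_abs_le_one x |>.1 h

theorem Kc_eq {R : ℝ} (hR : ∀ p ∈ PU, ∀ v : V, hm p.1 p.2 0 v v = 1 → ‖v‖ ≤ R) :
    Kc = (Big R ∩ Gr ⁻¹' {fun a b => if a = b then 1 else 0}) ∩ Rest := by
  ext q
  constructor
  · rintro ⟨h1, h2, h3, h4, h5, h6, h7, h8⟩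
    have hR' : 0 ≤ R := by
      have h60 := h6 0 0
      rw [if_pos rfl] at h60
      exact (norm_nonneg _).trans (hR (q.1.1, q.1.2.1) ⟨h1, h2, h3⟩ (q.2.1 0) h60)
    have h8' := h8
    unfold nrm at h8'
    have hw0 : 0 ≤ ∑ i, q.2.2.2.2.1 i ^ 2 := Finset.sum_nonneg fun i _ => sq_nonneg _
    have hb0 : 0 ≤ ∑ a, ∑ b, q.2.2.2.2.2 a b ^ 2 :=
      Finset.sum_nonneg fun a _ => Finset.sum_nonneg fun b _ => sq_nonneg _
    refine ⟨⟨⟨⟨h1, ⟨h2, h3⟩, h4, h5⟩, ?_, ?_, ?_, ?_, ?_⟩, ?_⟩, h7, h8⟩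
    · rw [mem_closedBall_zero_iff, pi_norm_le_iff_of_nonneg hR']
      intro a
      have h6a := h6 a a
      rw [if_pos rfl] at h6a
      exact hR (q.1.1, q.1.2.1) ⟨h1, h2, h3⟩ (q.2.1 a) h6a
    · rw [mem_closedBall_zero_iff]
      apply abs_le_one_of_sq
      nlinarith [sq_nonneg q.2.2.2.1]
    · rw [mem_closedBall_zero_iff]
      apply abs_le_one_of_sq
      nlinarith [sq_nonneg q.2.2.1]
    · rw [mem_closedBall_zero_iff, pi_norm_le_iff_of_nonneg zero_le_one]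
      intro i
      apply abs_le_one_of_sq
      have : q.2.2.2.2.1 i ^ 2 ≤ ∑ i, q.2.2.2.2.1 i ^ 2 :=
        Finset.single_le_sum (f := fun i => q.2.2.2.2.1 i ^ 2) (fun i _ => sq_nonneg _)
          (Finset.mem_univ i)
      nlinarith [sq_nonneg q.2.2.2.1, sq_nonneg q.2.2.1]
    · rw [mem_closedBall_zero_iff, pi_norm_le_iff_of_nonneg zero_le_one]
      intro a
      rw [pi_norm_le_iff_of_nonneg zero_le_one]
      intro b
      apply abs_le_one_of_sq
      have e1 : q.2.2.2.2.2 a b ^ 2 ≤ ∑ b, q.2.2.2.2.2 a b ^ 2 :=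
        Finset.single_le_sum (f := fun b => q.2.2.2.2.2 a b ^ 2) (fun i _ => sq_nonneg _)
          (Finset.mem_univ b)
      have e2 : ∑ b, q.2.2.2.2.2 a b ^ 2 ≤ ∑ a, ∑ b, q.2.2.2.2.2 a b ^ 2 :=
        Finset.single_le_sum (f := fun a => ∑ b, q.2.2.2.2.2 a b ^ 2)
          (fun i _ => Finset.sum_nonneg fun b _ => sq_nonneg _) (Finset.mem_univ a)
      nlinarith [sq_nonneg q.2.2.2.1, sq_nonneg q.2.2.1]
    · simp only [mem_preimage, mem_singleton_iff]
      funext a b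
      exact h6 a b
  · rintro ⟨⟨⟨⟨h1, ⟨h2, h3⟩, h4, h5⟩, -⟩, h6⟩, h7, h8⟩
    refine ⟨h1, h2, h3, h4, h5, ?_, h7, h8⟩
    intro a b
    exact congrFun (congrFun h6 a) b

end F7

open F7

theorem isCompact_Kc : IsCompact Kc := by
  obtain ⟨R, hR⟩ := exists_radius
  rw [Kc_eq hR]
  have hB := isCompact_Big R
  have h1 : IsClosed (Big R ∩ Gr ⁻¹' {fun a b => if a = b then 1 else 0}) :=
    (contOn_Gr R).preimage_isClosed_of_isClosed hB.isClosed isClosed_singleton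
  exact hB.of_isClosed_subset (h1.inter isClosed_Rest) fun q hq => hq.1.1

end Pool.Agent.Helper46.M8
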