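import Pool.Agent.Helper46.M8.St.B3
import Pool.Agent.Helper46.M8.St.F1
import Pool.Agent.Helper46.M8.St.F2
import Pool.Agent.Helper46.M8.St.F3
import Pool.Agent.Helper46.M8.St.F7
import Pool.Agent.Helper46.M8.Ns

/-!
# M8, piece G1
-/

open Filter Metric Module Set
open scoped Topology ContDiff Matrix Matrix.Norms.Elementwise ComplexConjugate

set_option maxSynthPendingDepth 3

namespace Pool.Agent.Helper46.M8
open Pool.Agent.Helper20.PC Pool.Agent.Helper20.HP Pool.Agent.Helper20.M8 Pool.Agent.Helper20.MB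

private def CJ {X : Type*} [TopologicalSpace X] (j : X → J2) : Prop :=
  Continuous (fun x => (j x).a) ∧ Continuous (fun x => (j x).b) ∧ Continuous (fun x => (j x).c)

section
variable {X : Type*} [TopologicalSpace X] {j k : X → J2}

private lemma CJ.add (hj : CJ j) (hk : CJ k) : CJ (fun x => j x + k x) :=
  ⟨hj.1.add hk.1, hj.2.1.add hk.2.1, hj.2.2.add hk.2.2⟩
private lemma CJ.sub (hj : CJ j) (hk : CJ k) : CJ (fun x => j x - k x) :=
  ⟨hj.1.sub hk.1, hj.2.1.sub hk.2.1, hj.2.2.sub hk.2.2⟩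
private lemma CJ.neg (hj : CJ j) : CJ (fun x => - j x) :=
  ⟨hj.1.neg, hj.2.1.neg, hj.2.2.neg⟩
private lemma CJ.mul (hj : CJ j) (hk : CJ k) : CJ (fun x => j x * k x) :=
  ⟨hj.1.mul hk.1, (hj.1.mul hk.2.1).add (hj.2.1.mul hk.1),
    ((hj.1.mul hk.2.2).add (continuous_const.mul (hj.2.1.mul hk.2.1))).add (hj.2.2.mul hk.1)⟩
private lemma CJ.sq (hj : CJ j) : CJ (fun x => j x ^ 2) := by
  simp only [pow_two]; exact hj.mul hj
private lemma CJ.const (r : J2) : CJ (fun _ : X => r) :=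
  ⟨continuous_const, continuous_const, continuous_const⟩

private lemma CJ.Ex {y : X → Fin 8 → J2} (h : ∀ i, CJ (fun x => y x i)) (i : Fin 8) :
    CJ (fun x => Ex (y x) i) := by
  fin_cases i <;> simp [M8.Ex] <;>
    repeat' first | exact h _ | apply CJ.add | apply CJ.sub | apply CJ.neg | apply CJ.mul |
      apply CJ.sq | exact CJ.const _

private lemma CJ.Fx {y : X → Fin 8 → J2} (h : ∀ i, CJ (fun x => y x i)) :
    CJ (fun x => Fx (y x)) := by
  unfold M8.Fx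
  repeat' first | exact h _ | apply CJ.add | apply CJ.sub | apply CJ.neg | apply CJ.mul |
      apply CJ.sq | exact CJ.const _
end

private lemma continuous_Exr (i : Fin 8) : Continuous (fun x : Fin 8 → ℝ => Ex x i) := by
  fin_cases i <;> simp [Ex] <;> fun_prop

private lemma continuous_PhiDD : Continuous PhiDD := by
  unfold PhiDD
  refine (CJ.Fx (X := Fin 8 → ℝ) (y := fun x i => ⟨x i, Ex x i,
    (Ex (R := J2) (fun j => ⟨x j, Ex x j, 0⟩) i).b⟩) fun i => ⟨continuous_apply i, continuous_Exr i, ?_⟩).2.2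
  exact (CJ.Ex (X := Fin 8 → ℝ) (y := fun x j => ⟨x j, Ex x j, 0⟩)
    (fun j => ⟨continuous_apply j, continuous_Exr j, continuous_const⟩) i).2.1

private lemma continuous_xc : Continuous (fun m : Fin 8 → ℝ => xc m) := by
  refine continuous_pi fun i => ?_
  by_cases h : i = 7
  · simp only [xc, h, if_true]
    fun_prop
  · simp only [xc, h, if_false]
    fun_prop

private lemma continuousOn_mom (i : Fin 8) :
    ContinuousOn (fun q : Cf => momL q.1.1 q.1.2.1 0 i (q.2.1 0))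
      {q : Cf | q.1.1ᴴ * q.1.1 = 1 ∧ |q.1.2.1| ≤ 1/100} := by
  intro q hq
  refine ContinuousAt.continuousWithinAt ?_
  have h1 : ContinuousAt (fun p : Pm × V => momL p.1.1 p.1.2.1 p.2 i) (q.1, 0) :=
    (contDiffAt_momL (q := (q.1, (0 : V))) hq.1 hq.2 i).continuousAt
  have h2 : ContinuousAt (fun q : Cf => ((q.1, (0 : V)) : Pm × V)) q := by fun_prop
  have h3 : ContinuousAt (fun q : Cf => momL q.1.1 q.1.2.1 0 i) q :=
    ContinuousAt.comp (f := fun q : Cf => ((q.1, (0 : V)) : Pm × V))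
      (g := fun p : Pm × V => momL p.1.1 p.1.2.1 p.2 i) h1 h2
  exact h3.clm_apply (by fun_prop)

private noncomputable def ff (κ : ℝ) (q : Cf) : ℝ :=
  TFp 0 q + (κ/2) * q.2.2.2.1 ^ 2 * PhiDD (xc (fun i => momL q.1.1 q.1.2.1 0 i (q.2.1 0)))

private lemma continuousOn_ff (κ : ℝ) :
    ContinuousOn (ff κ) {q : Cf | q.1.1ᴴ * q.1.1 = 1 ∧ |q.1.2.1| ≤ 1/100} := by
  have h1 : ContinuousOn (fun q : Cf => fun i => momL q.1.1 q.1.2.1 0 i (q.2.1 0))
      {q : Cf | q.1.1ᴴ * q.1.1 = 1 ∧ |q.1.2.1| ≤ 1/100} :=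
    continuousOn_pi.2 continuousOn_mom
  have h2 := (continuous_PhiDD.comp continuous_xc).comp_continuousOn h1
  refine (continuousOn_TFp 0).add (ContinuousOn.mul ?_ h2)
  exact Continuous.continuousOn (by fun_prop)

private lemma Kc_sub : Kc ⊆ {q : Cf | q.1.1ᴴ * q.1.1 = 1 ∧ |q.1.2.1| ≤ 1/100} := by
  intro q hq
  obtain ⟨h1, h2, h3, -⟩ := hq
  refine ⟨h1, ?_⟩
  rw [abs_of_nonneg h2]
  exact h3

/-! ### G1 : existence of the parameters -/
/-- positivity for `ε = 0` and small `δ`. -/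
theorem exists_delta : ∃ δ lam : ℝ, 0 < δ ∧ δ ≤ 1/100 ∧
    ∀ q ∈ Kc, q.1.2.1 = δ → q.1.2.2 = 0 → 0 < TFp lam q := by
  obtain ⟨κ, hκ, hκ'⟩ := exists_kappa
  set K : Set Cf := Kc ∩ {q | q.1.2.2 = 0} with hK
  have hKc : IsCompact K :=
    isCompact_Kc.inter_right (isClosed_eq (by fun_prop) continuous_const)
  have hKs : K ⊆ {q : Cf | q.1.1ᴴ * q.1.1 = 1 ∧ |q.1.2.1| ≤ 1/100} :=
    inter_subset_left.trans Kc_sub
  obtain ⟨t, ht, h⟩ := compact_param hKc ((continuousOn_ff κ).mono hKs)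
    (g := fun q : Cf => q.1.2.1) (Continuous.continuousOn (by fun_prop))
    (fun q hq => hq.1.2.1) (by
      rintro ⟨⟨U, δ, ε⟩, W, u, c, w, β⟩ ⟨⟨h1, h2, h3, h4, h5, h6, h7, h8⟩, h9⟩ h10
      have h9' : ε = 0 := h9
      have h10' : δ = 0 := h10
      subst h9' h10'
      have hW : ON (h0 0) W := by
        have : ON (hm U 0 0) W := h6
        rwa [hm_zero h1] at this
      have hn : nrm u c w β ≠ 0 := by
        have : nrm u c w β = 1 := h8
        rw [this]; exact one_ne_zero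
      exact limit_pos hκ' h1 hW h7 hn)
  have hδ : 0 < min t (1/100) := lt_min ht (by norm_num)
  refine ⟨min t (1/100), κ / (min t (1/100)) ^ 2, hδ, min_le_right _ _, ?_⟩
  rintro ⟨⟨U, δ, ε⟩, W, u, c, w, β⟩ hq h9 h10
  have h9' : δ = min t (1/100) := h9
  have hpos := h ⟨⟨U, δ, ε⟩, W, u, c, w, β⟩ ⟨hq, h10⟩ (h9'.le.trans (min_le_left _ _))
  simp only at h9 h10
  rw [← h9] at hδ ⊢
  subst h10
  obtain ⟨h1, h2, h3, -⟩ := hq
  have hδ' : |δ| ≤ 1/100 := by
    rw [abs_of_nonneg h2]; exact h3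
  have e : TFp (κ / δ ^ 2) ⟨⟨U, δ, 0⟩, W, u, c, w, β⟩ = ff κ ⟨⟨U, δ, 0⟩, W, u, c, w, β⟩ := by
    simp only [TFp, TF, ff]
    rw [Tj_lam, F_jet h1 hδ']
    simp only [sM]
    field_simp
  rw [e]
  exact hpos

/-- positivity for small `ε`. -/
theorem exists_eps : ∃ δ ε lam : ℝ, 0 < δ ∧ δ ≤ 1/100 ∧ 0 < ε ∧ ε ≤ 1 ∧
    ∀ q ∈ Kc, q.1.2.1 = δ → q.1.2.2 = ε → 0 < TFp lam q := by
  obtain ⟨δ, lam, hδ, hδ', hq⟩ := exists_delta
  set K : Set Cf := Kc ∩ {q | q.1.2.1 = δ} with hK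
  have hKc : IsCompact K :=
    isCompact_Kc.inter_right (isClosed_eq (by fun_prop) continuous_const)
  have hKs : K ⊆ {q : Cf | q.1.1ᴴ * q.1.1 = 1 ∧ |q.1.2.1| ≤ 1/100} :=
    inter_subset_left.trans Kc_sub
  obtain ⟨t, ht, h⟩ := compact_param hKc ((continuousOn_TFp lam).mono hKs)
    (g := fun q : Cf => q.1.2.2) (Continuous.continuousOn (by fun_prop))
    (fun q hq => hq.1.2.2.2.1) (fun q hK h0 => hq q hK.1 hK.2 h0)
  refine ⟨δ, min t 1, lam, hδ, hδ', lt_min ht one_pos, min_le_right _ _, fun q hK h1 h2 => ?_⟩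
  exact h q ⟨hK, h1⟩ (by rw [h2]; exact min_le_left _ _)

end Pool.Agent.Helper46.M8
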