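import Pool.Agent.Helper46.M8.St.A10
import Pool.Agent.Helper46.M8.St.A11
import Pool.Agent.Helper46.M8.St.E2a
import Pool.Agent.Helper46.M8.St.F4
import Pool.Agent.Helper46.M8.Ns

/-!
# M8, piece G2a
-/

open Filter Metric Module Set
open scoped Topology ContDiff Matrix Matrix.Norms.Elementwise ComplexConjugate

set_option maxSynthPendingDepth 3

namespace Pool.Agent.Helper46.M8
open Pool.Agent.Helper20.PC Pool.Agent.Helper20.HP Pool.Agent.Helper20.M8 Pool.Agent.Helper20.MB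

/-! ### G2 : (T) in frames -/
/-- jets of `c, w, β`. -/
theorem hasJet_S {U : Mat} {δ : ℝ} (hU : Uᴴ * U = 1) (hδ : |δ| ≤ 1/100) (ε : ℝ) {γ : ℝ → Fs}
    (hγ : ∀ᶠ t in 𝓝 (0 : ℝ), HasDerivAt γ (XB U δ ε (γ t)) t)
    (h0 : ON (hm U δ (γ 0).1.1) (γ 0).1.2) :
    let jth := jetF (XF U δ) (sM U δ 0 6) (γ 0).1
    let jom : Fin 4 → Fin 4 → J2 := fun a b => jetF (XF U δ) (sOm a b) (γ 0).1
    HasJet (fun t => cS U δ ε (γ t))
      (jc ε jth jom (cS U δ ε (γ 0)) (wS U δ (γ 0)) (bS U δ (γ 0))) ∧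
    (∀ i, HasJet (fun t => wS U δ (γ t) i)
      (jw ε jth jom (cS U δ ε (γ 0)) (wS U δ (γ 0)) (bS U δ (γ 0)) i)) ∧
    ∀ a b, HasJet (fun t => bS U δ (γ t) a b)
      (jβ ε jth jom (cS U δ ε (γ 0)) (wS U δ (γ 0)) (bS U δ (γ 0)) a b) := by
  intro jth jom
  have h2 : ContDiffAt ℝ ∞ (fun s : Fr => ((((U, δ, ε) : Pm), s) : Pm × Fr)) (γ 0).1 :=
    contDiffAt_const.prodMk contDiffAt_id
  have hX : ContDiffAt ℝ ∞ (XF U δ) (γ 0).1 :=
    (contDiffAt_XF (q := (((U, δ, ε) : Pm), (γ 0).1)) hU hδ).comp (γ 0).1 h2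
  have hM : ContDiffAt ℝ ∞ (sM U δ 0 6) (γ 0).1 :=
    (contDiffAt_sM (q := (((U, δ, ε) : Pm), (γ 0).1)) hU hδ 0 6).comp (γ 0).1 h2
  have hγ1 : ∀ᶠ t in 𝓝 (0 : ℝ), HasDerivAt (fun t => (γ t).1) (XF U δ (γ t).1) t := by
    filter_upwards [hγ] with t ht
    exact (hasFDerivAt_fst (𝕜 := ℝ) (p := γ t)).comp_hasDerivAt t ht
  have hON := curve_ON hU hδ ε hγ h0
  refine hasJet_cwb ε (fun t => sM U δ 0 6 (γ t).1) (fun t a b => sOm a b (γ t).1)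
    (fun t => cS U δ ε (γ t)) (fun t => wS U δ (γ t)) (fun t => bS U δ (γ t)) jth jom
    (hasJet_curve hX hM rfl hγ1)
    (fun a b => hasJet_curve hX (contDiff_sOm a b).contDiffAt rfl hγ1) ?_ ?_ ?_
  · filter_upwards [hγ, hON] with t h1 h2
    exact deriv_cS hU hδ ε h1 h2
  · filter_upwards [hγ, hON] with t h1 h2 i
    exact deriv_wS hU hδ ε h1 h2 i
  · filter_upwards [hγ, hON] with t h1 h2 a b
    exact deriv_bS hU hδ ε h1 h2 a b

end Pool.Agent.Helper46.M8
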