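import Pool.Agent.Helper46.M8.St.D1
import Pool.Agent.Helper46.M8.Ns

/-!
# M8, piece G2b
-/

open Filter Metric Module Set
open scoped Topology ContDiff Matrix Matrix.Norms.Elementwise ComplexConjugate

set_option maxSynthPendingDepth 3

namespace Pool.Agent.Helper46.M8
open Pool.Agent.Helper20.PC Pool.Agent.Helper20.HP Pool.Agent.Helper20.M8 Pool.Agent.Helper20.MB

/-! ### G2 : (T) in frames -/
private lemma G2b_fst {E F : Type*} [NormedAddCommGroup E] [NormedSpace ℝ E]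
    [NormedAddCommGroup F] [NormedSpace ℝ F] {f : ℝ → E × F} {f' : E × F} {t : ℝ}
    (h : HasDerivAt f f' t) : HasDerivAt (fun t => (f t).1) f'.1 t :=
  (hasFDerivAt_fst (𝕜 := ℝ) (p := f t)).comp_hasDerivAt t h

private lemma G2b_snd {E F : Type*} [NormedAddCommGroup E] [NormedSpace ℝ E]
    [NormedAddCommGroup F] [NormedSpace ℝ F] {f : ℝ → E × F} {f' : E × F} {t : ℝ}
    (h : HasDerivAt f f' t) : HasDerivAt (fun t => (f t).2) f'.2 t :=
  (hasFDerivAt_snd (𝕜 := ℝ) (p := f t)).comp_hasDerivAt t h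

/-- integral curves of `XB` give integral curves of the spray `Xs`. -/
theorem curve_Xs {U : Mat} {δ : ℝ} (hU : Uᴴ * U = 1) (hδ : |δ| ≤ 1/100) (ε lam u : ℝ) {γ : ℝ → Fs} {t : ℝ}
    (hγ : HasDerivAt γ (XB U δ ε (γ t)) t) :
    HasDerivAt (fun t => (((γ t).1.1, (γ t).1.2 0, u • (γ t).1.2 1, (γ t).2.1, (γ t).2.2, (γ t).2.1,
      (γ t).2.2) : St V Yf)) ((Dd U δ ε lam).Xs ((γ t).1.1, (γ t).1.2 0, u • (γ t).1.2 1, (γ t).2.1,
      (γ t).2.2, (γ t).2.1, (γ t).2.2)) t := by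
  have hG : ∀ u' v, Gam (hm U δ) (γ t).1.1 u' v = GamL (hm U δ) (γ t).1.1 u' v := fun u' v =>
    (Gam_eq_near (q := (((U, δ, ε) : Pm), (γ t).1.1)) hU hδ).self_of_nhds u' v
  have h1 := G2b_fst hγ
  have h2 := G2b_snd hγ
  have hx : HasDerivAt (fun t => (γ t).1.1) ((γ t).1.2 0) t := G2b_fst h1
  have hW : HasDerivAt (fun t => (γ t).1.2)
      (fun a => - Gam (hm U δ) (γ t).1.1 ((γ t).1.2 0) ((γ t).1.2 a)) t := G2b_snd h1
  have hWa := hasDerivAt_pi.1 hW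
  have hy : HasDerivAt (fun t => (γ t).2.1)
      (- AL U δ ε (γ t).1.1 ((γ t).1.2 0) (γ t).2.1) t := G2b_fst h2
  have hp : HasDerivAt (fun t => (γ t).2.2)
      (- AL U δ ε (γ t).1.1 ((γ t).1.2 0) (γ t).2.2) t := G2b_snd h2
  have hu : HasDerivAt (fun t => u • (γ t).1.2 1)
      (- Gam (hm U δ) (γ t).1.1 ((γ t).1.2 0) (u • (γ t).1.2 1)) t := by
    refine ((hWa 1).const_smul u).congr_deriv ?_
    rw [hG, hG, map_smul, smul_neg]
  exact hx.prodMk ((hWa 0).prodMk (hu.prodMk (hy.prodMk (hp.prodMk (hy.prodMk hp)))))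

end Pool.Agent.Helper46.M8
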