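import Pool.Agent.Helper46.M8.St.D1
import Pool.Agent.Helper46.M8.St.D2
import Pool.Agent.Helper46.M8.Ns

/-!
# M8, piece G2c
-/

open Filter Metric Module Set
open scoped Topology ContDiff Matrix Matrix.Norms.Elementwise ComplexConjugate

set_option maxSynthPendingDepth 3

namespace Pool.Agent.Helper46.M8
open Pool.Agent.Helper20.PC Pool.Agent.Helper20.HP Pool.Agent.Helper20.M8 Pool.Agent.Helper20.MB

/-- composition, in the form `fun x => g (f x)`. -/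
private lemma g2c_cmp {E F G : Type*} [NormedAddCommGroup E] [NormedSpace ℝ E]
    [NormedAddCommGroup F] [NormedSpace ℝ F] [NormedAddCommGroup G] [NormedSpace ℝ G]
    {g : F → G} {f : E → F} {x : E} (hg : ContDiffAt ℝ ∞ g (f x)) (hf : ContDiffAt ℝ ∞ f x) :
    ContDiffAt ℝ ∞ (fun x => g (f x)) x := hg.comp x hf

private lemma g2c_data {U : Mat} {δ : ℝ} (hU : Uᴴ * U = 1) (hδ : |δ| ≤ 1/100) (ε lam : ℝ) (x : V) :
    ContDiffAt ℝ ∞ (fun x => AL U δ ε x) x ∧ ContDiffAt ℝ ∞ (fun x => GamL (hm U δ) x) x ∧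
      ContDiffAt ℝ ∞ (fun x => kL U δ x) x ∧
      @ContDiffAt ℝ _ V _ _ (Yf →L[ℝ] Yf →L[ℝ] Yf →L[ℝ] Yf →L[ℝ] ℝ) (ngk4 Yf) (nsk4 Yf) ∞
        (fun x => SL U δ ε lam x) x ∧
      ∀ᶠ x' in 𝓝 x, ∀ u v, Gam (hm U δ) x' u v = GamL (hm U δ) x' u v := by
  have hφ0 : ContDiffAt ℝ ∞ (fun x : V => (((U, δ, ε) : Pm), x)) x :=
    contDiffAt_const.prodMk contDiffAt_id
  refine ⟨?_, ?_, ?_, ?_, ?_⟩
  · exact g2c_cmp (g := fun q : Pm × V => AL q.1.1 q.1.2.1 q.1.2.2 q.2)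
      (f := fun x : V => (((U, δ, ε) : Pm), x))
      (contDiffAt_AL (q := (((U, δ, ε) : Pm), x)) hU hδ) hφ0
  · exact g2c_cmp (g := fun q : Pm × V => GamL (hm q.1.1 q.1.2.1) q.2)
      (f := fun x : V => (((U, δ, ε) : Pm), x))
      (contDiffAt_GamL (q := (((U, δ, ε) : Pm), x)) hU hδ) hφ0
  · exact g2c_cmp (g := fun q : Pm × V => kL q.1.1 q.1.2.1 q.2)
      (f := fun x : V => (((U, δ, ε) : Pm), x))
      (contDiffAt_kL (q := (((U, δ, ε) : Pm), x)) hU hδ) hφ0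
  · exact g2c_cmp (g := fun q : Pm × V => SL q.1.1 q.1.2.1 q.1.2.2 lam q.2)
      (f := fun x : V => (((U, δ, ε) : Pm), x))
      (contDiffAt_SL lam (q := (((U, δ, ε) : Pm), x)) hU hδ) hφ0
  · exact hφ0.continuousAt.eventually (Gam_eq_near (q := (((U, δ, ε) : Pm), x)) hU hδ)

section gen
variable {W Y : Type*} [NormedAddCommGroup W] [NormedSpace ℝ W] [NormedAddCommGroup Y]
  [NormedSpace ℝ Y]

private lemma g2c_gen (D : BD W Y) (Gg : W → W →L[ℝ] W →L[ℝ] W) (s : St W Y)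
    (hA0 : ContDiffAt ℝ ∞ D.A s.1) (hG0 : ContDiffAt ℝ ∞ Gg s.1) (hk0 : ContDiffAt ℝ ∞ D.k s.1)
    (hS0 : @ContDiffAt ℝ _ W _ _ (Y →L[ℝ] Y →L[ℝ] Y →L[ℝ] Y →L[ℝ] ℝ) (ngk4 Y) (nsk4 Y) ∞ D.S s.1)
    (hGam0 : ∀ᶠ x' in 𝓝 s.1, ∀ u v, Gam D.h x' u v = Gg x' u v) :
    ContDiffAt ℝ ∞ D.Xs s ∧ ContDiffAt ℝ ∞ D.OmS s ∧ ContDiffAt ℝ ∞ D.SS s := by
  -- the components of the state
  have c1 : ContDiffAt ℝ ∞ (fun s : St W Y => s.1) s := contDiffAt_fst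
  have c2 : ContDiffAt ℝ ∞ (fun s : St W Y => s.2.1) s := by fun_prop
  have c3 : ContDiffAt ℝ ∞ (fun s : St W Y => s.2.2.1) s := by fun_prop
  have c4 : ContDiffAt ℝ ∞ (fun s : St W Y => s.2.2.2.1) s := by fun_prop
  have c5 : ContDiffAt ℝ ∞ (fun s : St W Y => s.2.2.2.2.1) s := by fun_prop
  have c6 : ContDiffAt ℝ ∞ (fun s : St W Y => s.2.2.2.2.2.1) s := by fun_prop
  have c7 : ContDiffAt ℝ ∞ (fun s : St W Y => s.2.2.2.2.2.2) s := by fun_prop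
  -- the data
  have hA : ContDiffAt ℝ ∞ (fun s : St W Y => D.A s.1) s := hA0.comp s c1
  have hdA : ContDiffAt ℝ ∞ (fun s : St W Y => fderiv ℝ D.A s.1) s :=
    (hA0.fderiv_right (m := ∞) (by norm_cast)).comp s c1
  have hG : ContDiffAt ℝ ∞ (fun s : St W Y => Gg s.1) s := hG0.comp s c1
  have hk : ContDiffAt ℝ ∞ (fun s : St W Y => D.k s.1) s := hk0.comp s c1
  have hS : @ContDiffAt ℝ _ (St W Y) _ _ (Y →L[ℝ] Y →L[ℝ] Y →L[ℝ] Y →L[ℝ] ℝ) (ngk4 Y) (nsk4 Y) ∞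
      (fun s : St W Y => D.S s.1) s := hS0.comp s c1
  have hGam : ∀ᶠ s' : St W Y in 𝓝 s, ∀ u v, Gam D.h s'.1 u v = Gg s'.1 u v :=
    c1.continuousAt.eventually hGam0
  have hGa : ∀ {f g : St W Y → W}, ContDiffAt ℝ ∞ f s → ContDiffAt ℝ ∞ g s →
      ContDiffAt ℝ ∞ (fun s : St W Y => - Gam D.h s.1 (f s) (g s)) s := by
    intro f g hf hg
    refine ((hG.clm_apply hf).clm_apply hg).neg.congr_of_eventuallyEq ?_
    filter_upwards [hGam] with s' hs'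
    rw [hs']
  have hAa : ∀ {g : St W Y → Y}, ContDiffAt ℝ ∞ g s →
      ContDiffAt ℝ ∞ (fun s : St W Y => - D.A s.1 s.2.1 (g s)) s := fun hg =>
    ((hA.clm_apply c2).clm_apply hg).neg
  refine ⟨?_, ?_, ?_⟩
  · exact c2.prodMk ((hGa c2 c2).prodMk ((hGa c2 c3).prodMk ((hAa c4).prodMk ((hAa c5).prodMk
      ((hAa c6).prodMk (hAa c7))))))
  · have hOm : ContDiffAt ℝ ∞ (fun s : St W Y => OmV D.A s.1 s.2.1 s.2.2.1) s :=
      ((((hdA.clm_apply c2).clm_apply c3).sub ((hdA.clm_apply c3).clm_apply c2)).add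
        ((hA.clm_apply c2).clm_comp (hA.clm_apply c3))).sub
        ((hA.clm_apply c3).clm_comp (hA.clm_apply c2))
    exact (hk.clm_apply c4).clm_apply (hOm.clm_apply c5)
  · exact (((hS.clm_apply c4).clm_apply c5).clm_apply c6).clm_apply c7

end gen

/-! ### G2 : (T) in frames -/
/-- smoothness of the spray and of the functions on the states. -/
theorem contDiffAt_Xs {U : Mat} {δ : ℝ} (hU : Uᴴ * U = 1) (hδ : |δ| ≤ 1/100) (ε lam : ℝ) (s : St V Yf) :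
    ContDiffAt ℝ ∞ (Dd U δ ε lam).Xs s ∧ ContDiffAt ℝ ∞ (Dd U δ ε lam).OmS s ∧
      ContDiffAt ℝ ∞ (Dd U δ ε lam).SS s := by
  obtain ⟨h1, h2, h3, h4, h5⟩ := g2c_data hU hδ ε lam s.1
  exact g2c_gen (Dd U δ ε lam) (fun x => GamL (hm U δ) x) s h1 h2 h3 h4 h5

end Pool.Agent.Helper46.M8
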