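import Pool.Agent.Helper46.M8.St.A12
import Pool.Agent.Helper46.M8.St.E2b
import Pool.Agent.Helper46.M8.St.F5a
import Pool.Agent.Helper46.M8.St.F5b
import Pool.Agent.Helper46.M8.St.G2a
import Pool.Agent.Helper46.M8.St.G2b
import Pool.Agent.Helper46.M8.St.G2c
import Pool.Agent.Helper93.HP.P4
import Pool.Agent.Helper46.M8.Ns

/-!
# M8, piece H1
-/

open Filter Metric Module Set
open scoped Topology ContDiff Matrix Matrix.Norms.Elementwise ComplexConjugate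

set_option maxSynthPendingDepth 3

namespace Pool.Agent.Helper46.M8
open Pool.Agent.Helper20.PC Pool.Agent.Helper20.HP Pool.Agent.Helper20.M8 Pool.Agent.Helper20.MB

/-! ### H1 : the quantity (T) in frames -/
private lemma fixp {E : Type*} [NormedAddCommGroup E] [NormedSpace ℝ E] {g : Pm × Fr → E} {U : Mat} {δ : ℝ} {s : Fr}
    (h : ContDiffAt ℝ ∞ g (((U, δ, 0) : Pm), s)) : ContDiffAt ℝ ∞ (fun s' : Fr => g (((U, δ, 0) : Pm), s')) s :=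
  ContDiffAt.comp (g := g) (f := fun s' : Fr => ((((U, δ, 0) : Pm), s') : Pm × Fr)) s h (contDiffAt_const.prodMk contDiffAt_id)

private lemma j1 {U : Mat} {δ : ℝ} (hU : Uᴴ * U = 1) (hδ : |δ| ≤ 1/100) (s : Fr) :
    ContDiffAt ℝ ∞ (XF U δ) s :=
  fixp (g := fun q : Pm × Fr => XF q.1.1 q.1.2.1 q.2) (contDiffAt_XF (q := (((U, δ, 0) : Pm), s)) hU hδ)

private lemma j2 {U : Mat} {δ : ℝ} (hU : Uᴴ * U = 1) (hδ : |δ| ≤ 1/100) (s : Fr) (a : Fin 4) (i : Fin 8) :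
    ContDiffAt ℝ ∞ (sM U δ a i) s :=
  fixp (g := fun q : Pm × Fr => sM q.1.1 q.1.2.1 a i q.2) (contDiffAt_sM (q := (((U, δ, 0) : Pm), s)) hU hδ a i)

private lemma j3 {U : Mat} {δ : ℝ} (hU : Uᴴ * U = 1) (hδ : |δ| ≤ 1/100) (s : Fr) (k a b : Fin 4) :
    ContDiffAt ℝ ∞ (sR U δ k a b) s :=
  fixp (g := fun q : Pm × Fr => sR q.1.1 q.1.2.1 k a b q.2) (contDiffAt_sR (q := (((U, δ, 0) : Pm), s)) hU hδ k a b)

private lemma j4 {U : Mat} {δ : ℝ} (hU : Uᴴ * U = 1) (hδ : |δ| ≤ 1/100) (s : Fr) (k a b : Fin 4) :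
    ContDiffAt ℝ ∞ (sQ U δ k a b) s :=
  fixp (g := fun q : Pm × Fr => sQ q.1.1 q.1.2.1 k a b q.2) (contDiffAt_sQ (q := (((U, δ, 0) : Pm), s)) hU hδ k a b)

private lemma OmV_smul (U : Mat) (δ ε : ℝ) (x ζ ζ' : V) (u : ℝ) (y : Yf) :
    OmV (AL U δ ε) x ζ (u • ζ') y = u • OmV (AL U δ ε) x ζ ζ' y := by
  simp only [OmV, map_smul, ContinuousLinearMap.comp_smul, ContinuousLinearMap.smul_comp,
    _root_.add_apply, _root_.sub_apply, _root_.smul_apply, ContinuousLinearMap.comp_apply, smul_sub,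
    smul_add]

private lemma contDiffAt_XB {U : Mat} {δ : ℝ} (hU : Uᴴ * U = 1) (hδ : |δ| ≤ 1/100) (ε : ℝ) (s : Fs) :
    ContDiffAt ℝ ∞ (XB U δ ε) s := by
  have h1 : ContDiffAt ℝ ∞ (XF U δ) s.1 := j1 hU hδ s.1
  have h2 : ContDiffAt ℝ ∞ (AL U δ ε) s.1.1 :=
    ContDiffAt.comp (g := fun q : Pm × V => AL q.1.1 q.1.2.1 q.1.2.2 q.2)
      (f := fun s' : V => ((((U, δ, ε) : Pm), s') : Pm × V)) s.1.1
      (contDiffAt_AL (q := (((U, δ, ε) : Pm), s.1.1)) hU hδ) (contDiffAt_const.prodMk contDiffAt_id)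
  have h3 : ContDiffAt ℝ ∞ (fun s : Fs => XF U δ s.1) s :=
    ContDiffAt.comp (g := XF U δ) (f := fun s : Fs => s.1) s h1 contDiffAt_fst
  have h4 : ContDiffAt ℝ ∞ (fun s : Fs => s.1.1) s := contDiff_fst.fst.contDiffAt
  have h5 : ContDiffAt ℝ ∞ (fun s : Fs => AL U δ ε s.1.1) s :=
    ContDiffAt.comp (g := AL U δ ε) (f := fun s : Fs => s.1.1) s h2 h4
  have h6 : ContDiffAt ℝ ∞ (fun s : Fs => s.1.2 0) s := by
    have e1 : ContDiffAt ℝ ∞ (fun s : Fs => s.1.2) s := contDiff_fst.snd.contDiffAt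
    exact contDiffAt_pi.1 e1 0
  have h7 : ContDiffAt ℝ ∞ (fun s : Fs => AL U δ ε s.1.1 (s.1.2 0)) s := h5.clm_apply h6
  have h8 : ContDiffAt ℝ ∞ (fun s : Fs => s.2.1) s := contDiff_snd.fst.contDiffAt
  have h9 : ContDiffAt ℝ ∞ (fun s : Fs => s.2.2) s := contDiff_snd.snd.contDiffAt
  exact h3.prodMk (((h7.clm_apply h8).neg).prodMk ((h7.clm_apply h9).neg))

/-- the real function `OG` along a curve. -/
private noncomputable def og (U : Mat) (δ ε : ℝ) (k : Fin 4) (s : Fs) : ℝ :=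
  OG ε k (fun a b => sOm a b s.1) (fun a i => sM U δ a i s.1) (fun k a b => sR U δ k a b s.1)
    (fun k a b => sQ U δ k a b s.1) (cS U δ ε s) (wS U δ s) (bS U δ s)

private noncomputable def sg (U : Mat) (δ ε lam : ℝ) (s : Fs) : ℝ :=
  SG ε lam (fun a b => sOm a b s.1) (fun a b => sF a b s.1) (fun a i => sM U δ a i s.1)
    (cS U δ ε s) (wS U δ s) (bS U δ s)

/-- the jets. -/
private noncomputable def Jom (U : Mat) (δ : ℝ) (s : Fr) (a b : Fin 4) : J2 := jetF (XF U δ) (sOm a b) s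
private noncomputable def Jf (U : Mat) (δ : ℝ) (s : Fr) (a b : Fin 4) : J2 := jetF (XF U δ) (sF a b) s
private noncomputable def Jm (U : Mat) (δ : ℝ) (s : Fr) (a : Fin 4) (i : Fin 8) : J2 :=
  jetF (XF U δ) (sM U δ a i) s
private noncomputable def Jr (U : Mat) (δ : ℝ) (s : Fr) (k a b : Fin 4) : J2 :=
  jetF (XF U δ) (sR U δ k a b) s
private noncomputable def Jq (U : Mat) (δ : ℝ) (s : Fr) (k a b : Fin 4) : J2 :=
  jetF (XF U δ) (sQ U δ k a b) s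

private noncomputable def JC (U : Mat) (δ ε : ℝ) (s : Fs) : J2 :=
  jc ε (Jm U δ s.1 0 6) (Jom U δ s.1) (cS U δ ε s) (wS U δ s) (bS U δ s)
private noncomputable def JW (U : Mat) (δ ε : ℝ) (s : Fs) (i : Fin 4) : J2 :=
  jw ε (Jm U δ s.1 0 6) (Jom U δ s.1) (cS U δ ε s) (wS U δ s) (bS U δ s) i
private noncomputable def JB (U : Mat) (δ ε : ℝ) (s : Fs) (a b : Fin 4) : J2 :=
  jβ ε (Jm U δ s.1 0 6) (Jom U δ s.1) (cS U δ ε s) (wS U δ s) (bS U δ s) a b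

private noncomputable def Jog (U : Mat) (δ ε : ℝ) (k : Fin 4) (s : Fs) : J2 :=
  OG ε k (Jom U δ s.1) (Jm U δ s.1) (Jr U δ s.1) (Jq U δ s.1) (JC U δ ε s) (JW U δ ε s) (JB U δ ε s)

private noncomputable def Jsg (U : Mat) (δ ε lam : ℝ) (s : Fs) : J2 :=
  SG ε lam (Jom U δ s.1) (Jf U δ s.1) (Jm U δ s.1) (JC U δ ε s) (JW U δ ε s) (JB U δ ε s)

private lemma Tj_eq (ε lam K : ℝ) (om f : Fin 4 → Fin 4 → J2) (m : Fin 4 → Fin 8 → J2)
    (rho q : Fin 4 → Fin 4 → Fin 4 → J2) (u c : ℝ) (w : Fin 4 → ℝ) (β : Fin 4 → Fin 4 → ℝ) :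
    Tj ε lam K om f m rho q u c w β = K * u ^ 2
      + u * (OG ε 1 om m rho q (jc ε (m 0 6) om c w β) (jw ε (m 0 6) om c w β)
          (jβ ε (m 0 6) om c w β)).b
      + (1/4) * ∑ k : Fin 3, (OG ε k.succ om m rho q (jc ε (m 0 6) om c w β) (jw ε (m 0 6) om c w β)
          (jβ ε (m 0 6) om c w β)).a ^ 2
      + (1/2) * (SG ε lam om f m (jc ε (m 0 6) om c w β) (jw ε (m 0 6) om c w β)
          (jβ ε (m 0 6) om c w β)).c := by
  simp only [Tj]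

private lemma TF_Tj (U : Mat) (δ ε lam : ℝ) (W : Fin 4 → V) (u c : ℝ) (w : Fin 4 → ℝ)
    (β : Fin 4 → Fin 4 → ℝ) : TF U δ ε lam W u c w β
      = Tj ε lam (num (hm U δ) 0 (W 0) (W 1)) (Jom U δ (0, W)) (Jf U δ (0, W)) (Jm U δ (0, W))
          (Jr U δ (0, W)) (Jq U δ (0, W)) u c w β := by
  unfold TF
  congr 1

private lemma JW_eq (U : Mat) (δ ε : ℝ) (s : Fs) : JW U δ ε s
    = jw ε (Jm U δ s.1 0 6) (Jom U δ s.1) (cS U δ ε s) (wS U δ s) (bS U δ s) := by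
  funext i; rw [JW]

private lemma JB_eq (U : Mat) (δ ε : ℝ) (s : Fs) : JB U δ ε s
    = jβ ε (Jm U δ s.1 0 6) (Jom U δ s.1) (cS U δ ε s) (wS U δ s) (bS U δ s) := by
  funext a b; rw [JB]

private lemma TF_eq (U : Mat) (δ ε lam : ℝ) (W : Fin 4 → V) (u : ℝ) (s : Fs) (hs : s.1 = (0, W)) :
    TF U δ ε lam W u (cS U δ ε s) (wS U δ s) (bS U δ s)
      = num (hm U δ) 0 (W 0) (W 1) * u ^ 2 + u * (Jog U δ ε 1 s).b
        + (1/4) * ∑ k : Fin 3, (Jog U δ ε k.succ s).a ^ 2 + (1/2) * (Jsg U δ ε lam s).c := by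
  rw [TF_Tj, Tj_eq, ← hs]
  simp only [Jog, Jsg, JC, JW_eq, JB_eq]

private lemma hasJet_og {U : Mat} {δ : ℝ} (hU : Uᴴ * U = 1) (hδ : |δ| ≤ 1/100) (ε lam : ℝ)
    {γ : ℝ → Fs} {s : Fs} (h0 : γ 0 = s) (hγ : ∀ᶠ t in 𝓝 (0 : ℝ), HasDerivAt γ (XB U δ ε (γ t)) t)
    (hON : ON (hm U δ s.1.1) s.1.2) :
    (∀ k, HasJet (fun t => og U δ ε k (γ t)) (Jog U δ ε k s)) ∧
      HasJet (fun t => sg U δ ε lam (γ t)) (Jsg U δ ε lam s) := by
  have hγ1 : ∀ᶠ t in 𝓝 (0 : ℝ), HasDerivAt (fun t => (γ t).1) (XF U δ (γ t).1) t := by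
    filter_upwards [hγ] with t ht using ht.fst
  have h01 : (fun t => (γ t).1) 0 = s.1 := by simp [h0]
  have hXF := j1 hU hδ s.1
  have jom : ∀ a b, HasJet (fun t => sOm a b (γ t).1) (Jom U δ s.1 a b) := fun a b =>
    hasJet_curve hXF (contDiff_sOm a b).contDiffAt h01 hγ1
  have jf : ∀ a b, HasJet (fun t => sF a b (γ t).1) (Jf U δ s.1 a b) := fun a b =>
    hasJet_curve hXF (contDiff_sF a b).contDiffAt h01 hγ1
  have jm : ∀ a i, HasJet (fun t => sM U δ a i (γ t).1) (Jm U δ s.1 a i) :=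
    fun a i => hasJet_curve hXF (j2 hU hδ s.1 a i) h01 hγ1
  have jr : ∀ k a b, HasJet (fun t => sR U δ k a b (γ t).1) (Jr U δ s.1 k a b) :=
    fun k a b => hasJet_curve hXF (j3 hU hδ s.1 k a b) h01 hγ1
  have jq : ∀ k a b, HasJet (fun t => sQ U δ k a b (γ t).1) (Jq U δ s.1 k a b) :=
    fun k a b => hasJet_curve hXF (j4 hU hδ s.1 k a b) h01 hγ1
  obtain ⟨jC, jW, jB⟩ := hasJet_S hU hδ ε hγ (by rw [h0]; exact hON)
  rw [h0] at jC jW jB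
  exact ⟨fun k => hasJet_OG ε k jom jm jr jq jC jW jB, hasJet_SG ε lam jom jf jm jC jW jB⟩

private lemma num_smul' {U : Mat} {δ : ℝ} (hU : Uᴴ * U = 1) (hδ : |δ| ≤ 1/100) (u : ℝ) (w v : V) :
    num (hm U δ) 0 w (u • v) = num (hm U δ) 0 w v * u ^ 2 := by
  have := Pool.Agent.Helper93.HP.num_comb (hm_metAt hU hδ 0) 1 0 0 u w v
  simp only [one_smul, zero_smul, add_zero, zero_add, one_mul, zero_mul, sub_zero] at this
  rw [this]; ring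

private lemma OmS_eq {U : Mat} {δ : ℝ} (hU : Uᴴ * U = 1) (hδ : |δ| ≤ 1/100) (ε lam u : ℝ) (s : Fs)
    (hON : ON (hm U δ s.1.1) s.1.2) :
    (Dd U δ ε lam).OmS (s.1.1, s.1.2 0, u • s.1.2 1, s.2.1, s.2.2, s.2.1, s.2.2)
      = u * og U δ ε 1 s := by
  rw [og, ← OmS_frame hU hδ ε s hON 1]
  simp only [BD.OmS, Dd, OmV_smul, map_smul, smul_eq_mul]

private lemma og_frame {U : Mat} {δ : ℝ} (hU : Uᴴ * U = 1) (hδ : |δ| ≤ 1/100) (ε : ℝ) (s : Fs)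
    (hON : ON (hm U δ s.1.1) s.1.2) (k : Fin 4) :
    kL U δ s.1.1 s.2.1 (OmV (AL U δ ε) s.1.1 (s.1.2 0) (s.1.2 k) s.2.2) = og U δ ε k s := by
  rw [og]
  exact OmS_frame hU hδ ε s hON k

private lemma og_frame' {U : Mat} {δ : ℝ} (hU : Uᴴ * U = 1) (hδ : |δ| ≤ 1/100) (ε : ℝ) (z : V)
    (W : Fin 4 → V) (y p : Yf) (hON : ON (hm U δ z) W) (k : Fin 4) :
    kL U δ z y (OmV (AL U δ ε) z (W 0) (W k) p) = og U δ ε k ((z, W), y, p) := by
  have h1 : ∀ s : Fs, s = ((z, W), y, p) → ON (hm U δ s.1.1) s.1.2 := by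
    rintro s rfl; exact hON
  have h2 := og_frame hU hδ ε ((z, W), y, p) (h1 _ rfl) k
  simp only at h2
  exact h2

private lemma SS_eq {U : Mat} {δ : ℝ} (hU : Uᴴ * U = 1) (hδ : |δ| ≤ 1/100) (ε lam u : ℝ) (s : Fs)
    (hON : ON (hm U δ s.1.1) s.1.2) :
    (Dd U δ ε lam).SS (s.1.1, s.1.2 0, u • s.1.2 1, s.2.1, s.2.2, s.2.1, s.2.2)
      = sg U δ ε lam s := by
  rw [sg, ← SS_frame hU hδ ε lam s hON]
  simp only [BD.SS, Dd]

theorem TT_eq {U : Mat} {δ : ℝ} (hU : Uᴴ * U = 1) (hδ : |δ| ≤ 1/100) (ε lam : ℝ) {W : Fin 4 → V}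
    (hW : ON (hm U δ 0) W) (u : ℝ) (y p : Yf) :
    num (hm U δ) 0 (W 0) (u • W 1)
      + lie (Dd U δ ε lam).Xs (Dd U δ ε lam).OmS (0, W 0, u • W 1, y, p, y, p)
      + (1/4) * ∑ k : Fin 3, (kL U δ 0 y (OmV (AL U δ ε) 0 (W 0) (W k.succ) p)) ^ 2
      + (1/2) * lie (Dd U δ ε lam).Xs (lie (Dd U δ ε lam).Xs (Dd U δ ε lam).SS)
          (0, W 0, u • W 1, y, p, y, p)
    = TF U δ ε lam W u (cS U δ ε ((0, W), y, p)) (wS U δ ((0, W), y, p)) (bS U δ ((0, W), y, p)) := by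
  obtain ⟨γ, h0, hγ⟩ := exists_curve (contDiffAt_XB hU hδ ε ((0, W), y, p))
  have hON := curve_ON hU hδ ε hγ (by rw [h0]; exact hW)
  obtain ⟨hO, hG⟩ := hasJet_og hU hδ ε lam h0 hγ hW
  have hσ : ∀ᶠ t in 𝓝 (0 : ℝ), HasDerivAt (fun t => (((γ t).1.1, (γ t).1.2 0, u • (γ t).1.2 1,
      (γ t).2.1, (γ t).2.2, (γ t).2.1, (γ t).2.2) : St V Yf))
      ((Dd U δ ε lam).Xs ((γ t).1.1, (γ t).1.2 0, u • (γ t).1.2 1, (γ t).2.1,
      (γ t).2.2, (γ t).2.1, (γ t).2.2)) t := by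
    filter_upwards [hγ] with t ht using curve_Xs hU hδ ε lam u ht
  have hσ0 : (fun t => (((γ t).1.1, (γ t).1.2 0, u • (γ t).1.2 1,
      (γ t).2.1, (γ t).2.2, (γ t).2.1, (γ t).2.2) : St V Yf)) 0
      = (0, W 0, u • W 1, y, p, y, p) := by simp only [h0]
  obtain ⟨c1, c2, c3⟩ := contDiffAt_Xs hU hδ ε lam (0, W 0, u • W 1, y, p, y, p)
  have k1 := hasJet_curve c1 c2 hσ0 hσ
  have k2 := hasJet_curve c1 c3 hσ0 hσ
  have e1 := hasJet_unique (hasJet_congr k1 (g := fun t => u * og U δ ε 1 (γ t)) (by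
    filter_upwards [hON] with t ht
    exact OmS_eq hU hδ ε lam u (γ t) ht)) ((hO 1).smul u)
  have e2 := hasJet_unique (hasJet_congr k2 (g := fun t => sg U δ ε lam (γ t)) (by
    filter_upwards [hON] with t ht
    exact SS_eq hU hδ ε lam u (γ t) ht)) hG
  have e3 : ∀ k : Fin 4, kL U δ 0 y (OmV (AL U δ ε) 0 (W 0) (W k) p)
      = (Jog U δ ε k ((0, W), y, p)).a := fun k => by
    have h1 : og U δ ε k (γ 0) = (Jog U δ ε k ((0, W), y, p)).a := (hO k).1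
    rw [h0] at h1
    rw [← h1]
    exact og_frame' hU hδ ε 0 W y p hW k
  have e5 := congrArg J2.b e1
  have e6 := congrArg J2.c e2
  simp only [jetF, J2.smul_b] at e5 e6
  rw [TF_eq U δ ε lam W u ((0, W), y, p) rfl, num_smul' hU hδ, e5, e6]
  simp only [e3]

end Pool.Agent.Helper46.M8
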