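import Pool.Agent.Helper46.M8.St.A13
import Pool.Agent.Helper46.M8.St.D1
import Pool.Agent.Helper46.M8.Ns

/-!
# M8, piece H2
-/

open Filter Metric Module Set
open scoped Topology ContDiff Matrix Matrix.Norms.Elementwise ComplexConjugate

set_option maxSynthPendingDepth 3

namespace Pool.Agent.Helper46.M8
open Pool.Agent.Helper20.PC Pool.Agent.Helper20.HP Pool.Agent.Helper20.M8 Pool.Agent.Helper20.MB

section smooth
variable {q : Pm × St V Yf}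

private lemma H2_pr (q : Pm × St V Yf) :
    ContDiffAt ℝ ∞ (fun q : Pm × St V Yf => ((q.1, q.2.1) : Pm × V)) q := by fun_prop

private lemma H2_comp {E : Type*} [NormedAddCommGroup E] [NormedSpace ℝ E] (F : Pm × V → E)
    (h : ContDiffAt ℝ ∞ F (q.1, q.2.1)) :
    ContDiffAt ℝ ∞ (fun q : Pm × St V Yf => F (q.1, q.2.1)) q :=
  ContDiffAt.comp q (f := fun q : Pm × St V Yf => ((q.1, q.2.1) : Pm × V)) h (H2_pr q)

private lemma H2_hm (hU : q.1.1ᴴ * q.1.1 = 1) (hδ : |q.1.2.1| ≤ 1/100) :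
    ContDiffAt ℝ ∞ (fun q : Pm × St V Yf => hm q.1.1 q.1.2.1 q.2.1) q :=
  H2_comp (fun q : Pm × V => hm q.1.1 q.1.2.1 q.2) (contDiffAt_hm (q := (q.1, q.2.1)) hU hδ)

private lemma H2_momL (hU : q.1.1ᴴ * q.1.1 = 1) (hδ : |q.1.2.1| ≤ 1/100) (i : Fin 8) :
    ContDiffAt ℝ ∞ (fun q : Pm × St V Yf => momL q.1.1 q.1.2.1 q.2.1 i) q :=
  H2_comp (fun q : Pm × V => momL q.1.1 q.1.2.1 q.2 i)
    (contDiffAt_momL (q := (q.1, q.2.1)) hU hδ i)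

private lemma H2_AL (hU : q.1.1ᴴ * q.1.1 = 1) (hδ : |q.1.2.1| ≤ 1/100) :
    ContDiffAt ℝ ∞ (fun q : Pm × St V Yf => AL q.1.1 q.1.2.1 q.1.2.2 q.2.1) q :=
  H2_comp (fun q : Pm × V => AL q.1.1 q.1.2.1 q.1.2.2 q.2)
    (contDiffAt_AL (q := (q.1, q.2.1)) hU hδ)

private lemma H2_GamL (hU : q.1.1ᴴ * q.1.1 = 1) (hδ : |q.1.2.1| ≤ 1/100) :
    ContDiffAt ℝ ∞ (fun q : Pm × St V Yf => GamL (hm q.1.1 q.1.2.1) q.2.1) q :=
  H2_comp (fun q : Pm × V => GamL (hm q.1.1 q.1.2.1) q.2)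
    (contDiffAt_GamL (q := (q.1, q.2.1)) hU hδ)

private lemma H2_Gam (hU : q.1.1ᴴ * q.1.1 = 1) (hδ : |q.1.2.1| ≤ 1/100) {f g : Pm × St V Yf → V}
    (hf : ContDiffAt ℝ ∞ f q) (hg : ContDiffAt ℝ ∞ g q) :
    ContDiffAt ℝ ∞ (fun q : Pm × St V Yf => Gam (hm q.1.1 q.1.2.1) q.2.1 (f q) (g q)) q := by
  have h1 : ContDiffAt ℝ ∞ (fun q : Pm × St V Yf => GamL (hm q.1.1 q.1.2.1) q.2.1 (f q) (g q)) q :=
    ((H2_GamL hU hδ).clm_apply hf).clm_apply hg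
  refine h1.congr_of_eventuallyEq ?_
  have h2 := (H2_pr q).continuousAt.eventually (Gam_eq_near (q := (q.1, q.2.1)) hU hδ)
  filter_upwards [h2] with q' hq'
  exact hq' _ _

/-- the derivative of the connection form. -/
private lemma H2_dAL (hU : q.1.1ᴴ * q.1.1 = 1) (hδ : |q.1.2.1| ≤ 1/100) :
    ContDiffAt ℝ ∞ (fun q : Pm × St V Yf => fderiv ℝ (AL q.1.1 q.1.2.1 q.1.2.2) q.2.1) q :=
  H2_comp (fun q : Pm × V => fderiv ℝ (AL q.1.1 q.1.2.1 q.1.2.2) q.2)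
    (contDiffAt_fderiv_param (F := fun q : Pm × V => AL q.1.1 q.1.2.1 q.1.2.2 q.2)
      (p := q.1) (z := q.2.1) (contDiffAt_AL (q := (q.1, q.2.1)) hU hδ))

private lemma H2_Xs (hU : q.1.1ᴴ * q.1.1 = 1) (hδ : |q.1.2.1| ≤ 1/100) (lam : ℝ) :
    ContDiffAt ℝ ∞ (fun q : Pm × St V Yf => (Dd q.1.1 q.1.2.1 q.1.2.2 lam).Xs q.2) q := by
  have hA : ∀ {f : Pm × St V Yf → Yf}, ContDiffAt ℝ ∞ f q → ContDiffAt ℝ ∞
      (fun q : Pm × St V Yf => - AL q.1.1 q.1.2.1 q.1.2.2 q.2.1 q.2.2.1 (f q)) q := fun hf =>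
    (((H2_AL hU hδ).clm_apply (by fun_prop)).clm_apply hf).neg
  have hG : ∀ {f : Pm × St V Yf → V}, ContDiffAt ℝ ∞ f q → ContDiffAt ℝ ∞
      (fun q : Pm × St V Yf => - Gam (hm q.1.1 q.1.2.1) q.2.1 q.2.2.1 (f q)) q := fun hf =>
    (H2_Gam hU hδ (by fun_prop) hf).neg
  unfold BD.Xs
  refine ContDiffAt.prodMk (by fun_prop) (ContDiffAt.prodMk (hG (by fun_prop))
    (ContDiffAt.prodMk (hG (by fun_prop)) (ContDiffAt.prodMk (hA (by fun_prop))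
    (ContDiffAt.prodMk (hA (by fun_prop)) (ContDiffAt.prodMk (hA (by fun_prop))
    (hA (by fun_prop)))))))

private lemma H2_OmV (hU : q.1.1ᴴ * q.1.1 = 1) (hδ : |q.1.2.1| ≤ 1/100) {f g : Pm × St V Yf → V}
    (hf : ContDiffAt ℝ ∞ f q) (hg : ContDiffAt ℝ ∞ g q) :
    ContDiffAt ℝ ∞ (fun q : Pm × St V Yf => OmV (AL q.1.1 q.1.2.1 q.1.2.2) q.2.1 (f q) (g q)) q := by
  unfold OmV
  have h1 := H2_dAL hU hδ
  have h2 := H2_AL hU hδ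
  exact ((((h1.clm_apply hf).clm_apply hg).sub ((h1.clm_apply hg).clm_apply hf)).add
    ((h2.clm_apply hf).clm_comp (h2.clm_apply hg))).sub
      ((h2.clm_apply hg).clm_comp (h2.clm_apply hf))

private lemma H2_OmS (hU : q.1.1ᴴ * q.1.1 = 1) (hδ : |q.1.2.1| ≤ 1/100) (lam : ℝ) :
    ContDiffAt ℝ ∞ (fun q : Pm × St V Yf => (Dd q.1.1 q.1.2.1 q.1.2.2 lam).OmS q.2) q := by
  have e : (fun q : Pm × St V Yf => (Dd q.1.1 q.1.2.1 q.1.2.2 lam).OmS q.2)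
      = fun q : Pm × St V Yf => q.2.2.2.2.1.1
          * (OmV (AL q.1.1 q.1.2.1 q.1.2.2) q.2.1 q.2.2.1 q.2.2.2.1 q.2.2.2.2.2.1).1
        + hm q.1.1 q.1.2.1 q.2.1 q.2.2.2.2.1.2
          (OmV (AL q.1.1 q.1.2.1 q.1.2.2) q.2.1 q.2.2.1 q.2.2.2.1 q.2.2.2.2.2.1).2 := by
    ext q
    exact kL_apply _ _ _ _ _
  rw [e]
  have h1 : ContDiffAt ℝ ∞ (fun q : Pm × St V Yf =>
      OmV (AL q.1.1 q.1.2.1 q.1.2.2) q.2.1 q.2.2.1 q.2.2.2.1 q.2.2.2.2.2.1) q :=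
    (H2_OmV hU hδ (by fun_prop) (by fun_prop)).clm_apply (by fun_prop)
  exact (ContDiffAt.mul (by fun_prop) h1.fst).add
    (((H2_hm hU hδ).clm_apply (by fun_prop)).clm_apply h1.snd)

private lemma H2_SS (hU : q.1.1ᴴ * q.1.1 = 1) (hδ : |q.1.2.1| ≤ 1/100) (lam : ℝ) :
    ContDiffAt ℝ ∞ (fun q : Pm × St V Yf => (Dd q.1.1 q.1.2.1 q.1.2.2 lam).SS q.2) q := by
  have hh : ∀ {f g : Pm × St V Yf → V}, ContDiffAt ℝ ∞ f q → ContDiffAt ℝ ∞ g q →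
      ContDiffAt ℝ ∞ (fun q : Pm × St V Yf => h0 q.2.1 (f q) (g q)) q := fun hf hg =>
    (((contDiff_h0.contDiffAt (x := q.2.1)).comp q
      (f := fun q : Pm × St V Yf => q.2.1) (by fun_prop)).clm_apply hf).clm_apply hg
  have ho : ∀ {f g : Pm × St V Yf → V}, ContDiffAt ℝ ∞ f q → ContDiffAt ℝ ∞ g q →
      ContDiffAt ℝ ∞ (fun q : Pm × St V Yf => omL q.2.1 (f q) (g q)) q := fun hf hg =>
    (((contDiff_omL.contDiffAt (x := q.2.1)).comp q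
      (f := fun q : Pm × St V Yf => q.2.1) (by fun_prop)).clm_apply hf).clm_apply hg
  have hm' : ∀ (i : Fin 8) {f : Pm × St V Yf → V}, ContDiffAt ℝ ∞ f q →
      ContDiffAt ℝ ∞ (fun q : Pm × St V Yf => momL q.1.1 q.1.2.1 q.2.1 i (f q)) q := fun i _ hf =>
    (H2_momL hU hδ i).clm_apply hf
  have e : (fun q : Pm × St V Yf => (Dd q.1.1 q.1.2.1 q.1.2.2 lam).SS q.2)
      = fun q : Pm × St V Yf => SL q.1.1 q.1.2.1 q.1.2.2 lam q.2.1 q.2.2.2.2.1 q.2.2.2.2.2.1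
        q.2.2.2.2.2.2.1 q.2.2.2.2.2.2.2 := rfl
  rw [e]
  simp only [SL_apply]
  refine ContDiffAt.add (ContDiffAt.add (ContDiffAt.add ?_ ?_) ?_) ?_
  · exact contDiffAt_const.mul (((hh (by fun_prop) (by fun_prop)).mul (hh (by fun_prop)
      (by fun_prop))).sub ((hh (by fun_prop) (by fun_prop)).mul (hh (by fun_prop) (by fun_prop))))
  · exact contDiffAt_const.mul ((ho (by fun_prop) (by fun_prop)).mul (ho (by fun_prop)
      (by fun_prop)))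
  · exact ContDiffAt.mul (by fun_prop) (((hm' 6 (by fun_prop)).mul (ho (by fun_prop)
      (by fun_prop))).add ((ho (by fun_prop) (by fun_prop)).mul (hm' 6 (by fun_prop))))
  · refine ContDiffAt.mul (by fun_prop) (ContDiffAt.sum fun i _ => ContDiffAt.sum fun j _ => ?_)
    exact contDiffAt_const.mul ((hm' i (by fun_prop)).mul (hm' j (by fun_prop)))

private lemma H2_slice {E : Type*} [NormedAddCommGroup E] [NormedSpace ℝ E] (F : Pm × V → E)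
    {p : Pm} {z : V} (h : ContDiffAt ℝ ∞ F (p, z)) :
    ContDiffAt ℝ ∞ (fun z' : V => F (p, z')) z :=
  ContDiffAt.comp z (f := fun z' : V => ((p, z') : Pm × V)) h
    (contDiffAt_const.prodMk contDiffAt_id)

private lemma H2_slice2 {E : Type*} [NormedAddCommGroup E] [NormedSpace ℝ E] (F : Pm × V → E)
    {U : Mat} {δ : ℝ} {v : V} (h : ContDiffAt ℝ ∞ F ((U, δ, 0), 0)) :
    ContDiffAt ℝ ∞ (fun q : Mat × V => F ((q.1, δ, 0), 0)) (U, v) :=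
  ContDiffAt.comp (U, v) (f := fun q : Mat × V => (((q.1, δ, 0), 0) : Pm × V)) h
    ((contDiffAt_fst.prodMk contDiffAt_const).prodMk contDiffAt_const)

private lemma H2_fGam {p : Pm} {z : V} (hU : p.1ᴴ * p.1 = 1) (hδ : |p.2.1| ≤ 1/100) (u v w : V) :
    fderiv ℝ (fun z' => Gam (hm p.1 p.2.1) z' v w) z u = fderiv ℝ (GamL (hm p.1 p.2.1)) z u v w := by
  have hc : ContDiffAt ℝ ∞ (fun z' : V => ((p, z') : Pm × V)) z :=
    contDiffAt_const.prodMk contDiffAt_id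
  have h1 : (fun z' => Gam (hm p.1 p.2.1) z' v w) =ᶠ[𝓝 z] fun z' => GamL (hm p.1 p.2.1) z' v w := by
    have := hc.continuousAt.eventually (Gam_eq_near (q := (p, z)) hU hδ)
    filter_upwards [this] with z' hz'
    exact hz' v w
  rw [h1.fderiv_eq (𝕜 := ℝ)]
  have h2 : ContDiffAt ℝ ∞ (fun z' => GamL (hm p.1 p.2.1) z') z :=
    H2_slice (fun q : Pm × V => GamL (hm q.1.1 q.1.2.1) q.2)
      (contDiffAt_GamL (q := (p, z)) hU hδ)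
  have hd : DifferentiableAt ℝ (GamL (hm p.1 p.2.1)) z := h2.differentiableAt (by simp)
  have h3 := ((hd.hasFDerivAt.clm_apply (hasFDerivAt_const v z)).clm_apply
    (hasFDerivAt_const w z)).fderiv
  rw [h3]
  simp

/-- the numerator of the sectional curvature. -/
private lemma H2_num :
    ContinuousOn (fun q : Pm × St V Yf => num (hm q.1.1 q.1.2.1) q.2.1 q.2.2.1 q.2.2.2.1)
      {q : Pm × St V Yf | q.1.1ᴴ * q.1.1 = 1 ∧ |q.1.2.1| ≤ 1/100} := by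
  have h3 : ContinuousOn (fun q : Pm × St V Yf => hm q.1.1 q.1.2.1 q.2.1
      (fderiv ℝ (GamL (hm q.1.1 q.1.2.1)) q.2.1 q.2.2.1 q.2.2.2.1 q.2.2.2.1
        - fderiv ℝ (GamL (hm q.1.1 q.1.2.1)) q.2.1 q.2.2.2.1 q.2.2.1 q.2.2.2.1
        + Gam (hm q.1.1 q.1.2.1) q.2.1 q.2.2.1 (Gam (hm q.1.1 q.1.2.1) q.2.1 q.2.2.2.1 q.2.2.2.1)
        - Gam (hm q.1.1 q.1.2.1) q.2.1 q.2.2.2.1 (Gam (hm q.1.1 q.1.2.1) q.2.1 q.2.2.1 q.2.2.2.1))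
      q.2.2.1) {q : Pm × St V Yf | q.1.1ᴴ * q.1.1 = 1 ∧ |q.1.2.1| ≤ 1/100} := by
    rintro q ⟨hU, hδ⟩
    have h1 := H2_hm hU hδ
    have h2 : ContDiffAt ℝ ∞ (fun q : Pm × St V Yf => fderiv ℝ (GamL (hm q.1.1 q.1.2.1)) q.2.1) q :=
      H2_comp (fun q : Pm × V => fderiv ℝ (GamL (hm q.1.1 q.1.2.1)) q.2)
        (contDiffAt_fderiv_param (F := fun q : Pm × V => GamL (hm q.1.1 q.1.2.1) q.2)
          (p := q.1) (z := q.2.1) (contDiffAt_GamL (q := (q.1, q.2.1)) hU hδ))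
    have hX : ContDiffAt ℝ ∞ (fun q : Pm × St V Yf => q.2.2.1) q := by fun_prop
    have hZ : ContDiffAt ℝ ∞ (fun q : Pm × St V Yf => q.2.2.2.1) q := by fun_prop
    refine ContDiffAt.continuousAt (𝕜 := ℝ) (n := ∞) ?_ |>.continuousWithinAt
    refine (h1.clm_apply (ContDiffAt.sub (ContDiffAt.add (ContDiffAt.sub ?_ ?_) ?_) ?_)).clm_apply hX
    · exact ((h2.clm_apply hX).clm_apply hZ).clm_apply hZ
    · exact ((h2.clm_apply hZ).clm_apply hX).clm_apply hZ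
    · exact H2_Gam hU hδ hX (H2_Gam hU hδ hZ hZ)
    · exact H2_Gam hU hδ hZ (H2_Gam hU hδ hX hZ)
  refine h3.congr ?_
  rintro q ⟨hU', hδ'⟩
  dsimp only
  rw [← G_Riem (hm_metAt hU' hδ' q.2.1), Riem, H2_fGam hU' hδ', H2_fGam hU' hδ']

end smooth

private abbrev H2_S : Set (Pm × St V Yf) := {q | q.1.1ᴴ * q.1.1 = 1 ∧ |q.1.2.1| ≤ 1/100}

private lemma H2_bound {f : Pm × St V Yf → ℝ} (hf : ContinuousOn f H2_S) {δ : ℝ}
    (hδ : |δ| ≤ 1/100) (ε R : ℝ) :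
    ∃ B : ℝ, ∀ U : Mat, Uᴴ * U = 1 → ∀ s : St V Yf, ‖s‖ ≤ R → |f ((U, δ, ε), s)| ≤ B := by
  have hK : IsCompact ((({U : Mat | Uᴴ * U = 1} ×ˢ {((δ, ε) : ℝ × ℝ)} : Set Pm)) ×ˢ
      (closedBall (0 : St V Yf) R)) :=
    (isCompact_unitary.prod isCompact_singleton).prod (isCompact_closedBall 0 R)
  obtain ⟨B, hB⟩ := hK.exists_bound_of_continuousOn (f := f) (hf.mono (by
    rintro ⟨⟨U, d⟩, s⟩ ⟨⟨hU, hd⟩, -⟩
    simp only [mem_singleton_iff] at hd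
    subst hd
    exact ⟨hU, hδ⟩))
  refine ⟨B, fun U hU s hs => ?_⟩
  have := hB ((U, δ, ε), s) ⟨⟨hU, rfl⟩, by simpa using hs⟩
  simpa using this

/-- unit vectors are uniformly bounded. -/
private lemma H2_unit {δ : ℝ} (hδ : |δ| ≤ 1/100) : ∃ C : ℝ, 0 < C ∧ ∀ U : Mat, Uᴴ * U = 1 →
    ∀ v : V, ‖v‖ ^ 2 ≤ C * hm U δ 0 v v := by
  have hK : IsCompact ({U : Mat | Uᴴ * U = 1} ×ˢ (sphere (0 : V) 1)) :=
    isCompact_unitary.prod (isCompact_sphere 0 1)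
  have hc : ContinuousOn (fun q : Mat × V => hm q.1 δ 0 q.2 q.2)
      ({U : Mat | Uᴴ * U = 1} ×ˢ (sphere (0 : V) 1)) := by
    rintro ⟨U, v⟩ ⟨hU', -⟩
    have hU : Uᴴ * U = 1 := hU'
    have h1 : ContDiffAt ℝ ∞ (fun q : Mat × V => hm q.1 δ 0) (U, v) :=
      H2_slice2 (fun q : Pm × V => hm q.1.1 q.1.2.1 q.2)
        (contDiffAt_hm (q := ((U, δ, 0), 0)) hU hδ)
    have h2 : ContDiffAt ℝ ∞ (fun q : Mat × V => hm q.1 δ 0 q.2 q.2) (U, v) :=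
      (h1.clm_apply (by fun_prop)).clm_apply (by fun_prop)
    exact h2.continuousAt.continuousWithinAt
  have hpos : ∀ q ∈ ({U : Mat | Uᴴ * U = 1} ×ˢ (sphere (0 : V) 1)), 0 < hm q.1 δ 0 q.2 q.2 := by
    rintro ⟨U, v⟩ ⟨hU, hv⟩
    have hU' : Uᴴ * U = 1 := hU
    have hv' : v ≠ 0 := by
      rintro rfl
      simp at hv
    have := hm_pos hU' hδ 0 v hv'
    exact this
  have hcinv : ContinuousOn (fun q : Mat × V => (hm q.1 δ 0 q.2 q.2)⁻¹)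
      ({U : Mat | Uᴴ * U = 1} ×ˢ (sphere (0 : V) 1)) := by
    have := hc.inv₀ fun q hq => (hpos q hq).ne'
    exact this
  obtain ⟨C, hC⟩ := hK.exists_bound_of_continuousOn hcinv
  refine ⟨max C 1, by positivity, fun U hU v => ?_⟩
  rcases eq_or_ne v 0 with rfl | hv
  · simp
  have hn : 0 < ‖v‖ := norm_pos_iff.mpr hv
  have hmem : ((U, ‖v‖⁻¹ • v) : Mat × V) ∈ ({U : Mat | Uᴴ * U = 1} ×ˢ (sphere (0 : V) 1)) := by
    have hU' : U ∈ {U : Mat | Uᴴ * U = 1} := hU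
    have hv' : ‖v‖⁻¹ • v ∈ sphere (0 : V) 1 := by
      simp [norm_smul, hn.ne']
    exact Set.mk_mem_prod hU' hv'
  have h1 := hC (U, ‖v‖⁻¹ • v) hmem
  have h2 := hpos (U, ‖v‖⁻¹ • v) hmem
  dsimp only at h1 h2
  have e : hm U δ 0 (‖v‖⁻¹ • v) (‖v‖⁻¹ • v) = (‖v‖⁻¹) ^ 2 * hm U δ 0 v v := by
    simp only [map_smul, _root_.smul_apply, smul_eq_mul]
    ring
  rw [e] at h1 h2
  have hv2 : 0 < hm U δ 0 v v := hm_pos hU hδ 0 v hv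
  have h3 : ((‖v‖⁻¹) ^ 2 * hm U δ 0 v v)⁻¹ ≤ C := by
    refine le_trans (le_abs_self _) ?_
    simpa using h1
  have h4 : ((‖v‖⁻¹) ^ 2 * hm U δ 0 v v)⁻¹ = ‖v‖ ^ 2 / hm U δ 0 v v := by
    field_simp
  rw [h4, div_le_iff₀ hv2] at h3
  exact h3.trans (mul_le_mul_of_nonneg_right (le_max_left _ _) hv2.le)

private lemma H2_ball {δ : ℝ} (hδ : |δ| ≤ 1/100) : ∃ R : ℝ, 0 ≤ R ∧ ∀ U : Mat, Uᴴ * U = 1 →
    (∀ v : V, hm U δ 0 v v = 1 → ‖v‖ ≤ R) ∧ ∀ y : Yf, kL U δ 0 y y = 1 → ‖y‖ ≤ R := by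
  obtain ⟨C, hC, H⟩ := H2_unit hδ
  refine ⟨C + 1, by positivity, fun U hU => ?_⟩
  have key : ∀ v : V, hm U δ 0 v v ≤ 1 → ‖v‖ ≤ C + 1 := by
    intro v hv
    have h1 := H U hU v
    have h2 : ‖v‖ ^ 2 ≤ C := h1.trans (by nlinarith)
    nlinarith [norm_nonneg v, sq_nonneg (‖v‖ - 1)]
  refine ⟨fun v hv => key v hv.le, fun y hy => ?_⟩
  rw [kL_apply] at hy
  have h0 : 0 ≤ hm U δ 0 y.2 y.2 := by
    rcases eq_or_ne y.2 0 with h | h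
    · simp [h]
    · exact (hm_pos hU hδ 0 _ h).le
  have h1 : ‖y.2‖ ≤ C + 1 := key _ (by nlinarith [mul_self_nonneg y.1])
  have h2 : ‖y.1‖ ≤ C + 1 := by
    rw [Real.norm_eq_abs]
    have : |y.1| ≤ 1 := by
      rw [abs_le_one_iff_mul_self_le_one]
      linarith
    linarith
  rw [Prod.norm_def]
  exact max_le h2 h1

/-! ### H2 : uniform bounds -/
theorem Bdd_uniform {δ : ℝ} (hδ : |δ| ≤ 1/100) (ε lam : ℝ) :
    ∃ B : ℝ, ∀ U : Mat, Uᴴ * U = 1 → (Dd U δ ε lam).Bdd 0 B := by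
  obtain ⟨R, hR, HR⟩ := H2_ball hδ
  have X1 : ∀ q ∈ H2_S, ContDiffAt ℝ ∞
      (fun q : Pm × St V Yf => (Dd q.1.1 q.1.2.1 q.1.2.2 lam).Xs q.2) q := fun q hq =>
    H2_Xs hq.1 hq.2 lam
  have O1 : ∀ q ∈ H2_S, ContDiffAt ℝ ∞
      (fun q : Pm × St V Yf => (Dd q.1.1 q.1.2.1 q.1.2.2 lam).OmS q.2) q := fun q hq =>
    H2_OmS hq.1 hq.2 lam
  have S1 : ∀ q ∈ H2_S, ContDiffAt ℝ ∞
      (fun q : Pm × St V Yf => (Dd q.1.1 q.1.2.1 q.1.2.2 lam).SS q.2) q := fun q hq =>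
    H2_SS hq.1 hq.2 lam
  have O2 : ∀ q ∈ H2_S, ContDiffAt ℝ ∞
      (fun q : Pm × St V Yf => lie (Dd q.1.1 q.1.2.1 q.1.2.2 lam).Xs
        (Dd q.1.1 q.1.2.1 q.1.2.2 lam).OmS q.2) q := fun q hq =>
    contDiffAt_lie_param (X := fun q : Pm × St V Yf => (Dd q.1.1 q.1.2.1 q.1.2.2 lam).Xs q.2)
      (f := fun q : Pm × St V Yf => (Dd q.1.1 q.1.2.1 q.1.2.2 lam).OmS q.2) (p := q.1) (z := q.2)
      (X1 q hq) (O1 q hq)
  have S2 : ∀ q ∈ H2_S, ContDiffAt ℝ ∞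
      (fun q : Pm × St V Yf => lie (Dd q.1.1 q.1.2.1 q.1.2.2 lam).Xs
        (Dd q.1.1 q.1.2.1 q.1.2.2 lam).SS q.2) q := fun q hq =>
    contDiffAt_lie_param (X := fun q : Pm × St V Yf => (Dd q.1.1 q.1.2.1 q.1.2.2 lam).Xs q.2)
      (f := fun q : Pm × St V Yf => (Dd q.1.1 q.1.2.1 q.1.2.2 lam).SS q.2) (p := q.1) (z := q.2)
      (X1 q hq) (S1 q hq)
  have S3 : ∀ q ∈ H2_S, ContDiffAt ℝ ∞
      (fun q : Pm × St V Yf => lie (Dd q.1.1 q.1.2.1 q.1.2.2 lam).Xs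
        (lie (Dd q.1.1 q.1.2.1 q.1.2.2 lam).Xs (Dd q.1.1 q.1.2.1 q.1.2.2 lam).SS) q.2) q :=
    fun q hq =>
    contDiffAt_lie_param (X := fun q : Pm × St V Yf => (Dd q.1.1 q.1.2.1 q.1.2.2 lam).Xs q.2)
      (f := fun q : Pm × St V Yf => lie (Dd q.1.1 q.1.2.1 q.1.2.2 lam).Xs
        (Dd q.1.1 q.1.2.1 q.1.2.2 lam).SS q.2) (p := q.1) (z := q.2) (X1 q hq) (S2 q hq)
  have hb : ∀ {f : Pm × St V Yf → ℝ}, (∀ q ∈ H2_S, ContDiffAt ℝ ∞ f q) → ContinuousOn f H2_S :=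
    fun h q hq => (h q hq).continuousAt.continuousWithinAt
  obtain ⟨B0, h0⟩ := H2_bound H2_num hδ ε R
  obtain ⟨B1, h1⟩ := H2_bound (hb O1) hδ ε R
  obtain ⟨B2, h2⟩ := H2_bound (hb O2) hδ ε R
  obtain ⟨B3, h3⟩ := H2_bound (hb S1) hδ ε R
  obtain ⟨B4, h4⟩ := H2_bound (hb S2) hδ ε R
  obtain ⟨B5, h5⟩ := H2_bound (hb S3) hδ ε R
  refine ⟨max (max (max B0 B1) (max B2 B3)) (max B4 B5), fun U hU => ?_⟩
  obtain ⟨HV, HY⟩ := HR U hU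
  have hz : ‖(0 : V)‖ ≤ R := by simpa using hR
  have hzy : ‖(0 : Yf)‖ ≤ R := by simpa using hR
  have nrm_le : ∀ (X Z : V) (a b c d : Yf), ‖X‖ ≤ R → ‖Z‖ ≤ R → ‖a‖ ≤ R → ‖b‖ ≤ R → ‖c‖ ≤ R →
      ‖d‖ ≤ R → ‖((0, X, Z, a, b, c, d) : St V Yf)‖ ≤ R := by
    intro X Z a b c d hX hZ ha hb hc hd
    simp only [Prod.norm_mk, max_le_iff]
    exact ⟨hz, hX, hZ, ha, hb, hc, hd⟩
  refine ⟨?_, ?_, ?_, ?_, ?_, ?_⟩
  · intro X Z hX hZ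
    refine (h0 U hU (0, X, Z, 0, 0, 0, 0) (nrm_le _ _ _ _ _ _ (HV X hX) (HV Z hZ) hzy hzy hzy
      hzy)).trans ?_
    simp
  · intro X Z y p hX hZ hy hp
    refine (h1 U hU (0, X, Z, y, p, y, p) (nrm_le _ _ _ _ _ _ (HV X hX) (HV Z hZ) (HY y hy)
      (HY p hp) (HY y hy) (HY p hp))).trans ?_
    simp
  · intro X Z y p hX hZ hy hp
    refine (h2 U hU (0, X, Z, y, p, y, p) (nrm_le _ _ _ _ _ _ (HV X hX) (HV Z hZ) (HY y hy)
      (HY p hp) (HY y hy) (HY p hp))).trans ?_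
    simp
  · intro a b c d ha hb hc hd
    refine (h3 U hU (0, 0, 0, a, b, c, d) (nrm_le _ _ _ _ _ _ hz hz (HY a ha)
      (HY b hb) (HY c hc) (HY d hd))).trans ?_
    simp
  · intro X a b c d hX ha hb hc hd
    refine (h4 U hU (0, X, X, a, b, c, d) (nrm_le _ _ _ _ _ _ (HV X hX) (HV X hX) (HY a ha)
      (HY b hb) (HY c hc) (HY d hd))).trans ?_
    simp
  · intro X a b c d hX ha hb hc hd
    refine (h5 U hU (0, X, X, a, b, c, d) (nrm_le _ _ _ _ _ _ (HV X hX) (HV X hX) (HY a ha)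
      (HY b hb) (HY c hc) (HY d hd))).trans ?_
    simp

end Pool.Agent.Helper46.M8
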