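import Pool.Agent.Helper46.M8.St.C3
import Pool.Agent.Helper46.M8.St.F2
import Pool.Agent.Helper46.M8.St.F7
import Pool.Agent.Helper46.M8.Ns

/-!
# M8, piece H3
-/

open Filter Metric Module Set
open scoped Topology ContDiff Matrix Matrix.Norms.Elementwise ComplexConjugate

set_option maxSynthPendingDepth 3

namespace Pool.Agent.Helper46.M8
open Pool.Agent.Helper20.PC Pool.Agent.Helper20.HP Pool.Agent.Helper20.M8 Pool.Agent.Helper20.MB

private lemma nrm_smul (r u c : ℝ) (w : Fin 4 → ℝ) (β : Fin 4 → Fin 4 → ℝ) :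
    nrm (r * u) (r * c) (fun i => r * w i) (fun a b => r * β a b) = r ^ 2 * nrm u c w β := by
  simp only [nrm, Fin.sum_univ_four]
  ring

private lemma nrm_nonneg (u c : ℝ) (w : Fin 4 → ℝ) (β : Fin 4 → Fin 4 → ℝ) : 0 ≤ nrm u c w β := by
  unfold nrm
  positivity

private lemma nrm_eq_zero {u c : ℝ} {w : Fin 4 → ℝ} {β : Fin 4 → Fin 4 → ℝ}
    (h : nrm u c w β = 0) : u = 0 ∧ c = 0 ∧ w = 0 ∧ β = 0 := by
  unfold nrm at h
  have h1 : 0 ≤ ∑ i, w i ^ 2 := Finset.sum_nonneg fun i _ => sq_nonneg _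
  have h2 : 0 ≤ ∑ a, ∑ b, β a b ^ 2 :=
    Finset.sum_nonneg fun i _ => Finset.sum_nonneg fun j _ => sq_nonneg _
  have hu : u ^ 2 = 0 := by nlinarith [sq_nonneg u, sq_nonneg c]
  have hc : c ^ 2 = 0 := by nlinarith [sq_nonneg u, sq_nonneg c]
  have hw : ∑ i, w i ^ 2 = 0 := by nlinarith [sq_nonneg u, sq_nonneg c]
  have hb : ∑ a, ∑ b, β a b ^ 2 = 0 := by nlinarith [sq_nonneg u, sq_nonneg c]
  refine ⟨by simpa using hu, by simpa using hc, ?_, ?_⟩
  · funext i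
    have := (Finset.sum_eq_zero_iff_of_nonneg (fun i _ => sq_nonneg (w i))).1 hw i (Finset.mem_univ _)
    simpa using this
  · funext a b
    have h3 := (Finset.sum_eq_zero_iff_of_nonneg
      (fun a _ => Finset.sum_nonneg fun b _ => sq_nonneg (β a b))).1 hb a (Finset.mem_univ _)
    have := (Finset.sum_eq_zero_iff_of_nonneg (fun b _ => sq_nonneg (β a b))).1 h3 b
      (Finset.mem_univ _)
    simpa using this

private lemma TF_smul (U : Mat) (δ ε lam : ℝ) (W : Fin 4 → V) (r u c : ℝ) (w : Fin 4 → ℝ)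
    (β : Fin 4 → Fin 4 → ℝ) :
    TF U δ ε lam W (r * u) (r * c) (fun i => r * w i) (fun a b => r * β a b)
      = r ^ 2 * TF U δ ε lam W u c w β := by
  simp only [TF]
  exact Tj_homog _ _ _ _ _ _ _ _ _ _ _ _ _

private lemma Cns_smul {ε c : ℝ} {w : Fin 4 → ℝ} {β : Fin 4 → Fin 4 → ℝ} (h : Cns ε c w β) (r : ℝ) :
    Cns ε (r * c) (fun i => r * w i) (fun a b => r * β a b) := by
  obtain ⟨h1, h2, h3, h4⟩ := h
  refine ⟨by simp [h1], fun a b => ?_, fun i j hi hj => ?_, ?_⟩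
  · show r * β a b = -(r * β b a)
    rw [h2 a b]; ring
  · have := h3 i j hi hj
    linear_combination r ^ 2 * this
  · linear_combination r ^ 2 * h4

/-! ### H3 : a uniform constant in the cone -/
theorem cone_bound {δ ε lam : ℝ} (hδ : 0 ≤ δ) (hδ' : δ ≤ 1/100) (hε : 0 ≤ ε) (hε' : ε ≤ 1)
    (h : ∀ q ∈ Kc, q.1.2.1 = δ → q.1.2.2 = ε → 0 < TFp lam q) :
    ∃ c₀ : ℝ, 0 < c₀ ∧ ∀ U : Mat, Uᴴ * U = 1 → ∀ W : Fin 4 → V, ON (hm U δ 0) W → ∀ (u c : ℝ)
      (w : Fin 4 → ℝ) (β : Fin 4 → Fin 4 → ℝ), Cns ε c w β →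
      c₀ * nrm u c w β ≤ TF U δ ε lam W u c w β := by
  set K : Set Cf := {q | q ∈ Kc ∧ q.1.2.1 = δ ∧ q.1.2.2 = ε} with hKdef
  have hKc : IsCompact K := by
    have h1 : IsClosed {q : Cf | q.1.2.1 = δ ∧ q.1.2.2 = ε} :=
      (isClosed_eq (by fun_prop) continuous_const).inter (isClosed_eq (by fun_prop) continuous_const)
    have h2 : K = Kc ∩ {q : Cf | q.1.2.1 = δ ∧ q.1.2.2 = ε} := rfl
    rw [h2]
    exact isCompact_Kc.inter_right h1
  have hcont : ContinuousOn (TFp lam) K := by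
    refine (continuousOn_TFp lam).mono fun q hq => ?_
    obtain ⟨⟨h1, h2, h3, -⟩, -⟩ := hq
    refine ⟨h1, ?_⟩
    rw [abs_of_nonneg h2]
    exact h3
  obtain ⟨c₀, hc₀, hmin⟩ : ∃ c₀ : ℝ, 0 < c₀ ∧ ∀ q ∈ K, c₀ ≤ TFp lam q := by
    rcases K.eq_empty_or_nonempty with he | hne
    · refine ⟨1, one_pos, fun q hq => ?_⟩
      rw [he] at hq
      exact absurd hq (notMem_empty q)
    · obtain ⟨q₀, hq₀, hm⟩ := hKc.exists_isMinOn hne hcont
      exact ⟨TFp lam q₀, h q₀ hq₀.1 hq₀.2.1 hq₀.2.2, fun q hq => hm hq⟩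
  refine ⟨c₀, hc₀, fun U hU W hW u c w β hC => ?_⟩
  rcases (nrm_nonneg u c w β).eq_or_lt' with h0 | hpos
  · obtain ⟨rfl, rfl, rfl, rfl⟩ := nrm_eq_zero h0
    have := TF_smul U δ ε lam W 0 0 0 0 0
    have h6 : (fun i : Fin 4 => (0 : ℝ) * (0 : Fin 4 → ℝ) i) = 0 := by funext i; simp
    have h7 : (fun a b : Fin 4 => (0 : ℝ) * (0 : Fin 4 → Fin 4 → ℝ) a b) = 0 := by
      funext a b; simp
    rw [h6, h7, mul_zero] at this
    have h5 : TF U δ ε lam W 0 0 0 0 = 0 := by rw [this]; ring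
    rw [h5, h0, mul_zero]
  · set N := nrm u c w β with hN
    set r := (Real.sqrt N)⁻¹ with hr
    have hrN : r ^ 2 * N = 1 := by
      rw [hr, inv_pow, Real.sq_sqrt hpos.le, inv_mul_cancel₀ hpos.ne']
    have hmem : (((U, δ, ε), W, r * u, r * c, (fun i => r * w i), (fun a b => r * β a b)) : Cf) ∈ K := by
      refine ⟨⟨hU, hδ, hδ', hε, hε', hW, Cns_smul hC r, ?_⟩, rfl, rfl⟩
      show nrm (r * u) (r * c) (fun i => r * w i) (fun a b => r * β a b) = 1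
      rw [nrm_smul, ← hN, hrN]
    have h1 := hmin _ hmem
    have h2 : TFp lam (((U, δ, ε), W, r * u, r * c, (fun i => r * w i), (fun a b => r * β a b)) : Cf)
        = r ^ 2 * TF U δ ε lam W u c w β := TF_smul U δ ε lam W r u c w β
    rw [h2] at h1
    calc c₀ * N ≤ (r ^ 2 * TF U δ ε lam W u c w β) * N := mul_le_mul_of_nonneg_right h1 hpos.le
      _ = (r ^ 2 * N) * TF U δ ε lam W u c w β := by ring
      _ = TF U δ ε lam W u c w β := by rw [hrN, one_mul]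

end Pool.Agent.Helper46.M8
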