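import Pool.Agent.Helper46.M8.St.F6
import Pool.Agent.Helper46.M8.St.G1
import Pool.Agent.Helper46.M8.St.H1
import Pool.Agent.Helper46.M8.St.H3
import Pool.Agent.Helper46.M8.Ns

/-!
# M8, piece I1
-/

open Filter Metric Module Set
open scoped Topology ContDiff Matrix Matrix.Norms.Elementwise ComplexConjugate

set_option maxSynthPendingDepth 3

namespace Pool.Agent.Helper46.M8
open Pool.Agent.Helper20.PC Pool.Agent.Helper20.HP Pool.Agent.Helper20.M8 Pool.Agent.Helper20.MB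

private lemma I1_OmV_self (A : V → V →L[ℝ] Yf →L[ℝ] Yf) (x ζ : V) : OmV A x ζ ζ = 0 := by
  simp [OmV]

/-- the square norm in a frame. -/
private lemma I1_sq {U : Mat} {δ : ℝ} (hU : Uᴴ * U = 1) (hδ : |δ| ≤ 1/100) {z : V} {W : Fin 4 → V}
    (hW : ON (hm U δ z) W) (v : V) :
    hm U δ z v v = ∑ a, hm U δ z v (W a) ^ 2 := by
  have h1 := frame_sum hU hδ hW v
  have h2 : hm U δ z v v = hm U δ z v (∑ a, hm U δ z v (W a) • W a) := by rw [h1]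
  rw [h2, map_sum]
  refine Finset.sum_congr rfl fun a _ => ?_
  rw [map_smul, smul_eq_mul, sq]

/-! ### I1 : condition (T) holds uniformly -/
theorem TT_uniform : ∃ δ ε lam c₀ : ℝ, 0 < δ ∧ δ ≤ 1/100 ∧ 0 < ε ∧ 0 < c₀ ∧
    ∀ U : Mat, Uᴴ * U = 1 → (Dd U δ ε lam).TT 0 c₀ := by
  obtain ⟨δ, ε, lam, hδ0, hδ1, hε0, hε1, hK⟩ := exists_eps
  obtain ⟨c₁, hc₁, H⟩ := cone_bound hδ0.le hδ1 hε0.le hε1 hK
  refine ⟨δ, ε, lam, c₁ * ε ^ 2, hδ0, hδ1, hε0, by positivity, ?_⟩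
  intro U hU X Z y p hX hXZ hy hyp t ht
  have hδ : |δ| ≤ 1/100 := by rw [abs_of_pos hδ0]; exact hδ1
  obtain ⟨W, u, hW, hW0, hW1⟩ := exists_frame hU hδ 0 X Z hX hXZ
  subst hW0
  subst hW1
  set s : Fs := ((0, W), y, p) with hs
  have e1 := TT_eq hU hδ ε lam hW u y p
  have e2 := kpp_eq hU hδ hε0.ne' s hW hy hyp
  have e3 := H U hU W hW u (cS U δ ε s) (wS U δ s) (bS U δ s) (Cns_S U δ ε s)
  have e4 : (Dd U δ ε lam).h 0 t t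
      = ∑ k : Fin 3, (kL U δ 0 y (OmV (AL U δ ε) 0 (W 0) (W k.succ) p)) ^ 2 := by
    have h1 : (Dd U δ ε lam).h 0 t t = ∑ a, hm U δ 0 t (W a) ^ 2 := I1_sq hU hδ hW t
    have h2 : ∀ a, hm U δ 0 t (W a) = kL U δ 0 y (OmV (AL U δ ε) 0 (W 0) (W a) p) :=
      fun a => ht (W a)
    rw [h1, Fin.sum_univ_succ]
    have h3 : hm U δ 0 t (W 0) = 0 := by
      rw [h2 0, I1_OmV_self]
      simp
    rw [h3]
    simp only [h2]
    ring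
  have e5 : (Dd U δ ε lam).h 0 (u • W 1) (u • W 1) = u ^ 2 := by
    have h1 : (Dd U δ ε lam).h 0 (u • W 1) (u • W 1) = u * (u * hm U δ 0 (W 1) (W 1)) := by
      change hm U δ 0 (u • W 1) (u • W 1) = _
      simp only [map_smul, _root_.smul_apply, smul_eq_mul]
    rw [h1, hW 1 1]
    simp
    ring
  have e6 : (Dd U δ ε lam).k 0 p p = (cS U δ ε s / ε) ^ 2 + ∑ i, wS U δ s i ^ 2
      + (1/2) * ∑ a, ∑ b, bS U δ s a b ^ 2 := e2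
  have e7 : c₁ * ε ^ 2 * ((Dd U δ ε lam).h 0 (u • W 1) (u • W 1) + (Dd U δ ε lam).k 0 p p)
      ≤ c₁ * nrm u (cS U δ ε s) (wS U δ s) (bS U δ s) := by
    rw [e5, e6, nrm]
    have hw : 0 ≤ ∑ i, wS U δ s i ^ 2 := Finset.sum_nonneg fun i _ => sq_nonneg _
    have hb : 0 ≤ ∑ a, ∑ b, bS U δ s a b ^ 2 :=
      Finset.sum_nonneg fun a _ => Finset.sum_nonneg fun b _ => sq_nonneg _
    have hε2 : ε ^ 2 ≤ 1 := by nlinarith only [hε1, hδ0, hδ1, hε0]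
    have hc : ε ^ 2 * (cS U δ ε s / ε) ^ 2 = cS U δ ε s ^ 2 := by
      field_simp
    have hh : ε ^ 2 * (u ^ 2 + ((cS U δ ε s / ε) ^ 2 + ∑ i, wS U δ s i ^ 2
        + (1/2) * ∑ a, ∑ b, bS U δ s a b ^ 2)) ≤ u ^ 2 + cS U δ ε s ^ 2 + ∑ i, wS U δ s i ^ 2
          + ∑ a, ∑ b, bS U δ s a b ^ 2 := by
      have a1 : ε ^ 2 * u ^ 2 ≤ u ^ 2 := by nlinarith only [hε2, sq_nonneg u]
      have a2 : ε ^ 2 * ∑ i, wS U δ s i ^ 2 ≤ ∑ i, wS U δ s i ^ 2 := by nlinarith only [hδ0, hδ1, hw, hε2]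
      have a3 : ε ^ 2 * ∑ a, ∑ b, bS U δ s a b ^ 2 ≤ ∑ a, ∑ b, bS U δ s a b ^ 2 := by nlinarith only [hδ0, hδ1, hb, hε2]
      nlinarith only [hb, hc, a1, a2, a3]
    calc c₁ * ε ^ 2 * (u ^ 2 + ((cS U δ ε s / ε) ^ 2 + ∑ i, wS U δ s i ^ 2
        + (1/2) * ∑ a, ∑ b, bS U δ s a b ^ 2)) = c₁ * (ε ^ 2 * (u ^ 2 + ((cS U δ ε s / ε) ^ 2
          + ∑ i, wS U δ s i ^ 2 + (1/2) * ∑ a, ∑ b, bS U δ s a b ^ 2))) := by ring
      _ ≤ _ := mul_le_mul_of_nonneg_left hh hc₁.le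
  refine e7.trans (e3.trans ?_)
  rw [e4, ← e1]
  exact le_of_eq rfl

end Pool.Agent.Helper46.M8
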