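import Pool.Agent.Helper46.M8.St.E4
import Pool.Agent.Helper46.M8.St.H2
import Pool.Agent.Helper46.M8.St.I1
import Pool.Agent.Helper20.MB.Collapse
import Pool.Agent.Helper46.M8.Ns

/-!
# M8, piece I2
-/

open Filter Metric Module Set
open scoped Topology ContDiff Matrix Matrix.Norms.Elementwise ComplexConjugate Manifold

set_option maxSynthPendingDepth 3

namespace Pool.Agent.Helper46.M8
open Pool.Agent.Helper20.PC Pool.Agent.Helper20.HP Pool.Agent.Helper20.M8 Pool.Agent.Helper20.MB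

private lemma I2_finrank_V : finrank ℝ V = 4 := by
  have h := finrank_real_of_complex (E := V)
  rw [h]
  simp

private lemma I2_finrank_Y : finrank ℝ Yf = 5 := by
  have h : finrank ℝ Yf = finrank ℝ ℝ + finrank ℝ V := Module.finrank_prod
  rw [h, I2_finrank_V]
  simp

/-! ### I2 : positive curvature (with the collapse theorem of helper20) -/
theorem local_pos : ∃ δ ε lam η : ℝ, |δ| ≤ 1/100 ∧ 0 < η ∧
    ∀ U : Mat, Uᴴ * U = 1 → ∀ y : Yf, kL U δ 0 y y = 1 →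
      (∀ a, a ≠ 0 → 0 < fibL (kL U δ) (SL U δ ε lam) η (0, y) a a) ∧
      ∀ u v : V × Yf, kL U δ 0 y (u.2 + AL U δ ε 0 u.1 y) = 0 →
        kL U δ 0 y (v.2 + AL U δ ε 0 v.1 y) = 0 → LinearIndependent ℝ ![u, v] →
        0 < num ((Dd U δ ε lam).G η) (0, y) u v := by
  obtain ⟨δ, ε, lam, c₀, hδ0, hδ1, hε0, hc₀, HT⟩ := TT_uniform
  have hδ : |δ| ≤ 1/100 := by rw [abs_of_pos hδ0]; exact hδ1
  obtain ⟨b, HB⟩ := Bdd_uniform hδ ε lam
  have hV : 2 ≤ finrank ℝ V := by rw [I2_finrank_V]; norm_num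
  have hY : 3 ≤ finrank ℝ Yf := by rw [I2_finrank_Y]; norm_num
  obtain ⟨η₀, hη₀, H⟩ := collapse (V := V) (Y := Yf) hV hY (b := b) hc₀
  refine ⟨δ, ε, lam, η₀, hδ, hη₀, fun U hU y hy => ?_⟩
  exact H η₀ hη₀ le_rfl (Dd U δ ε lam) 0 (Dd_good hU hδ ε lam 0) (HB U hU) (HT U hU) y hy

end Pool.Agent.Helper46.M8
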