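import Pool.Agent.Helper46.M8.St.A1
import Pool.Agent.Helper46.M8.St.A2
import Pool.Agent.Helper46.M8.St.A3
import Pool.Agent.Helper46.M8.St.A4a
import Pool.Agent.Helper46.M8.St.A4b
import Pool.Agent.Helper46.M8.St.A5
import Pool.Agent.Helper46.M8.St.A6
import Pool.Agent.Helper46.M8.St.A7
import Pool.Agent.Helper46.M8.St.A8
import Pool.Agent.Helper46.M8.St.A9
import Pool.Agent.Helper46.M8.St.A10
import Pool.Agent.Helper46.M8.St.A11
import Pool.Agent.Helper46.M8.St.A12
import Pool.Agent.Helper46.M8.St.A13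
import Pool.Agent.Helper46.M8.St.A14
import Pool.Agent.Helper46.M8.St.A15
import Pool.Agent.Helper46.M8.St.A16
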