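import Pool.Agent.Helper46.M8.St.D1
import Pool.Agent.Helper46.M8.St.D2
import Pool.Agent.Helper46.M8.St.D3a
import Pool.Agent.Helper46.M8.St.D3b
import Pool.Agent.Helper46.M8.St.D4
import Pool.Agent.Helper46.M8.St.D5
import Pool.Agent.Helper46.M8.St.D6
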