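import Pool.Agent.Helper46.M8.St.E1
import Pool.Agent.Helper46.M8.St.E2a
import Pool.Agent.Helper46.M8.St.E2b
import Pool.Agent.Helper46.M8.St.E3
import Pool.Agent.Helper46.M8.St.E4
import Pool.Agent.Helper46.M8.St.E5
import Pool.Agent.Helper46.M8.St.E6
import Pool.Agent.Helper46.M8.St.E7
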