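import Pool.Agent.Helper46.M8.St.F1
import Pool.Agent.Helper46.M8.St.F2
import Pool.Agent.Helper46.M8.St.F3
import Pool.Agent.Helper46.M8.St.F4
import Pool.Agent.Helper46.M8.St.F5a
import Pool.Agent.Helper46.M8.St.F5b
import Pool.Agent.Helper46.M8.St.F6
import Pool.Agent.Helper46.M8.St.F7
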