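import Pool.Agent.Helper46.M8.Man
import Pool.Agent.Helper46.M8.Ns

/-!
# M8, piece N1
-/

open Filter Metric Module Set
open scoped Topology ContDiff Matrix Matrix.Norms.Elementwise ComplexConjugate Manifold

set_option maxSynthPendingDepth 3

namespace Pool.Agent.Helper46.M8
open Pool.Agent.Helper20.PC Pool.Agent.Helper20.HP Pool.Agent.Helper20.M8 Pool.Agent.Helper20.MB

/-! ### N1 : projective transformations -/

/-- component `k` of `g (1, z)`. -/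
noncomputable def N1_a (g : Mat) (k : Fin 3) (z : V) : ℂ := g k 0 + (g k 1 * z 0 + g k 2 * z 1)

/-- component `k` of `g (0, w)`. -/
noncomputable def N1_L (g : Mat) (k : Fin 3) : V →L[ℝ] ℂ :=
  g k 1 • (ContinuousLinearMap.proj 0 : V →L[ℝ] ℂ) + g k 2 • (ContinuousLinearMap.proj 1 : V →L[ℝ] ℂ)

theorem N1_L_apply (g : Mat) (k : Fin 3) (w : V) : N1_L g k w = g k 1 * w 0 + g k 2 * w 1 := rfl

theorem N1_Zv (g : Mat) (z : V) (k : Fin 3) : (g *ᵥ Zv z) k = N1_a g k z := by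
  simp only [Matrix.mulVec, dotProduct, Fin.sum_univ_three, Zv, N1_a, Matrix.cons_val_zero,
    Matrix.cons_val_one, Matrix.cons_val]
  ring

theorem N1_Wv (g : Mat) (w : V) (k : Fin 3) : (g *ᵥ Wv w) k = N1_L g k w := by
  simp only [Matrix.mulVec, dotProduct, Fin.sum_univ_three, Wv, N1_L_apply, Matrix.cons_val_zero,
    Matrix.cons_val_one, Matrix.cons_val]
  ring

theorem N1_mob (g : Mat) (z : V) (i : Fin 2) : mob g z i = N1_a g i.succ z / N1_a g 0 z := by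
  simp only [mob, N1_Zv]

theorem N1_dmob (g : Mat) (z w : V) (i : Fin 2) :
    dmob g z w i = (N1_L g i.succ w - mob g z i * N1_L g 0 w) / N1_a g 0 z := by
  simp only [dmob, N1_Zv, N1_Wv]

theorem N1_ddmob (g : Mat) (z w w' : V) (i : Fin 2) :
    ddmob g z w w' i = - (N1_L g 0 w * dmob g z w' i + N1_L g 0 w' * dmob g z w i) / N1_a g 0 z := by
  simp only [ddmob, N1_Zv, N1_Wv]

theorem N1_hasA (g : Mat) (k : Fin 3) (z : V) : HasFDerivAt (N1_a g k) (N1_L g k) z := by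
  have hp : ∀ j : Fin 2, HasFDerivAt (fun z : V => z j)
      (ContinuousLinearMap.proj j : V →L[ℝ] ℂ) z := fun j =>
    (ContinuousLinearMap.proj j : V →L[ℝ] ℂ).hasFDerivAt
  exact (((hp 0).const_mul (g k 1)).add ((hp 1).const_mul (g k 2))).const_add (g k 0)

theorem N1_contA (g : Mat) (k : Fin 3) : ContDiff ℝ ∞ (N1_a g k) := by
  unfold N1_a
  fun_prop

theorem N1_hasInv {g : Mat} {z : V} (h : N1_a g 0 z ≠ 0) :
    ∃ L : V →L[ℝ] ℂ, HasFDerivAt (fun z => (N1_a g 0 z)⁻¹) L z ∧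
      ∀ w, L w = - N1_L g 0 w / N1_a g 0 z ^ 2 := by
  refine ⟨_, (hasFDerivAt_inv' (𝕜 := ℝ) h).comp z (N1_hasA g 0 z), fun w => ?_⟩
  simp only [ContinuousLinearMap.comp_apply, ContinuousLinearMap.neg_apply,
    ContinuousLinearMap.mulLeftRight_apply]
  field_simp

theorem N1_hasMob {g : Mat} {z : V} (h : N1_a g 0 z ≠ 0) (i : Fin 2) :
    ∃ L : V →L[ℝ] ℂ, HasFDerivAt (fun z => mob g z i) L z ∧ ∀ w, L w = dmob g z w i := by
  obtain ⟨L0, hL0, hL⟩ := N1_hasInv h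
  have e : (fun z => mob g z i) = fun z => N1_a g i.succ z * (N1_a g 0 z)⁻¹ := by
    funext z
    rw [N1_mob, div_eq_mul_inv]
  refine ⟨N1_a g i.succ z • L0 + (N1_a g 0 z)⁻¹ • N1_L g i.succ, ?_, fun w => ?_⟩
  · rw [e]
    exact (N1_hasA g i.succ z).mul hL0
  · simp only [ContinuousLinearMap.add_apply, ContinuousLinearMap.smul_apply, smul_eq_mul, hL,
      N1_dmob, N1_mob]
    field_simp
    ring

theorem N1_hasMobV {g : Mat} {z : V} (h : N1_a g 0 z ≠ 0) :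
    ∃ L : V →L[ℝ] V, HasFDerivAt (mob g) L z ∧ ∀ w, L w = dmob g z w := by
  choose L hL hL' using fun i => N1_hasMob h i
  refine ⟨ContinuousLinearMap.pi L, ?_, fun w => ?_⟩
  · rw [hasFDerivAt_pi']
    exact hL
  · funext i
    exact hL' i w

theorem N1_hasDmob {g : Mat} {z : V} (h : N1_a g 0 z ≠ 0) (w : V) :
    ∃ L : V →L[ℝ] V, HasFDerivAt (fun z' => dmob g z' w) L z ∧ ∀ w', L w' = ddmob g z w w' := by
  have key : ∀ i : Fin 2, ∃ L : V →L[ℝ] ℂ, HasFDerivAt (fun z' => dmob g z' w i) L z ∧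
      ∀ w', L w' = ddmob g z w w' i := by
    intro i
    obtain ⟨L0, hL0, hL⟩ := N1_hasInv h
    obtain ⟨L1, hL1, hL1'⟩ := N1_hasMob h i
    have e : (fun z' => dmob g z' w i) =
        fun z' => (N1_L g i.succ w - mob g z' i * N1_L g 0 w) * (N1_a g 0 z')⁻¹ := by
      funext z'
      rw [N1_dmob, div_eq_mul_inv]
    have h1 := ((hL1.mul_const (N1_L g 0 w)).const_sub (N1_L g i.succ w)).mul hL0
    refine ⟨(N1_L g i.succ w - mob g z i * N1_L g 0 w) • L0 +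
      (N1_a g 0 z)⁻¹ • -(N1_L g 0 w • L1), ?_, fun w' => ?_⟩
    · rw [e]
      exact h1
    · simp only [ContinuousLinearMap.add_apply, ContinuousLinearMap.smul_apply, smul_eq_mul, hL,
        ContinuousLinearMap.neg_apply, hL1', N1_ddmob, N1_dmob]
      field_simp
      ring
  choose L hL hL' using key
  refine ⟨ContinuousLinearMap.pi L, ?_, fun w' => ?_⟩
  · rw [hasFDerivAt_pi']
    exact hL
  · funext i
    exact hL' i w'

theorem contDiffAt_mob {g : Mat} {z : V} (h : (g *ᵥ Zv z) 0 ≠ 0) : ContDiffAt ℝ ∞ (mob g) z := by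
  rw [N1_Zv] at h
  rw [contDiffAt_pi]
  intro i
  have e : (fun z => mob g z i) = fun z => N1_a g i.succ z * (N1_a g 0 z)⁻¹ := by
    funext z
    rw [N1_mob, div_eq_mul_inv]
  rw [e]
  exact (N1_contA g i.succ).contDiffAt.mul ((N1_contA g 0).contDiffAt.inv h)

theorem fderiv_mob {g : Mat} {z : V} (h : (g *ᵥ Zv z) 0 ≠ 0) (w : V) :
    fderiv ℝ (mob g) z w = dmob g z w := by
  rw [N1_Zv] at h
  obtain ⟨L, hL, hL'⟩ := N1_hasMobV h
  rw [hL.fderiv, hL']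

theorem fderiv_dmob {g : Mat} {z : V} (h : (g *ᵥ Zv z) 0 ≠ 0) (w w' : V) :
    fderiv ℝ (fun z' => dmob g z' w) z w' = ddmob g z w w' := by
  rw [N1_Zv] at h
  obtain ⟨L, hL, hL'⟩ := N1_hasDmob h w
  rw [hL.fderiv, hL']

theorem fderiv2_mob {g : Mat} {z : V} (h : (g *ᵥ Zv z) 0 ≠ 0) (w w' : V) :
    fderiv ℝ (fderiv ℝ (mob g)) z w w' = ddmob g z w w' := by
  have hc := contDiffAt_mob h
  have hd : DifferentiableAt ℝ (fderiv ℝ (mob g)) z :=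
    (hc.fderiv_right (m := 1) (by norm_cast)).differentiableAt (by norm_num)
  have h1 : fderiv ℝ (fun z' => fderiv ℝ (mob g) z' w') z w = fderiv ℝ (fderiv ℝ (mob g)) z w w' := by
    rw [(hd.hasFDerivAt.clm_apply (hasFDerivAt_const w' z)).fderiv]
    simp
  have hcont : Continuous fun z' => (g *ᵥ Zv z') 0 := by
    have : (fun z' => (g *ᵥ Zv z') 0) = N1_a g 0 := by
      funext z'
      rw [N1_Zv]
    rw [this]
    exact (N1_contA g 0).continuous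
  have h2 : (fun z' => fderiv ℝ (mob g) z' w') =ᶠ[𝓝 z] fun z' => dmob g z' w' := by
    filter_upwards [hcont.continuousAt.eventually_ne h] with z' hz'
    exact fderiv_mob hz' w'
  rw [← h1, h2.fderiv_eq, fderiv_dmob h]
  funext i
  rw [N1_ddmob, N1_ddmob]
  ring

theorem dmob_iL (g : Mat) (z w : V) : dmob g z (iL w) = iL (dmob g z w) := by
  funext i
  simp only [iL_apply, Pi.smul_apply, smul_eq_mul, N1_dmob, N1_L_apply]
  ring

theorem N1_gZ {g : Mat} {z : V} (h : (g *ᵥ Zv z) 0 ≠ 0) :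
    g *ᵥ Zv z = (g *ᵥ Zv z) 0 • Zv (mob g z) := by
  funext k
  refine Fin.cases ?_ (fun i => ?_) k
  · simp [Zv]
  · have h1 : Zv (mob g z) i.succ = mob g z i := by fin_cases i <;> rfl
    rw [Pi.smul_apply, h1, smul_eq_mul, mob, mul_div_cancel₀ _ h]

theorem N1_gW {g : Mat} {z : V} (h : (g *ᵥ Zv z) 0 ≠ 0) (w : V) :
    g *ᵥ Wv w = (g *ᵥ Zv z) 0 • Wv (dmob g z w) + (g *ᵥ Wv w) 0 • Zv (mob g z) := by
  funext k
  refine Fin.cases ?_ (fun i => ?_) k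
  · simp [Zv, Wv]
  · have h1 : Zv (mob g z) i.succ = mob g z i := by fin_cases i <;> rfl
    have h2 : Wv (dmob g z w) i.succ = dmob g z w i := by fin_cases i <;> rfl
    rw [Pi.add_apply, Pi.smul_apply, Pi.smul_apply, h1, h2, smul_eq_mul, smul_eq_mul, dmob,
      mul_div_cancel₀ _ h]
    ring

theorem N1_inv {g : Mat} {z : V} (hg : gᴴ * g = 1) (h : (g *ᵥ Zv z) 0 ≠ 0) :
    gᴴ *ᵥ Zv (mob g z) = ((g *ᵥ Zv z) 0)⁻¹ • Zv z := by
  have h1 : gᴴ *ᵥ (g *ᵥ Zv z) = Zv z := by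
    rw [Matrix.mulVec_mulVec, hg, Matrix.one_mulVec]
  rw [N1_gZ h, Matrix.mulVec_smul] at h1
  have h2 : gᴴ *ᵥ Zv (mob g z) =
      ((g *ᵥ Zv z) 0)⁻¹ • ((g *ᵥ Zv z) 0 • gᴴ *ᵥ Zv (mob g z)) := by
    rw [smul_smul, inv_mul_cancel₀ h, one_smul]
  rw [h2, h1]

theorem mob_inv {g : Mat} {z : V} (hg : gᴴ * g = 1) (h : (g *ᵥ Zv z) 0 ≠ 0) :
    (gᴴ *ᵥ Zv (mob g z)) 0 ≠ 0 ∧ mob gᴴ (mob g z) = z := by
  have h1 := N1_inv hg h
  have h2 : (gᴴ *ᵥ Zv (mob g z)) 0 = ((g *ᵥ Zv z) 0)⁻¹ := by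
    rw [h1, Pi.smul_apply, smul_eq_mul]
    simp [Zv]
  refine ⟨by rw [h2]; exact inv_ne_zero h, ?_⟩
  funext i
  have h3 : Zv z i.succ = z i := by fin_cases i <;> rfl
  show (gᴴ *ᵥ Zv (mob g z)) i.succ / (gᴴ *ᵥ Zv (mob g z)) 0 = z i
  rw [h2, h1, Pi.smul_apply, smul_eq_mul, h3, mul_div_assoc, mul_div_cancel₀]
  exact inv_ne_zero h

theorem N1_dmob_inv {g : Mat} {z : V} (hg : gᴴ * g = 1) (h : (g *ᵥ Zv z) 0 ≠ 0) (w : V) :
    dmob gᴴ (mob g z) (dmob g z w) = w := by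
  have h1 := N1_inv hg h
  have h2 : (gᴴ *ᵥ Zv (mob g z)) 0 = ((g *ᵥ Zv z) 0)⁻¹ := by
    rw [h1, Pi.smul_apply, smul_eq_mul]
    simp [Zv]
  have h4 : gᴴ *ᵥ (g *ᵥ Wv w) = Wv w := by
    rw [Matrix.mulVec_mulVec, hg, Matrix.one_mulVec]
  rw [N1_gW h w, Matrix.mulVec_add, Matrix.mulVec_smul, Matrix.mulVec_smul, h1] at h4
  have h5 : gᴴ *ᵥ Wv (dmob g z w) = ((g *ᵥ Zv z) 0)⁻¹ • Wv w -
      (((g *ᵥ Zv z) 0)⁻¹ * (g *ᵥ Wv w) 0 * ((g *ᵥ Zv z) 0)⁻¹) • Zv z := by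
    have h6 : (g *ᵥ Zv z) 0 • gᴴ *ᵥ Wv (dmob g z w) =
        Wv w - ((g *ᵥ Wv w) 0 * ((g *ᵥ Zv z) 0)⁻¹) • Zv z := by
      rw [smul_smul] at h4
      exact eq_sub_of_add_eq h4
    have h7 : gᴴ *ᵥ Wv (dmob g z w) =
        ((g *ᵥ Zv z) 0)⁻¹ • ((g *ᵥ Zv z) 0 • gᴴ *ᵥ Wv (dmob g z w)) := by
      rw [smul_smul, inv_mul_cancel₀ h, one_smul]
    rw [h7, h6, smul_sub, smul_smul]
    congr 2
    ring
  have h3 : ∀ i : Fin 2, Zv z i.succ = z i := by intro i; fin_cases i <;> rfl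
  have h3' : ∀ i : Fin 2, Wv w i.succ = w i := by intro i; fin_cases i <;> rfl
  funext i
  show ((gᴴ *ᵥ Wv (dmob g z w)) i.succ - mob gᴴ (mob g z) i * (gᴴ *ᵥ Wv (dmob g z w)) 0) /
    (gᴴ *ᵥ Zv (mob g z)) 0 = w i
  rw [(mob_inv hg h).2, h2, h5]
  simp only [Pi.sub_apply, Pi.smul_apply, smul_eq_mul, h3, h3']
  have h8 : Wv w 0 = 0 := rfl
  have h9 : Zv z 0 = 1 := rfl
  rw [h8, h9]
  field_simp
  ring

theorem dmob_inv {g : Mat} {z : V} (hg : gᴴ * g = 1) (h : (g *ᵥ Zv z) 0 ≠ 0) (w : V) :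
    dmob gᴴ (mob g z) (dmob g z w) = w ∧ dmob g z (dmob gᴴ (mob g z) w) = w := by
  refine ⟨N1_dmob_inv hg h w, ?_⟩
  have h1 := mob_inv hg h
  have hg' : gᴴᴴ * gᴴ = 1 := by
    rw [Matrix.conjTranspose_conjTranspose]
    exact mul_eq_one_comm.1 hg
  have h2 := N1_dmob_inv hg' h1.1 w
  rwa [Matrix.conjTranspose_conjTranspose, h1.2] at h2

end Pool.Agent.Helper46.M8
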