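import Pool.Agent.Helper46.M8.St.N1
import Pool.Agent.Helper46.M8.Ns

/-!
# M8, piece N2
-/

open Filter Metric Module Set
open scoped Topology ContDiff Matrix Matrix.Norms.Elementwise ComplexConjugate Manifold

set_option maxSynthPendingDepth 3

namespace Pool.Agent.Helper46.M8
open Pool.Agent.Helper20.PC Pool.Agent.Helper20.HP Pool.Agent.Helper20.M8 Pool.Agent.Helper20.MB

/-! ### N2 : Killing fields -/

theorem N2_KA (A : Mat) (z : V) (i : Fin 2) :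
    KA A z i = (A *ᵥ Zv z) i.succ - z i * (A *ᵥ Zv z) 0 := by
  simp only [KA, Matrix.mulVec, dotProduct, Fin.sum_univ_succ, Fin.sum_univ_zero, Zv]
  simp

theorem N2_dec (A : Mat) (z : V) :
    A *ᵥ Zv z = Wv (KA A z) + (A *ᵥ Zv z) 0 • Zv z := by
  funext k
  refine Fin.cases ?_ (fun i => ?_) k
  · simp [Zv, Wv]
  · have h1 : Zv z i.succ = z i := by fin_cases i <;> rfl
    have h2 : Wv (KA A z) i.succ = KA A z i := by fin_cases i <;> rfl
    rw [Pi.add_apply, Pi.smul_apply, h1, h2, smul_eq_mul, N2_KA]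
    ring

theorem KA_mob (A : Mat) {g : Mat} {z : V} (hg : gᴴ * g = 1) (h : (g *ᵥ Zv z) 0 ≠ 0) :
    KA A (mob g z) = dmob g z (KA (gᴴ * A * g) z) := by
  have hg' : g * gᴴ = 1 := mul_eq_one_comm.1 hg
  have hM : g * (gᴴ * A * g) = A * g := by
    rw [← Matrix.mul_assoc, ← Matrix.mul_assoc, hg', Matrix.one_mul]
  set M : Mat := gᴴ * A * g with hMd
  have e1 : (g *ᵥ Zv z) 0 • (A *ᵥ Zv (mob g z)) =
      (g *ᵥ Zv z) 0 • (Wv (dmob g z (KA M z)) +
        (((g *ᵥ Zv z) 0)⁻¹ * (g *ᵥ Wv (KA M z)) 0 + (M *ᵥ Zv z) 0) • Zv (mob g z)) := by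
    have e2 : (g *ᵥ Zv z) 0 • (A *ᵥ Zv (mob g z)) = g *ᵥ (M *ᵥ Zv z) := by
      rw [← Matrix.mulVec_smul, ← N1_gZ h, Matrix.mulVec_mulVec, Matrix.mulVec_mulVec, hM]
    have e4 : g *ᵥ (M *ᵥ Zv z) = (g *ᵥ Wv (KA M z)) + (M *ᵥ Zv z) 0 • (g *ᵥ Zv z) := by
      conv_lhs => rw [N2_dec M z]
      rw [Matrix.mulVec_add, Matrix.mulVec_smul]
    have e5 := N1_gW h (KA M z)
    have e6 := N1_gZ h
    rw [e2, e4]
    generalize (g *ᵥ Wv (KA M z)) 0 = p at *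
    generalize (g *ᵥ Zv z) 0 = a at *
    generalize (M *ᵥ Zv z) 0 = m at *
    rw [e5, e6, smul_add, smul_smul, smul_smul, mul_add, mul_inv_cancel_left₀ h, add_smul,
      ← add_assoc, mul_comm m a]
  have e3 : A *ᵥ Zv (mob g z) = Wv (dmob g z (KA M z)) +
        (((g *ᵥ Zv z) 0)⁻¹ * (g *ᵥ Wv (KA M z)) 0 + (M *ᵥ Zv z) 0) • Zv (mob g z) :=
    smul_right_injective _ h e1
  funext i
  have h1 : Zv (mob g z) i.succ = mob g z i := by fin_cases i <;> rfl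
  have h2 : Wv (dmob g z (KA M z)) i.succ = dmob g z (KA M z) i := by fin_cases i <;> rfl
  have h3 : Zv (mob g z) 0 = 1 := rfl
  have h4 : Wv (dmob g z (KA M z)) 0 = 0 := rfl
  rw [N2_KA, e3]
  simp only [Pi.add_apply, Pi.smul_apply, smul_eq_mul, h1, h2, h3, h4]
  ring

end Pool.Agent.Helper46.M8
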