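import Pool.Agent.Helper46.M8.St.A3
import Pool.Agent.Helper46.M8.Man
import Pool.Agent.Helper46.M8.Ns

/-!
# M8, piece N3
-/

open Filter Metric Module Set
open scoped Topology ContDiff Matrix Matrix.Norms.Elementwise ComplexConjugate Manifold

set_option maxSynthPendingDepth 3

namespace Pool.Agent.Helper46.M8
open Pool.Agent.Helper20.PC Pool.Agent.Helper20.HP Pool.Agent.Helper20.M8 Pool.Agent.Helper20.MB

/-! ### N3 : invariance of the Fubini-Study metric -/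

/-- the hermitian product of `ℂ³`. -/
private noncomputable def ip3 (a b : Fin 3 → ℂ) : ℂ := star a ⬝ᵥ b

private lemma ip3_inv {g : Mat} (hg : gᴴ * g = 1) (a b : Fin 3 → ℂ) :
    ip3 (g *ᵥ a) (g *ᵥ b) = ip3 a b := by
  rw [ip3, ip3, Matrix.star_mulVec, ← Matrix.dotProduct_mulVec, Matrix.mulVec_mulVec, hg,
    Matrix.one_mulVec]

private lemma ip3_expand (a b : Fin 3 → ℂ) :
    ip3 a b = conj (a 0) * b 0 + conj (a 1) * b 1 + conj (a 2) * b 2 := by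
  simp [ip3, dotProduct, Fin.sum_univ_three]

private lemma ip3_WW (u v : V) : ip3 (Wv u) (Wv v) = hip u v := by
  simp [ip3_expand, Wv, hip]

private lemma ip3_WZ (u z : V) : ip3 (Wv u) (Zv z) = hip u z := by
  simp [ip3_expand, Wv, Zv, hip]

private lemma ip3_ZW (z v : V) : ip3 (Zv z) (Wv v) = hip z v := by
  simp [ip3_expand, Wv, Zv, hip]

private lemma ip3_ZZ (z : V) : ip3 (Zv z) (Zv z) = (nz z : ℂ) := by
  simp only [ip3_expand, Zv, nz, Fin.sum_univ_two, Complex.ofReal_add, Complex.ofReal_one,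
    Complex.normSq_eq_conj_mul_self]
  simp
  ring

private lemma g_Z {g : Mat} {z : V} (h : (g *ᵥ Zv z) 0 ≠ 0) :
    g *ᵥ Zv z = (g *ᵥ Zv z) 0 • Zv (mob g z) := by
  have e : ∀ i : Fin 2, (g *ᵥ Zv z) 0 * mob g z i = (g *ᵥ Zv z) i.succ := fun i => by
    rw [mob, mul_div_cancel₀ _ h]
  ext k
  fin_cases k
  · simp [Zv]
  · exact (e 0).symm
  · exact (e 1).symm

private lemma g_W {g : Mat} {z : V} (h : (g *ᵥ Zv z) 0 ≠ 0) (w : V) :
    g *ᵥ Wv w = (g *ᵥ Zv z) 0 • Wv (dmob g z w) + (g *ᵥ Wv w) 0 • Zv (mob g z) := by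
  have e : ∀ i : Fin 2, (g *ᵥ Zv z) 0 * dmob g z w i + (g *ᵥ Wv w) 0 * mob g z i =
      (g *ᵥ Wv w) i.succ := fun i => by
    rw [dmob, mul_div_cancel₀ _ h]
    ring
  ext k
  fin_cases k
  · simp [Zv, Wv]
  · exact (e 0).symm
  · exact (e 1).symm

private lemma ip3_smul (s t : ℂ) (a b : Fin 3 → ℂ) : ip3 (s • a) (t • b) = conj s * t * ip3 a b := by
  simp only [ip3_expand, Pi.smul_apply, smul_eq_mul, map_mul]
  ring

private lemma ip3_add_left (a a' b : Fin 3 → ℂ) : ip3 (a + a') b = ip3 a b + ip3 a' b := by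
  simp only [ip3_expand, Pi.add_apply, map_add]
  ring

private lemma ip3_add_right (a b b' : Fin 3 → ℂ) : ip3 a (b + b') = ip3 a b + ip3 a b' := by
  simp only [ip3_expand, Pi.add_apply]
  ring

private lemma Hf_mob {g : Mat} {z : V} (hg : gᴴ * g = 1) (h : (g *ᵥ Zv z) 0 ≠ 0) (u v : V) :
    Hf (mob g z) (dmob g z u) (dmob g z v) = Hf z u v := by
  have hc : conj ((g *ᵥ Zv z) 0) ≠ 0 := by
    intro hh
    exact h ((map_eq_zero _).1 hh)
  have e1 := ip3_inv hg (Zv z) (Zv z)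
  have e2 := ip3_inv hg (Wv u) (Zv z)
  have e3 := ip3_inv hg (Zv z) (Wv v)
  have e4 := ip3_inv hg (Wv u) (Wv v)
  rw [g_W h u, g_W h v, ip3_add_left, ip3_add_right, ip3_add_right] at e4
  rw [g_W h u, g_Z h, ip3_add_left] at e2
  rw [g_W h v, g_Z h, ip3_add_right] at e3
  rw [g_Z h] at e1
  simp only [ip3_smul, ip3_WW, ip3_WZ, ip3_ZW, ip3_ZZ] at e1 e2 e3 e4
  have hz0 : ((g *ᵥ Zv z) 0 • Zv (mob g z)) 0 = (g *ᵥ Zv z) 0 := by simp [Zv]
  rw [hz0] at e2 e3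
  have hn : (nz (mob g z) : ℂ) ≠ 0 := by
    exact_mod_cast (nz_pos (mob g z)).ne'
  rw [Hf, Hf, ← e1, ← e2, ← e3, ← e4]
  field_simp
  ring

theorem h0_mob {g : Mat} {z : V} (hg : gᴴ * g = 1) (h : (g *ᵥ Zv z) 0 ≠ 0) (u v : V) :
    h0 (mob g z) (dmob g z u) (dmob g z v) = h0 z u v := by
  rw [← Hf_re, ← Hf_re, Hf_mob hg h]

theorem omL_mob {g : Mat} {z : V} (hg : gᴴ * g = 1) (h : (g *ᵥ Zv z) 0 ≠ 0) (u v : V) :
    omL (mob g z) (dmob g z u) (dmob g z v) = omL z u v := by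
  rw [← Hf_im, ← Hf_im, Hf_mob hg h]

end Pool.Agent.Helper46.M8
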