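import Pool.Agent.Helper88.HP.P1
import Pool.Agent.Helper46.M8.Ns

/-!
# M8, piece N4
-/

open Filter Metric Module Set
open scoped Topology ContDiff Matrix Matrix.Norms.Elementwise ComplexConjugate Manifold

set_option maxSynthPendingDepth 3

namespace Pool.Agent.Helper46.M8
open Pool.Agent.Helper20.PC Pool.Agent.Helper20.HP Pool.Agent.Helper20.M8 Pool.Agent.Helper20.MB

/-! ### N4 : Christoffel symbols under pull back -/
theorem Gam_pullback {F F' : Type*} [NormedAddCommGroup F] [NormedSpace ℝ F] [FiniteDimensional ℝ F]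
    [NormedAddCommGroup F'] [NormedSpace ℝ F'] [FiniteDimensional ℝ F']
    {G : F → F →L[ℝ] F →L[ℝ] ℝ} {G' : F' → F' →L[ℝ] F' →L[ℝ] ℝ} {φ : F → F'} {z : F}
    (hφ : ContDiffAt ℝ 3 φ z) (hG' : MetAt G' (φ z)) (hG : MetAt G z)
    (hs : Function.Surjective (fderiv ℝ φ z))
    (h : ∀ᶠ w in 𝓝 z, ∀ a b, G w a b = G' (φ w) (fderiv ℝ φ w a) (fderiv ℝ φ w b)) (u v : F) :
    fderiv ℝ φ z (Gam G z u v)
      = Gam G' (φ z) (fderiv ℝ φ z u) (fderiv ℝ φ z v) + fderiv ℝ (fderiv ℝ φ) z u v := by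
  have key : ∀ w, G' (φ z) (fderiv ℝ φ z (Gam G z u v)) (fderiv ℝ φ z w)
      = G' (φ z) (Gam G' (φ z) (fderiv ℝ φ z u) (fderiv ℝ φ z v)
        + fderiv ℝ (fderiv ℝ φ) z u v) (fderiv ℝ φ z w) := by
    intro w
    have h1 : chr G z u v w = _ := Pool.Agent.Helper88.HP.chr_gen
      (ContinuousLinearMap.id ℝ (F' →L[ℝ] F' →L[ℝ] ℝ)) (g := G') (φ := φ) (z := z)
      (β := fun _ => (0 : F →L[ℝ] ℝ)) (G := G) hG'.smooth hφ contDiffAt_const hG' hG
      (by
        filter_upwards [h] with w hw a b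
        rw [hw a b]
        simp) (a := u) (b := v) (by simp) (by simp) w
    rw [← h.self_of_nhds, G_Gam hG, h1]
    simp
  generalize hX : fderiv ℝ φ z (Gam G z u v) = X at key ⊢
  generalize hY : Gam G' (φ z) (fderiv ℝ φ z u) (fderiv ℝ φ z v) + fderiv ℝ (fderiv ℝ φ) z u v = Y
    at key ⊢
  by_contra hne
  obtain ⟨w, hw⟩ := hs (X - Y)
  have h2 := hG'.pos.self_of_nhds (X - Y) (sub_ne_zero.2 hne)
  have h3 := key w
  rw [hw] at h3
  have h4 : G' (φ z) (X - Y) (X - Y) = G' (φ z) X (X - Y) - G' (φ z) Y (X - Y) := by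
    rw [map_sub (G' (φ z)) X Y, _root_.sub_apply]
  rw [h4, h3, sub_self] at h2
  exact lt_irrefl _ h2

end Pool.Agent.Helper46.M8
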