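import Pool.Agent.Helper46.M8.St.C1
import Pool.Agent.Helper46.M8.St.N2
import Pool.Agent.Helper46.M8.St.N3
import Pool.Agent.Helper46.M8.St.N4
import Pool.Agent.Helper46.M8.Ns

/-!
# M8, piece N5
-/

open Filter Metric Module Set
open scoped Topology ContDiff Matrix Matrix.Norms.Elementwise ComplexConjugate Manifold

set_option maxSynthPendingDepth 3

namespace Pool.Agent.Helper46.M8
open Pool.Agent.Helper20.PC Pool.Agent.Helper20.HP Pool.Agent.Helper20.M8 Pool.Agent.Helper20.MB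

/-! ### N5 : invariance of the base metric -/
theorem unitary_mul {U g : Mat} (hU : Uᴴ * U = 1) (hg : gᴴ * g = 1) :
    (U * gᴴ)ᴴ * (U * gᴴ) = 1 := by
  have hg' : g * gᴴ = 1 := mul_eq_one_comm.mp hg
  rw [Matrix.conjTranspose_mul, Matrix.conjTranspose_conjTranspose]
  calc g * Uᴴ * (U * gᴴ) = g * (Uᴴ * U) * gᴴ := by simp only [Matrix.mul_assoc]
    _ = 1 := by rw [hU, Matrix.mul_one, hg']

lemma N5_Kf_mob {U g : Mat} {z : V} (hg : gᴴ * g = 1)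
    (h : (g *ᵥ Zv z) 0 ≠ 0) (i : Fin 8) :
    Kf (U * gᴴ) i (mob g z) = dmob g z (Kf U i z) := by
  unfold Kf
  rw [KA_mob _ hg h]
  congr 2
  rw [Matrix.conjTranspose_mul, Matrix.conjTranspose_conjTranspose]
  calc gᴴ * (g * Uᴴ * Bs i * (U * gᴴ)) * g = (gᴴ * g) * (Uᴴ * Bs i * U) * (gᴴ * g) := by
        simp only [Matrix.mul_assoc]
    _ = Uᴴ * Bs i * U := by rw [hg, Matrix.one_mul, Matrix.mul_one]

theorem CC_mob {U g : Mat} {δ : ℝ} {z : V} (hU : Uᴴ * U = 1) (hδ : |δ| ≤ 1/100) (hg : gᴴ * g = 1)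
    (h : (g *ᵥ Zv z) 0 ≠ 0) (ξ : V →L[ℝ] ℝ) :
    CC (U * gᴴ) δ (mob g z) ξ = dmob g z (CC U δ z (ξ ∘L fderiv ℝ (mob g) z)) := by
  rw [CC_apply, CC_apply, ← fderiv_mob h, map_sum]
  apply Finset.sum_congr rfl
  intro i _
  rw [map_sum]
  apply Finset.sum_congr rfl
  intro j _
  rw [map_smul, N5_Kf_mob hg h i, N5_Kf_mob hg h j, ContinuousLinearMap.comp_apply,
    fderiv_mob h, fderiv_mob h]

lemma N5_hm {U g : Mat} {δ : ℝ} {z : V} (hU : Uᴴ * U = 1) (hδ : |δ| ≤ 1/100) (hg : gᴴ * g = 1)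
    (h : (g *ᵥ Zv z) 0 ≠ 0) (u : V) :
    hm U δ z u = (hm (U * gᴴ) δ (mob g z) (dmob g z u)) ∘L fderiv ℝ (mob g) z := by
  have h1 := CC_mob hU hδ hg h (hm (U * gᴴ) δ (mob g z) (dmob g z u))
  rw [CC_hm (unitary_mul hU hg) hδ] at h1
  have h2 := congrArg (dmob gᴴ (mob g z)) h1
  rw [(dmob_inv hg h _).1, (dmob_inv hg h _).1] at h2
  conv_lhs => rw [h2]
  rw [hm_CC hU hδ]

theorem hm_mob {U g : Mat} {δ : ℝ} {z : V} (hU : Uᴴ * U = 1) (hδ : |δ| ≤ 1/100) (hg : gᴴ * g = 1)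
    (h : (g *ᵥ Zv z) 0 ≠ 0) (u v : V) :
    hm (U * gᴴ) δ (mob g z) (dmob g z u) (dmob g z v) = hm U δ z u v := by
  rw [N5_hm hU hδ hg h u, ContinuousLinearMap.comp_apply, fderiv_mob h]

theorem momL_mob {U g : Mat} {δ : ℝ} {z : V} (hU : Uᴴ * U = 1) (hδ : |δ| ≤ 1/100) (hg : gᴴ * g = 1)
    (h : (g *ᵥ Zv z) 0 ≠ 0) (i : Fin 8) (v : V) :
    momL (U * gᴴ) δ (mob g z) i (dmob g z v) = momL U δ z i v := by
  rw [momL_apply, momL_apply, N5_Kf_mob hg h i, hm_mob hU hδ hg h]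

theorem JJ_mob {U g : Mat} {δ : ℝ} {z : V} (hU : Uᴴ * U = 1) (hδ : |δ| ≤ 1/100) (hg : gᴴ * g = 1)
    (h : (g *ᵥ Zv z) 0 ≠ 0) (v : V) :
    JJ (U * gᴴ) δ (mob g z) (dmob g z v) = dmob g z (JJ U δ z v) := by
  unfold JJ
  rw [ContinuousLinearMap.comp_apply, ContinuousLinearMap.comp_apply, CC_mob hU hδ hg h]
  congr 2
  ext w
  rw [ContinuousLinearMap.comp_apply, fderiv_mob h, omL_mob hg h]

theorem Gam_mob {U g : Mat} {δ : ℝ} {z : V} (hU : Uᴴ * U = 1) (hδ : |δ| ≤ 1/100) (hg : gᴴ * g = 1)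
    (h : (g *ᵥ Zv z) 0 ≠ 0) (u v : V) :
    Gam (hm (U * gᴴ) δ) (mob g z) (dmob g z u) (dmob g z v)
      = dmob g z (Gam (hm U δ) z u v) - ddmob g z u v := by
  have hc : Continuous fun w : V => (g *ᵥ Zv w) 0 := by
    have e : (fun w : V => (g *ᵥ Zv w) 0) = fun w : V => g 0 0 + g 0 1 * w 0 + g 0 2 * w 1 := by
      funext w
      simp [Matrix.mulVec, dotProduct, Fin.sum_univ_three, Zv]
    rw [e]
    fun_prop
  have hev : ∀ᶠ w in 𝓝 z, (g *ᵥ Zv w) 0 ≠ 0 := hc.continuousAt.eventually_ne h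
  have hs : Function.Surjective (fderiv ℝ (mob g) z) := by
    intro w
    refine ⟨dmob gᴴ (mob g z) w, ?_⟩
    rw [fderiv_mob h]
    exact (dmob_inv hg h w).2
  have key := Gam_pullback (G := hm U δ) (G' := hm (U * gᴴ) δ) (φ := mob g) (z := z)
    ((contDiffAt_mob h).of_le (by exact WithTop.coe_le_coe.2 le_top)) (hm_metAt (unitary_mul hU hg) hδ _)
    (hm_metAt hU hδ z) hs
    (by
      filter_upwards [hev] with w hw a b
      rw [fderiv_mob hw, fderiv_mob hw, hm_mob hU hδ hg hw]) u v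
  rw [fderiv_mob h, fderiv_mob h, fderiv_mob h, fderiv2_mob h] at key
  rw [key]
  abel

end Pool.Agent.Helper46.M8
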