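import Pool.Agent.Helper46.M8.St.N5

/-!
# M8, piece N6
-/

open Filter Metric Module Set
open scoped Topology ContDiff Matrix Matrix.Norms.Elementwise ComplexConjugate Manifold

set_option maxSynthPendingDepth 3

namespace Pool.Agent.Helper46.M8
open Pool.Agent.Helper20.PC Pool.Agent.Helper20.HP Pool.Agent.Helper20.M8 Pool.Agent.Helper20.MB

/-! ### N6 : invariance of the connection, of `k` and of `S` -/
private lemma mulVec_Wv_add (g : Mat) (u v : V) : g *ᵥ Wv (u + v) = g *ᵥ Wv u + g *ᵥ Wv v := by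
  rw [← Matrix.mulVec_add]
  congr 1
  ext i
  fin_cases i <;> simp [Wv]

private lemma mulVec_Wv_smul (g : Mat) (r : ℝ) (u : V) : g *ᵥ Wv (r • u) = r • (g *ᵥ Wv u) := by
  rw [← Matrix.mulVec_smul]
  congr 1
  ext i
  fin_cases i <;> simp [Wv]

private lemma dmob_add' (g : Mat) (z u v : V) : dmob g z (u + v) = dmob g z u + dmob g z v := by
  ext i
  simp only [dmob, mulVec_Wv_add, Pi.add_apply]
  ring

private lemma dmob_smul' (g : Mat) (z : V) (r : ℝ) (u : V) :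
    dmob g z (r • u) = r • dmob g z u := by
  ext i
  simp only [dmob, mulVec_Wv_smul, Pi.smul_apply, Complex.real_smul]
  ring

private lemma dmob_sub' (g : Mat) (z u v : V) : dmob g z (u - v) = dmob g z u - dmob g z v := by
  rw [sub_eq_add_neg, dmob_add', ← neg_one_smul ℝ v, dmob_smul']
  simp [sub_eq_add_neg]

private lemma ddmob_comm' (g : Mat) (z u v : V) : ddmob g z u v = ddmob g z v u := by
  ext i
  simp only [ddmob]
  ring

theorem AL_mob {U g : Mat} {δ : ℝ} {z : V} (hU : Uᴴ * U = 1) (hδ : |δ| ≤ 1/100) (hg : gᴴ * g = 1)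
    (h : (g *ᵥ Zv z) 0 ≠ 0) (ε : ℝ) (ζ : V) (y : Yf) :
    AL (U * gᴴ) δ ε (mob g z) (dmob g z ζ) (y.1, dmob g z y.2)
      = ((AL U δ ε z ζ y).1, dmob g z (AL U δ ε z ζ y).2 - ddmob g z y.2 ζ) := by
  have hU' := unitary_mul hU hg
  rw [AL_apply, AL_apply]
  rw [GamL_eq (hm_metAt hU' hδ (mob g z)).smooth, GamL_eq (hm_metAt hU hδ z).smooth]
  simp only [hm_mob hU hδ hg h, momL_mob hU hδ hg h, JJ_mob hU hδ hg h, Gam_mob hU hδ hg h,
    dmob_add', dmob_smul']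
  rw [ddmob_comm' g z y.2 ζ]
  refine Prod.ext rfl ?_
  simp only
  abel

theorem kL_mob {U g : Mat} {δ : ℝ} {z : V} (hU : Uᴴ * U = 1) (hδ : |δ| ≤ 1/100) (hg : gᴴ * g = 1)
    (h : (g *ᵥ Zv z) 0 ≠ 0) (y p : Yf) :
    kL (U * gᴴ) δ (mob g z) (y.1, dmob g z y.2) (p.1, dmob g z p.2) = kL U δ z y p := by
  rw [kL_apply, kL_apply]
  simp only [hm_mob hU hδ hg h]

theorem SL_mob {U g : Mat} {δ : ℝ} {z : V} (hU : Uᴴ * U = 1) (hδ : |δ| ≤ 1/100) (hg : gᴴ * g = 1)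
    (h : (g *ᵥ Zv z) 0 ≠ 0) (ε lam : ℝ) (a b c d : Yf) :
    SL (U * gᴴ) δ ε lam (mob g z) (a.1, dmob g z a.2) (b.1, dmob g z b.2) (c.1, dmob g z c.2)
      (d.1, dmob g z d.2) = SL U δ ε lam z a b c d := by
  rw [SL_apply, SL_apply]
  simp only [← dmob_smul', ← dmob_sub', momL_mob hU hδ hg h, omL_mob hg h, h0_mob hg h]

end Pool.Agent.Helper46.M8
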