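import Pool.Agent.Helper20.MB.SphM
import Pool.Agent.Helper46.M8.St.N6
import Pool.Agent.Helper46.M8.Ns

/-!
# M8, piece N7
-/

open Filter Metric Module Set
open scoped Topology ContDiff Matrix Matrix.Norms.Elementwise ComplexConjugate Manifold

set_option maxSynthPendingDepth 3

namespace Pool.Agent.Helper46.M8
open Pool.Agent.Helper20.PC Pool.Agent.Helper20.HP Pool.Agent.Helper20.M8 Pool.Agent.Helper20.MB

/-! ### N7 : invariance of the metric -/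

private lemma N7_eq (g : Mat) (i : Fin 2) :
    (fun x : V × Yf => dmob g x.1 x.2.2 i) = fun x : V × Yf =>
      (N1_L g i.succ x.2.2 - mob g x.1 i * N1_L g 0 x.2.2) * (N1_a g 0 x.1)⁻¹ := by
  funext x
  rw [N1_dmob, div_eq_mul_inv]

private lemma N7_mobc {g : Mat} {x : V × Yf} (h : (g *ᵥ Zv x.1) 0 ≠ 0) (i : Fin 2) :
    ContDiffAt ℝ ∞ (fun x : V × Yf => mob g x.1 i) x :=
  ((contDiffAt_pi.1 (contDiffAt_mob h)) i).comp x contDiffAt_fst

private lemma N7_third {g : Mat} {x : V × Yf} (h : (g *ᵥ Zv x.1) 0 ≠ 0) :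
    ContDiffAt ℝ ∞ (fun x : V × Yf => dmob g x.1 x.2.2) x := by
  rw [contDiffAt_pi]
  intro i
  rw [N7_eq]
  have h22 : ContDiff ℝ ∞ (fun x : V × Yf => x.2.2) := contDiff_snd.comp contDiff_snd
  have h1 : ContDiffAt ℝ ∞ (fun x : V × Yf => N1_L g i.succ x.2.2) x :=
    ((N1_L g i.succ).contDiff.comp h22).contDiffAt
  have h2 : ContDiffAt ℝ ∞ (fun x : V × Yf => N1_L g 0 x.2.2) x :=
    ((N1_L g 0).contDiff.comp h22).contDiffAt
  have h3 : ContDiffAt ℝ ∞ (fun x : V × Yf => N1_a g 0 x.1) x :=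
    ((N1_contA g 0).comp contDiff_fst).contDiffAt
  rw [N1_Zv] at h
  exact (h1.sub ((N7_mobc (by rw [N1_Zv]; exact h) i).mul h2)).mul (h3.inv h)

theorem contDiffAt_Phi {g : Mat} {x : V × Yf} (h : (g *ᵥ Zv x.1) 0 ≠ 0) :
    ContDiffAt ℝ ∞ (Phi g) x := by
  unfold Phi
  exact ((contDiffAt_mob h).comp x contDiffAt_fst).prodMk
    (ContDiffAt.prodMk (contDiff_fst.comp contDiff_snd).contDiffAt (N7_third h))

private lemma N7_dthird {g : Mat} {x : V × Yf} (h : (g *ᵥ Zv x.1) 0 ≠ 0) (u : V × Yf) :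
    fderiv ℝ (fun x : V × Yf => dmob g x.1 x.2.2) x u
      = dmob g x.1 u.2.2 + ddmob g x.1 x.2.2 u.1 := by
  have h' := h
  rw [N1_Zv] at h'
  have key : ∀ i : Fin 2, ∃ L : V × Yf →L[ℝ] ℂ,
      HasFDerivAt (fun x : V × Yf => dmob g x.1 x.2.2 i) L x ∧
      ∀ u, L u = dmob g x.1 u.2.2 i + ddmob g x.1 x.2.2 u.1 i := by
    intro i
    obtain ⟨L0, hL0, hL⟩ := N1_hasInv h'
    obtain ⟨L1, hL1, hL1'⟩ := N1_hasMob h' i
    have f1 : HasFDerivAt (fun x : V × Yf => x.1) (ContinuousLinearMap.fst ℝ V Yf) x :=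
      hasFDerivAt_fst
    have f2 : HasFDerivAt (fun x : V × Yf => x.2.2)
        ((ContinuousLinearMap.snd ℝ ℝ V).comp (ContinuousLinearMap.snd ℝ V Yf)) x :=
      ((ContinuousLinearMap.snd ℝ ℝ V).comp (ContinuousLinearMap.snd ℝ V Yf)).hasFDerivAt
    have g0 := hL0.comp x f1
    have g1 := hL1.comp x f1
    have l1 := (N1_L g i.succ).hasFDerivAt.comp x f2
    have l0 := (N1_L g 0).hasFDerivAt.comp x f2
    have hh := (l1.sub (g1.mul l0)).mul g0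
    refine ⟨(N1_L g i.succ x.2.2 - mob g x.1 i * N1_L g 0 x.2.2) •
          L0.comp (ContinuousLinearMap.fst ℝ V Yf)
        + (N1_a g 0 x.1)⁻¹ • ((N1_L g i.succ).comp
              ((ContinuousLinearMap.snd ℝ ℝ V).comp (ContinuousLinearMap.snd ℝ V Yf))
            - (mob g x.1 i • (N1_L g 0).comp
                ((ContinuousLinearMap.snd ℝ ℝ V).comp (ContinuousLinearMap.snd ℝ V Yf))
              + N1_L g 0 x.2.2 • L1.comp (ContinuousLinearMap.fst ℝ V Yf))), ?_, ?_⟩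
    · rw [N7_eq]
      exact hh
    · intro u
      simp only [ContinuousLinearMap.add_apply, ContinuousLinearMap.smul_apply, smul_eq_mul,
        ContinuousLinearMap.sub_apply, ContinuousLinearMap.comp_apply,
        ContinuousLinearMap.coe_fst', ContinuousLinearMap.coe_snd', Function.comp_apply, hL, hL1',
        N1_ddmob, N1_dmob]
      field_simp
      ring
  choose L hL hL' using key
  have hF : HasFDerivAt (fun x : V × Yf => dmob g x.1 x.2.2) (ContinuousLinearMap.pi L) x := by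
    rw [hasFDerivAt_pi']
    exact hL
  rw [hF.fderiv]
  funext i
  simp only [ContinuousLinearMap.coe_pi', Pi.add_apply]
  exact hL' i u

theorem fderiv_Phi {g : Mat} {x : V × Yf} (h : (g *ᵥ Zv x.1) 0 ≠ 0) (u : V × Yf) :
    fderiv ℝ (Phi g) x u = dPhi g x u := by
  have d1 : HasFDerivAt (fun x : V × Yf => mob g x.1)
      ((fderiv ℝ (mob g) x.1).comp (ContinuousLinearMap.fst ℝ V Yf)) x :=
    (((contDiffAt_mob h).differentiableAt (by simp)).hasFDerivAt).comp x hasFDerivAt_fst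
  have d2 : HasFDerivAt (fun x : V × Yf => x.2.1)
      ((ContinuousLinearMap.fst ℝ ℝ V).comp (ContinuousLinearMap.snd ℝ V Yf)) x :=
    ((ContinuousLinearMap.fst ℝ ℝ V).comp (ContinuousLinearMap.snd ℝ V Yf)).hasFDerivAt
  have d3 := ((N7_third h).differentiableAt (by simp)).hasFDerivAt
  have hF : HasFDerivAt (Phi g) _ x := d1.prodMk (d2.prodMk d3)
  rw [hF.fderiv]
  simp only [ContinuousLinearMap.prod_apply, ContinuousLinearMap.comp_apply,
    ContinuousLinearMap.coe_fst', ContinuousLinearMap.coe_snd', fderiv_mob h, N7_dthird h, dPhi]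

private lemma N7_Lam {U g : Mat} {δ : ℝ} {x : V × Yf} (hU : Uᴴ * U = 1) (hδ : |δ| ≤ 1/100)
    (hg : gᴴ * g = 1) (h : (g *ᵥ Zv x.1) 0 ≠ 0) (ε : ℝ) (u : V × Yf) :
    (dPhi g x u).2 + AL (U * gᴴ) δ ε (Phi g x).1 (dPhi g x u).1 (Phi g x).2
      = ((u.2 + AL U δ ε x.1 u.1 x.2).1, dmob g x.1 (u.2 + AL U δ ε x.1 u.1 x.2).2) := by
  have e1 : AL (U * gᴴ) δ ε (Phi g x).1 (dPhi g x u).1 (Phi g x).2
      = AL (U * gᴴ) δ ε (mob g x.1) (dmob g x.1 u.1) (x.2.1, dmob g x.1 x.2.2) := rfl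
  rw [e1, AL_mob hU hδ hg h]
  have e2 : ∀ a b : V, dmob g x.1 (a + b) = dmob g x.1 a + dmob g x.1 b := by
    intro a b
    rw [← fderiv_mob h, ← fderiv_mob h, ← fderiv_mob h, map_add]
  refine Prod.ext rfl ?_
  simp only [dPhi, Prod.snd_add, e2]
  abel

theorem R_mob {U g : Mat} {δ : ℝ} {x : V × Yf} (hU : Uᴴ * U = 1) (hδ : |δ| ≤ 1/100)
    (hg : gᴴ * g = 1) (h : (g *ᵥ Zv x.1) 0 ≠ 0) (hx : x.2 ≠ 0) (ε lam η : ℝ) (u v : V × Yf) :
    (Dd (U * gᴴ) δ ε lam).R η (Phi g x) (dPhi g x u) (dPhi g x v) = (Dd U δ ε lam).R η x u v := by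
  have hk : kL U δ x.1 x.2 x.2 ≠ 0 := by
    rw [kL_apply]
    have hnn : ∀ w : V, 0 ≤ hm U δ x.1 w w := by
      intro w
      by_cases hw : w = 0
      · rw [hw]; simp
      · exact (hm_pos hU hδ x.1 w hw).le
    by_cases h2 : x.2.2 = 0
    · have h1 : x.2.1 ≠ 0 := by
        intro h1
        exact hx (Prod.ext h1 h2)
      have := hnn x.2.2
      have := mul_self_pos.2 h1
      positivity
    · have := hm_pos hU hδ x.1 x.2.2 h2
      have := mul_self_nonneg x.2.1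
      positivity
  have hk1 : (Dd U δ ε lam).k x.1 x.2 x.2 ≠ 0 := hk
  have hk' : kL (U * gᴴ) δ (mob g x.1) (x.2.1, dmob g x.1 x.2.2) (x.2.1, dmob g x.1 x.2.2)
      = kL U δ x.1 x.2 x.2 := kL_mob hU hδ hg h x.2 x.2
  have hk2 : (Dd (U * gᴴ) δ ε lam).k (Phi g x).1 (Phi g x).2 (Phi g x).2 ≠ 0 := by
    change kL (U * gᴴ) δ (mob g x.1) (x.2.1, dmob g x.1 x.2.2) (x.2.1, dmob g x.1 x.2.2) ≠ 0
    rw [hk']
    exact hk
  rw [BD.R_apply _ _ _ _ _ hk1, BD.R_apply _ _ _ _ _ hk2]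
  have hu := N7_Lam hU hδ hg h ε u
  have hv := N7_Lam hU hδ hg h ε v
  change hm (U * gᴴ) δ (Phi g x).1 (dPhi g x u).1 (dPhi g x v).1
      + η ^ 2 * ((kL (U * gᴴ) δ (Phi g x).1 (Phi g x).2 (Phi g x).2)⁻¹
          * kL (U * gᴴ) δ (Phi g x).1
            ((dPhi g x u).2 + AL (U * gᴴ) δ ε (Phi g x).1 (dPhi g x u).1 (Phi g x).2)
            ((dPhi g x v).2 + AL (U * gᴴ) δ ε (Phi g x).1 (dPhi g x v).1 (Phi g x).2)
        - ((kL (U * gᴴ) δ (Phi g x).1 (Phi g x).2 (Phi g x).2)⁻¹) ^ 2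
          * (kL (U * gᴴ) δ (Phi g x).1 (Phi g x).2
              ((dPhi g x u).2 + AL (U * gᴴ) δ ε (Phi g x).1 (dPhi g x u).1 (Phi g x).2)
            * kL (U * gᴴ) δ (Phi g x).1 (Phi g x).2
              ((dPhi g x v).2 + AL (U * gᴴ) δ ε (Phi g x).1 (dPhi g x v).1 (Phi g x).2)))
      - η ^ 4 * (((kL (U * gᴴ) δ (Phi g x).1 (Phi g x).2 (Phi g x).2)⁻¹) ^ 2
        * SL (U * gᴴ) δ ε lam (Phi g x).1 (Phi g x).2
            ((dPhi g x u).2 + AL (U * gᴴ) δ ε (Phi g x).1 (dPhi g x u).1 (Phi g x).2) (Phi g x).2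
            ((dPhi g x v).2 + AL (U * gᴴ) δ ε (Phi g x).1 (dPhi g x v).1 (Phi g x).2)) = _
  rw [hu, hv]
  change hm (U * gᴴ) δ (mob g x.1) (dmob g x.1 u.1) (dmob g x.1 v.1) + _ - _ = _
  simp only [Phi]
  rw [hm_mob hU hδ hg h, hk', kL_mob hU hδ hg h, kL_mob hU hδ hg h, kL_mob hU hδ hg h,
    SL_mob hU hδ hg h]
  rfl

end Pool.Agent.Helper46.M8
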