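import Pool.Agent.Helper46.M8.St.N3
import Pool.Agent.Helper46.M8.Ns

/-!
# M8, piece T4
-/

open Filter Metric Module Set
open scoped Topology ContDiff Matrix Matrix.Norms.Elementwise ComplexConjugate Manifold

set_option maxSynthPendingDepth 3

namespace Pool.Agent.Helper46.M8
open Pool.Agent.Helper20.PC Pool.Agent.Helper20.HP Pool.Agent.Helper20.M8 Pool.Agent.Helper20.MB

/-! ### T4 : invariance of `Theta` -/
private theorem t4_mul (g : Mat) (a b : Fin 3 → ℂ) :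
    g * Matrix.vecMulVec a (star b) * gᴴ = Matrix.vecMulVec (g *ᵥ a) (star (g *ᵥ b)) := by
  rw [Matrix.mul_vecMulVec, Matrix.vecMulVec_mul, Matrix.star_mulVec]

private theorem t4_Zv {g : Mat} {z : V} (h : (g *ᵥ Zv z) 0 ≠ 0) :
    g *ᵥ Zv z = (g *ᵥ Zv z) 0 • Zv (mob g z) := by
  funext i
  refine Fin.cases ?_ (fun j => ?_) i
  · simp [Zv]
  · have h1 : Zv (mob g z) j.succ = mob g z j := by
      fin_cases j <;> rfl
    rw [Pi.smul_apply, h1, smul_eq_mul]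
    unfold mob
    field_simp

private theorem t4_Wv {g : Mat} {z : V} (h : (g *ᵥ Zv z) 0 ≠ 0) (w : V) :
    g *ᵥ Wv w = (g *ᵥ Zv z) 0 • Wv (dmob g z w) + (g *ᵥ Wv w) 0 • Zv (mob g z) := by
  funext i
  refine Fin.cases ?_ (fun j => ?_) i
  · simp [Zv, Wv]
  · have h1 : Zv (mob g z) j.succ = mob g z j := by
      fin_cases j <;> rfl
    have h2 : Wv (dmob g z w) j.succ = dmob g z w j := by
      fin_cases j <;> rfl
    rw [Pi.add_apply, Pi.smul_apply, Pi.smul_apply, h1, h2, smul_eq_mul, smul_eq_mul]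
    unfold dmob
    field_simp
    ring

private theorem t4_unit {g : Mat} (hg : gᴴ * g = 1) (a b : Fin 3 → ℂ) :
    star (g *ᵥ a) ⬝ᵥ (g *ᵥ b) = star a ⬝ᵥ b := by
  rw [Matrix.star_mulVec, ← Matrix.dotProduct_mulVec, Matrix.mulVec_mulVec, hg, Matrix.one_mulVec]

private theorem t4_nz (z : V) : star (Zv z) ⬝ᵥ Zv z = (nz z : ℂ) := by
  simp only [dotProduct, Fin.sum_univ_three, Pi.star_apply, Zv]
  simp [nz, Complex.normSq_eq_conj_mul_self]
  ring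

private theorem t4_hip (z w : V) : star (Zv z) ⬝ᵥ Wv w = hip z w := by
  simp only [dotProduct, Fin.sum_univ_three, Pi.star_apply, Zv, Wv]
  simp [hip]

private theorem t4_n {g : Mat} {z : V} (hg : gᴴ * g = 1) (h : (g *ᵥ Zv z) 0 ≠ 0) :
    (nz z : ℂ) = star ((g *ᵥ Zv z) 0) * (g *ᵥ Zv z) 0 * (nz (mob g z) : ℂ) := by
  have h2 : star (g *ᵥ Zv z) ⬝ᵥ (g *ᵥ Zv z) =
      star ((g *ᵥ Zv z) 0 • Zv (mob g z)) ⬝ᵥ ((g *ᵥ Zv z) 0 • Zv (mob g z)) := by
    rw [← t4_Zv h]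
  rw [← t4_nz z, ← t4_unit hg (Zv z) (Zv z), h2, star_smul, smul_dotProduct, dotProduct_smul,
    t4_nz]
  simp only [smul_eq_mul]
  ring

private theorem t4_h {g : Mat} {z : V} (hg : gᴴ * g = 1) (h : (g *ᵥ Zv z) 0 ≠ 0) (w : V) :
    hip z w = star ((g *ᵥ Zv z) 0) * (g *ᵥ Zv z) 0 * hip (mob g z) (dmob g z w)
      + star ((g *ᵥ Zv z) 0) * (g *ᵥ Wv w) 0 * (nz (mob g z) : ℂ) := by
  have h1 : star (g *ᵥ Zv z) ⬝ᵥ (g *ᵥ Wv w) = hip z w := by rw [t4_unit hg, t4_hip]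
  have h2 : star (g *ᵥ Zv z) ⬝ᵥ (g *ᵥ Wv w) =
      star ((g *ᵥ Zv z) 0 • Zv (mob g z)) ⬝ᵥ
        ((g *ᵥ Zv z) 0 • Wv (dmob g z w) + (g *ᵥ Wv w) 0 • Zv (mob g z)) := by
    rw [← t4_Zv h, ← t4_Wv h]
  rw [← h1, h2, star_smul, smul_dotProduct, dotProduct_add, dotProduct_smul, dotProduct_smul,
    t4_hip, t4_nz]
  simp only [smul_eq_mul]
  ring

theorem Theta_smul {z : V} {y : Yf} {r : ℝ} (hr : 0 < r) : Theta (z, r • y) = Theta (z, y) := by
  have hfn : fn (z, r • y) = r ^ 2 * fn (z, y) := by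
    simp only [fn, Prod.smul_fst, Prod.smul_snd, map_smul, _root_.smul_apply,
      smul_eq_mul]
    ring
  have hsq : Real.sqrt (fn (z, r • y)) = r * Real.sqrt (fn (z, y)) := by
    rw [hfn, Real.sqrt_mul (by positivity), Real.sqrt_sq hr.le]
  have hW : Wv (r • y).2 = (r : ℂ) • Wv y.2 := by
    funext i
    fin_cases i <;> simp [Wv]
  have hh : hip z (r • y).2 = (r : ℂ) * hip z y.2 := by
    simp [hip]
    ring
  have hr' : (r : ℂ) ≠ 0 := by exact_mod_cast hr.ne'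
  unfold Theta
  simp only [hsq, hW, hh]
  ext i j
  simp only [Matrix.smul_apply, Matrix.add_apply, Matrix.vecMulVec_apply, Pi.sub_apply,
    Pi.smul_apply, smul_eq_mul, Prod.smul_fst]
  push_cast
  field_simp

theorem Theta_mob {g : Mat} (hg : gᴴ * g = 1) {x : V × Yf} (hx : x.2 ≠ 0)
    (h : (g *ᵥ Zv x.1) 0 ≠ 0) : g * Theta x * gᴴ = Theta (Phi g x) := by
  obtain ⟨z, s, w⟩ := x
  have hfn : fn (Phi g (z, s, w)) = fn (z, s, w) := by
    simp only [fn, Phi]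
    rw [h0_mob hg h]
  have h1 : g * Theta (z, s, w) * gᴴ = (((Real.sqrt (fn (z, s, w)))⁻¹ : ℝ) : ℂ) •
      (((s / nz z : ℝ) : ℂ) • Matrix.vecMulVec (g *ᵥ Zv z) (star (g *ᵥ Zv z))
      + ((nz z : ℂ) ^ 2)⁻¹ • Matrix.vecMulVec (g *ᵥ ((nz z : ℂ) • Wv w - hip z w • Zv z))
        (star (g *ᵥ Zv z))) := by
    rw [← t4_mul g, ← t4_mul g]
    simp only [Theta, Matrix.mul_smul, Matrix.smul_mul, Matrix.mul_add, Matrix.add_mul]
  rw [h1]
  have hn := t4_n hg h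
  have hh := t4_h hg h w
  have hZ := t4_Zv h
  have hW := t4_Wv h w
  have hn0 : (nz (mob g z) : ℂ) ≠ 0 := by exact_mod_cast (nz_pos _).ne'
  have hs0 : star ((g *ᵥ Zv z) 0) ≠ 0 := star_ne_zero.2 h
  simp only [Theta, hfn]
  congr 1
  rw [Matrix.mulVec_sub, Matrix.mulVec_smul, Matrix.mulVec_smul, hW]
  generalize (g *ᵥ Wv w) 0 = q at *
  generalize ha : (g *ᵥ Zv z) 0 = a at *
  rw [hZ, hh]
  simp only [Phi]
  generalize Zv (mob g z) = Z'
  generalize Wv (dmob g z w) = W'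
  push_cast
  rw [hn]
  generalize (nz (mob g z) : ℂ) = n' at *
  generalize hip (mob g z) (dmob g z w) = k
  ext i j
  simp only [Matrix.smul_apply, Matrix.add_apply, Matrix.vecMulVec_apply, Pi.sub_apply,
    Pi.smul_apply, smul_eq_mul, Pi.add_apply, Pi.star_apply, star_mul]
  field_simp
  ring

theorem M8_conj {g Q : Mat} (hg : gᴴ * g = 1) (hQ : Q ∈ M8) : g * Q * gᴴ ∈ M8 := by
  obtain ⟨h1, h2, h3⟩ := hQ
  have hct : (g * Q * gᴴ)ᴴ = g * Qᴴ * gᴴ := by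
    rw [Matrix.conjTranspose_mul, Matrix.conjTranspose_mul, Matrix.conjTranspose_conjTranspose,
      Matrix.mul_assoc]
  have hcan : ∀ A B : Mat, g * A * gᴴ * (g * B * gᴴ) = g * (A * B) * gᴴ := by
    intro A B
    calc g * A * gᴴ * (g * B * gᴴ) = g * A * (gᴴ * g) * B * gᴴ := by noncomm_ring
      _ = g * (A * B) * gᴴ := by rw [hg]; noncomm_ring
  have htr : ∀ A : Mat, (g * A * gᴴ).trace = A.trace := by
    intro A
    rw [Matrix.trace_mul_comm, ← Matrix.mul_assoc, hg, Matrix.one_mul]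
  refine ⟨?_, ?_, ?_⟩
  · rw [hct, hcan, hcan, h1]
  · rw [hct, hcan, htr, h2]
  · rw [htr, h3]

end Pool.Agent.Helper46.M8
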