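import Pool.Agent.Helper46.M8.St.A3
import Pool.Agent.Helper46.M8.St.A4a
import Pool.Agent.Helper46.M8.Man
import Pool.Agent.Helper46.M8.Ns

/-!
# M8, piece T5
-/

open Filter Metric Module Set
open scoped Topology ContDiff Matrix Matrix.Norms.Elementwise ComplexConjugate Manifold

set_option maxSynthPendingDepth 3

namespace Pool.Agent.Helper46.M8
open Pool.Agent.Helper20.PC Pool.Agent.Helper20.HP Pool.Agent.Helper20.M8 Pool.Agent.Helper20.MB

private lemma T5_ent (i j : Fin 3) : ContDiff ℝ ∞ (fun A : Mat => A i j) :=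
  contDiff_apply_apply ℝ ℂ i j

private lemma T5_mat {E : Type*} [NormedAddCommGroup E] [NormedSpace ℝ E] {f : E → Mat} {x : E}
    (h : ∀ i j, ContDiffAt ℝ ∞ (fun x => f x i j) x) : ContDiffAt ℝ ∞ f x :=
  contDiffAt_pi.2 fun i => contDiffAt_pi.2 fun j => h i j

private lemma T5_z (i : Fin 2) : ContDiff ℝ ∞ (fun x : V × Yf => x.1 i) :=
  (contDiff_coord i).comp contDiff_fst

private lemma T5_w (i : Fin 2) : ContDiff ℝ ∞ (fun x : V × Yf => x.2.2 i) :=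
  (contDiff_coord i).comp (contDiff_snd.comp contDiff_snd)

private lemma T5_s : ContDiff ℝ ∞ (fun x : V × Yf => x.2.1) :=
  contDiff_fst.comp contDiff_snd

private lemma T5_nz : ContDiff ℝ ∞ (fun x : V × Yf => nz x.1) :=
  contDiff_nz.comp contDiff_fst

private lemma T5_nzC : ContDiff ℝ ∞ (fun x : V × Yf => (nz x.1 : ℂ)) :=
  Complex.ofRealCLM.contDiff.comp T5_nz

private lemma T5_hip : ContDiff ℝ ∞ (fun x : V × Yf => hip x.1 x.2.2) := by
  unfold hip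
  exact ContDiff.sum fun i _ => (Complex.conjCLE.contDiff.comp (T5_z i)).mul (T5_w i)

private lemma T5_Zv (i : Fin 3) : ContDiff ℝ ∞ (fun x : V × Yf => Zv x.1 i) := by
  fin_cases i
  · exact contDiff_const
  · exact T5_z 0
  · exact T5_z 1

private lemma T5_Wv (i : Fin 3) : ContDiff ℝ ∞ (fun x : V × Yf => Wv x.2.2 i) := by
  fin_cases i
  · exact contDiff_const
  · exact T5_w 0
  · exact T5_w 1

private lemma T5_fn : ContDiff ℝ ∞ fn := by
  unfold fn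
  refine (T5_s.pow 2).add ?_
  have h1 : ContDiff ℝ ∞ (fun x : V × Yf => h0 x.1) := contDiff_h0.comp contDiff_fst
  have h2 : ContDiff ℝ ∞ (fun x : V × Yf => x.2.2) := contDiff_snd.comp contDiff_snd
  exact (h1.clm_apply h2).clm_apply h2

private lemma T5_fn_pos {x : V × Yf} (hx : x.2 ≠ 0) : 0 < fn x := by
  unfold fn
  by_cases hw : x.2.2 = 0
  · have hs : x.2.1 ≠ 0 := fun h => hx (Prod.ext h hw)
    rw [hw]
    simp only [map_zero, add_zero]
    positivity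
  · have := h0_pos x.1 x.2.2 hw
    positivity

/-! ### T5 : smoothness of `Theta` and `Xi` -/
theorem contDiffAt_Theta {x : V × Yf} (hx : x.2 ≠ 0) : ContDiffAt ℝ ∞ Theta x := by
  refine T5_mat fun i j => ?_
  have hf := T5_fn_pos hx
  have e : (fun x : V × Yf => Theta x i j) = fun x : V × Yf =>
      (((Real.sqrt (fn x))⁻¹ : ℝ) : ℂ) *
        (((x.2.1 / nz x.1 : ℝ) : ℂ) * (Zv x.1 i * conj (Zv x.1 j)) +
          ((nz x.1 : ℂ) ^ 2)⁻¹ *
            (((nz x.1 : ℂ) * Wv x.2.2 i - hip x.1 x.2.2 * Zv x.1 i) * conj (Zv x.1 j))) := by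
    funext x
    simp [Theta, Matrix.vecMulVec_apply]
  rw [e]
  have hc : ContDiffAt ℝ ∞ (fun x : V × Yf => conj (Zv x.1 j)) x :=
    (Complex.conjCLE.contDiff.comp (T5_Zv j)).contDiffAt
  have hn : nz x.1 ≠ 0 := (nz_pos x.1).ne'
  have hnC : ((nz x.1 : ℂ) ^ 2) ≠ 0 := pow_ne_zero 2 (by exact_mod_cast hn)
  have h1 : ContDiffAt ℝ ∞ (fun x : V × Yf => (((Real.sqrt (fn x))⁻¹ : ℝ) : ℂ)) x := by
    have : ContDiffAt ℝ ∞ (fun x : V × Yf => (Real.sqrt (fn x))⁻¹) x :=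
      (T5_fn.contDiffAt.sqrt hf.ne').inv (Real.sqrt_pos.2 hf).ne'
    exact Complex.ofRealCLM.contDiff.contDiffAt.comp x this
  have h2 : ContDiffAt ℝ ∞ (fun x : V × Yf => ((x.2.1 / nz x.1 : ℝ) : ℂ)) x := by
    have : ContDiffAt ℝ ∞ (fun x : V × Yf => x.2.1 / nz x.1) x :=
      T5_s.contDiffAt.div T5_nz.contDiffAt hn
    exact Complex.ofRealCLM.contDiff.contDiffAt.comp x this
  have h3 : ContDiffAt ℝ ∞ (fun x : V × Yf => ((nz x.1 : ℂ) ^ 2)⁻¹) x :=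
    (T5_nzC.contDiffAt.pow 2).inv hnC
  exact h1.mul ((h2.mul ((T5_Zv i).contDiffAt.mul hc)).add
    (h3.mul (((T5_nzC.contDiffAt.mul (T5_Wv i).contDiffAt).sub
      (T5_hip.contDiffAt.mul (T5_Zv i).contDiffAt)).mul hc)))

private lemma T5_gram (i j : Fin 3) : ContDiff ℝ ∞ (fun Q : Mat => (Qᴴ * Q) i j) := by
  simp only [Matrix.mul_apply, Matrix.conjTranspose_apply]
  exact ContDiff.sum fun k _ => ((Complex.conjCLE.contDiff).comp (T5_ent k i)).mul (T5_ent k j)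

private lemma T5_zX {Q : Mat} (h : (Qᴴ * Q) 0 0 ≠ 0) (i : Fin 2) :
    ContDiffAt ℝ ∞ (fun Q : Mat => zX Q i) Q := by
  have h1 : ContDiffAt ℝ ∞ (fun Q : Mat => (Qᴴ * Q) i.succ 0) Q := (T5_gram i.succ 0).contDiffAt
  have h2 : ContDiffAt ℝ ∞ (fun Q : Mat => (Qᴴ * Q) 0 0) Q := (T5_gram 0 0).contDiffAt
  have h3 := h1.mul (h2.inv h)
  have e : (fun Q : Mat => zX Q i) =
      (fun Q : Mat => (Qᴴ * Q) i.succ 0 * (fun Q : Mat => (Qᴴ * Q) 0 0)⁻¹ Q) := by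
    funext P
    simp only [zX, div_eq_mul_inv, Pi.inv_apply]
  rw [e]
  exact h3

private lemma T5_tr : ContDiff ℝ ∞ (fun Q : Mat => Q.trace.re) := by
  have : ContDiff ℝ ∞ (fun Q : Mat => Q.trace) := by
    simp only [Matrix.trace, Matrix.diag_apply]
    exact ContDiff.sum fun i _ => T5_ent i i
  exact Complex.reCLM.contDiff.comp this

private lemma T5_ZX {Q : Mat} (h : (Qᴴ * Q) 0 0 ≠ 0) (i : Fin 3) :
    ContDiffAt ℝ ∞ (fun Q : Mat => Zv (zX Q) i) Q := by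
  fin_cases i
  · exact contDiffAt_const
  · exact T5_zX h 0
  · exact T5_zX h 1

private lemma T5_W {Q : Mat} (h : (Qᴴ * Q) 0 0 ≠ 0) (i : Fin 3) :
    ContDiffAt ℝ ∞ (fun Q : Mat => ((Q - (Q.trace.re : ℂ) • (Qᴴ * Q)) *ᵥ Zv (zX Q)) i) Q := by
  simp only [Matrix.mulVec, dotProduct, Matrix.sub_apply, Matrix.smul_apply, smul_eq_mul]
  refine ContDiffAt.sum fun j _ => ContDiffAt.mul ?_ (T5_ZX h j)
  refine (T5_ent i j).contDiffAt.sub (ContDiffAt.mul ?_ (T5_gram i j).contDiffAt)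
  exact (Complex.ofRealCLM.contDiff.comp T5_tr).contDiffAt

theorem contDiffAt_Xi {Q : Mat} (h : (Qᴴ * Q) 0 0 ≠ 0) : ContDiffAt ℝ ∞ Xi Q := by
  refine ContDiffAt.prodMk (contDiffAt_pi.2 fun i => T5_zX h i) (ContDiffAt.prodMk T5_tr.contDiffAt ?_)
  refine contDiffAt_pi.2 fun i => ?_
  exact (T5_W h i.succ).sub ((T5_zX h i).mul (T5_W h 0))

end Pool.Agent.Helper46.M8
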