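import Pool.Agent.Helper46.M8.St.T2
import Pool.Agent.Helper46.M8.Ns

/-!
# M8, piece T3
-/

open Filter Metric Module Set
open scoped Topology ContDiff Matrix Matrix.Norms.Elementwise ComplexConjugate Manifold

set_option maxSynthPendingDepth 3

namespace Pool.Agent.Helper46.M8
open Pool.Agent.Helper20.PC Pool.Agent.Helper20.HP Pool.Agent.Helper20.M8 Pool.Agent.Helper20.MB

/-! ### T3 : `Theta` is onto -/

namespace T3aux
open T1aux T2aux

open scoped ComplexOrder in
lemma zero_of_trace {C : Mat} (h : (Cᴴ * C).trace = 0) : C = 0 :=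
  Matrix.trace_conjTranspose_mul_self_eq_zero_iff.1 h

/-- a hermitian projection of trace one has rank one. -/
lemma rank_one {B : Mat} (hB : B * B = B) (hH : Bᴴ = B) (ht : B.trace = 1) (h0 : B 0 0 ≠ 0) :
    B = (B 0 0)⁻¹ • Matrix.vecMulVec (B *ᵥ Pi.single 0 1) (star (B *ᵥ Pi.single 0 1)) := by
  set e : Fin 3 → ℂ := Pi.single 0 1 with he
  set v : Fin 3 → ℂ := B *ᵥ e with hv
  set b : ℂ := B 0 0 with hb
  have hbs : star b = b := by
    have := congrFun (congrFun hH 0) 0
    rwa [Matrix.conjTranspose_apply] at this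
  have hse : star e = e := by
    rw [he]
    funext i
    fin_cases i <;> simp
  have hBv : B *ᵥ v = v := by rw [hv, Matrix.mulVec_mulVec, hB]
  have hvB : star v ᵥ* B = star v := by
    have : star (B *ᵥ v) = star v ᵥ* Bᴴ := Matrix.star_mulVec B v
    rw [hH, hBv] at this
    exact this.symm
  have hvv : star v ⬝ᵥ v = b := by
    have h1 : star v = star e ᵥ* B := by
      have : star (B *ᵥ e) = star e ᵥ* Bᴴ := Matrix.star_mulVec B e
      rwa [hH] at this
    rw [h1, ← Matrix.dotProduct_mulVec, hBv, hse, hv, he]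
    simp [hb]
  set P : Mat := Matrix.vecMulVec v (star v) with hP
  have hBP : B * P = P := by rw [hP, Matrix.mul_vecMulVec, hBv]
  have hPB : P * B = P := by rw [hP, Matrix.vecMulVec_mul, hvB]
  have hPP : P * P = b • P := by
    rw [hP, Matrix.vecMulVec_mul_vecMulVec, hvv, Matrix.vecMulVec_smul]
  have hPH : Pᴴ = P := by rw [hP, Matrix.conjTranspose_vecMulVec, star_star]
  have hPt : P.trace = b := by rw [hP, Matrix.trace_vecMulVec, dotProduct_comm, hvv]
  set C : Mat := B - b⁻¹ • P with hC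
  have hCH : Cᴴ = C := by
    rw [hC, Matrix.conjTranspose_sub, Matrix.conjTranspose_smul, hH, hPH, star_inv₀, hbs]
  have hCC : C * C = C := by
    rw [hC]
    rw [Matrix.sub_mul, Matrix.mul_sub, Matrix.mul_sub, hB, Matrix.mul_smul, Matrix.smul_mul,
      Matrix.smul_mul, Matrix.mul_smul, hBP, hPB, hPP, smul_smul b⁻¹ b, inv_mul_cancel₀ h0,
      one_smul, sub_self, sub_zero]
  have hCt : C.trace = 0 := by
    rw [hC, Matrix.trace_sub, Matrix.trace_smul, ht, hPt, smul_eq_mul, inv_mul_cancel₀ h0,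
      sub_self]
  have hC0 : C = 0 := by
    have h1 : (Cᴴ * C).trace = 0 := by rw [hCH, hCC, hCt]
    exact zero_of_trace h1
  exact sub_eq_zero.1 hC0

end T3aux

open T1aux T2aux T3aux

theorem Theta_Xi {Q : Mat} (hQ : Q ∈ M8) (h : (Qᴴ * Q) 0 0 ≠ 0) :
    (Xi Q).2 ≠ 0 ∧ Theta (Xi Q) = Q := by
  obtain ⟨hQ1, hQ2, hQ3⟩ := hQ
  have hBB : (Qᴴ * Q) * (Qᴴ * Q) = Qᴴ * Q := by
    calc (Qᴴ * Q) * (Qᴴ * Q) = Qᴴ * (Q * Qᴴ * Q) := by simp only [Matrix.mul_assoc]
      _ = Qᴴ * Q := by rw [hQ1]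
  have hBH : (Qᴴ * Q)ᴴ = Qᴴ * Q := by
    rw [Matrix.conjTranspose_mul, Matrix.conjTranspose_conjTranspose]
  have hr := rank_one hBB hBH hQ2 h
  set b : ℂ := (Qᴴ * Q) 0 0 with hb
  have hbs : star b = b := by
    have := congrFun (congrFun hBH 0) 0
    rwa [Matrix.conjTranspose_apply] at this
  set z : V := zX Q with hz
  have hv : (Qᴴ * Q) *ᵥ Pi.single 0 1 = b • Zv z := by
    funext i
    rw [Matrix.mulVec_single_one, Matrix.col_apply, Pi.smul_apply, smul_eq_mul]
    refine Fin.cases ?_ (fun i => ?_) i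
    · rw [Zv_zero, mul_one]
    · rw [Zv_succ, hz, zX, ← hb]
      field_simp
  have hB : Qᴴ * Q = b • Matrix.vecMulVec (Zv z) (star (Zv z)) := by
    rw [hr, hv, star_smul, hbs, Matrix.smul_vecMulVec, Matrix.vecMulVec_smul, smul_smul, smul_smul,
      inv_mul_cancel₀ h, one_mul]
  have hn0 : (nz z : ℂ) ≠ 0 := by exact_mod_cast (nz_pos z).ne'
  have hbn : b * (nz z : ℂ) = 1 := by
    have := hQ2
    rw [hB, Matrix.trace_smul, Matrix.trace_vecMulVec, dotProduct_comm, zz, smul_eq_mul] at this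
    exact this
  have hbn' : b = (nz z : ℂ)⁻¹ := eq_inv_of_mul_eq_one_left hbn
  set q : Fin 3 → ℂ := b • (Q *ᵥ Zv z) with hq
  have hQq : Q = Matrix.vecMulVec q (star (Zv z)) := by
    conv_lhs => rw [← hQ1, Matrix.mul_assoc, hB, Matrix.mul_smul, Matrix.mul_vecMulVec]
    rw [hq, Matrix.smul_vecMulVec]
  set t : ℝ := Q.trace.re with ht
  have htr : star (Zv z) ⬝ᵥ q = (t : ℂ) := by
    have h1 : Q.trace = (t : ℂ) := by
      apply Complex.ext
      · rw [Complex.ofReal_re]
      · rw [Complex.ofReal_im, hQ3]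
    rw [← h1]
    conv_rhs => rw [hQq, Matrix.trace_vecMulVec, dotProduct_comm]
  set w : V := wX Q with hw
  have hwi : ∀ i : Fin 2, w i = (nz z : ℂ) * (q i.succ - z i * q 0) := by
    intro i
    have hQz : Q *ᵥ Zv z = (nz z : ℂ) • q := by
      rw [hq, smul_smul, mul_comm, hbn, one_smul]
    rw [hw, wX, ← hz, ← ht, Matrix.sub_mulVec, Matrix.smul_mulVec, hB, Matrix.smul_mulVec,
      vmv_mulVec, zz, hQz, smul_smul b, hbn, one_smul]
    simp only [Pi.sub_apply, Pi.smul_apply, smul_eq_mul, Zv_zero, Zv_succ]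
    ring
  have hnq : (nz z : ℂ) • q = Wv w + ((nz z : ℂ) * q 0) • Zv z := by
    funext i
    refine Fin.cases ?_ (fun i => ?_) i
    · simp only [Pi.smul_apply, Pi.add_apply, smul_eq_mul, Wv_zero, Zv_zero]
      ring
    · simp only [Pi.smul_apply, Pi.add_apply, smul_eq_mul, Wv_succ, Zv_succ, hwi]
      ring
  have hq0 : q 0 = (t : ℂ) / (nz z : ℂ) - hip z w / (nz z : ℂ) ^ 2 := by
    have h1 := congrArg (fun u => star (Zv z) ⬝ᵥ u) hnq
    simp only [dotProduct_smul, dotProduct_add, htr, zz, zw, smul_eq_mul] at h1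
    field_simp
    linear_combination -h1
  have hqq : q = ((t : ℂ) / (nz z : ℂ) - hip z w / (nz z : ℂ) ^ 2) • Zv z
      + (1 / (nz z : ℂ)) • Wv w := by
    have h1 : q = (1 / (nz z : ℂ)) • ((nz z : ℂ) • q) := by
      rw [smul_smul, one_div, inv_mul_cancel₀ hn0, one_smul]
    rw [h1, hnq, hq0, smul_add, smul_smul, add_comm]
    congr 2
    field_simp
  have hXi : Xi Q = (z, (t, w)) := rfl
  have hfn : fn (Xi Q) = 1 := by
    have h1 : star q ⬝ᵥ q = b := by
      have h2 : Qᴴ * Q = (star q ⬝ᵥ q) • Matrix.vecMulVec (Zv z) (star (Zv z)) := by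
        conv_lhs => rw [hQq, Matrix.conjTranspose_vecMulVec, star_star,
          Matrix.vecMulVec_mul_vecMulVec, Matrix.vecMulVec_smul]
      have h3 := congrFun (congrFun h2 0) 0
      rw [← hb, Matrix.smul_apply, Matrix.vecMulVec_apply, Pi.star_apply, Zv_zero, star_one,
        mul_one, smul_eq_mul, mul_one] at h3
      exact h3.symm
    have h2 : (fn (Xi Q) : ℂ) = (nz z : ℂ) * (star q ⬝ᵥ q) := by
      rw [fn_cast, hXi, hqq]
      simp only [star_smul, star_add, smul_dotProduct, dotProduct_smul, add_dotProduct,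
        dotProduct_add, zz, zw, wz, ww, smul_eq_mul, star_sub, star_div₀, star_one, star_pow,
        hip_conj]
      simp only [RCLike.star_def, Complex.conj_ofReal]
      field_simp
      ring
    have h3 : (fn (Xi Q) : ℂ) = 1 := by rw [h2, h1, mul_comm, hbn]
    exact_mod_cast h3
  have hx : (Xi Q).2 ≠ 0 := by
    intro h1
    have : fn (Xi Q) = 0 := by
      rw [fn, h1]
      simp
    rw [hfn] at this
    exact one_ne_zero this
  refine ⟨hx, ?_⟩
  rw [Theta_eq]
  conv_rhs => rw [hQq]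
  have hz' : (Xi Q).1 = z := rfl
  rw [hz']
  congr 1
  rw [bv, hfn, Real.sqrt_one, inv_one, Complex.ofReal_one, one_smul, hXi, hqq]
  simp only
  rw [smul_sub, smul_smul, smul_smul, sub_smul]
  have e1 : ((nz z : ℂ) ^ 2)⁻¹ * (nz z : ℂ) = 1 / (nz z : ℂ) := by field_simp
  have e2 : ((nz z : ℂ) ^ 2)⁻¹ * hip z w = hip z w / (nz z : ℂ) ^ 2 := by
    field_simp
  rw [e1, e2]
  push_cast
  abel

end Pool.Agent.Helper46.M8
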