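import Pool.Agent.Helper46.M8.St.B1
import Pool.Agent.Helper46.M8.St.T3
import Pool.Agent.Helper46.M8.St.T4
import Pool.Agent.Helper46.M8.Ns

/-!
# M8, piece T6
-/

open Filter Metric Module Set
open scoped Topology ContDiff Matrix Matrix.Norms.Elementwise ComplexConjugate Manifold

set_option maxSynthPendingDepth 3

namespace Pool.Agent.Helper46.M8
open Pool.Agent.Helper20.PC Pool.Agent.Helper20.HP Pool.Agent.Helper20.M8 Pool.Agent.Helper20.MB

/-! ### T6 : chart data -/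
namespace T6

/-- a unit vector fixed by a hermitian projection of trace one. -/
lemma exists_fix {B : Mat} (hB : B * B = B) (hH : Bᴴ = B) (ht : B.trace = 1) :
    ∃ b : Fin 3 → ℂ, star b ⬝ᵥ b = 1 ∧ B *ᵥ b = b := by
  obtain ⟨j, hj⟩ : ∃ j, B j j ≠ 0 := by
    by_contra hcon
    push Not at hcon
    have : B.trace = 0 := by
      simp only [Matrix.trace, Matrix.diag_apply]
      exact Finset.sum_eq_zero fun i _ => hcon i
    rw [ht] at this
    exact one_ne_zero this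
  -- the column
  have hcol : ∀ k, star (B k j) = B j k := by
    intro k
    conv_rhs => rw [← hH]
    rw [Matrix.conjTranspose_apply]
  have hsum : ∑ k, star (B k j) * B k j = B j j := by
    have : (B * B) j j = B j j := by rw [hB]
    rw [Matrix.mul_apply] at this
    rw [← this]
    exact Finset.sum_congr rfl fun k _ => by rw [hcol k]
  -- `B j j` is real and positive
  have hre : B j j = (((∑ k, ‖B k j‖ ^ 2 : ℝ)) : ℂ) := by
    rw [← hsum]
    push_cast
    refine Finset.sum_congr rfl fun k _ => ?_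
    rw [← Complex.conj_mul']
    rfl
  set r : ℝ := ∑ k, ‖B k j‖ ^ 2 with hr
  have hr0 : 0 < r := by
    have h0 : 0 ≤ r := Finset.sum_nonneg fun k _ => by positivity
    rcases h0.lt_or_eq with h | h
    · exact h
    · exfalso
      apply hj
      rw [hre, ← h]
      simp
  have hs : (Real.sqrt r : ℂ) * (Real.sqrt r : ℂ) = (r : ℂ) := by
    rw [← Complex.ofReal_mul, Real.mul_self_sqrt hr0.le]
  have hs0 : (Real.sqrt r : ℂ) ≠ 0 := by
    rw [Ne, Complex.ofReal_eq_zero]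
    exact (Real.sqrt_pos.2 hr0).ne'
  refine ⟨fun k => (Real.sqrt r : ℂ)⁻¹ * B k j, ?_, ?_⟩
  · have : star (fun k => (Real.sqrt r : ℂ)⁻¹ * B k j) ⬝ᵥ (fun k => (Real.sqrt r : ℂ)⁻¹ * B k j)
        = (r : ℂ)⁻¹ * ∑ k, star (B k j) * B k j := by
      simp only [dotProduct, Pi.star_apply, star_mul', star_inv₀]
      rw [Finset.mul_sum]
      refine Finset.sum_congr rfl fun k _ => ?_
      have h1 : star (Real.sqrt r : ℂ) = (Real.sqrt r : ℂ) := Complex.conj_ofReal _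
      rw [h1, ← hs, mul_inv]
      ring
    rw [this, hsum, hre]
    have : (r : ℂ) ≠ 0 := by
      rw [Ne, Complex.ofReal_eq_zero]
      exact hr0.ne'
    exact inv_mul_cancel₀ this
  · funext i
    have h1 : (B * B) i j = B i j := by rw [hB]
    rw [Matrix.mul_apply] at h1
    simp only [Matrix.mulVec, dotProduct]
    rw [← h1, Finset.mul_sum]
    refine Finset.sum_congr rfl fun k _ => ?_
    ring

/-- a unitary matrix with prescribed first column. -/
lemma exists_unitary {b : Fin 3 → ℂ} (hb : star b ⬝ᵥ b = 1) :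
    ∃ U : Mat, Uᴴ * U = 1 ∧ ∀ i, U i 0 = b i := by
  let bb : EuclideanSpace ℂ (Fin 3) := WithLp.toLp 2 b
  have hbb : inner ℂ bb bb = (1 : ℂ) := by
    rw [EuclideanSpace.inner_eq_star_dotProduct]
    change b ⬝ᵥ star b = 1
    rw [dotProduct_comm]
    exact hb
  have hno : ‖bb‖ = 1 := by
    have h1 := inner_self_eq_norm_sq_to_K (𝕜 := ℂ) bb
    rw [hbb] at h1
    have h2 : (1 : ℝ) = ‖bb‖ ^ 2 := by
      apply Complex.ofReal_injective
      rw [Complex.ofReal_pow, Complex.ofReal_one]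
      exact h1
    nlinarith [norm_nonneg bb, sq_nonneg (‖bb‖ - 1), sq_nonneg (‖bb‖ + 1)]
  have hort : Orthonormal ℂ (Set.domRestrict ({0} : Set (Fin 3)) (fun _ => bb)) := by
    constructor
    · intro i
      exact hno
    · intro i j hij
      exact absurd (Subsingleton.elim i j) hij
  obtain ⟨v, hv⟩ := hort.exists_orthonormalBasis_extension_of_card_eq (by simp)
  refine ⟨Matrix.of fun i j => v j i, ?_, ?_⟩
  · ext i j
    rw [Matrix.mul_apply]
    have h1 := orthonormal_iff_ite.1 v.orthonormal i j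
    rw [EuclideanSpace.inner_eq_star_dotProduct] at h1
    rw [Matrix.one_apply, ← h1, dotProduct]
    refine Finset.sum_congr rfl fun k _ => ?_
    rw [Matrix.conjTranspose_apply]
    simp only [Matrix.of_apply]
    rw [mul_comm]
    rfl
  · intro i
    have := hv 0 rfl
    simp only [Matrix.of_apply]
    rw [this]

end T6

/-- moving a point of `M⁸` to the fibre over `0`. -/
theorem exists_U {Q : Mat} (hQ : Q ∈ M8) :
    ∃ (U : Mat) (y : Yf), Uᴴ * U = 1 ∧ y ≠ 0 ∧ Q = U * Theta (0, y) * Uᴴ := by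
  obtain ⟨h1, h2, h3⟩ := hQ
  have hBB : (Qᴴ * Q) * (Qᴴ * Q) = Qᴴ * Q := by
    calc (Qᴴ * Q) * (Qᴴ * Q) = Qᴴ * (Q * Qᴴ * Q) := by simp only [Matrix.mul_assoc]
      _ = Qᴴ * Q := by rw [h1]
  have hBH : (Qᴴ * Q)ᴴ = Qᴴ * Q := by
    rw [Matrix.conjTranspose_mul, Matrix.conjTranspose_conjTranspose]
  obtain ⟨b, hb, hBb⟩ := T6.exists_fix hBB hBH h2
  obtain ⟨U, hU, hU0⟩ := T6.exists_unitary hb
  have hU' : U * Uᴴ = 1 := mul_eq_one_comm.1 hU
  set P : Mat := Uᴴ * Q * U with hP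
  have hPm : P ∈ M8 := by
    have := M8_conj (g := Uᴴ) (Q := Q) (by rw [Matrix.conjTranspose_conjTranspose]; exact hU')
      ⟨h1, h2, h3⟩
    rwa [Matrix.conjTranspose_conjTranspose] at this
  have hPP : Pᴴ * P = Uᴴ * (Qᴴ * Q) * U := by
    rw [hP]
    simp only [Matrix.conjTranspose_mul, Matrix.conjTranspose_conjTranspose]
    calc Uᴴ * (Qᴴ * U) * (Uᴴ * Q * U) = Uᴴ * Qᴴ * (U * Uᴴ) * Q * U := by
          simp only [Matrix.mul_assoc]
      _ = Uᴴ * (Qᴴ * Q) * U := by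
          rw [hU', Matrix.mul_one]
          simp only [Matrix.mul_assoc]
  have hcol : ∀ i, (Pᴴ * P) i 0 = (1 : Mat) i 0 := by
    intro i
    rw [hPP, Matrix.mul_assoc, ← hU, Matrix.mul_apply, Matrix.mul_apply]
    refine Finset.sum_congr rfl fun k _ => ?_
    congr 1
    rw [Matrix.mul_apply, hU0 k]
    have := congrFun hBb k
    simp only [Matrix.mulVec, dotProduct] at this
    rw [← this]
    exact Finset.sum_congr rfl fun l _ => by rw [hU0 l]
  have h00 : (Pᴴ * P) 0 0 ≠ 0 := by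
    rw [hcol 0]
    simp
  obtain ⟨hy, hT⟩ := Theta_Xi hPm h00
  have hz : zX P = 0 := by
    funext i
    rw [zX, hcol i.succ]
    simp
  refine ⟨U, (Xi P).2, hU, hy, ?_⟩
  have hXi : Xi P = (0, (Xi P).2) := by
    rw [← hz]
    rfl
  rw [← hXi, hT, hP]
  calc Q = (U * Uᴴ) * Q * (U * Uᴴ) := by rw [hU', Matrix.one_mul, Matrix.mul_one]
    _ = U * (Uᴴ * Q * U) * Uᴴ := by simp only [Matrix.mul_assoc]

/-- a linear parametrisation of the slice. -/
theorem exists_jt (l : Yf →L[ℝ] ℝ) (hl : l ≠ 0) : ∃ (j : E8 →L[ℝ] V × Yf) (t : V × Yf →L[ℝ] E8),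
    (∀ e, t (j e) = e) ∧ (∀ x, l x.2 = 0 → j (t x) = x) ∧ ∀ e, l (j e).2 = 0 := by
  obtain ⟨y0, hy0⟩ : ∃ y, l y ≠ 0 := by
    by_contra hcon
    push Not at hcon
    exact hl (ContinuousLinearMap.ext hcon)
  set L : V × Yf →L[ℝ] ℝ := l ∘L ContinuousLinearMap.snd ℝ V Yf with hL
  have hLx : ∀ x, L x = l x.2 := fun x => rfl
  set x0 : V × Yf := (0, (l y0)⁻¹ • y0) with hx0
  have hLx0 : L x0 = 1 := by
    rw [hLx, hx0]
    simp only [map_smul, smul_eq_mul]
    exact inv_mul_cancel₀ hy0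
  have hsurj : LinearMap.range (L : V × Yf →ₗ[ℝ] ℝ) = ⊤ := by
    rw [LinearMap.range_eq_top]
    intro r
    refine ⟨r • x0, ?_⟩
    change L (r • x0) = r
    rw [map_smul, hLx0, smul_eq_mul, mul_one]
  have hV : finrank ℝ V = 4 := by
    rw [Module.finrank_pi_fintype]
    simp [Complex.finrank_real_complex]
  have hfr : finrank ℝ (LinearMap.ker (L : V × Yf →ₗ[ℝ] ℝ)) = finrank ℝ E8 := by
    have h1 := LinearMap.finrank_range_add_finrank_ker (L : V × Yf →ₗ[ℝ] ℝ)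
    rw [hsurj, finrank_top, Module.finrank_prod, Module.finrank_prod, hV] at h1
    simp only [Module.finrank_self] at h1
    have h2 : finrank ℝ E8 = 8 := by simp
    omega
  let e : LinearMap.ker (L : V × Yf →ₗ[ℝ] ℝ) ≃L[ℝ] E8 := ContinuousLinearEquiv.ofFinrankEq hfr
  let pr : V × Yf →L[ℝ] LinearMap.ker (L : V × Yf →ₗ[ℝ] ℝ) :=
    (ContinuousLinearMap.id ℝ (V × Yf) - L.smulRight x0).codRestrict _ (by
      intro x
      rw [LinearMap.mem_ker]
      change L (x - L x • x0) = 0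
      rw [map_sub, map_smul, hLx0, smul_eq_mul, mul_one, sub_self])
  have hpr : ∀ x, ((pr x : LinearMap.ker (L : V × Yf →ₗ[ℝ] ℝ)) : V × Yf) = x - L x • x0 := fun x => rfl
  refine ⟨(Submodule.subtypeL (LinearMap.ker (L : V × Yf →ₗ[ℝ] ℝ))) ∘L
      (e.symm : E8 →L[ℝ] LinearMap.ker (L : V × Yf →ₗ[ℝ] ℝ)),
    (e : LinearMap.ker (L : V × Yf →ₗ[ℝ] ℝ) →L[ℝ] E8) ∘L pr, ?_, ?_, ?_⟩
  · intro v
    change e (pr ((e.symm v : LinearMap.ker (L : V × Yf →ₗ[ℝ] ℝ)) : V × Yf)) = v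
    have : pr ((e.symm v : LinearMap.ker (L : V × Yf →ₗ[ℝ] ℝ)) : V × Yf) = e.symm v := by
      apply Subtype.ext
      rw [hpr]
      have h0 : L ((e.symm v : LinearMap.ker (L : V × Yf →ₗ[ℝ] ℝ)) : V × Yf) = 0 :=
        LinearMap.mem_ker.1 (e.symm v).2
      rw [h0, zero_smul, sub_zero]
    rw [this, ContinuousLinearEquiv.apply_symm_apply]
  · intro x hx
    change ((e.symm (e (pr x)) : LinearMap.ker (L : V × Yf →ₗ[ℝ] ℝ)) : V × Yf) = x
    rw [ContinuousLinearEquiv.symm_apply_apply, hpr, hLx, hx, zero_smul, sub_zero]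
  · intro v
    exact LinearMap.mem_ker.1 (e.symm v).2

theorem exists_CD {δ : ℝ} (hδ : |δ| ≤ 1/100) {Q : Mat} (hQ : Q ∈ M8) : Nonempty (CD δ Q) := by
  obtain ⟨U, y, hU, hy, hQ'⟩ := exists_U hQ
  have hpos : 0 < kL U δ 0 y y := by
    rw [kL_apply]
    by_cases h2 : y.2 = 0
    · have h1 : y.1 ≠ 0 := by
        intro h1
        exact hy (Prod.ext h1 h2)
      rw [h2]
      simp only [map_zero, add_zero]
      exact mul_self_pos.2 h1
    · have := hm_pos hU hδ 0 y.2 h2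
      nlinarith [mul_self_nonneg y.1]
  set k := kL U δ 0 y y with hk
  have hs : 0 < (Real.sqrt k)⁻¹ := inv_pos.2 (Real.sqrt_pos.2 hpos)
  have hyy : kL U δ 0 ((Real.sqrt k)⁻¹ • y) ((Real.sqrt k)⁻¹ • y) = 1 := by
    have hsm : kL U δ 0 ((Real.sqrt k)⁻¹ • y) = (Real.sqrt k)⁻¹ • kL U δ 0 y := map_smul _ _ _
    rw [hsm, _root_.smul_apply, map_smul, ← hk, smul_eq_mul, smul_eq_mul, ← mul_assoc,
      ← mul_inv, Real.mul_self_sqrt hpos.le]
    exact inv_mul_cancel₀ hpos.ne'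
  have hl : kL U δ 0 ((Real.sqrt k)⁻¹ • y) ≠ 0 := by
    intro h
    rw [h] at hyy
    simp at hyy
  obtain ⟨j, t, h1, h2, h3⟩ := exists_jt _ hl
  exact ⟨⟨U, hU, (Real.sqrt k)⁻¹ • y, hyy, by rw [Theta_smul hs]; exact hQ', j, t, h1, h2, h3⟩⟩

end Pool.Agent.Helper46.M8
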