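import Pool.Agent.Helper46.M8.St.D2
import Pool.Agent.Helper46.M8.St.T5
import Pool.Agent.Helper46.M8.St.T6
import Pool.Agent.Helper46.M8.Ns

/-!
# M8, piece Q1
-/

open Filter Metric Module Set
open scoped Topology ContDiff Matrix Matrix.Norms.Elementwise ComplexConjugate Manifold

set_option maxSynthPendingDepth 3

namespace Pool.Agent.Helper46.M8
open Pool.Agent.Helper20.PC Pool.Agent.Helper20.HP Pool.Agent.Helper20.M8 Pool.Agent.Helper20.MB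

/-! ### Q1 : the maps `phU`, `psU` -/
variable {U : Mat} {δ : ℝ}

namespace Q1aux

/-- conjugation as a continuous linear map. -/
noncomputable def cj (A B : Mat) : Mat →L[ℝ] Mat :=
  LinearMap.toContinuousLinearMap ((LinearMap.mulRight ℝ B) ∘ₗ (LinearMap.mulLeft ℝ A))

lemma cj_apply (A B P : Mat) : cj A B P = A * P * B := rfl

lemma UUh (hU : Uᴴ * U = 1) : U * Uᴴ = 1 := mul_eq_one_comm.mp hU

lemma conj_mem (hU : Uᴴ * U = 1) {Q : Mat} (hQ : Q ∈ M8) : Uᴴ * Q * U ∈ M8 := by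
  have h := M8_conj (g := Uᴴ) (Q := Q) (by rw [Matrix.conjTranspose_conjTranspose]; exact UUh hU) hQ
  rwa [Matrix.conjTranspose_conjTranspose] at h

lemma kL_pos (hU : Uᴴ * U = 1) (hδ : |δ| ≤ 1/100) (z : V) {y : Yf} (hy : y ≠ 0) :
    0 < kL U δ z y y := by
  rw [kL_apply]
  by_cases h2 : y.2 = 0
  · have h1 : y.1 ≠ 0 := fun h1 => hy (Prod.ext h1 h2)
    have h3 : hm U δ z y.2 y.2 = 0 := by rw [h2]; simp
    rw [h3, add_zero]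
    exact mul_self_pos.mpr h1
  · have h3 := hm_pos hU hδ z y.2 h2
    have h4 := mul_self_nonneg y.1
    linarith

end Q1aux
open Q1aux

theorem contDiffAt_phU (U : Mat) {x : V × Yf} (hx : x.2 ≠ 0) : ContDiffAt ℝ ∞ (phU U) x :=
  (cj U Uᴴ).contDiff.contDiffAt.comp x (contDiffAt_Theta hx)

theorem phU_mem (hU : Uᴴ * U = 1) {x : V × Yf} (hx : x.2 ≠ 0) : phU U x ∈ M8 :=
  M8_conj hU (Theta_mem hx)

theorem contDiffAt_nrmz (hU : Uᴴ * U = 1) (hδ : |δ| ≤ 1/100) {x : V × Yf} (hx : x.2 ≠ 0) :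
    ContDiffAt ℝ ∞ (nrmz U δ) x := by
  have h1 : ContDiffAt ℝ ∞ (fun q : Pm × V => kL q.1.1 q.1.2.1 q.2) (((U, δ, 0) : Pm), x.1) :=
    contDiffAt_kL hU hδ
  have h2 : ContDiffAt ℝ ∞ (fun x' : V × Yf => ((((U, δ, 0) : Pm), x'.1) : Pm × V)) x :=
    contDiffAt_const.prodMk contDiffAt_fst
  have h3 : ContDiffAt ℝ ∞ (fun x' : V × Yf => kL U δ x'.1) x :=
    ContDiffAt.comp (g := fun q : Pm × V => kL q.1.1 q.1.2.1 q.2)
      (f := fun x' : V × Yf => ((((U, δ, 0) : Pm), x'.1) : Pm × V)) x h1 h2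
  have h4 : ContDiffAt ℝ ∞ (fun x' : V × Yf => x'.2) x := contDiffAt_snd
  have h5 : ContDiffAt ℝ ∞ (fun x' : V × Yf => kL U δ x'.1 x'.2 x'.2) x :=
    (h3.clm_apply h4).clm_apply h4
  have hp : 0 < kL U δ x.1 x.2 x.2 := kL_pos hU hδ x.1 hx
  have h6 : ContDiffAt ℝ ∞ (fun x' : V × Yf => Real.sqrt (kL U δ x'.1 x'.2 x'.2)) x :=
    h5.sqrt hp.ne'
  have h7 : ContDiffAt ℝ ∞ (fun x' : V × Yf => (Real.sqrt (kL U δ x'.1 x'.2 x'.2))⁻¹) x :=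
    h6.inv (Real.sqrt_pos.mpr hp).ne'
  exact contDiffAt_fst.prodMk (h7.smul h4)

theorem contDiffAt_psU (hU : Uᴴ * U = 1) (hδ : |δ| ≤ 1/100) {Q : Mat} (hQ : Q ∈ M8)
    (h : ((Uᴴ * Q * U)ᴴ * (Uᴴ * Q * U)) 0 0 ≠ 0) : ContDiffAt ℝ ∞ (psU U δ) Q := by
  have h1 : ContDiffAt ℝ ∞ (cj Uᴴ U) Q := (cj Uᴴ U).contDiff.contDiffAt
  have h2 : ContDiffAt ℝ ∞ Xi (cj Uᴴ U Q) := contDiffAt_Xi h
  have h3 : ContDiffAt ℝ ∞ (nrmz U δ) (Xi (cj Uᴴ U Q)) :=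
    contDiffAt_nrmz hU hδ (Theta_Xi (conj_mem hU hQ) h).1
  exact (h3.comp _ h2).comp _ h1

/-- `psU` is a section of `phU`. -/
theorem phU_psU (hU : Uᴴ * U = 1) (hδ : |δ| ≤ 1/100) {Q : Mat} (hQ : Q ∈ M8)
    (h : ((Uᴴ * Q * U)ᴴ * (Uᴴ * Q * U)) 0 0 ≠ 0) :
    phU U (psU U δ Q) = Q ∧
      kL U δ (psU U δ Q).1 (psU U δ Q).2 (psU U δ Q).2 = 1 := by
  obtain ⟨h1, h2⟩ := Theta_Xi (conj_mem hU hQ) h
  set x := Xi (Uᴴ * Q * U) with hxdef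
  have hp : 0 < kL U δ x.1 x.2 x.2 := kL_pos hU hδ x.1 h1
  have hs := Real.sqrt_pos.mpr hp
  constructor
  · have h3 : Theta (nrmz U δ x) = Theta x := Theta_smul (inv_pos.mpr hs)
    have h4 : phU U (psU U δ Q) = U * Theta (nrmz U δ x) * Uᴴ := rfl
    rw [h4, h3, h2]
    have h5 : U * (Uᴴ * Q * U) * Uᴴ = (U * Uᴴ) * Q * (U * Uᴴ) := by
      simp only [Matrix.mul_assoc]
    rw [h5, UUh hU, Matrix.one_mul, Matrix.mul_one]
  · have h4 : psU U δ Q = (x.1, (Real.sqrt (kL U δ x.1 x.2 x.2))⁻¹ • x.2) := rfl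
    rw [h4]
    simp only [map_smul, _root_.smul_apply, smul_eq_mul]
    have h5 := Real.mul_self_sqrt hp.le
    field_simp
    nlinarith

theorem phU_smul (U : Mat) {z : V} {y : Yf} {t : ℝ} (ht : 0 < t) :
    phU U (z, t • y) = phU U (z, y) := by
  unfold phU
  rw [Theta_smul ht]

/-- existence of adapted unitary matrices. -/
theorem exists_jj {Q : Mat} (hQ : Q ∈ M8) : ∃ U : Mat, Uᴴ * U = 1 ∧
    ((Uᴴ * Q * U)ᴴ * (Uᴴ * Q * U)) 0 0 ≠ 0 ∧ zX (Uᴴ * Q * U) = 0 := by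
  obtain ⟨U, y, hU, hy, hQe⟩ := exists_U hQ
  have h1 : Uᴴ * Q * U = Theta ((0 : V), y) := by
    rw [hQe]
    have h5 : Uᴴ * (U * Theta ((0 : V), y) * Uᴴ) * U
        = (Uᴴ * U) * Theta ((0 : V), y) * (Uᴴ * U) := by
      simp only [Matrix.mul_assoc]
    rw [h5, hU, Matrix.one_mul, Matrix.mul_one]
  have hx : (((0 : V), y) : V × Yf).2 ≠ 0 := hy
  refine ⟨U, hU, ?_, ?_⟩
  · rw [h1, Theta_gram hx, Matrix.smul_apply, Matrix.vecMulVec_apply]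
    simp [nz, Zv]
  · rw [h1]
    have h2 := congrArg Prod.fst (Xi_Theta hx)
    exact h2

end Pool.Agent.Helper46.M8
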