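import Pool.Agent.Helper46.M8.St.Q1
import Pool.Agent.Helper46.M8.St.N7
import Pool.Agent.Helper46.M8.St.E4

/-!
# M8, piece Q2
-/

open Filter Metric Module Set
open scoped Topology ContDiff Matrix Matrix.Norms.Elementwise ComplexConjugate Manifold

set_option maxSynthPendingDepth 3

namespace Pool.Agent.Helper46.M8
open Pool.Agent.Helper20.PC Pool.Agent.Helper20.HP Pool.Agent.Helper20.M8 Pool.Agent.Helper20.MB

private lemma q2_unit {U U' : Mat} (hU : Uᴴ * U = 1) (hU' : U'ᴴ * U' = 1) :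
    (U'ᴴ * U)ᴴ * (U'ᴴ * U) = 1 := by
  have h1 : U' * U'ᴴ = 1 := mul_eq_one_comm.1 hU'
  rw [Matrix.conjTranspose_mul, Matrix.conjTranspose_conjTranspose]
  calc Uᴴ * U' * (U'ᴴ * U) = Uᴴ * (U' * U'ᴴ) * U := by simp only [Matrix.mul_assoc]
    _ = 1 := by rw [h1, Matrix.mul_one, hU]

private lemma q2_conj (U U' : Mat) (w : V × Yf) :
    U'ᴴ * phU U w * U' = (U'ᴴ * U) * Theta w * (U'ᴴ * U)ᴴ := by
  rw [Matrix.conjTranspose_mul, Matrix.conjTranspose_conjTranspose, phU]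
  simp only [Matrix.mul_assoc]

private lemma q2_zero {g : Mat} {w : V × Yf} (hg : gᴴ * g = 1) (hw : w.2 ≠ 0)
    (h : ((g * Theta w * gᴴ)ᴴ * (g * Theta w * gᴴ)) 0 0 ≠ 0) : (g *ᵥ Zv w.1) 0 ≠ 0 := by
  intro h0
  apply h
  have e : (g * Theta w * gᴴ)ᴴ * (g * Theta w * gᴴ) = g * ((Theta w)ᴴ * Theta w) * gᴴ := by
    rw [Matrix.conjTranspose_mul, Matrix.conjTranspose_mul, Matrix.conjTranspose_conjTranspose]
    calc g * ((Theta w)ᴴ * gᴴ) * (g * Theta w * gᴴ)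
        = g * (Theta w)ᴴ * (gᴴ * g) * (Theta w * gᴴ) := by simp only [Matrix.mul_assoc]
      _ = _ := by rw [hg]; simp only [Matrix.mul_assoc, Matrix.mul_one]
  rw [e, Theta_gram hw, Matrix.mul_smul, Matrix.smul_mul, Matrix.mul_vecMulVec,
    Matrix.vecMulVec_mul, Matrix.smul_apply, Matrix.vecMulVec_apply, h0, zero_mul, smul_zero]

private lemma q2_dmob_zero (g : Mat) (z : V) : dmob g z 0 = 0 := by
  have e : Wv 0 = 0 := by
    ext i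
    fin_cases i <;> simp [Wv]
  ext i
  simp [dmob, e]

private lemma q2_ne {g : Mat} {w : V × Yf} (hg : gᴴ * g = 1) (hw : w.2 ≠ 0)
    (h : (g *ᵥ Zv w.1) 0 ≠ 0) : (Phi g w).2 ≠ 0 := by
  intro h0
  apply hw
  have h1 : w.2.1 = 0 := congrArg (fun y : Yf => y.1) h0
  have h2 : dmob g w.1 w.2.2 = 0 := congrArg (fun y : Yf => y.2) h0
  have h3 := (dmob_inv hg h w.2.2).1
  rw [h2, q2_dmob_zero] at h3
  exact Prod.ext h1 h3.symm

private lemma q2_kpos {U : Mat} {δ : ℝ} (hU : Uᴴ * U = 1) (hδ : |δ| ≤ 1/100) (z : V) {y : Yf}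
    (hy : y ≠ 0) : 0 < kL U δ z y y :=
  (Dd_good hU hδ 0 0 z).kpos.self_of_nhds y hy

private lemma q2_nrmz {U : Mat} {δ : ℝ} {z : V} {y : Yf} {r : ℝ} (hr : 0 < r) :
    nrmz U δ (z, r • y) = nrmz U δ (z, y) := by
  have e : kL U δ z (r • y) (r • y) = r ^ 2 * kL U δ z y y := by
    simp only [map_smul, _root_.smul_apply, smul_eq_mul]
    ring
  simp only [nrmz, e, Real.sqrt_mul (sq_nonneg r), Real.sqrt_sq hr.le, smul_smul, mul_inv]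
  congr 2
  field_simp

/-! ### Q2 : change of the parametrisation -/
theorem psU_phU {U U' : Mat} {δ : ℝ} (hU : Uᴴ * U = 1) (hU' : U'ᴴ * U' = 1) (hδ : |δ| ≤ 1/100)
    {w : V × Yf} (hw : w.2 ≠ 0)
    (h : ((U'ᴴ * phU U w * U')ᴴ * (U'ᴴ * phU U w * U')) 0 0 ≠ 0) :
    ((U'ᴴ * U) *ᵥ Zv w.1) 0 ≠ 0 ∧ psU U' δ (phU U w) = nrmz U' δ (Phi (U'ᴴ * U) w) := by
  have hg := q2_unit hU hU'
  rw [q2_conj] at h
  have h0 := q2_zero hg hw h
  refine ⟨h0, ?_⟩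
  rw [psU, q2_conj, Theta_mob hg hw h0, Xi_Theta (q2_ne hg hw h0)]
  exact q2_nrmz (inv_pos.2 (Real.sqrt_pos.2 (fn_pos (q2_ne hg hw h0))))

private lemma q2_fderiv_nrmz {U : Mat} {δ : ℝ} (hU : Uᴴ * U = 1) (hδ : |δ| ≤ 1/100) {x : V × Yf}
    (hx : x.2 ≠ 0) (a : V × Yf) : ∃ t : ℝ, fderiv ℝ (nrmz U δ) x a
      = (a.1, (Real.sqrt (kL U δ x.1 x.2 x.2))⁻¹ • a.2 + t • x.2) := by
  have hk := q2_kpos hU hδ x.1 hx
  have hc : ContDiffAt ℝ ∞ (fun w : V × Yf => kL U δ w.1 w.2 w.2) x :=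
    contDiffAt_kyy (D := Dd U δ 0 0) (x := x.1) (y := x.2) (Dd_good hU hδ 0 0 x.1)
  have hf : ContDiffAt ℝ ∞ (fun w : V × Yf => (Real.sqrt (kL U δ w.1 w.2 w.2))⁻¹) x :=
    (hc.sqrt hk.ne').inv (Real.sqrt_ne_zero'.2 hk)
  have hd := (hf.differentiableAt (by simp)).hasFDerivAt
  have h2 : HasFDerivAt (fun w : V × Yf => w.2) (ContinuousLinearMap.snd ℝ V Yf) x := hasFDerivAt_snd
  have h1 : HasFDerivAt (fun w : V × Yf => w.1) (ContinuousLinearMap.fst ℝ V Yf) x := hasFDerivAt_fst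
  have h3 := h1.prodMk (hd.smul h2)
  refine ⟨fderiv ℝ (fun w : V × Yf => (Real.sqrt (kL U δ w.1 w.2 w.2))⁻¹) x a, ?_⟩
  have e : fderiv ℝ (nrmz U δ) x = _ := h3.fderiv
  rw [e]
  simp

private lemma q2_scale {U : Mat} {δ : ℝ} (hU : Uᴴ * U = 1) (hδ : |δ| ≤ 1/100) (ε lam η : ℝ)
    {x : V × Yf} (hx : x.2 ≠ 0) (A B : V × Yf) :
    (Dd U δ ε lam).R η (nrmz U δ x) (fderiv ℝ (nrmz U δ) x A) (fderiv ℝ (nrmz U δ) x B)
      = (Dd U δ ε lam).R η x A B := by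
  obtain ⟨ta, ha⟩ := q2_fderiv_nrmz hU hδ hx A
  obtain ⟨tb, hb⟩ := q2_fderiv_nrmz hU hδ hx B
  rw [ha, hb]
  obtain ⟨z, y⟩ := x
  obtain ⟨a1, a2⟩ := A
  obtain ⟨b1, b2⟩ := B
  have hk := q2_kpos hU hδ z hx
  have G := Dd_good hU hδ ε lam z
  have hs : (Real.sqrt (kL U δ z y y))⁻¹ ≠ 0 := inv_ne_zero (Real.sqrt_ne_zero'.2 hk)
  have k1 : ∀ a b, (Dd U δ ε lam).k z a b = (Dd U δ ε lam).k z b a := G.ksymm.self_of_nhds
  have k2 : ∀ a b c d, (Dd U δ ε lam).S z a b c d = - (Dd U δ ε lam).S z b a c d :=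
    G.S1.self_of_nhds
  have k3 : ∀ a b c d, (Dd U δ ε lam).S z a b c d = (Dd U δ ε lam).S z c d a b :=
    G.S2.self_of_nhds
  have hk' : (Dd U δ ε lam).k z y y ≠ 0 := hk.ne'
  have key := (Dd U δ ε lam).R_scale η (x := z) (y := y) a1 b1 a2 b2 ta tb hs hk' k1 k2 k3
  set s := (Real.sqrt (kL U δ z y y))⁻¹ with hsd
  have e1 : nrmz U δ (z, y) = (z, s • y) := rfl
  rw [e1]
  clear_value s
  simp only []
  convert key using 3

theorem comp_eq {U U' : Mat} {δ : ℝ} (hU : Uᴴ * U = 1) (hU' : U'ᴴ * U' = 1) (hδ : |δ| ≤ 1/100)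
    (ε lam η : ℝ) {w : V × Yf} (hw : w.2 ≠ 0)
    (h : ((U'ᴴ * phU U w * U')ᴴ * (U'ᴴ * phU U w * U')) 0 0 ≠ 0) (a b : V × Yf) :
    (Dd U δ ε lam).R η w a b = (Dd U' δ ε lam).R η (psU U' δ (phU U w))
      (fderiv ℝ (psU U' δ) (phU U w) (fderiv ℝ (phU U) w a))
      (fderiv ℝ (psU U' δ) (phU U w) (fderiv ℝ (phU U) w b)) := by
  have hg := q2_unit hU hU'
  obtain ⟨h0, h1⟩ := psU_phU hU hU' hδ hw h
  have hne := q2_ne hg hw h0
  have hcont : ContinuousAt (phU U) w := (contDiffAt_phU U hw).continuousAt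
  have hev : psU U' δ ∘ phU U =ᶠ[𝓝 w] nrmz U' δ ∘ Phi (U'ᴴ * U) := by
    have e1 : ∀ᶠ w' : V × Yf in 𝓝 w, w'.2 ≠ 0 := continuous_snd.continuousAt.eventually_ne hw
    have c2 : Continuous (fun Q : Mat => ((U'ᴴ * Q * U')ᴴ * (U'ᴴ * Q * U')) 0 0) := by
      have c3 : Continuous (fun Q : Mat => (U'ᴴ * Q * U')ᴴ * (U'ᴴ * Q * U')) := by fun_prop
      exact (continuous_apply (0 : Fin 3)).comp ((continuous_apply (0 : Fin 3)).comp c3)
    have e2 : ∀ᶠ w' : V × Yf in 𝓝 w,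
        ((U'ᴴ * phU U w' * U')ᴴ * (U'ᴴ * phU U w' * U')) 0 0 ≠ 0 :=
      (c2.continuousAt.comp hcont).eventually_ne h
    filter_upwards [e1, e2] with w' h3 h4
    exact (psU_phU hU hU' hδ h3 h4).2
  have dps : DifferentiableAt ℝ (psU U' δ) (phU U w) :=
    (contDiffAt_psU hU' hδ (phU_mem hU hw) h).differentiableAt (by simp)
  have dph : DifferentiableAt ℝ (phU U) w := (contDiffAt_phU U hw).differentiableAt (by simp)
  have dnr : DifferentiableAt ℝ (nrmz U' δ) (Phi (U'ᴴ * U) w) :=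
    (contDiffAt_nrmz hU' hδ hne).differentiableAt (by simp)
  have dPh : DifferentiableAt ℝ (Phi (U'ᴴ * U)) w := (contDiffAt_Phi h0).differentiableAt (by simp)
  have hfd : ∀ a, fderiv ℝ (psU U' δ) (phU U w) (fderiv ℝ (phU U) w a)
      = fderiv ℝ (nrmz U' δ) (Phi (U'ᴴ * U) w) (dPhi (U'ᴴ * U) w a) := by
    intro a
    have e1 := hev.fderiv_eq (𝕜 := ℝ)
    rw [fderiv_comp w dps dph, fderiv_comp w dnr dPh] at e1
    have e2 := congrArg (fun L : (V × Yf) →L[ℝ] (V × Yf) => L a) e1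
    simp only [ContinuousLinearMap.comp_apply] at e2
    rw [fderiv_Phi h0] at e2
    exact e2
  rw [hfd a, hfd b, h1, q2_scale hU' hδ ε lam η hne]
  have hUU : U * (U'ᴴ * U)ᴴ = U' := by
    have h2 : U * Uᴴ = 1 := mul_eq_one_comm.1 hU
    rw [Matrix.conjTranspose_mul, Matrix.conjTranspose_conjTranspose, ← Matrix.mul_assoc, h2,
      Matrix.one_mul]
  have hR := R_mob (U := U) (g := U'ᴴ * U) (δ := δ) (x := w) hU hδ hg h0 hw ε lam η a b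
  rw [hUU] at hR
  exact hR.symm

end Pool.Agent.Helper46.M8
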