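import Pool.Agent.Helper20.MB.Family
import Pool.Agent.Helper46.M8.St.Q2
import Pool.Agent.Helper46.M8.Ns

/-!
# M8, piece Q3
-/

open Filter Metric Module Set
open scoped Topology ContDiff Matrix Matrix.Norms.Elementwise ComplexConjugate Manifold

set_option maxSynthPendingDepth 3

namespace Pool.Agent.Helper46.M8
open Pool.Agent.Helper20.PC Pool.Agent.Helper20.HP Pool.Agent.Helper20.M8 Pool.Agent.Helper20.MB

/-! ### Q3 : the family of parametrisations -/
open Classical in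
/-- the unitary matrix used at `Q`. -/
noncomputable def jU (Q : M8) : {U : Mat // Uᴴ * U = 1} :=
  ⟨(exists_jj Q.2).choose, (exists_jj Q.2).choose_spec.1⟩

set_option maxRecDepth 20000 in
theorem M8_fam {δ ε lam η : ℝ} (hδ : |δ| ≤ 1/100)
    (h1 : ∀ U : Mat, Uᴴ * U = 1 → ∀ y : Yf, kL U δ 0 y y = 1 →
      (∀ a, a ≠ 0 → 0 < fibL (kL U δ) (SL U δ ε lam) η (0, y) a a) ∧
      ∀ u v : V × Yf, kL U δ 0 y (u.2 + AL U δ ε 0 u.1 y) = 0 →
        kL U δ 0 y (v.2 + AL U δ ε 0 v.1 y) = 0 → LinearIndependent ℝ ![u, v] →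
        0 < num ((Dd U δ ε lam).G η) (0, y) u v) :
    Fam M8 η (fun j : {U : Mat // Uᴴ * U = 1} => Dd j.1 δ ε lam) (fun j => phU j.1)
      (fun j => psU j.1 δ) jU := by
  have hc : ∀ p : M8, (((jU p).1ᴴ * (p : Mat) * (jU p).1)ᴴ
      * ((jU p).1ᴴ * (p : Mat) * (jU p).1)) 0 0 ≠ 0 := fun p => (exists_jj p.2).choose_spec.2.1
  have hz : ∀ p : M8, (psU (jU p).1 δ (p : Mat)).1 = 0 := fun p => (exists_jj p.2).choose_spec.2.2
  have hk : ∀ p : M8, kL (jU p).1 δ (psU (jU p).1 δ (p : Mat)).1 (psU (jU p).1 δ (p : Mat)).2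
      (psU (jU p).1 δ (p : Mat)).2 = 1 := fun p => (phU_psU (jU p).2 hδ p.2 (hc p)).2
  have hk0 : ∀ p : M8, kL (jU p).1 δ 0 (psU (jU p).1 δ (p : Mat)).2
      (psU (jU p).1 δ (p : Mat)).2 = 1 := fun p => by
    have := hk p
    rwa [hz p] at this
  have hy : ∀ p : M8, (psU (jU p).1 δ (p : Mat)).2 ≠ 0 := fun p h => by
    have := hk p
    rw [h] at this
    simp at this
  have hpr : ∀ p : M8, psU (jU p).1 δ (p : Mat) = (0, (psU (jU p).1 δ (p : Mat)).2) := fun p =>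
    Prod.ext (hz p) rfl
  have hnear : ∀ p : M8, ∀ᶠ w in 𝓝 (psU (jU p).1 δ (p : Mat)), w.2 ≠ 0 := fun p =>
    continuous_snd.continuousAt.eventually_ne (hy p)
  refine ⟨?_, ?_, ?_, ?_, ?_, ?_, ?_, ?_, ?_, ?_⟩
  · exact fun p => contDiffAt_phU _ (hy p)
  · exact fun p => contDiffAt_psU (jU p).2 hδ p.2 (hc p)
  · exact fun p => (hnear p).mono fun w hw => phU_mem (jU p).2 hw
  · intro p
    have hcont : Continuous (fun q : Mat => (((jU p).1ᴴ * q * (jU p).1)ᴴ
      * ((jU p).1ᴴ * q * (jU p).1)) 0 0) := by fun_prop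
    filter_upwards [hcont.continuousAt.eventually_ne (hc p)] with q hq hqS
    exact (phU_psU (jU p).2 hδ hqS hq).1
  · intro p
    filter_upwards [lt_mem_nhds (zero_lt_one (α := ℝ))] with t ht
    exact phU_smul _ ht
  · exact fun p => Dd_good (jU p).2 hδ ε lam _
  · exact fun p => hk p
  · intro p a ha
    have := (h1 (jU p).1 (jU p).2 _ (hk0 p)).1 a ha
    rw [← hpr p] at this
    exact this
  · intro p u v hu hv huv
    have := (h1 (jU p).1 (jU p).2 _ (hk0 p)).2 u v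
    rw [← hpr p] at this
    have hu' : kL (jU p).1 δ (psU (jU p).1 δ (p : Mat)).1 (psU (jU p).1 δ (p : Mat)).2
        (u.2 + AL (jU p).1 δ ε (psU (jU p).1 δ (p : Mat)).1 u.1
          (psU (jU p).1 δ (p : Mat)).2) = 0 := hu
    have hv' : kL (jU p).1 δ (psU (jU p).1 δ (p : Mat)).1 (psU (jU p).1 δ (p : Mat)).2
        (v.2 + AL (jU p).1 δ ε (psU (jU p).1 δ (p : Mat)).1 v.1
          (psU (jU p).1 δ (p : Mat)).2) = 0 := hv
    rw [hz p] at hu' hv'
    exact this hu' hv' huv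
  · intro p
    filter_upwards [hnear p] with w hw q hq a b
    have hq' : (q : Mat) = phU (jU p).1 w := hq
    have h := hc q
    rw [hq'] at h
    rw [hq']
    have t := comp_eq (jU p).2 (jU q).2 hδ ε lam η hw h a b
    refine t.trans ?_
    generalize (Dd (jU q).1 δ ε lam).R η (psU (jU q).1 δ (phU (jU p).1 w)) = R'
    rfl

end Pool.Agent.Helper46.M8
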