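import Pool.Agent.Helper46.M8.St.I2
import Pool.Agent.Helper46.M8.St.P1
import Pool.Agent.Helper46.M8.St.P2
import Pool.Agent.Helper46.M8.St.Q3

/-!
# M8, piece R1
-/

open Filter Metric Module Set
open scoped Topology ContDiff Matrix Matrix.Norms.Elementwise ComplexConjugate Manifold

set_option maxSynthPendingDepth 3

namespace Pool.Agent.Helper46.M8
open Pool.Agent.Helper20.PC Pool.Agent.Helper20.HP Pool.Agent.Helper20.M8 Pool.Agent.Helper20.MB

/-! ### R1 : the result -/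
/-- the entry of a matrix as a continuous linear map. -/
noncomputable def entryL (i j : Fin 3) : Mat →L[ℝ] ℂ :=
  LinearMap.toContinuousLinearMap
    { toFun := fun A : Mat => A i j
      map_add' := fun _ _ => rfl
      map_smul' := fun _ _ => rfl }

theorem entryL_apply (i j : Fin 3) (A : Mat) : entryL i j A = A i j := rfl

section
variable {A E F : Type*} [NormedAddCommGroup A] [NormedSpace ℝ A] [NormedAddCommGroup E]
    [NormedSpace ℝ E] [NormedAddCommGroup F] [NormedSpace ℝ F] {S : Set A} {ι κ : Type*}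
    (P : PAtlas A E S ι)

theorem R1_smooth (L : A →L[ℝ] F) :
    ContMDiff 𝓘(ℝ, E) 𝓘(ℝ, F) ∞ (fun Q : P.Man => L (P.incl Q)) :=
  (contMDiff_iff_contDiff.2 L.contDiff).comp P.contMDiff_incl

theorem R1_immersion (L : κ → A →L[ℝ] F) (hL : ∀ a, (∀ k, L k a = 0) → a = 0) (p : P.Man)
    (u : TangentSpace 𝓘(ℝ, E) p)
    (h : ∀ k, mfderiv 𝓘(ℝ, E) 𝓘(ℝ, F) (fun Q : P.Man => L k (P.incl Q)) p u = 0) : u = 0 := by
  apply P.mfderiv_incl_injective p
  rw [map_zero]
  apply hL
  intro k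
  have h1 : MDifferentiableAt 𝓘(ℝ, A) 𝓘(ℝ, F) (L k) (P.incl p) :=
    (L k).differentiableAt.mdifferentiableAt
  have e1 := mfderiv_comp (I := 𝓘(ℝ, E)) (I' := 𝓘(ℝ, A)) (I'' := 𝓘(ℝ, F)) (f := P.incl)
    (g := L k) p h1 ((P.contMDiff_incl p).mdifferentiableAt (by simp))
  rw [mfderiv_eq_fderiv, (L k).fderiv] at e1
  have e2 := DFunLike.congr_fun e1 u
  exact e2.symm.trans (h k)

end

theorem M8_result : ∃ (_ : ChartedSpace (EuclideanSpace ℝ (Fin 8)) M8) (_ : IsManifold (𝓡 8) ∞ M8),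
    (∀ i j, ContMDiff (𝓡 8) 𝓘(ℝ, ℂ) ∞ (fun Q : M8 => (Q : Mat) i j)) ∧
    (∀ (p : M8) (u : TangentSpace (𝓡 8) p),
      (∀ i j, mfderiv (𝓡 8) 𝓘(ℝ, ℂ) (fun Q : M8 => (Q : Mat) i j) p u = 0) → u = 0) ∧
    AdmitsPositiveCurvature (𝓡 8) M8 := by
  obtain ⟨δ, ε, lam, η, hδ, hη, hloc⟩ := local_pos
  have fam := M8_fam (ε := ε) (lam := lam) (η := η) hδ hloc
  let D : ∀ q : M8, CD δ (q : Mat) := fun q => (exists_CD hδ q.2).some
  let P : PAtlas Mat E8 M8 M8 :=
    { O := fun q => (D q).O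
      T := fun _ => univ
      f := fun q => (D q).rho
      g := fun q => (D q).psi
      hO := fun q => (D q).isOpen_O
      hT := fun _ => isOpen_univ
      hf := fun q => (D q).smooth_rho
      hg := fun q => (D q).smooth_psi.contDiffOn
      maps_f := fun _ _ _ _ => mem_univ _
      maps_g := fun q z _ => ⟨(D q).psi_mem z, (D q).psi_mem' z⟩
      left := fun q _ hp hO => (D q).psi_rho hp hO
      right := fun q z _ => (D q).rho_psi z
      idx := id
      mem := fun p => (D p).mem_O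
      base := ⟨phU 1 (0, (1, 0)), phU_mem (by simp) (by simp)⟩ }
  refine ⟨(inferInstance : ChartedSpace E8 P.Man),
    (inferInstance : IsManifold 𝓘(ℝ, E8) ∞ P.Man), ?_, ?_, ?_⟩
  · exact fun i j => R1_smooth P (entryL i j)
  · exact fun p u h => R1_immersion P (fun k : Fin 3 × Fin 3 => entryL k.1 k.2)
      (fun a ha => by funext i j; exact ha (i, j)) p u (fun k => h k.1 k.2)
  · exact Fam.admits P fam

end Pool.Agent.Helper46.M8
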