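import Pool.Agent.Helper46.M8.St.T6
import Pool.Agent.Helper46.M8.St.T5

/-!
# M8, piece R3 : connectedness
-/

open Filter Metric Module Set
open scoped Topology ContDiff Matrix Matrix.Norms.Elementwise ComplexConjugate Manifold

set_option maxSynthPendingDepth 3

namespace Pool.Agent.Helper46.M8
open Pool.Agent.Helper20.PC Pool.Agent.Helper20.HP Pool.Agent.Helper20.M8 Pool.Agent.Helper20.MB

/-- the projections `b bᴴ`. -/
noncomputable def prj (b : EuclideanSpace ℂ (Fin 3)) : Mat := Matrix.vecMulVec b.ofLp (star b.ofLp)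

lemma R3_norm (b : EuclideanSpace ℂ (Fin 3)) (hb : b ∈ sphere (0 : EuclideanSpace ℂ (Fin 3)) 1) :
    star b.ofLp ⬝ᵥ b.ofLp = 1 := by
  have h1 : ‖b‖ = 1 := mem_sphere_zero_iff_norm.mp hb
  have h2 := EuclideanSpace.norm_sq_eq b
  rw [h1] at h2
  simp only [dotProduct, Pi.star_apply, Complex.star_def, ← Complex.normSq_eq_conj_mul_self]
  rw [← Complex.ofReal_sum]
  simp only [Complex.normSq_eq_norm_sq]
  rw [← h2]
  norm_num

lemma prj_mem (b : EuclideanSpace ℂ (Fin 3)) (hb : b ∈ sphere (0 : EuclideanSpace ℂ (Fin 3)) 1) :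
    prj b ∈ M8 := by
  have h := R3_norm b hb
  have hH : (prj b)ᴴ = prj b := by
    rw [prj, Matrix.conjTranspose_vecMulVec, star_star]
  have h2 : prj b * prj b = prj b := by
    rw [prj, Matrix.vecMulVec_mul_vecMulVec, h, one_smul]
  have ht : (prj b).trace = 1 := by
    rw [prj, Matrix.trace_vecMulVec, dotProduct_comm, h]
  refine ⟨by rw [hH, h2, h2], by rw [hH, h2, ht], by rw [ht]; simp⟩

lemma continuous_prj : Continuous prj := by
  unfold prj
  fun_prop

theorem joined_prj {b b' : EuclideanSpace ℂ (Fin 3)}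
    (hb : b ∈ sphere (0 : EuclideanSpace ℂ (Fin 3)) 1)
    (hb' : b' ∈ sphere (0 : EuclideanSpace ℂ (Fin 3)) 1) : JoinedIn M8 (prj b) (prj b') := by
  have hr : 1 < Module.rank ℝ (EuclideanSpace ℂ (Fin 3)) := by
    have h1 : 1 < finrank ℝ (EuclideanSpace ℂ (Fin 3)) := by
      rw [finrank_real_of_complex]
      simp
    exact_mod_cast Module.lt_rank_of_lt_finrank h1
  have h := (isPathConnected_sphere hr (0 : EuclideanSpace ℂ (Fin 3)) zero_le_one).image
    continuous_prj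
  have h2 := h.joinedIn (prj b) ⟨b, hb, rfl⟩ (prj b') ⟨b', hb', rfl⟩
  exact h2.mono (by rintro _ ⟨c, hc, rfl⟩; exact prj_mem c hc)

lemma Theta_one : Theta ((0 : V), ((1 : ℝ), (0 : V))) = prj (EuclideanSpace.single 0 1) := by
  ext i j
  have h1 : fn ((0 : V), ((1 : ℝ), (0 : V))) = 1 := by simp [fn, h0f, hip]
  have h2 : nz (0 : V) = 1 := by simp [nz]
  simp only [Theta, h1, h2, prj, Matrix.smul_apply, Matrix.add_apply, Matrix.vecMulVec_apply,
    smul_eq_mul]
  fin_cases i <;> fin_cases j <;> simp [Zv, Wv, hip]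

lemma conj_prj (U : Mat) (b : EuclideanSpace ℂ (Fin 3)) :
    U * prj b * Uᴴ = prj (WithLp.toLp 2 (U *ᵥ b.ofLp)) := by
  rw [prj, prj, Matrix.mul_vecMulVec, Matrix.vecMulVec_mul]
  congr 1
  ext i
  simp [Matrix.vecMul, Matrix.mulVec, dotProduct, mul_comm]

/-- every point of `M⁸` can be joined to a point of the section `b bᴴ`. -/
theorem joined_section {Q : Mat} (hQ : Q ∈ M8) :
    ∃ b ∈ sphere (0 : EuclideanSpace ℂ (Fin 3)) 1, JoinedIn M8 Q (prj b) := by
  obtain ⟨U, y, hU, hy, rfl⟩ := exists_U hQ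
  have hf : finrank ℝ Yf = 5 := by
    have h1 : finrank ℝ V = 4 := by
      rw [finrank_real_of_complex]
      simp
    rw [Module.finrank_prod, finrank_self, h1]
  have hr : 1 < Module.rank ℝ Yf := by
    have h1 : 1 < finrank ℝ Yf := by omega
    exact_mod_cast Module.lt_rank_of_lt_finrank h1
  have hc := isPathConnected_compl_singleton_of_one_lt_rank hr (0 : Yf)
  have hcont : ContinuousOn (fun y : Yf => U * Theta (0, y) * Uᴴ) {0}ᶜ := by
    intro y hy
    have h1 : ContinuousAt Theta ((0 : V), y) := (contDiffAt_Theta (x := (0, y)) hy).continuousAt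
    have h2 : ContinuousAt (fun y : Yf => Theta (0, y)) y :=
      ContinuousAt.comp (f := fun y : Yf => ((0 : V), y)) h1 (by fun_prop)
    exact ((continuousAt_const.mul h2).mul continuousAt_const).continuousWithinAt
  have him := hc.image' hcont
  have h2 := him.joinedIn (U * Theta (0, y) * Uᴴ) ⟨y, hy, rfl⟩
    (U * Theta (0, ((1 : ℝ), (0 : V))) * Uᴴ) ⟨(1, 0), by simp [Prod.ext_iff], rfl⟩
  have h3 : (WithLp.toLp 2 (U *ᵥ (EuclideanSpace.single (0 : Fin 3) (1 : ℂ)).ofLp) : EuclideanSpace ℂ (Fin 3))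
      ∈ sphere (0 : EuclideanSpace ℂ (Fin 3)) 1 := by
    rw [mem_sphere_zero_iff_norm]
    have h4 := EuclideanSpace.norm_sq_eq
      (WithLp.toLp 2 (U *ᵥ (EuclideanSpace.single (0 : Fin 3) (1 : ℂ)).ofLp) : EuclideanSpace ℂ (Fin 3))
    have h5 : ∀ i, (U *ᵥ (EuclideanSpace.single (0 : Fin 3) (1 : ℂ)).ofLp) i = U i 0 := by
      intro i
      simp [Matrix.mulVec, dotProduct, Fin.sum_univ_three]
    have h6 : (Uᴴ * U) 0 0 = 1 := by rw [hU]; simp
    rw [Matrix.mul_apply] at h6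
    have h7 : ∑ k, ‖U k 0‖ ^ 2 = 1 := by
      have h8 := congrArg Complex.re h6
      rw [Complex.re_sum] at h8
      simp only [Matrix.conjTranspose_apply, Complex.one_re] at h8
      rw [← h8]
      refine Finset.sum_congr rfl fun k _ => ?_
      rw [Complex.star_def, ← Complex.normSq_eq_conj_mul_self, Complex.ofReal_re,
        Complex.normSq_eq_norm_sq]
    simp only [h5] at h4
    rw [h7] at h4
    have h9 := norm_nonneg
      (WithLp.toLp 2 (U *ᵥ (EuclideanSpace.single (0 : Fin 3) (1 : ℂ)).ofLp) : EuclideanSpace ℂ (Fin 3))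
    nlinarith
  refine ⟨_, h3, ?_⟩
  rw [← conj_prj, ← Theta_one]
  refine h2.mono ?_
  rintro _ ⟨y', hy', rfl⟩
  exact M8_conj hU (Theta_mem hy')

theorem M8_isPathConnected : IsPathConnected M8 := by
  obtain ⟨b₀, hb₀⟩ : ∃ b : EuclideanSpace ℂ (Fin 3), b ∈ sphere (0 : EuclideanSpace ℂ (Fin 3)) 1 :=
    ⟨EuclideanSpace.single 0 1, by simp⟩
  refine ⟨prj b₀, prj_mem b₀ hb₀, fun {Q} hQ => ?_⟩
  obtain ⟨b, hb, h⟩ := joined_section hQ
  exact (joined_prj hb₀ hb).trans h.symm

end Pool.Agent.Helper46.M8
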