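import Pool.Agent.Helper46.M8.Man
import Pool.Agent.Helper46.M8.St.A3

/-!
# M8, piece T1
-/

open Filter Metric Module Set
open scoped Topology ContDiff Matrix Matrix.Norms.Elementwise ComplexConjugate Manifold

set_option maxSynthPendingDepth 3

namespace Pool.Agent.Helper46.M8
open Pool.Agent.Helper20.PC Pool.Agent.Helper20.HP Pool.Agent.Helper20.M8 Pool.Agent.Helper20.MB

/-! ### T1 : the image of `Theta` -/

namespace T1aux

/-- the left vector of `Theta`. -/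
noncomputable def bv (x : V × Yf) : Fin 3 → ℂ :=
  (((Real.sqrt (fn x))⁻¹ : ℝ) : ℂ) •
    (((x.2.1 / nz x.1 : ℝ) : ℂ) • Zv x.1
      + ((nz x.1 : ℂ) ^ 2)⁻¹ • ((nz x.1 : ℂ) • Wv x.2.2 - hip x.1 x.2.2 • Zv x.1))

lemma Theta_eq (x : V × Yf) : Theta x = Matrix.vecMulVec (bv x) (star (Zv x.1)) := by
  rw [Theta, bv, Matrix.smul_vecMulVec, Matrix.add_vecMulVec, Matrix.smul_vecMulVec,
    Matrix.smul_vecMulVec]

lemma zz (z : V) : star (Zv z) ⬝ᵥ Zv z = (nz z : ℂ) := by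
  simp only [dotProduct, Fin.sum_univ_three, Zv, nz, Pi.star_apply, Fin.sum_univ_two,
    Matrix.cons_val]
  simp only [star_one, RCLike.star_def, ← Complex.normSq_eq_conj_mul_self]
  push_cast
  ring

lemma zw (z w : V) : star (Zv z) ⬝ᵥ Wv w = hip z w := by
  simp only [dotProduct, Fin.sum_univ_three, Zv, Wv, hip, Pi.star_apply, Fin.sum_univ_two,
    Matrix.cons_val]
  simp only [star_one, RCLike.star_def]
  ring

lemma wz (z w : V) : star (Wv w) ⬝ᵥ Zv z = hip w z := by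
  simp only [dotProduct, Fin.sum_univ_three, Zv, Wv, hip, Pi.star_apply, Fin.sum_univ_two,
    Matrix.cons_val]
  simp only [star_zero, RCLike.star_def]
  ring

lemma ww (w : V) : star (Wv w) ⬝ᵥ Wv w = hip w w := by
  simp only [dotProduct, Fin.sum_univ_three, Wv, hip, Pi.star_apply, Fin.sum_univ_two,
    Matrix.cons_val]
  simp only [star_zero, RCLike.star_def]
  ring

lemma hip_conj (z w : V) : star (hip z w) = hip w z := by
  simp only [hip, Fin.sum_univ_two, RCLike.star_def, map_add, map_mul, Complex.conj_conj]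
  ring

lemma hip_self (w : V) : hip w w = ((hip w w).re : ℂ) := by
  have h := hip_conj w w
  rw [RCLike.star_def] at h
  exact (Complex.conj_eq_iff_re.1 h).symm

lemma fn_pos {x : V × Yf} (hx : x.2 ≠ 0) : 0 < fn x := by
  rw [fn]
  by_cases h : x.2.2 = 0
  · have h1 : x.2.1 ≠ 0 := by
      intro h1
      exact hx (Prod.ext h1 h)
    have h2 : 0 < x.2.1 ^ 2 := by positivity
    rw [h]
    simpa using h2
  · have := h0_pos x.1 x.2.2 h
    have := sq_nonneg x.2.1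
    linarith

lemma zb (x : V × Yf) : star (Zv x.1) ⬝ᵥ bv x = (((Real.sqrt (fn x))⁻¹ * x.2.1 : ℝ) : ℂ) := by
  have hn : (nz x.1 : ℂ) ≠ 0 := by exact_mod_cast (nz_pos x.1).ne'
  rw [bv, dotProduct_smul, dotProduct_add, dotProduct_smul, dotProduct_smul, dotProduct_sub,
    dotProduct_smul, dotProduct_smul, zz, zw]
  simp only [smul_eq_mul]
  push_cast
  field_simp
  ring

lemma fn_cast (x : V × Yf) : (fn x : ℂ) =
    (x.2.1 : ℂ) ^ 2 + ((nz x.1 : ℂ) * hip x.2.2 x.2.2 - hip x.2.2 x.1 * hip x.1 x.2.2)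
      / (nz x.1 : ℂ) ^ 2 := by
  have h1 : ((hip x.2.2 x.1 * hip x.1 x.2.2).re : ℂ) = hip x.2.2 x.1 * hip x.1 x.2.2 := by
    apply Complex.conj_eq_iff_re.1
    rw [map_mul, ← RCLike.star_def, hip_conj, hip_conj]
    ring
  rw [fn, h0_apply, h0f]
  push_cast
  rw [h1, ← hip_self]

lemma bb {x : V × Yf} (hx : x.2 ≠ 0) : star (bv x) ⬝ᵥ bv x = (nz x.1 : ℂ)⁻¹ := by
  have hn : (nz x.1 : ℂ) ≠ 0 := by exact_mod_cast (nz_pos x.1).ne'
  have hf := fn_pos hx
  have hs : (((Real.sqrt (fn x))⁻¹ : ℝ) : ℂ) * (((Real.sqrt (fn x))⁻¹ : ℝ) : ℂ) * (fn x : ℂ) = 1 := by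
    rw [← Complex.ofReal_mul, ← Complex.ofReal_mul, ← mul_inv, Real.mul_self_sqrt hf.le,
      inv_mul_cancel₀ hf.ne', Complex.ofReal_one]
  have e : bv x = (((Real.sqrt (fn x))⁻¹ : ℝ) : ℂ) •
      (((x.2.1 : ℂ) / (nz x.1 : ℂ) - hip x.1 x.2.2 / (nz x.1 : ℂ) ^ 2) • Zv x.1
        + (1 / (nz x.1 : ℂ)) • Wv x.2.2) := by
    rw [bv]
    congr 1
    rw [smul_sub, smul_smul, smul_smul, sub_smul]
    have e1 : ((nz x.1 : ℂ) ^ 2)⁻¹ * (nz x.1 : ℂ) = 1 / (nz x.1 : ℂ) := by field_simp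
    have e2 : ((nz x.1 : ℂ) ^ 2)⁻¹ * hip x.1 x.2.2 = hip x.1 x.2.2 / (nz x.1 : ℂ) ^ 2 := by
      field_simp
    rw [e1, e2]
    push_cast
    abel
  rw [e]
  simp only [star_smul, star_add, smul_dotProduct, dotProduct_smul, add_dotProduct,
    dotProduct_add, zz, zw, wz, ww, smul_eq_mul, star_sub, star_div₀, star_one, star_pow,
    hip_conj]
  simp only [RCLike.star_def, Complex.conj_ofReal]
  have hfc := fn_cast x
  have : (((Real.sqrt (fn x))⁻¹ : ℝ) : ℂ) * (((Real.sqrt (fn x))⁻¹ : ℝ) : ℂ) * (fn x : ℂ)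
      / (nz x.1 : ℂ) = (nz x.1 : ℂ)⁻¹ := by
    rw [hs, one_div]
  rw [← this, hfc]
  field_simp
  ring

end T1aux

open T1aux

theorem Theta_gram {x : V × Yf} (hx : x.2 ≠ 0) :
    (Theta x)ᴴ * Theta x = ((nz x.1 : ℂ))⁻¹ • Matrix.vecMulVec (Zv x.1) (star (Zv x.1)) := by
  rw [Theta_eq, Matrix.conjTranspose_vecMulVec, star_star, Matrix.vecMulVec_mul_vecMulVec,
    bb hx, ← Matrix.vecMulVec_smul]

theorem Theta_trace {x : V × Yf} (hx : x.2 ≠ 0) :
    (Theta x).trace = (((Real.sqrt (fn x))⁻¹ * x.2.1 : ℝ) : ℂ) := by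
  rw [Theta_eq, Matrix.trace_vecMulVec, dotProduct_comm, zb]

theorem Theta_mem {x : V × Yf} (hx : x.2 ≠ 0) : Theta x ∈ M8 := by
  have hn : (nz x.1 : ℂ) ≠ 0 := by exact_mod_cast (nz_pos x.1).ne'
  refine ⟨?_, ?_, ?_⟩
  · rw [Matrix.mul_assoc, Theta_gram hx, Matrix.mul_smul]
    rw [Theta_eq, Matrix.vecMulVec_mul_vecMulVec, zz, Matrix.vecMulVec_smul, smul_smul,
      inv_mul_cancel₀ hn, one_smul]
  · rw [Theta_gram hx, Matrix.trace_smul, Matrix.trace_vecMulVec, dotProduct_comm, zz, smul_eq_mul,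
      inv_mul_cancel₀ hn]
  · rw [Theta_trace hx, Complex.ofReal_im]

end Pool.Agent.Helper46.M8
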