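import Pool.Agent.Helper46.M8.St.T1

/-!
# M8, piece T2
-/

open Filter Metric Module Set
open scoped Topology ContDiff Matrix Matrix.Norms.Elementwise ComplexConjugate Manifold

set_option maxSynthPendingDepth 3

namespace Pool.Agent.Helper46.M8
open Pool.Agent.Helper20.PC Pool.Agent.Helper20.HP Pool.Agent.Helper20.M8 Pool.Agent.Helper20.MB

/-! ### T2 : the left inverse -/

namespace T2aux
open T1aux

lemma Zv_zero (z : V) : Zv z 0 = 1 := rfl

lemma Zv_succ (z : V) (i : Fin 2) : Zv z i.succ = z i := by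
  fin_cases i <;> rfl

lemma Wv_zero (w : V) : Wv w 0 = 0 := rfl

lemma Wv_succ (w : V) (i : Fin 2) : Wv w i.succ = w i := by
  fin_cases i <;> rfl

lemma vmv_mulVec (a b c : Fin 3 → ℂ) :
    Matrix.vecMulVec a b *ᵥ c = (b ⬝ᵥ c) • a := by
  ext i
  simp only [Matrix.mulVec, dotProduct, Matrix.vecMulVec_apply, Pi.smul_apply, smul_eq_mul,
    Finset.sum_mul]
  refine Finset.sum_congr rfl fun j _ => ?_
  ring

lemma zX_of {Q : Mat} {c : ℂ} {z : V} (hc : c ≠ 0)
    (h : Qᴴ * Q = c • Matrix.vecMulVec (Zv z) (star (Zv z))) : zX Q = z := by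
  funext i
  rw [zX, h]
  simp only [Matrix.smul_apply, Matrix.vecMulVec_apply, Pi.star_apply, Zv_zero, Zv_succ,
    star_one, smul_eq_mul, mul_one]
  field_simp

end T2aux

open T1aux T2aux

theorem Xi_Theta {x : V × Yf} (hx : x.2 ≠ 0) :
    Xi (Theta x) = (x.1, (Real.sqrt (fn x))⁻¹ • x.2) := by
  have hn : (nz x.1 : ℂ) ≠ 0 := by exact_mod_cast (nz_pos x.1).ne'
  have hz : zX (Theta x) = x.1 := zX_of (inv_ne_zero hn) (Theta_gram hx)
  have ht : (Theta x).trace.re = (Real.sqrt (fn x))⁻¹ * x.2.1 := by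
    rw [Theta_trace hx, Complex.ofReal_re]
  have hw : wX (Theta x) = (Real.sqrt (fn x))⁻¹ • x.2.2 := by
    funext i
    rw [wX, hz, Matrix.sub_mulVec, Matrix.smul_mulVec, Theta_gram hx, Matrix.smul_mulVec,
      vmv_mulVec, zz, Theta_eq, vmv_mulVec, zz]
    simp only [Pi.sub_apply, Pi.smul_apply, smul_eq_mul, Zv_zero, Zv_succ]
    rw [bv]
    simp only [Pi.sub_apply, Pi.smul_apply, Pi.add_apply, smul_eq_mul, Zv_zero, Zv_succ,
      Wv_zero, Wv_succ]
    rw [Complex.real_smul]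
    field_simp
    ring
  rw [Xi, hz, ht, hw]
  rfl

theorem fn_pos {x : V × Yf} (hx : x.2 ≠ 0) : 0 < fn x := T1aux.fn_pos hx

end Pool.Agent.Helper46.M8
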